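import Pool.Agent.RST.Targets

/-!
# RST-CONN: connecting two vertices by a path of prescribed length
-/

set_option autoImplicit false

open Finset

namespace Pool.Agent.RST

namespace CONN_

variable {V : Type} [DecidableEq V]

/-- the pairs of consecutive elements of a list -/
def pe : List V → Finset (V × V)
  | [] => ∅
  | [_] => ∅
  | x :: y :: l => insert (x, y) (pe (y :: l))

theorem pe_cons (x y : V) (l : List V) : pe (x :: y :: l) = insert (x, y) (pe (y :: l)) := rfl

theorem pe_fst : ∀ (c : List V) (e : V × V), e ∈ pe c → e.1 ∈ c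
  | [], e, h => by simp [pe] at h
  | [x], e, h => by simp [pe] at h
  | x :: y :: l, e, h => by
      rw [pe_cons, mem_insert] at h
      rcases h with h | h
      · rw [h]; exact List.mem_cons_self
      · exact List.mem_cons_of_mem _ (pe_fst (y :: l) e h)

theorem pe_snd : ∀ (c : List V), (pe c).image Prod.snd = c.tail.toFinset
  | [] => by simp [pe]
  | [x] => by simp [pe]
  | x :: y :: l => by
      rw [pe_cons, image_insert, pe_snd (y :: l)]
      simp

theorem pe_chain : ∀ (c : List V), c.IsChain (fun u v => (u, v) ∈ pe c)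
  | [] => by simp
  | [x] => by simp
  | x :: y :: l => by
      rw [List.isChain_cons_cons]
      refine ⟨?_, ?_⟩
      · rw [pe_cons]; exact mem_insert_self _ _
      · refine (pe_chain (y :: l)).imp fun u v h => ?_
        rw [pe_cons]; exact mem_insert_of_mem h

theorem pe_sub {E : Finset (V × V)} : ∀ (c : List V), c.IsChain (fun u v => (u, v) ∈ E) → pe c ⊆ E
  | [], _ => by simp [pe]
  | [x], _ => by simp [pe]
  | x :: y :: l, h => by
      rw [List.isChain_cons_cons] at h
      rw [pe_cons]
      exact insert_subset h.1 (pe_sub (y :: l) h.2)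

theorem pe_cnt : ∀ (c : List V), c.Nodup → ∀ u : V, ((pe c).filter (fun e => e.1 = u)).card ≤ 1
  | [], _, u => by simp [pe]
  | [x], _, u => by simp [pe]
  | x :: y :: l, h, u => by
      have h2 := pe_cnt (y :: l) (List.nodup_cons.1 h).2 u
      rw [pe_cons, filter_insert]
      split_ifs with h1
      · have h3 : (pe (y :: l)).filter (fun e => e.1 = u) = ∅ := by
          rw [filter_eq_empty_iff]
          intro e he heu
          have h4 := pe_fst _ e he
          rw [heu] at h4
          simp only at h1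
          rw [← h1] at h4
          exact (List.nodup_cons.1 h).1 h4
        rw [h3]; simp
      · exact h2

theorem pe_cnt0 (c : List V) (u : V) (hu : u ∉ c) : (pe c).filter (fun e => e.1 = u) = ∅ := by
  rw [filter_eq_empty_iff]
  intro e he heu
  exact hu (heu ▸ pe_fst c e he)

theorem od_union (J E : Finset (V × V)) (u : V) :
    od (J ∪ E) u ≤ od J u + (E.filter (fun e => e.1 = u)).card := by
  unfold od
  rw [filter_union]
  exact card_union_le _ _

theorem od_mono {J J' : Finset (V × V)} (h : J ⊆ J') (u : V) : od J u ≤ od J' u := by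
  unfold od
  exact card_le_card (filter_subset_filter _ h)

theorem od_union_eq (J E : Finset (V × V)) (u : V) (h : ∀ e ∈ E, e.1 ≠ u) :
    od (J ∪ E) u = od J u := by
  refine le_antisymm ?_ (od_mono subset_union_left u)
  have h1 : E.filter (fun e => e.1 = u) = ∅ := by
    rw [filter_eq_empty_iff]; exact fun e he heu => h e he heu
  have h2 := od_union J E u
  rw [h1, card_empty, add_zero] at h2
  exact h2

theorem used_union (J E : Finset (V × V)) (F : Finset V) :
    used (J ∪ E) F = used J F ∪ E.image Prod.snd := by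
  unfold used
  rw [image_union]
  ext x
  simp only [mem_union]
  tauto

theorem used_mono {J J' : Finset (V × V)} {F F' : Finset V} (h : J ⊆ J') (h' : F ⊆ F') :
    used J F ⊆ used J' F' := by
  unfold used
  exact union_subset_union (image_subset_image h) h'

theorem od_zero {H : SimpleGraph V} {W : Finset V} {d m : ℕ} {J : Finset (V × V)}
    {F : Finset V} (hO : OK H W d m J F) {v : V} (hW : v ∈ W) (hu : v ∉ used J F) :
    od J v = 0 := by
  unfold od
  rw [card_eq_zero, filter_eq_empty_iff]
  intro e he hev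
  have := hO.tail e he (hev ▸ hW)
  rw [hev] at this
  exact hu this

/-- heads of new edges are new -/
theorem head_new {H : SimpleGraph V} {W : Finset V} {d m : ℕ} {J E : Finset (V × V)}
    {F : Finset V} (hO : OK H W d m (J ∪ E) F) (hd : Disjoint J E) {e : V × V} (he : e ∈ E) :
    e.2 ∈ W ∧ e.2 ∉ used J F := by
  have h1 : e.2 ∈ (J ∪ E).image Prod.snd :=
    mem_image_of_mem _ (mem_union_right _ he)
  refine ⟨hO.sub (mem_union_left _ h1), ?_⟩
  intro h
  unfold used at h
  rw [mem_union] at h
  rcases h with h | h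
  · obtain ⟨e', he', hee⟩ := mem_image.1 h
    have h2 := hO.inj (mem_coe.2 (mem_union_left E he')) (mem_coe.2 (mem_union_right J he)) hee
    rw [h2] at he'
    exact (disjoint_left.1 hd) he' he
  · exact (disjoint_left.1 hO.disj) h1 h

/-- steps from the vertex `y` -/
theorem steps [Fintype V] (hS : T_STEP) {H : SimpleGraph V} {W : Finset V} {d m b : ℕ}
    {F : Finset V} (hm : 1 ≤ m) (hb : 1 ≤ b) (hbd : b ≤ d)
    (hlg : ∀ X : Finset V, m ≤ X.card → W.card ≤ 2 * (nb H X W).card) :
    ∀ (t : ℕ) (J : Finset (V × V)) (y : V), OK H W d m J F →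
      2 * ((used J F).card + t + 2 * m * d) < W.card → od J y + b ≤ d →
      (y ∈ W → y ∈ used J F) →
      ∃ (v : List V) (z : V), v.length = t ∧ (y :: v).Nodup ∧
        (∀ x ∈ v, x ∈ W ∧ x ∉ used J F) ∧ (y :: v).getLast? = some z ∧
        OK H W d m (J ∪ pe (y :: v)) F ∧ od (J ∪ pe (y :: v)) z + b ≤ d ∧
        (z ∈ W → z ∈ used (J ∪ pe (y :: v)) F) := by
  intro t
  induction t with
  | zero =>
    intro J y hO hc hod hy
    refine ⟨[], y, rfl, by simp, by simp, by simp, ?_, ?_, ?_⟩
    · simpa [pe] using hO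
    · simpa [pe] using hod
    · simpa [pe] using hy
  | succ t ih =>
    intro J y hO hc hod hy
    obtain ⟨v₁, hv1, hv2, hv3, hv4, hO1⟩ := hS V H W d m J F hO hm hlg (by omega) y (by omega) hy
    have hyv : y ≠ v₁ := hv3.ne
    have hu1 : used (insert (y, v₁) J) F = insert v₁ (used J F) := by
      unfold used
      rw [image_insert, insert_union]
    have hc1 : (used (insert (y, v₁) J) F).card = (used J F).card + 1 := by
      rw [hu1, card_insert_of_notMem hv2]
    have hod1 : od (insert (y, v₁) J) v₁ = 0 := by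
      have h1 := od_zero hO hv1 hv2
      have h2 := od_union_eq J {(y, v₁)} v₁ (by
        intro e he
        rw [mem_singleton] at he
        rw [he]; exact hyv)
      rw [union_comm, singleton_union] at h2
      rw [h2]; exact h1
    obtain ⟨v, z, h1, h2, h3, h4, h5, h6, h7⟩ := ih (insert (y, v₁) J) v₁ hO1
      (by rw [hc1]; omega) (by rw [hod1]; omega) (fun _ => by rw [hu1]; exact mem_insert_self _ _)
    have hpe : insert (y, v₁) J ∪ pe (v₁ :: v) = J ∪ pe (y :: v₁ :: v) := by
      rw [pe_cons]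
      ext e
      simp only [mem_union, mem_insert]
      tauto
    rw [hpe] at h5 h6 h7
    refine ⟨v₁ :: v, z, by simp [h1], ?_, ?_, ?_, h5, h6, h7⟩
    · rw [List.nodup_cons]
      refine ⟨?_, h2⟩
      rw [List.mem_cons]
      rintro (h | h)
      · exact hyv h
      · obtain ⟨a1, a2⟩ := h3 y h
        apply a2
        rw [hu1]
        exact mem_insert_of_mem (hy a1)
    · intro x hx
      rw [List.mem_cons] at hx
      rcases hx with h | h
      · rw [h]; exact ⟨hv1, hv2⟩
      · obtain ⟨a1, a2⟩ := h3 x h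
        refine ⟨a1, fun h8 => a2 ?_⟩
        rw [hu1]; exact mem_insert_of_mem h8
    · rw [List.getLast?_cons_cons]; exact h4

theorem used_aux (J : Finset (V × V)) (F : Finset V) (y q w₀ : V) (v l₁ l₂ : List V) :
    used (J ∪ (pe (y :: (v ++ l₁)) ∪ pe (q :: l₂))) (insert w₀ F) =
      used J F ∪ (v ++ l₁ ++ [w₀] ++ l₂.reverse).toFinset := by
  rw [used_union, image_union, pe_snd, pe_snd]
  unfold used
  ext x
  simp only [mem_union, mem_insert, List.tail_cons, List.mem_toFinset, List.mem_append,
    List.mem_singleton, List.mem_reverse]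
  tauto

omit [DecidableEq V] in
/-- restriction to the reachable edges -/
theorem reach_chain {E : Finset (V × V)} {E' : Finset (V × V)} {y : V}
    (hE' : ∀ e ∈ E, Relation.ReflTransGen (fun u v => (u, v) ∈ E) y e.1 → e ∈ E') :
    ∀ (l : List V) (z : V), Relation.ReflTransGen (fun u v => (u, v) ∈ E) y z →
      (z :: l).IsChain (fun u v => (u, v) ∈ E) → (z :: l).IsChain (fun u v => (u, v) ∈ E') := by
  intro l
  induction l with
  | nil => intro z _ _; simp
  | cons x l ih =>
    intro z hz hc
    rw [List.isChain_cons_cons] at hc ⊢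
    refine ⟨hE' (z, x) hc.1 hz, ih x (hz.tail hc.1) hc.2⟩

omit [DecidableEq V] in
theorem chain_heads {E : Finset (V × V)} : ∀ (l : List V) (y : V),
    (y :: l).IsChain (fun u v => (u, v) ∈ E) → ∀ x ∈ l, ∃ e ∈ E, e.2 = x
  | [], y, _, x, hx => by simp at hx
  | z :: l, y, h, x, hx => by
      rw [List.isChain_cons_cons] at h
      rw [List.mem_cons] at hx
      rcases hx with hx | hx
      · exact ⟨(y, z), h.1, hx.symm⟩
      · exact chain_heads l z h.2 x hx

end CONN_

open CONN_ in
theorem pCONN (hSTEP : T_STEP) (hFREE : T_FREE) (hSHR : T_SHR) (hGROW : T_GROW) : T_CONN := by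
  classical
  intro V _ _ H W g d m b a ℓ J F hP hO hused y q hyq hyW hqW hody hodq L hL1 hL2
  have hbd : b ≤ d := by have := hP.bd; omega
  have hm1 := hP.m1
  have hd7 : 7 ≤ d := by have := hP.bd; have := hP.b1; omega
  set w : ℝ := (W.card : ℝ) with hw
  have hg0 := hP.g0
  have hg1 := hP.g1
  have hw0 : 0 ≤ w := Nat.cast_nonneg _
  -- numbers
  have hmR : (1 : ℝ) ≤ m := by exact_mod_cast hm1
  have hdR : (7 : ℝ) ≤ d := by exact_mod_cast hd7
  have hbR : (1 : ℝ) ≤ b := by exact_mod_cast hP.b1
  have haR : (1 : ℝ) ≤ a := by exact_mod_cast hP.a1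
  have hmd : (7 : ℝ) ≤ m * d := by nlinarith
  set t : ℕ := L - (2 * a + 2) with ht
  have htL : t + (2 * a + 2) = L := by omega
  have htℓ : (t : ℝ) + 2 * a + 2 ≤ ℓ := by
    have : t + (2 * a + 2) ≤ ℓ := by omega
    have h2 : ((t + (2 * a + 2) : ℕ) : ℝ) ≤ ℓ := by exact_mod_cast this
    push_cast at h2
    linarith
  have hbud := hP.bud
  have hab : (0 : ℝ) ≤ a * (m + b) := by positivity
  have hgw0 : 0 < g * w := by
    have : (0 : ℝ) < 8 * (2 * (a : ℝ) * ((m : ℝ) + b) + 3 * (m : ℝ) * d + ℓ) := by positivity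
    linarith
  have hwpos : 0 < w := by
    by_contra hcon
    have : w = 0 := le_antisymm (not_lt.1 hcon) hw0
    rw [this, mul_zero] at hgw0
    exact lt_irrefl _ hgw0
  have hlg2 : ∀ X : Finset V, m ≤ X.card → W.card ≤ 2 * (nb H X W).card := by
    intro X hX
    have h1 := hP.lg X hX
    have h2 : w ≤ 2 * ((nb H X W).card : ℝ) := by nlinarith
    rw [hw] at h2
    exact_mod_cast h2
  have hnum : ∀ s : ℕ, (s : ℝ) ≤ (used J F).card + t + 2 * (a * (m + b)) →
      2 * (s + 2 * m * d) < W.card := by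
    intro s hs
    have h1 : (2 : ℝ) * ((s : ℝ) + 2 * m * d) < w := by
      nlinarith
    rw [hw] at h1
    exact_mod_cast h1
  -- phase 1: steps
  obtain ⟨v, z, hvl, hvn, hvW, hvz, hO1, hodz, hzW⟩ := steps hSTEP hm1 hP.b1 hbd hlg2 t J y hO
    (by
      have := hnum ((used J F).card + t) (by push_cast; linarith)
      omega) hody hyW
  set J₁ := J ∪ pe (y :: v) with hJ₁
  have hu1 : used J₁ F = used J F ∪ v.toFinset := by
    rw [hJ₁, used_union, pe_snd]; rfl
  have hc1 : (used J₁ F).card ≤ (used J F).card + t := by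
    rw [hu1]
    refine (card_union_le _ _).trans ?_
    have := List.toFinset_card_le v
    omega
  have hqv : q ∉ v := fun h => (hvW q h).2 (hqW (hvW q h).1)
  have hqyv : q ∉ y :: v := by
    rw [List.mem_cons]; rintro (h | h)
    · exact hyq h.symm
    · exact hqv h
  have hodq1 : od J₁ q = od J q :=
    od_union_eq J _ q fun e he heq => hqyv (heq ▸ pe_fst _ e he)
  have hqW1 : q ∈ W → q ∈ used J₁ F := fun h => by rw [hu1]; exact mem_union_left _ (hqW h)
  have hyW1 : y ∈ W → y ∈ used J₁ F := fun h => by rw [hu1]; exact mem_union_left _ (hyW h)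
  have hzq : z ≠ q := by
    intro h
    have h1 : z ∈ y :: v := List.mem_of_getLast? hvz
    rw [h] at h1
    exact hqyv h1
  -- phase 2: growing from `z`
  obtain ⟨E, hEd, hO2, hc2, L₁, hL₁, hL₁'⟩ := hGROW V H W d m b a J₁ F hO1 hm1 hP.b1 hbd hP.mb
    hlg2 (by
      have := hnum ((used J₁ F).card + a * (m + b)) (by
        have h1 : ((used J₁ F).card : ℝ) ≤ (used J F).card + t := by exact_mod_cast hc1
        push_cast
        linarith)
      omega) z hodz hzW
  set R : V → V → Prop := fun u v => (u, v) ∈ E with hR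
  set E₁ : Finset (V × V) := E.filter (fun e => Relation.ReflTransGen R z e.1) with hE₁
  have hE₁E : E₁ ⊆ E := filter_subset _ _
  have hEd1 : Disjoint J₁ E₁ := hEd.mono_right hE₁E
  have hreach : ∀ x, Relation.ReflTransGen R z x → x = z ∨ ∃ e ∈ E, e.2 = x := by
    intro x hx
    rcases hx.cases_tail with h | ⟨c, _, h⟩
    · exact Or.inl h
    · exact Or.inr ⟨(c, x), h, rfl⟩
  have hqR : ¬ Relation.ReflTransGen R z q := by
    intro h
    rcases hreach q h with h1 | ⟨e, he, h1⟩
    · exact hzq h1.symm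
    · obtain ⟨a1, a2⟩ := head_new hO2 hEd he
      rw [h1] at a1 a2
      exact a2 (hqW1 a1)
  set J₂ := J₁ ∪ E₁ with hJ₂
  have hJ₂sub : J₂ ⊆ J₁ ∪ E := union_subset_union_right hE₁E
  have hO2' : OK H W d m J₂ F := by
    refine hSHR V H W d m (J₁ ∪ E) J₂ F F hO2 hJ₂sub (Subset.refl _) ?_
    intro e he heW
    rw [hJ₂, mem_union] at he
    rcases he with he | he
    · exact used_mono subset_union_left (Subset.refl _) (hO1.tail e he heW)
    · have h1 : Relation.ReflTransGen R z e.1 := (mem_filter.1 he).2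
      rcases h1.cases_tail with h2 | ⟨c, hc, h2⟩
      · rw [h2] at heW ⊢
        exact used_mono subset_union_left (Subset.refl _) (hzW heW)
      · have h3 : (c, e.1) ∈ E₁ := mem_filter.2 ⟨h2, hc⟩
        rw [hJ₂, used_union]
        exact mem_union_right _ (mem_image.2 ⟨(c, e.1), h3, rfl⟩)
  have hc2' : (used J₂ F).card ≤ (used J₁ F).card + a * (m + b) :=
    (card_le_card (used_mono hJ₂sub (Subset.refl _))).trans hc2
  have hodq2 : od J₂ q = od J q := by
    rw [hJ₂, od_union_eq J₁ E₁ q, hodq1]
    intro e he heq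
    exact hqR (heq ▸ (mem_filter.1 he).2)
  have hqW2 : q ∈ W → q ∈ used J₂ F := fun h =>
    used_mono subset_union_left (Subset.refl _) (hqW1 h)
  -- phase 3: growing from `q`
  obtain ⟨E₂, hE2d, hO3, hc3, L₂, hL₂, hL₂'⟩ := hGROW V H W d m b a J₂ F hO2' hm1 hP.b1 hbd
    hP.mb hlg2 (by
      have := hnum ((used J₂ F).card + a * (m + b)) (by
        have h1 : ((used J₁ F).card : ℝ) ≤ (used J F).card + t := by exact_mod_cast hc1
        have h2 : ((used J₂ F).card : ℝ) ≤ (used J₁ F).card + a * (m + b) := by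
          exact_mod_cast hc2'
        push_cast
        linarith)
      omega) q (by rw [hodq2]; exact hodq) hqW2
  set J₃ := J₂ ∪ E₂ with hJ₃
  -- phase 4: the middle vertex
  have hc3' : ((used J₃ F).card : ℝ) ≤ (used J F).card + t + 2 * (a * (m + b)) := by
    have h1 : ((used J₁ F).card : ℝ) ≤ (used J F).card + t := by exact_mod_cast hc1
    have h2 : ((used J₂ F).card : ℝ) ≤ (used J₁ F).card + a * (m + b) := by exact_mod_cast hc2'
    have h3 : ((used J₃ F).card : ℝ) ≤ (used J₂ F).card + a * (m + b) := by exact_mod_cast hc3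
    linarith
  set C : Finset V := (nb H L₁ W ∩ nb H L₂ W) \ used J₃ F with hC
  have hnbW : ∀ X : Finset V, nb H X W ⊆ W := fun X => filter_subset _ _
  have hCcard : m * d < C.card := by
    have h1 := hP.lg L₁ hL₁
    have h2 := hP.lg L₂ hL₂
    have h3 : (nb H L₁ W ∩ nb H L₂ W).card + W.card ≥ (nb H L₁ W).card + (nb H L₂ W).card := by
      have e1 := card_union_add_card_inter (nb H L₁ W) (nb H L₂ W)
      have e2 := card_le_card (union_subset (hnbW L₁) (hnbW L₂))
      omega
    have h4 : (nb H L₁ W ∩ nb H L₂ W).card ≤ C.card + (used J₃ F).card := by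
      rw [hC]
      exact card_le_card_sdiff_add_card (s := nb H L₁ W ∩ nb H L₂ W) (t := used J₃ F)
    have h3' : ((nb H L₁ W).card : ℝ) + (nb H L₂ W).card ≤
        (nb H L₁ W ∩ nb H L₂ W).card + w := by rw [hw]; exact_mod_cast h3
    have h4' : ((nb H L₁ W ∩ nb H L₂ W).card : ℝ) ≤ C.card + (used J₃ F).card := by
      exact_mod_cast h4
    have h5 : ((m * d : ℕ) : ℝ) < C.card := by
      push_cast
      nlinarith
    exact_mod_cast h5
  have hCsub : C ⊆ W \ used J₃ F := by
    intro x hx
    rw [hC, mem_sdiff, mem_inter] at hx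
    exact mem_sdiff.2 ⟨hnbW _ hx.1.1, hx.2⟩
  obtain ⟨w₀, hw₀C, hO4⟩ := hFREE V H W d m J₃ F hO3 hm1 hlg2 (by
    have := hnum (used J₃ F).card hc3'
    omega) C hCsub hCcard
  have hw₀C' := hw₀C
  rw [hC, mem_sdiff, mem_inter] at hw₀C'
  obtain ⟨⟨hw1, hw2⟩, hw3⟩ := hw₀C'
  have hw₀W : w₀ ∈ W := hnbW _ hw1
  obtain ⟨x₁, hx₁, hx₁w⟩ := (mem_filter.1 hw1).2
  obtain ⟨x₂, hx₂, hx₂w⟩ := (mem_filter.1 hw2).2
  obtain ⟨l₁, hl₁len, hl₁ch, hl₁last, hl₁nd⟩ := hL₁' x₁ hx₁
  obtain ⟨l₂, hl₂len, hl₂ch, hl₂last, hl₂nd⟩ := hL₂' x₂ hx₂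
  have hl₁ch' : (z :: l₁).IsChain (fun u v => (u, v) ∈ E₁) :=
    reach_chain (E := E) (E' := E₁) (y := z)
      (fun e he hr => mem_filter.2 ⟨he, hr⟩) l₁ z Relation.ReflTransGen.refl hl₁ch
  -- positions of the vertices
  have hl₁new : ∀ x ∈ l₁, x ∈ W ∧ x ∉ used J₁ F ∧ x ∈ used J₂ F := by
    intro x hx
    obtain ⟨e, he, hex⟩ := chain_heads l₁ z hl₁ch' x hx
    obtain ⟨a1, a2⟩ := head_new hO2' hEd1 he
    rw [hex] at a1 a2
    refine ⟨a1, a2, ?_⟩
    rw [hJ₂, used_union]
    exact mem_union_right _ (mem_image.2 ⟨e, he, hex⟩)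
  have hl₂new : ∀ x ∈ l₂, x ∈ W ∧ x ∉ used J₂ F ∧ x ∈ used J₃ F := by
    intro x hx
    obtain ⟨e, he, hex⟩ := chain_heads l₂ q hl₂ch x hx
    obtain ⟨a1, a2⟩ := head_new hO3 hE2d he
    rw [hex] at a1 a2
    refine ⟨a1, a2, ?_⟩
    rw [hJ₃, used_union]
    exact mem_union_right _ (mem_image.2 ⟨e, he, hex⟩)
  have huu1 : used J F ⊆ used J₁ F := used_mono subset_union_left (Subset.refl _)
  have huu2 : used J₁ F ⊆ used J₂ F := used_mono subset_union_left (Subset.refl _)
  have huu3 : used J₂ F ⊆ used J₃ F := used_mono subset_union_left (Subset.refl _)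
  have hv1 : ∀ x ∈ v, x ∈ used J₁ F := fun x hx => by
    rw [hu1]; exact mem_union_right _ (List.mem_toFinset.2 hx)
  -- the two lists
  set c₁ : List V := y :: (v ++ l₁) with hc₁
  set c₂ : List V := q :: l₂ with hc₂
  have hvnd : v.Nodup := (List.nodup_cons.1 hvn).2
  have hyv : y ∉ v := (List.nodup_cons.1 hvn).1
  have hl₁nd' : l₁.Nodup := (List.nodup_cons.1 hl₁nd).2
  have hl₂nd' : l₂.Nodup := (List.nodup_cons.1 hl₂nd).2
  have hyl₁ : y ∉ l₁ := fun h => (hl₁new y h).2.1 (hyW1 (hl₁new y h).1)
  have hyl₂ : y ∉ l₂ := fun h => (hl₂new y h).2.1 (huu2 (hyW1 (hl₂new y h).1))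
  have hql₁ : q ∉ l₁ := fun h => (hl₁new q h).2.1 (hqW1 (hl₁new q h).1)
  have hc₁nd : c₁.Nodup := by
    rw [hc₁, List.nodup_cons, List.mem_append, List.nodup_append]
    refine ⟨?_, hvnd, hl₁nd', ?_⟩
    · rintro (h | h)
      · exact hyv h
      · exact hyl₁ h
    · intro x hx x' hx' hxx
      rw [← hxx] at hx'
      exact (hl₁new x hx').2.1 (hv1 x hx)
  have hc12 : ∀ u, u ∈ c₁ → u ∉ c₂ := by
    intro u hu hu'
    rw [hc₁, List.mem_cons, List.mem_append] at hu
    rw [hc₂, List.mem_cons] at hu'
    rcases hu' with h | h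
    · rcases hu with h1 | h1 | h1
      · exact hyq (h1.symm.trans h)
      · exact hqv (h ▸ h1)
      · exact hql₁ (h ▸ h1)
    · rcases hu with h1 | h1 | h1
      · exact hyl₂ (h1 ▸ h)
      · exact (hl₂new u h).2.1 (huu2 (hv1 u h1))
      · exact (hl₂new u h).2.1 (hl₁new u h1).2.2
  have hch1 : c₁.IsChain (fun u v => (u, v) ∈ J₃) := by
    have e1 : c₁ = (y :: v) ++ l₁ := rfl
    rw [e1, List.isChain_append]
    refine ⟨?_, ?_, ?_⟩
    · refine (pe_chain (y :: v)).imp fun u u' h => ?_
      exact mem_union_left _ (mem_union_left _ (mem_union_right _ h))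
    · have h1 := (List.isChain_cons.1 hl₁ch').2
      refine h1.imp fun u u' h => ?_
      exact mem_union_left _ (mem_union_right _ h)
    · intro u hu u' hu'
      rw [hvz] at hu
      have hzu : z = u := by simpa using hu
      rw [← hzu]
      have h1 := (List.isChain_cons.1 hl₁ch').1 u' hu'
      exact mem_union_left _ (mem_union_right _ h1)
  have hch2 : c₂.IsChain (fun u v => (u, v) ∈ J₃) :=
    hl₂ch.imp fun u u' h => mem_union_right _ h
  set J' : Finset (V × V) := J ∪ (pe c₁ ∪ pe c₂) with hJ'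
  have hJ'sub : J' ⊆ J₃ := by
    refine union_subset ?_ (union_subset (pe_sub c₁ hch1) (pe_sub c₂ hch2))
    exact (subset_union_left.trans subset_union_left).trans subset_union_left
  have hused' : used J' (insert w₀ F) = used J F ∪ (v ++ l₁ ++ [w₀] ++ l₂.reverse).toFinset :=
    used_aux J F y q w₀ v l₁ l₂
  have hOK : OK H W d m J' (insert w₀ F) := by
    refine hSHR V H W d m J₃ J' (insert w₀ F) (insert w₀ F) hO4 hJ'sub (Subset.refl _) ?_
    intro e he heW
    rw [hJ', mem_union, mem_union] at he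
    rw [hused']
    rcases he with he | he | he
    · exact mem_union_left _ (hO.tail e he heW)
    · have h1 := pe_fst c₁ e he
      rw [hc₁, List.mem_cons, List.mem_append] at h1
      rcases h1 with h1 | h1 | h1
      · rw [h1] at heW ⊢
        exact mem_union_left _ (hyW heW)
      · refine mem_union_right _ (List.mem_toFinset.2 ?_)
        simp [h1]
      · refine mem_union_right _ (List.mem_toFinset.2 ?_)
        simp [h1]
    · have h1 := pe_fst c₂ e he
      rw [hc₂, List.mem_cons] at h1
      rcases h1 with h1 | h1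
      · rw [h1] at heW ⊢
        exact mem_union_left _ (hqW heW)
      · refine mem_union_right _ (List.mem_toFinset.2 ?_)
        simp [h1]
  -- the path
  have hlnew : ∀ x ∈ v ++ l₁ ++ [w₀] ++ l₂.reverse, x ∈ W ∧ x ∉ used J F := by
    intro x hx
    simp only [List.mem_append, List.mem_singleton, List.mem_reverse] at hx
    rcases hx with ((h | h) | h) | h
    · exact hvW x h
    · exact ⟨(hl₁new x h).1, fun h1 => (hl₁new x h).2.1 (huu1 h1)⟩
    · rw [h]; exact ⟨hw₀W, fun h1 => hw3 (huu3 (huu2 (huu1 h1)))⟩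
    · exact ⟨(hl₂new x h).1, fun h1 => (hl₂new x h).2.1 (huu2 (huu1 h1))⟩
  have hadj : ∀ u u', (u, u') ∈ J₃ → H.Adj u u' := fun u u' h => hO3.adj (u, u') h
  refine ⟨v ++ l₁ ++ [w₀] ++ l₂.reverse, J', insert w₀ F, hOK, ⟨?_, ?_, ?_⟩, hlnew, hused',
    ?_, ?_⟩
  · simp only [List.length_append, List.length_singleton, List.length_reverse]
    omega
  · -- Nodup
    rw [List.nodup_append]
    refine ⟨?_, List.nodup_reverse.2 hl₂nd', ?_⟩
    · rw [List.nodup_append]
      refine ⟨(List.nodup_cons.1 hc₁nd).2, by simp, ?_⟩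
      intro x hx x' hx' hxx
      rw [List.mem_singleton] at hx'
      rw [List.mem_append] at hx
      rw [hxx, hx'] at hx
      rcases hx with h | h
      · exact hw3 (huu3 (huu2 (hv1 _ h)))
      · exact hw3 (huu3 (hl₁new _ h).2.2)
    · intro x hx x' hx' hxx
      rw [List.mem_reverse] at hx'
      rw [← hxx] at hx'
      rw [List.mem_append, List.mem_singleton] at hx
      rcases hx with h | h
      · exact hc12 x (by rw [hc₁]; exact List.mem_cons_of_mem _ h)
          (by rw [hc₂]; exact List.mem_cons_of_mem _ hx')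
      · rw [h] at hx'
        exact hw3 (hl₂new _ hx').2.2
  · -- the chain
    have e1 : y :: ((v ++ l₁ ++ [w₀] ++ l₂.reverse) ++ [q]) =
        c₁ ++ ([w₀] ++ c₂.reverse) := by
      rw [hc₁, hc₂]
      simp [List.append_assoc]
    rw [e1, List.isChain_append, List.isChain_append]
    have hlast1 : c₁.getLast? = some x₁ := by
      have e2 : c₁ = (y :: v) ++ l₁ := rfl
      rw [e2]
      cases hl : l₁ with
      | nil =>
        exfalso
        rw [hl] at hl₁len
        have := hP.a1
        simp at hl₁len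
        omega
      | cons x l =>
        rw [hl] at hl₁last
        rw [List.getLast?_append_cons]
        rw [List.getLast?_cons_cons] at hl₁last
        exact hl₁last
    refine ⟨?_, ⟨by simp, ?_, ?_⟩, ?_⟩
    · exact hch1.imp hadj
    · rw [List.isChain_reverse]
      exact hch2.imp fun u u' h => (hadj u u' h).symm
    · intro u hu u' hu'
      have h1 : w₀ = u := by simpa using hu
      rw [List.head?_reverse] at hu'
      rw [hc₂, hl₂last] at hu'
      have h2 : x₂ = u' := by simpa using hu'
      rw [← h1, ← h2]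
      exact hx₂w.symm
    · intro u hu u' hu'
      rw [hlast1] at hu
      have h1 : x₁ = u := by simpa using hu
      have h2 : w₀ = u' := by simpa using hu'
      rw [← h1, ← h2]
      exact hx₁w
  · -- outdegrees
    intro u
    have h1 := od_union J (pe c₁ ∪ pe c₂) u
    refine h1.trans ?_
    rw [filter_union]
    by_cases hu : u ∈ c₁
    · have h2 := pe_cnt0 c₂ u (hc12 u hu)
      have h3 := pe_cnt c₁ hc₁nd u
      rw [h2, union_empty]
      omega
    · have h2 := pe_cnt0 c₁ u hu
      have h3 := pe_cnt c₂ hl₂nd u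
      rw [h2, empty_union]
      omega
  · intro u huy huq hul
    refine od_union_eq J _ u fun e he heu => ?_
    rw [mem_union] at he
    rcases he with he | he
    · have h1 := pe_fst c₁ e he
      rw [heu, hc₁, List.mem_cons, List.mem_append] at h1
      rcases h1 with h1 | h1 | h1
      · exact huy h1
      · exact hul (by simp [h1])
      · exact hul (by simp [h1])
    · have h1 := pe_fst c₂ e he
      rw [heu, hc₂, List.mem_cons] at h1
      rcases h1 with h1 | h1
      · exact huq h1
      · exact hul (by simp [h1])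

end Pool.Agent.RST
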