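import Pool.Agent.RST.Targets

/-!
# `G(n,p)` is good with high probability
-/

set_option autoImplicit false

open Finset Filter Topology

namespace Pool.Agent.RST

namespace GNP_

@[reducible] noncomputable def instFG (n : ℕ) : Fintype (SimpleGraph (Fin n)) := Fintype.ofFinite _

attribute [local instance] instFG

open Classical in
/-- the weight of a property -/
noncomputable def wt {n : ℕ} (p : ℝ) (A : SimpleGraph (Fin n) → Prop) : ℝ :=
  ∑ G : SimpleGraph (Fin n), if A G then wG p G else 0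

theorem wG_nonneg {n : ℕ} {p : ℝ} (h0 : 0 ≤ p) (h1 : p ≤ 1) (G : SimpleGraph (Fin n)) :
    0 ≤ wG p G :=
  mul_nonneg (pow_nonneg h0 _) (pow_nonneg (sub_nonneg.2 h1) _)

theorem wt_nonneg {n : ℕ} {p : ℝ} (h0 : 0 ≤ p) (h1 : p ≤ 1) (A : SimpleGraph (Fin n) → Prop) :
    0 ≤ wt p A := by
  classical
  unfold wt
  refine Finset.sum_nonneg fun G _ => ?_
  split_ifs
  · exact wG_nonneg h0 h1 G
  · exact le_rfl

theorem wt_mono {n : ℕ} {p : ℝ} (h0 : 0 ≤ p) (h1 : p ≤ 1) {A B : SimpleGraph (Fin n) → Prop}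
    (h : ∀ G, A G → B G) : wt p A ≤ wt p B := by
  classical
  unfold wt
  refine Finset.sum_le_sum fun G _ => ?_
  by_cases hA : A G
  · rw [if_pos hA, if_pos (h G hA)]
  · rw [if_neg hA]
    split_ifs
    · exact wG_nonneg h0 h1 G
    · exact le_rfl

/-- union bound -/
theorem wt_exists {n : ℕ} {p : ℝ} (h0 : 0 ≤ p) (h1 : p ≤ 1) {ι : Type} (s : Finset ι)
    (A : ι → SimpleGraph (Fin n) → Prop) :
    wt p (fun G => ∃ i ∈ s, A i G) ≤ ∑ i ∈ s, wt p (A i) := by
  classical
  unfold wt
  rw [Finset.sum_comm]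
  refine Finset.sum_le_sum fun G _ => ?_
  have hnn : ∀ i ∈ s, 0 ≤ (if A i G then wG p G else 0 : ℝ) := by
    intro i _
    split_ifs
    · exact wG_nonneg h0 h1 G
    · exact le_rfl
  by_cases h : ∃ i ∈ s, A i G
  · rw [if_pos h]
    obtain ⟨i, hi, hA⟩ := h
    have := Finset.single_le_sum hnn hi
    rwa [if_pos hA] at this
  · rw [if_neg h]
    exact Finset.sum_nonneg hnn

theorem wt_or {n : ℕ} {p : ℝ} (h0 : 0 ≤ p) (h1 : p ≤ 1) (A B : SimpleGraph (Fin n) → Prop) :
    wt p (fun G => A G ∨ B G) ≤ wt p A + wt p B := by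
  classical
  unfold wt
  rw [← Finset.sum_add_distrib]
  refine Finset.sum_le_sum fun G _ => ?_
  have := wG_nonneg h0 h1 G
  by_cases hA : A G <;> by_cases hB : B G <;> simp [hA, hB, this]

theorem wt_compl {n : ℕ} {p : ℝ} (A : SimpleGraph (Fin n) → Prop) :
    wt p A + wt p (fun G => ¬ A G) = wt p (fun _ : SimpleGraph (Fin n) => True) := by
  classical
  unfold wt
  rw [← Finset.sum_add_distrib]
  refine Finset.sum_congr rfl fun G _ => ?_
  by_cases hA : A G <;> simp [hA]

open Classical in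
/-- weighted number of edges -/
noncomputable def SS {n : ℕ} (c : Sym2 (Fin n) → ℝ) (G : SimpleGraph (Fin n)) : ℝ :=
  ∑ e : Sym2 (Fin n), if e ∈ G.edgeSet then c e else 0

theorem SS_eq {n : ℕ} (c : Sym2 (Fin n) → ℝ) (G : SimpleGraph (Fin n)) :
    ∑ᶠ e ∈ G.edgeSet, c e = SS c G := by
  classical
  unfold SS
  rw [finsum_mem_def, finsum_eq_sum_of_fintype]
  refine Finset.sum_congr rfl fun e _ => ?_
  rw [Set.indicator_apply]

theorem total (h : T_GSUM) (n : ℕ) {p : ℝ} (h0 : 0 ≤ p) (h1 : p ≤ 1) :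
    wt p (fun _ : SimpleGraph (Fin n) => True) = 1 := by
  classical
  have h2 := h n p (fun _ => 0) h0 h1
  rw [finsum_eq_sum_of_fintype] at h2
  have h3 : ∀ G : SimpleGraph (Fin n), (∑ᶠ e ∈ G.edgeSet, (0 : ℝ)) = 0 := by
    intro G
    simp
  have h4 : (∏ᶠ e ∈ (⊤ : SimpleGraph (Fin n)).edgeSet, (1 - p + p * Real.exp 0)) = 1 := by
    have : (1 - p + p * Real.exp 0) = 1 := by
      rw [Real.exp_zero]
      ring
    rw [this]
    simp
  rw [h4] at h2
  simp only [h3, Real.exp_zero, mul_one] at h2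
  unfold wt
  simp only [if_true]
  exact h2

open Classical in
theorem markov (h : T_GSUM) {n : ℕ} {p : ℝ} (h0 : 0 ≤ p) (h1 : p ≤ 1)
    (c : Sym2 (Fin n) → ℝ) (t : ℝ) :
    wt p (fun G : SimpleGraph (Fin n) => t ≤ SS c G) ≤
      Real.exp (-t + p * ∑ e : Sym2 (Fin n), if e ∈ (⊤ : SimpleGraph (Fin n)).edgeSet then
        (Real.exp (c e) - 1) else 0) := by
  have h2 := h n p c h0 h1
  rw [finsum_eq_sum_of_fintype] at h2
  simp only [SS_eq] at h2
  have h3 : wt p (fun G : SimpleGraph (Fin n) => t ≤ SS c G) ≤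
      Real.exp (-t) * ∑ G : SimpleGraph (Fin n), wG p G * Real.exp (SS c G) := by
    unfold wt
    rw [Finset.mul_sum]
    refine Finset.sum_le_sum fun G _ => ?_
    have h4 := wG_nonneg h0 h1 G
    have h5 : Real.exp (-t) * (wG p G * Real.exp (SS c G)) =
        wG p G * Real.exp (SS c G - t) := by
      rw [sub_eq_add_neg, Real.exp_add]
      ring
    rw [h5]
    split_ifs with h6
    · have h7 : 1 ≤ Real.exp (SS c G - t) := by
        rw [← Real.exp_zero]
        exact Real.exp_le_exp.2 (by linarith)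
      nlinarith
    · positivity
  refine h3.trans ?_
  rw [h2, Real.exp_add]
  refine mul_le_mul_of_nonneg_left ?_ (Real.exp_pos _).le
  rw [finprod_mem_def, finprod_eq_prod_of_fintype, Finset.mul_sum, Real.exp_sum]
  refine Finset.prod_le_prod ?_ ?_
  · intro e _
    rw [Set.mulIndicator_apply]
    split_ifs
    · have := Real.exp_pos (c e)
      have : 0 ≤ p * Real.exp (c e) := by positivity
      linarith
    · exact zero_le_one
  · intro e _
    rw [Set.mulIndicator_apply]
    split_ifs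
    · have := Real.add_one_le_exp (p * (Real.exp (c e) - 1))
      linarith
    · rw [mul_zero, Real.exp_zero]

open Classical in
/-- number of pairs -/
noncomputable def pc {n : ℕ} (X Y : Finset (Fin n)) (e : Sym2 (Fin n)) : ℕ :=
  ((X ×ˢ Y).filter (fun q => s(q.1, q.2) = e)).card

open Classical in
theorem dsum {n : ℕ} (G : SimpleGraph (Fin n)) (X Y : Finset (Fin n)) (lam : ℝ) :
    SS (fun e => lam * (pc X Y e : ℝ)) G = lam * ∑ x ∈ X, (dg G x Y : ℝ) := by
  have h1 : ∑ x ∈ X, (dg G x Y : ℝ) =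
      ∑ q ∈ X ×ˢ Y, if s(q.1, q.2) ∈ G.edgeSet then (1 : ℝ) else 0 := by
    rw [Finset.sum_product]
    refine Finset.sum_congr rfl fun x _ => ?_
    unfold dg
    rw [Finset.card_filter]
    push_cast
    rfl
  have h2 : SS (fun e => lam * (pc X Y e : ℝ)) G =
      lam * ∑ e : Sym2 (Fin n), ∑ q ∈ X ×ˢ Y,
        if s(q.1, q.2) = e then (if e ∈ G.edgeSet then (1 : ℝ) else 0) else 0 := by
    unfold SS
    rw [Finset.mul_sum]
    refine Finset.sum_congr rfl fun e _ => ?_
    show (if e ∈ G.edgeSet then lam * (pc X Y e : ℝ) else 0) = _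
    unfold pc
    rw [Finset.card_filter]
    by_cases he : e ∈ G.edgeSet
    · simp only [if_pos he]
      push_cast
      rfl
    · simp [he]
  rw [h2, h1, Finset.sum_comm]
  congr 1
  refine Finset.sum_congr rfl fun q _ => ?_
  rw [Finset.sum_ite_eq]
  simp

theorem pc_le_two {n : ℕ} (X Y : Finset (Fin n)) (e : Sym2 (Fin n)) : pc X Y e ≤ 2 := by
  classical
  induction e using Sym2.ind with
  | _ a b =>
    unfold pc
    refine (Finset.card_le_card (t := {(a, b), (b, a)}) ?_).trans Finset.card_le_two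
    intro q hq
    have h1 := (Finset.mem_filter.1 hq).2
    rw [Sym2.eq_iff] at h1
    simp only [Finset.mem_insert, Finset.mem_singleton]
    rcases h1 with ⟨h2, h3⟩ | ⟨h2, h3⟩
    · left
      exact Prod.ext h2 h3
    · right
      exact Prod.ext h2 h3

theorem sum_pc {n : ℕ} (X Y : Finset (Fin n)) :
    ∑ e : Sym2 (Fin n), (pc X Y e : ℝ) = X.card * Y.card := by
  classical
  unfold pc
  have h1 := Finset.card_eq_sum_card_fiberwise (s := X ×ˢ Y) (t := (univ : Finset (Sym2 (Fin n))))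
    (f := fun q => s(q.1, q.2)) (fun _ _ => Finset.mem_coe.2 (Finset.mem_univ _))
  rw [Finset.card_product] at h1
  have h2 : ((X.card * Y.card : ℕ) : ℝ) = ((∑ e : Sym2 (Fin n),
    ((X ×ˢ Y).filter (fun q => s(q.1, q.2) = e)).card : ℕ) : ℝ) := by
    rw [h1]
  push_cast at h2
  exact h2.symm

theorem exp_quad {t : ℝ} (h0 : 0 ≤ t) (h1 : t ≤ 1) : Real.exp t ≤ 1 + t + t ^ 2 := by
  have := Real.abs_exp_sub_one_sub_id_le (x := t) (by rw [abs_of_nonneg h0]; exact h1)
  have h2 := (abs_le.1 this).2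
  linarith

theorem exp_quad' {t : ℝ} (h0 : 0 ≤ t) (h1 : t ≤ 1) : Real.exp (-t) ≤ 1 - t + t ^ 2 := by
  have := Real.abs_exp_sub_one_sub_id_le (x := -t) (by rw [abs_neg, abs_of_nonneg h0]; exact h1)
  have h2 := (abs_le.1 this).2
  nlinarith

open Classical in
/-- edges between two sets -/
theorem wt_pair (h : T_GSUM) {n : ℕ} {p η : ℝ} (h0 : 0 ≤ p) (h1 : p ≤ 1) (hη : 0 < η)
    (hη1 : η ≤ 1) (hn : 1 ≤ n) (X Y : Finset (Fin n)) :
    wt p (fun G : SimpleGraph (Fin n) => ¬ (∑ x ∈ X, (dg G x Y : ℝ)) ≤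
      (1 + η) * p * X.card * Y.card + 12 / η * Real.log n * (X.card + Y.card)) ≤
      ((n : ℝ)⁻¹ ^ 3) ^ X.card * ((n : ℝ)⁻¹ ^ 3) ^ Y.card := by
  have hm := markov h (n := n) h0 h1 (fun e => η / 4 * (pc X Y e : ℝ))
    (η / 4 * ((1 + η) * p * X.card * Y.card + 12 / η * Real.log n * (X.card + Y.card)))
  refine (wt_mono h0 h1 ?_).trans (hm.trans ?_)
  · intro G hG
    rw [dsum]
    push Not at hG
    exact mul_le_mul_of_nonneg_left hG.le (by positivity)
  · have hsum : (∑ e : Sym2 (Fin n), if e ∈ (⊤ : SimpleGraph (Fin n)).edgeSet then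
        (Real.exp (η / 4 * (pc X Y e : ℝ)) - 1) else 0) ≤
        η / 4 * (1 + η) * (X.card * Y.card) := by
      rw [← sum_pc, Finset.mul_sum]
      refine Finset.sum_le_sum fun e _ => ?_
      have h2 : Real.exp (η / 4 * (pc X Y e : ℝ)) - 1 ≤ η / 4 * (1 + η) * pc X Y e := by
        have h3 := pc_le_two X Y e
        have h4 := exp_quad (t := η / 4) (by positivity) (by linarith)
        have h5 := exp_quad (t := η / 2) (by positivity) (by linarith)
        have h6 : pc X Y e = 0 ∨ pc X Y e = 1 ∨ pc X Y e = 2 := by omega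
        rcases h6 with h6 | h6 | h6
        · rw [h6]
          simp
        · rw [h6, Nat.cast_one, mul_one, mul_one]
          nlinarith
        · rw [h6]
          push_cast
          rw [show η / 4 * 2 = η / 2 by ring]
          nlinarith
      split_ifs
      · exact h2
      · positivity
    have hlog : 0 ≤ Real.log n := Real.log_nonneg (by exact_mod_cast hn)
    have hn0 : (0 : ℝ) < n := by exact_mod_cast hn
    have hpow : ∀ m : ℕ, ((n : ℝ)⁻¹ ^ 3) ^ m = Real.exp (-(3 * Real.log n * m)) := by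
      intro m
      rw [← pow_mul, ← Real.exp_log hn0, ← Real.exp_neg, ← Real.exp_nat_mul, Real.log_exp]
      congr 1
      push_cast
      ring
    rw [hpow, hpow, ← Real.exp_add]
    refine Real.exp_le_exp.2 ?_
    have h3 := mul_le_mul_of_nonneg_left hsum h0
    have h4 : η / 4 * (12 / η * Real.log n * (X.card + Y.card)) =
        3 * Real.log n * (X.card + Y.card) := by
      field_simp
      ring
    nlinarith

open Classical in
/-- upper bound for a degree -/
theorem wt_up (h : T_GSUM) {n : ℕ} {p η : ℝ} (h0 : 0 ≤ p) (h1 : p ≤ 1) (hη : 0 < η)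
    (hη1 : η ≤ 1) (v : Fin n) :
    wt p (fun G : SimpleGraph (Fin n) => ¬ (dg G v univ : ℝ) ≤ (1 + η) * p * n) ≤
      Real.exp (-(η ^ 2 / 4 * (p * n)) + 1) := by
  have hm := markov h (n := n) h0 h1 (fun e => η / 2 * (pc {v} univ e : ℝ))
    (η / 2 * ((1 + η) * p * n))
  refine (wt_mono h0 h1 ?_).trans (hm.trans ?_)
  · intro G hG
    rw [dsum, Finset.sum_singleton]
    push Not at hG
    exact mul_le_mul_of_nonneg_left hG.le (by positivity)
  · have hsum : (∑ e : Sym2 (Fin n), if e ∈ (⊤ : SimpleGraph (Fin n)).edgeSet then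
        (Real.exp (η / 2 * (pc {v} univ e : ℝ)) - 1) else 0) ≤
        (η / 2 + η ^ 2 / 4) * n := by
      have h2 := sum_pc ({v} : Finset (Fin n)) univ
      rw [Finset.card_singleton, Nat.cast_one, one_mul, Finset.card_univ, Fintype.card_fin] at h2
      rw [← h2, Finset.mul_sum]
      refine Finset.sum_le_sum fun e _ => ?_
      have h3 : pc {v} univ e ≤ 1 := by
        unfold pc
        rw [Finset.card_le_one]
        intro q hq q' hq'
        simp only [Finset.mem_filter, Finset.mem_product, Finset.mem_singleton, Finset.mem_univ,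
          and_true] at hq hq'
        obtain ⟨a1, a2⟩ := hq
        obtain ⟨b1, b2⟩ := hq'
        rw [← b2, a1, b1, Sym2.eq_iff] at a2
        rcases a2 with ⟨-, a3⟩ | ⟨a3, a4⟩
        · exact Prod.ext (a1.trans b1.symm) a3
        · exact Prod.ext (a1.trans b1.symm) (a4.trans a3)
      have h4 := exp_quad (t := η / 2) (by positivity) (by linarith)
      have h6 : pc {v} univ e = 0 ∨ pc {v} univ e = 1 := by omega
      rcases h6 with h6 | h6
      · rw [h6]
        simp
      · rw [h6, Nat.cast_one, mul_one, mul_one]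
        split_ifs
        · nlinarith
        · positivity
    refine Real.exp_le_exp.2 ?_
    have h3 := mul_le_mul_of_nonneg_left hsum h0
    nlinarith

open Classical in
/-- lower bound for a degree -/
theorem wt_low (h : T_GSUM) {n : ℕ} {p η : ℝ} (h0 : 0 ≤ p) (h1 : p ≤ 1) (hη : 0 < η)
    (hη1 : η ≤ 1) (v : Fin n) :
    wt p (fun G : SimpleGraph (Fin n) => ¬ (1 - η) * p * n ≤ (dg G v univ : ℝ)) ≤
      Real.exp (-(η ^ 2 / 4 * (p * n)) + 1) := by
  have hm := markov h (n := n) h0 h1 (fun e => -(η / 2) * (pc {v} univ e : ℝ))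
    (-(η / 2) * ((1 - η) * p * n))
  refine (wt_mono h0 h1 ?_).trans (hm.trans ?_)
  · intro G hG
    rw [dsum, Finset.sum_singleton]
    push Not at hG
    nlinarith
  · have hsum : (∑ e : Sym2 (Fin n), if e ∈ (⊤ : SimpleGraph (Fin n)).edgeSet then
        (Real.exp (-(η / 2) * (pc {v} univ e : ℝ)) - 1) else 0) ≤
        (-(η / 2) + η ^ 2 / 4) * n + 1 := by
      have h2 := sum_pc ({v} : Finset (Fin n)) univ
      rw [Finset.card_singleton, Nat.cast_one, one_mul, Finset.card_univ, Fintype.card_fin] at h2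
      have h7 : (∑ e : Sym2 (Fin n), (if e = s(v, v) then (1 : ℝ) else 0)) = 1 := by
        rw [Finset.sum_ite_eq']
        simp
      have h10 : (-(η / 2) + η ^ 2 / 4) * n + 1 = ∑ e : Sym2 (Fin n),
          ((-(η / 2) + η ^ 2 / 4) * (pc {v} univ e : ℝ) + if e = s(v, v) then (1 : ℝ) else 0) := by
        rw [Finset.sum_add_distrib, ← Finset.mul_sum, h2, h7]
      rw [h10]
      refine Finset.sum_le_sum fun e _ => ?_
      have h3 : pc {v} univ e ≤ 1 := by
        unfold pc
        rw [Finset.card_le_one]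
        intro q hq q' hq'
        simp only [Finset.mem_filter, Finset.mem_product, Finset.mem_singleton, Finset.mem_univ,
          and_true] at hq hq'
        obtain ⟨a1, a2⟩ := hq
        obtain ⟨b1, b2⟩ := hq'
        rw [← b2, a1, b1, Sym2.eq_iff] at a2
        rcases a2 with ⟨-, a3⟩ | ⟨a3, a4⟩
        · exact Prod.ext (a1.trans b1.symm) a3
        · exact Prod.ext (a1.trans b1.symm) (a4.trans a3)
      have h4 := exp_quad' (t := η / 2) (by positivity) (by linarith)
      have h6 : pc {v} univ e = 0 ∨ pc {v} univ e = 1 := by omega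
      rcases h6 with h6 | h6
      · rw [h6]
        have h8 : (0 : ℝ) ≤ if e = s(v, v) then (1 : ℝ) else 0 := by
          split_ifs
          · exact zero_le_one
          · exact le_rfl
        have h9 : (if e ∈ (⊤ : SimpleGraph (Fin n)).edgeSet then
            Real.exp (-(η / 2) * ((0 : ℕ) : ℝ)) - 1 else 0) = 0 := by
          simp
        rw [h9, Nat.cast_zero, mul_zero, zero_add]
        exact h8
      · rw [h6, Nat.cast_one, mul_one, mul_one]
        by_cases he : e ∈ (⊤ : SimpleGraph (Fin n)).edgeSet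
        · rw [if_pos he]
          have h8 : (0 : ℝ) ≤ if e = s(v, v) then (1 : ℝ) else 0 := by
            split_ifs
            · exact zero_le_one
            · exact le_rfl
          nlinarith
        · rw [if_neg he]
          have h8 : e = s(v, v) := by
            have h9 : pc {v} univ e ≠ 0 := by omega
            unfold pc at h9
            obtain ⟨q, hq⟩ := Finset.card_ne_zero.1 h9
            simp only [Finset.mem_filter, Finset.mem_product, Finset.mem_singleton,
              Finset.mem_univ, and_true] at hq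
            obtain ⟨a1, a2⟩ := hq
            rw [← a2, a1] at he ⊢
            have h10 : v = q.2 := by
              by_contra h11
              exact he ((SimpleGraph.mem_edgeSet _).2 ((SimpleGraph.top_adj _ _).2 h11))
            rw [← h10]
          rw [if_pos h8]
          nlinarith
    refine Real.exp_le_exp.2 ?_
    have h3 := mul_le_mul_of_nonneg_left hsum h0
    nlinarith

theorem sum_sets (n : ℕ) (a : ℝ) : ∑ X : Finset (Fin n), a ^ X.card = (1 + a) ^ n := by
  have := Finset.sum_pow_mul_eq_add_pow a 1 (univ : Finset (Fin n))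
  simp only [one_pow, mul_one, Finset.card_univ, Fintype.card_fin, Finset.powerset_univ] at this
  rw [this, add_comm]

open Classical in
/-- the bad graphs -/
theorem wt_bad (h : T_GSUM) {n : ℕ} {p η : ℝ} (h0 : 0 ≤ p) (h1 : p ≤ 1) (hη : 0 < η)
    (hη1 : η ≤ 1) (hn : 1 ≤ n) :
    wt p (fun G : SimpleGraph (Fin n) => ¬ Good G η p) ≤
      ((1 + (n : ℝ)⁻¹ ^ 3) ^ n - 1) ^ 2 + 2 * (n * Real.exp (-(η ^ 2 / 4 * (p * n)) + 1)) := by
  have hlog : 0 ≤ Real.log n := Real.log_nonneg (by exact_mod_cast hn)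
  have hstep : wt p (fun G : SimpleGraph (Fin n) => ¬ Good G η p) ≤
      wt p (fun G : SimpleGraph (Fin n) => (∃ q ∈ (univ.filter
        (fun X : Finset (Fin n) => X ≠ ∅)) ×ˢ (univ.filter (fun X : Finset (Fin n) => X ≠ ∅)),
        ¬ (∑ x ∈ q.1, (dg G x q.2 : ℝ)) ≤ (1 + η) * p * q.1.card * q.2.card +
          12 / η * Real.log n * (q.1.card + q.2.card)) ∨
        ((∃ v ∈ (univ : Finset (Fin n)), ¬ (dg G v univ : ℝ) ≤ (1 + η) * p * n) ∨
          ∃ v ∈ (univ : Finset (Fin n)), ¬ (1 - η) * p * n ≤ (dg G v univ : ℝ))) := by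
    refine wt_mono h0 h1 fun G hG => ?_
    by_contra hcon
    push Not at hcon
    obtain ⟨c1, c2, c3⟩ := hcon
    apply hG
    refine ⟨fun X Y => ?_, fun v => ⟨c3 v (Finset.mem_univ _), c2 v (Finset.mem_univ _)⟩⟩
    by_cases hX : X = ∅
    · rw [hX]
      simp only [Finset.sum_empty, Finset.card_empty, Nat.cast_zero, mul_zero, zero_mul, zero_add]
      positivity
    by_cases hY : Y = ∅
    · rw [hY]
      have : ∀ x, dg G x (∅ : Finset (Fin n)) = 0 := fun x => by
        unfold dg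
        simp
      simp only [this, Nat.cast_zero, Finset.sum_const_zero, Finset.card_empty, mul_zero,
        zero_add, add_zero]
      positivity
    exact c1 (X, Y) (Finset.mem_product.2 ⟨Finset.mem_filter.2 ⟨Finset.mem_univ _,
      Finset.nonempty_iff_ne_empty.2 hX⟩, Finset.mem_filter.2 ⟨Finset.mem_univ _,
      Finset.nonempty_iff_ne_empty.2 hY⟩⟩)
  refine hstep.trans ((wt_or h0 h1 _ _).trans (add_le_add ?_ ((wt_or h0 h1 _ _).trans ?_)))
  · refine (wt_exists h0 h1 _ _).trans ?_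
    refine (Finset.sum_le_sum fun q _ => wt_pair h h0 h1 hη hη1 hn q.1 q.2).trans ?_
    rw [Finset.sum_product' (f := fun X Y : Finset (Fin n) =>
      ((n : ℝ)⁻¹ ^ 3) ^ X.card * ((n : ℝ)⁻¹ ^ 3) ^ Y.card), ← Finset.sum_mul_sum]
    have h2 : ∑ X ∈ univ.filter (fun X : Finset (Fin n) => X ≠ ∅),
        ((n : ℝ)⁻¹ ^ 3) ^ X.card = (1 + (n : ℝ)⁻¹ ^ 3) ^ n - 1 := by
      rw [← sum_sets, Finset.filter_ne', Finset.sum_erase_eq_sub (Finset.mem_univ _),
        Finset.card_empty, pow_zero]
    rw [h2, sq]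
  · have h2 : ∀ B : Fin n → SimpleGraph (Fin n) → Prop,
        (∀ v, wt p (B v) ≤ Real.exp (-(η ^ 2 / 4 * (p * n)) + 1)) →
        wt p (fun G => ∃ v ∈ (univ : Finset (Fin n)), B v G) ≤
          n * Real.exp (-(η ^ 2 / 4 * (p * n)) + 1) := by
      intro B hB
      refine (wt_exists h0 h1 _ _).trans ((Finset.sum_le_sum fun v _ => hB v).trans ?_)
      rw [Finset.sum_const, Finset.card_univ, Fintype.card_fin, nsmul_eq_mul]
    rw [two_mul]
    exact add_le_add (h2 _ fun v => wt_up h h0 h1 hη hη1 v) (h2 _ fun v => wt_low h h0 h1 hη hη1 v)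

end GNP_

open GNP_

attribute [local instance] GNP_.instFG

open Classical in
theorem pGNP (h : T_GSUM) : T_GNP := by
  intro δ η p hδ hη hη1 hp hpn
  have hrw : (fun n : ℕ => ∑ᶠ G : SimpleGraph (Fin n),
      if Good G η (p n) then wG (p n) G else 0) =
      fun n : ℕ => wt (p n) (fun G : SimpleGraph (Fin n) => Good G η (p n)) := by
    funext n
    rw [finsum_eq_sum_of_fintype]
    rfl
  rw [hrw]
  have hbad : Tendsto (fun n : ℕ => ((1 + (n : ℝ)⁻¹ ^ 3) ^ n - 1) ^ 2 +
      2 * (n * Real.exp (-(η ^ 2 / 4 * (n : ℝ) ^ δ) + 1))) atTop (𝓝 0) := by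
    have h1 : Tendsto (fun n : ℕ => (1 + (n : ℝ)⁻¹ ^ 3) ^ n - 1) atTop (𝓝 0) := by
      have hinv : Tendsto (fun n : ℕ => (n : ℝ)⁻¹) atTop (𝓝 0) := tendsto_inv_atTop_nhds_zero_nat
      have hup : Tendsto (fun n : ℕ => Real.exp ((n : ℝ)⁻¹ ^ 2) - 1) atTop (𝓝 0) := by
        have h2 := (Real.continuous_exp.tendsto _).comp (hinv.pow 2)
        have h3 := h2.sub_const 1
        simpa using h3
      refine squeeze_zero' ?_ ?_ hup
      · refine Eventually.of_forall fun n => ?_
        have : (1 : ℝ) ≤ (1 + (n : ℝ)⁻¹ ^ 3) ^ n := by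
          apply one_le_pow₀
          have : (0 : ℝ) ≤ (n : ℝ)⁻¹ ^ 3 := by positivity
          linarith
        linarith
      · filter_upwards [eventually_ge_atTop 1] with n hn
        have hn0 : (0 : ℝ) < n := by exact_mod_cast hn
        have h2 : (1 + (n : ℝ)⁻¹ ^ 3) ^ n ≤ Real.exp ((n : ℝ)⁻¹ ^ 2) := by
          have h3 : (1 + (n : ℝ)⁻¹ ^ 3) ≤ Real.exp ((n : ℝ)⁻¹ ^ 3) := by
            have := Real.add_one_le_exp ((n : ℝ)⁻¹ ^ 3)
            linarith
          have h4 : (1 + (n : ℝ)⁻¹ ^ 3) ^ n ≤ Real.exp ((n : ℝ)⁻¹ ^ 3) ^ n :=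
            pow_le_pow_left₀ (by positivity) h3 n
          rw [← Real.exp_nat_mul] at h4
          have h5 : (n : ℝ) * (n : ℝ)⁻¹ ^ 3 = (n : ℝ)⁻¹ ^ 2 := by
            field_simp
          rwa [h5] at h4
        linarith
    have h2 : Tendsto (fun n : ℕ => (n : ℝ) * Real.exp (-(η ^ 2 / 4 * (n : ℝ) ^ δ) + 1)) atTop
        (𝓝 0) := by
      -- substitute x = n ^ δ
      have h3 : Tendsto (fun x : ℝ => x ^ (1 / δ) * Real.exp (-(η ^ 2 / 4) * x)) atTop (𝓝 0) :=
        tendsto_rpow_mul_exp_neg_mul_atTop_nhds_zero (1 / δ) (η ^ 2 / 4) (by positivity)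
      have h4 : Tendsto (fun n : ℕ => (n : ℝ) ^ δ) atTop atTop :=
        (tendsto_rpow_atTop hδ).comp tendsto_natCast_atTop_atTop
      have h5 := (h3.comp h4).const_mul (Real.exp 1)
      rw [mul_zero] at h5
      refine h5.congr fun n => ?_
      show Real.exp 1 * (((n : ℝ) ^ δ) ^ (1 / δ) * Real.exp (-(η ^ 2 / 4) * (n : ℝ) ^ δ)) = _
      rw [← Real.rpow_mul (Nat.cast_nonneg n), mul_one_div_cancel hδ.ne', Real.rpow_one,
        Real.exp_add, ← neg_mul]
      ring
    have h3 := (h1.pow 2).add (h2.const_mul 2)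
    simpa using h3
  have hlow : Tendsto (fun n : ℕ => 1 - (((1 + (n : ℝ)⁻¹ ^ 3) ^ n - 1) ^ 2 +
      2 * (n * Real.exp (-(η ^ 2 / 4 * (n : ℝ) ^ δ) + 1)))) atTop (𝓝 1) := by
    have := hbad.const_sub 1
    simpa using this
  refine tendsto_of_tendsto_of_tendsto_of_le_of_le' hlow tendsto_const_nhds ?_ ?_
  · filter_upwards [hpn, eventually_ge_atTop 1] with n h1 hn
    have hn0 : (0 : ℝ) < n := by exact_mod_cast hn
    have h2 := wt_bad h (n := n) (hp n).1 (hp n).2 hη hη1 hn
    have h3 := wt_compl (p := p n) (fun G : SimpleGraph (Fin n) => Good G η (p n))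
    rw [total h n (hp n).1 (hp n).2] at h3
    have h4 : (n : ℝ) ^ δ ≤ p n * n := by
      have h5 := mul_le_mul_of_nonneg_right h1 hn0.le
      have h6 : (n : ℝ) ^ (-1 + δ) * n = (n : ℝ) ^ δ := by
        rw [Real.rpow_add hn0, Real.rpow_neg_one]
        field_simp
      rwa [h6] at h5
    have h5 : Real.exp (-(η ^ 2 / 4 * (p n * n)) + 1) ≤
        Real.exp (-(η ^ 2 / 4 * (n : ℝ) ^ δ) + 1) := by
      refine Real.exp_le_exp.2 ?_
      have : η ^ 2 / 4 * (n : ℝ) ^ δ ≤ η ^ 2 / 4 * (p n * n) :=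
        mul_le_mul_of_nonneg_left h4 (by positivity)
      linarith
    have h6 := mul_le_mul_of_nonneg_left h5 hn0.le
    linarith
  · refine Eventually.of_forall fun n => ?_
    have h3 := wt_compl (p := p n) (fun G : SimpleGraph (Fin n) => Good G η (p n))
    rw [total h n (hp n).1 (hp n).2] at h3
    have h4 := wt_nonneg (n := n) (hp n).1 (hp n).2 (fun G => ¬ Good G η (p n))
    linarith

end Pool.Agent.RST
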