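import Pool.Agent.RST.Targets

/-!
# GROW: growing a tree with `m` vertices at depth `a`
-/

set_option autoImplicit false

open Finset

namespace Pool.Agent.RST

namespace GROW_

variable {V : Type} [DecidableEq V]

lemma used_union (J E : Finset (V × V)) (F : Finset V) :
    used (J ∪ E) F = used J F ∪ E.image Prod.snd := by
  unfold used
  rw [image_union]
  ext x
  simp only [mem_union]
  tauto

lemma od_union_of_ne (J E : Finset (V × V)) (X : Finset V) (hE : ∀ e ∈ E, e.1 ∈ X) {v : V}
    (hv : v ∉ X) : od (J ∪ E) v = od J v := by
  unfold od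
  congr 1
  ext e
  simp only [mem_filter, mem_union]
  constructor
  · rintro ⟨h | h, h2⟩
    · exact ⟨h, h2⟩
    · exact absurd (h2 ▸ hE e h) hv
  · rintro ⟨h, h2⟩
    exact ⟨Or.inl h, h2⟩

lemma od_eq_zero {H : SimpleGraph V} {W : Finset V} {d m : ℕ} {J : Finset (V × V)} {F : Finset V}
    (hOK : OK H W d m J F) {w : V} (hw : w ∈ W) (hw' : w ∉ used J F) : od J w = 0 := by
  unfold od
  rw [card_eq_zero, filter_eq_empty_iff]
  intro e he h1
  exact hw' (h1 ▸ hOK.tail e he (h1 ▸ hw))

lemma disj_of {J E : Finset (V × V)} {F : Finset V}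
    (h : Disjoint (E.image Prod.snd) (used J F)) : Disjoint J E := by
  rw [Finset.disjoint_left]
  intro e he he'
  rw [Finset.disjoint_left] at h
  refine h (mem_image_of_mem _ he') ?_
  unfold used
  exact mem_union_left _ (mem_image_of_mem _ he)

/-- all edges of one vertex -/
lemma star1 (hS : T_STEP) [Fintype V] (H : SimpleGraph V) (W : Finset V) (d m : ℕ)
    (F : Finset V) (hm : 1 ≤ m)
    (hN : ∀ X : Finset V, m ≤ X.card → W.card ≤ 2 * (nb H X W).card) (x : V) :
    ∀ (c : ℕ) (J : Finset (V × V)), OK H W d m J F → od J x + c ≤ d →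
    (x ∈ W → x ∈ used J F) → 2 * ((used J F).card + c + 2 * m * d) < W.card + 2 →
    ∃ E : Finset (V × V), OK H W d m (J ∪ E) F ∧ (E.image Prod.snd).card = c ∧
      (∀ w ∈ E.image Prod.snd, w ∈ W ∧ w ∉ used J F) ∧ ∀ e ∈ E, e.1 = x := by
  intro c
  induction c with
  | zero =>
    intro J h1 _ _ _
    exact ⟨∅, by simpa using h1, by simp, by simp, by simp⟩
  | succ c ih =>
    intro J h1 h2 h3 h4
    obtain ⟨E, hE1, hE2, hE3, hE4⟩ := ih J h1 (by omega) h3 (by omega)
    have hcard : (used (J ∪ E) F).card ≤ (used J F).card + c := by
      rw [used_union]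
      exact (card_union_le _ _).trans (by rw [hE2])
    have hod : od (J ∪ E) x < d := by
      have h5 : od (J ∪ E) x ≤ od J x + (E.filter (fun e => e.1 = x)).card := by
        unfold od
        rw [filter_union]
        exact card_union_le _ _
      have h6 : (E.filter (fun e => e.1 = x)).card ≤ c := by
        rw [← hE2]
        refine le_trans (card_le_card (filter_subset _ _)) ?_
        rw [card_image_of_injOn]
        intro e he e' he' hee
        exact hE1.inj (by simp [mem_coe.1 he]) (by simp [mem_coe.1 he']) hee
      omega
    obtain ⟨w, hw1, hw2, _, _, hw5⟩ := hS V H W d m (J ∪ E) F hE1 hm hN (by omega) x hod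
      (fun h => by rw [used_union]; exact mem_union_left _ (h3 h))
    refine ⟨insert (x, w) E, ?_, ?_, ?_, ?_⟩
    · rw [union_insert]
      exact hw5
    · rw [image_insert, card_insert_of_notMem, hE2]
      intro h
      apply hw2
      rw [used_union]
      exact mem_union_right _ h
    · intro v hv
      rw [image_insert, mem_insert] at hv
      rcases hv with rfl | hv
      · exact ⟨hw1, fun h => hw2 (by rw [used_union]; exact mem_union_left _ h)⟩
      · exact hE3 v hv
    · intro e he
      rcases mem_insert.1 he with rfl | he
      · rfl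
      · exact hE4 e he

/-- stars at several vertices -/
lemma star (hS : T_STEP) [Fintype V] (H : SimpleGraph V) (W : Finset V) (d m b : ℕ)
    (J : Finset (V × V)) (F : Finset V) (hOK : OK H W d m J F) (hm : 1 ≤ m)
    (hN : ∀ X : Finset V, m ≤ X.card → W.card ≤ 2 * (nb H X W).card) :
    ∀ X : Finset V, (∀ x ∈ X, od J x + b ≤ d ∧ (x ∈ W → x ∈ used J F)) →
    2 * ((used J F).card + b * X.card + 2 * m * d) < W.card →
    ∃ E : Finset (V × V), OK H W d m (J ∪ E) F ∧ (E.image Prod.snd).card = b * X.card ∧
      (∀ w ∈ E.image Prod.snd, w ∈ W ∧ w ∉ used J F) ∧ ∀ e ∈ E, e.1 ∈ X := by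
  intro X
  induction X using Finset.induction_on with
  | empty =>
    intro _ _
    exact ⟨∅, by simpa using hOK, by simp, by simp, by simp⟩
  | insert x X hx ih =>
    intro h1 h2
    rw [card_insert_of_notMem hx, show b * (X.card + 1) = b * X.card + b by ring] at h2
    obtain ⟨E, hE1, hE2, hE3, hE4⟩ := ih (fun x hx => h1 x (mem_insert_of_mem hx)) (by omega)
    have hx1 := h1 x (mem_insert_self x X)
    have hcard : (used (J ∪ E) F).card ≤ (used J F).card + b * X.card := by
      rw [used_union]
      exact (card_union_le _ _).trans (by rw [hE2])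
    obtain ⟨E', hF1, hF2, hF3, hF4⟩ := star1 hS H W d m F hm hN x b (J ∪ E) hE1
      (by rw [od_union_of_ne J E X hE4 hx]; exact hx1.1)
      (fun h => by rw [used_union]; exact mem_union_left _ (hx1.2 h)) (by omega)
    have hd : Disjoint (E.image Prod.snd) (E'.image Prod.snd) := by
      rw [Finset.disjoint_left]
      intro v hv hv'
      refine (hF3 v hv').2 ?_
      rw [used_union]
      exact mem_union_right _ hv
    refine ⟨E ∪ E', ?_, ?_, ?_, ?_⟩
    · rw [← union_assoc]
      exact hF1
    · rw [image_union, card_union_of_disjoint hd, hE2, hF2, card_insert_of_notMem hx]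
      ring
    · intro w hw
      rw [image_union, mem_union] at hw
      rcases hw with hw | hw
      · exact hE3 w hw
      · exact ⟨(hF3 w hw).1, fun h => (hF3 w hw).2 (by rw [used_union]; exact mem_union_left _ h)⟩
    · intro e he
      rcases mem_union.1 he with he | he
      · exact mem_insert_of_mem (hE4 e he)
      · rw [hF4 e he]
        exact mem_insert_self x X

end GROW_

open GROW_

theorem pGROW (hS : T_STEP) : T_GROW := by
  intro V _ _ H W d m b a J F hOK hm hb hbd hmb hN hW y hy hyW
  have key : ∀ j : ℕ, j ≤ a → ∃ (E : Finset (V × V)) (L : Finset V), Disjoint J E ∧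
      OK H W d m (J ∪ E) F ∧ (used (J ∪ E) F).card ≤ (used J F).card + j * (m + b) ∧
      min (b ^ j) m ≤ L.card ∧
      (∀ x ∈ L, ∃ l : List V, l.length = j ∧ (y :: l).IsChain (fun u v => (u, v) ∈ E) ∧
        (y :: l).getLast? = some x ∧ (y :: l).Nodup ∧ ∀ v ∈ l, v ∈ used (J ∪ E) F) ∧
      ∀ x ∈ L, od (J ∪ E) x + b ≤ d ∧ (x ∈ W → x ∈ used (J ∪ E) F) := by
    intro j
    induction j with
    | zero =>
      intro _
      refine ⟨∅, {y}, disjoint_empty_right _, by simpa using hOK, by simp, by simp, ?_, ?_⟩
      · intro x hx
        rw [mem_singleton] at hx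
        subst hx
        exact ⟨[], rfl, by simp, by simp, by simp, by simp⟩
      · intro x hx
        rw [mem_singleton] at hx
        subst hx
        rw [union_empty]
        exact ⟨hy, hyW⟩
    | succ j ih =>
      intro hj
      obtain ⟨E, L, h1, h2, h3, h4, h5, h6⟩ := ih (by omega)
      -- the set which is expanded
      obtain ⟨X, hXL, hX1, hX2⟩ : ∃ X ⊆ L, b * X.card ≤ m + b ∧ min (b ^ (j + 1)) m ≤ b * X.card := by
        rcases le_or_gt L.card ((m + b - 1) / b) with hc | hc
        · refine ⟨L, subset_rfl, ?_, ?_⟩
          · have := Nat.mul_div_le (m + b - 1) b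
            have h7 : b * L.card ≤ b * ((m + b - 1) / b) := Nat.mul_le_mul_left b hc
            omega
          · rcases le_total (b ^ j) m with h8 | h8
            · rw [min_eq_left h8] at h4
              refine (min_le_left _ _).trans ?_
              rw [pow_succ, mul_comm]
              exact Nat.mul_le_mul_left b h4
            · rw [min_eq_right h8] at h4
              refine (min_le_right _ _).trans (h4.trans ?_)
              exact Nat.le_mul_of_pos_left _ hb
        · obtain ⟨X, hX, hXc⟩ := exists_subset_card_eq hc.le
          refine ⟨X, hX, ?_, ?_⟩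
          · have := Nat.mul_div_le (m + b - 1) b
            rw [hXc]
            omega
          · refine (min_le_right _ _).trans ?_
            rw [hXc]
            have := Nat.lt_mul_div_succ (m + b - 1) hb
            rw [mul_add, mul_one] at this
            omega
      have hnum : (j + 1) * (m + b) ≤ a * (m + b) := Nat.mul_le_mul_right _ hj
      have hnum2 : (j + 1) * (m + b) = j * (m + b) + (m + b) := by ring
      obtain ⟨E', hE1, hE2, hE3, hE4⟩ := star hS H W d m b (J ∪ E) F h2 hm hN X
        (fun x hx => h6 x (hXL hx)) (by omega)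
      have hdis : Disjoint (J ∪ E) E' := disj_of (F := F) (by
        rw [Finset.disjoint_left]
        exact fun v hv => (hE3 v hv).2)
      have hun : J ∪ (E ∪ E') = J ∪ E ∪ E' := by rw [union_assoc]
      refine ⟨E ∪ E', E'.image Prod.snd, ?_, ?_, ?_, ?_, ?_, ?_⟩
      · rw [Finset.disjoint_union_right]
        exact ⟨h1, (Finset.disjoint_union_left.1 hdis).1⟩
      · rw [hun]
        exact hE1
      · rw [hun, used_union]
        refine (card_union_le _ _).trans ?_
        rw [hE2]
        omega
      · rw [hE2]
        exact hX2
      · intro w hw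
        have hw3 := hE3 w hw
        obtain ⟨e, he, hew⟩ := mem_image.1 hw
        obtain ⟨l, g1, g2, g3, g4, g5⟩ := h5 e.1 (hXL (hE4 e he))
        refine ⟨l ++ [w], by simp [g1], ?_, ?_, ?_, ?_⟩
        · rw [← List.cons_append, List.isChain_append]
          refine ⟨g2.imp fun u v h => mem_union_left _ h, by simp, ?_⟩
          intro x hx z hz
          rw [g3] at hx
          simp only [Option.mem_def, Option.some.injEq, List.head?_cons] at hx hz
          rw [← hx, ← hz, ← hew]
          exact mem_union_right _ he
        · rw [← List.cons_append, List.getLast?_append]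
          simp
        · rw [← List.cons_append, List.nodup_append]
          refine ⟨g4, by simp, ?_⟩
          intro v hv z hz
          rw [List.mem_singleton] at hz
          rw [hz]
          rintro rfl
          apply hw3.2
          rcases List.mem_cons.1 hv with rfl | hv
          · rw [used_union]
            exact mem_union_left _ (hyW hw3.1)
          · exact g5 _ hv
        · intro v hv
          rw [hun, used_union]
          rcases List.mem_append.1 hv with hv | hv
          · exact mem_union_left _ (g5 v hv)
          · rw [List.mem_singleton] at hv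
            rw [hv]
            exact mem_union_right _ hw
      · intro w hw
        have hw3 := hE3 w hw
        rw [hun]
        constructor
        · have hwX : w ∉ X := fun h => hw3.2 ((h6 w (hXL h)).2 hw3.1)
          rw [od_union_of_ne _ _ X hE4 hwX, od_eq_zero h2 hw3.1 hw3.2]
          omega
        · intro _
          rw [used_union]
          exact mem_union_right _ hw
  obtain ⟨E, L, h1, h2, h3, h4, h5, _⟩ := key a le_rfl
  refine ⟨E, h1, h2, h3, L, ?_, ?_⟩
  · rwa [min_eq_right hmb] at h4
  · intro x hx
    obtain ⟨l, g1, g2, g3, g4, _⟩ := h5 x hx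
    exact ⟨l, g1, g2, g3, g4⟩

end Pool.Agent.RST
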