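import Pool.Agent.RST.Targets

/-!
# MAIN: the main theorem of the project RST
-/

set_option autoImplicit false

open Finset Filter Topology

namespace Pool.Agent.RST

namespace MAIN_

open Classical in
/-- the total weight of `G(n,p)` is one -/
lemma total (n : ℕ) (p : ℝ) : ∑ G : SimpleGraph (Fin n), wG p G = 1 := by
  have hcard : ((⊤ : SimpleGraph (Fin n)).edgeFinset).card = n.choose 2 := by
    rw [SimpleGraph.card_edgeFinset_top_eq_card_choose_two, Fintype.card_fin]
  have h1 : ∑ G : SimpleGraph (Fin n), wG p G =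
      ∑ t ∈ ((⊤ : SimpleGraph (Fin n)).edgeFinset).powerset,
        p ^ t.card * (1 - p) ^ (((⊤ : SimpleGraph (Fin n)).edgeFinset).card - t.card) := by
    refine Finset.sum_bij' (fun G _ => G.edgeFinset)
      (fun t _ => SimpleGraph.fromEdgeSet (t : Set (Sym2 (Fin n)))) ?_ ?_ ?_ ?_ ?_
    · intro G _
      rw [Finset.mem_powerset]
      exact SimpleGraph.edgeFinset_subset_edgeFinset.2 le_top
    · intro t _
      exact Finset.mem_univ _
    · intro G _
      simp
    · intro t ht
      rw [Finset.mem_powerset] at ht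
      ext e
      simp only [SimpleGraph.mem_edgeFinset, SimpleGraph.edgeSet_fromEdgeSet, Set.mem_sdiff,
        Finset.mem_coe]
      constructor
      · exact fun h => h.1
      · intro h
        refine ⟨h, ?_⟩
        have := ht h
        rw [SimpleGraph.mem_edgeFinset] at this
        exact SimpleGraph.not_isDiag_of_mem_edgeSet _ this
    · intro G _
      unfold wG
      rw [hcard, ← SimpleGraph.coe_edgeFinset, Set.ncard_coe_finset]
  rw [h1, Finset.sum_pow_mul_eq_add_pow]
  simp

lemma wG_nonneg {n : ℕ} {p : ℝ} (h0 : 0 ≤ p) (h1 : p ≤ 1) (G : SimpleGraph (Fin n)) :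
    0 ≤ wG p G := by
  unfold wG
  exact mul_nonneg (pow_nonneg h0 _) (pow_nonneg (by linarith) _)

lemma dg_univ {n : ℕ} (G : SimpleGraph (Fin n)) (v : Fin n) :
    dg G v univ = (G.neighborSet v).ncard := by
  classical
  unfold dg
  have : (G.neighborSet v) = ((univ.filter (fun w => G.Adj v w) : Finset (Fin n)) : Set (Fin n)) := by
    ext w
    simp
  rw [this, Set.ncard_coe_finset]

lemma dg_mono {V : Type} {H G : SimpleGraph V} (h : H ≤ G) (v : V) (A : Finset V) :
    dg H v A ≤ dg G v A := by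
  classical
  unfold dg
  apply Finset.card_le_card
  intro w hw
  rw [Finset.mem_filter] at hw ⊢
  exact ⟨hw.1, h hw.2⟩

lemma UU_mono {V : Type} {H G : SimpleGraph V} (h : H ≤ G) {η p K : ℝ} (hG : UU G η p K) :
    UU H η p K := by
  intro X Y
  refine le_trans ?_ (hG X Y)
  apply Finset.sum_le_sum
  intro x _
  exact_mod_cast dg_mono h x Y

/-- from a rooted embedding to an embedding of the tree -/
lemma trees (h2 : T_REL) {n Δ : ℕ} (H T : SimpleGraph (Fin n)) (hT : T.IsTree)
    (hD : ∀ v : Fin n, (T.neighborSet v).ncard ≤ Δ)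
    (hE : ∀ par : ℕ → ℕ, VT n par → BD n par Δ → ∃ f : ℕ → Fin n, Emb H n par f) :
    ∃ f : Fin n → Fin n, Function.Injective f ∧ ∀ u v : Fin n, T.Adj u v → H.Adj (f u) (f v) := by
  obtain ⟨par, σ, hVT, hσ, hadj, hchd⟩ := h2 n T hT
  have hBD : BD n par Δ := by
    intro v
    by_cases hv : v < n
    · exact le_trans (hchd v hv) (hD _)
    · have : chd n par v = ∅ := by
        unfold chd
        apply Finset.filter_eq_empty_iff.2
        intro j hj hjv
        have h1 := hVT j hjv.1 (Finset.mem_range.1 hj)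
        have h3 := Finset.mem_range.1 hj
        omega
      rw [this]
      simp
  obtain ⟨f, hinj, hadj'⟩ := hE par hVT hBD
  have hex : ∀ u : Fin n, ∃ i, i < n ∧ σ i = u := by
    intro u
    obtain ⟨i, hi, hiu⟩ := hσ.2.2 (Set.mem_univ u)
    exact ⟨i, by simpa using hi, hiu⟩
  choose τ hτ1 hτ2 using hex
  have hτ3 : ∀ i, i < n → τ (σ i) = i := by
    intro i hi
    apply hσ.2.1
    · simpa using hτ1 (σ i)
    · simpa using hi
    · exact hτ2 _
  refine ⟨fun u => f (τ u), ?_, ?_⟩
  · intro u v huv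
    have h1 : τ u = τ v := hinj (by simpa using hτ1 u) (by simpa using hτ1 v) huv
    rw [← hτ2 u, h1, hτ2 v]
  · intro u v huv
    obtain ⟨i, hi0, hin, h⟩ := hadj u v huv
    have hp : par i < n := lt_trans (hVT i hi0 hin) hin
    have hA := hadj' i hi0 hin
    rcases h with ⟨h1, h3⟩ | ⟨h1, h3⟩
    · show H.Adj (f (τ u)) (f (τ v))
      rw [← h1, ← h3, hτ3 i hin, hτ3 _ hp]
      exact hA
    · show H.Adj (f (τ u)) (f (τ v))
      rw [← h1, ← h3, hτ3 i hin, hτ3 _ hp]
      exact hA.symm

end MAIN_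

open Classical in
theorem pMAIN (h1 : T_GNP) (h2 : T_REL) (h3 : T_CASEA) (h4 : T_CASEB) : T_MAIN := by
  intro Δ hΔ γ hγ δ hδ p hp hpn
  set m : ℝ := min γ (1 / 2) with hm
  have hm0 : 0 < m := lt_min hγ (by norm_num)
  have hm1 : m ≤ 1 / 2 := min_le_right _ _
  have hmγ : m ≤ γ := min_le_left _ _
  set γ' : ℝ := m / 2 with hγ'
  have hγ'0 : 0 < γ' := by positivity
  have hγ'1 : γ' ≤ 1 / 2 := by rw [hγ']; linarith
  set δ' : ℝ := min δ (1 / 2) with hδ'
  have hδ'0 : 0 < δ' := lt_min hδ (by norm_num)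
  have hδ'1 : δ' < 1 := lt_of_le_of_lt (min_le_right _ _) (by norm_num)
  have hδδ : δ' ≤ δ := min_le_left _ _
  set η : ℝ := γ' / 100 with hη
  have hη0 : 0 < η := by positivity
  have hη1 : η ≤ 1 := by rw [hη]; linarith
  set C : ℝ := 12 / η with hC
  have hC0 : 0 ≤ C := by positivity
  obtain ⟨α, hα, nB, hB⟩ := h4 Δ γ' δ' C (by omega) hγ'0 hγ'1 hδ'0 hδ'1 hC0
  obtain ⟨nA, hA⟩ := h3 Δ γ' δ' α C (by omega) hγ'0 hγ'1 hδ'0 hδ'1 hα hC0
  have hlim := h1 δ η p hδ hη0 hη1 hp hpn
  refine tendsto_of_tendsto_of_tendsto_of_le_of_le' hlim tendsto_const_nhds ?_ ?_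
  · filter_upwards [hpn, eventually_ge_atTop nA, eventually_ge_atTop nB, eventually_ge_atTop 1]
      with n hn hnA hnB hn1
    rw [finsum_eq_sum_of_fintype, finsum_eq_sum_of_fintype]
    apply Finset.sum_le_sum
    intro G _
    by_cases hG : Good G η (p n)
    · have hprop : (∀ H : SimpleGraph (Fin n), H ≤ G →
            (∀ v : Fin n, (1 / 2 + γ) * (((G.neighborSet v).ncard : ℕ) : ℝ)
                ≤ (((H.neighborSet v).ncard : ℕ) : ℝ)) →
            ∀ T : SimpleGraph (Fin n), T.IsTree →
              (∀ v : Fin n, (T.neighborSet v).ncard ≤ Δ) →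
              ∃ f : Fin n → Fin n, Function.Injective f ∧
                ∀ u v : Fin n, T.Adj u v → H.Adj (f u) (f v)) := by
        intro H hH hdeg T hT hTd
        have hn' : ((n : ℝ)) ^ (-1 + δ') ≤ p n := by
          refine le_trans ?_ hn
          apply Real.rpow_le_rpow_of_exponent_le
          · exact_mod_cast hn1
          · linarith
        have hUU : UU H (γ' / 100) (p n) (C * Real.log n) := MAIN_.UU_mono hH hG.1
        have hpn0 : 0 ≤ p n * (n : ℝ) := mul_nonneg (hp n).1 (Nat.cast_nonneg n)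
        have hdH : ∀ v, (1 / 2 + γ') * p n * n ≤ dg H v univ := by
          intro v
          have e1 := hdeg v
          rw [← MAIN_.dg_univ, ← MAIN_.dg_univ] at e1
          have e2 := (hG.2 v).1
          have e3 : (1 / 2 + γ) * ((1 - η) * p n * n) ≤ (1 / 2 + γ) * (dg G v univ : ℝ) :=
            mul_le_mul_of_nonneg_left e2 (by linarith)
          refine le_trans ?_ (le_trans e3 e1)
          have e4 : (1 / 2 + γ') ≤ (1 / 2 + γ) * (1 - η) := by
            have e5 : (1 / 2 + m) * (1 - η) ≤ (1 / 2 + γ) * (1 - η) := by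
              apply mul_le_mul_of_nonneg_right (by linarith) (by linarith)
            refine le_trans ?_ e5
            rw [hη, hγ']
            nlinarith
          calc (1 / 2 + γ') * p n * n = (1 / 2 + γ') * (p n * n) := by ring
            _ ≤ ((1 / 2 + γ) * (1 - η)) * (p n * n) := mul_le_mul_of_nonneg_right e4 hpn0
            _ = (1 / 2 + γ) * ((1 - η) * p n * n) := by ring
        apply MAIN_.trees h2 H T hT hTd
        intro par hVT hBD
        by_cases hl : α * n ≤ (lv n par).card
        · exact hA n hnA (p n) hn' (hp n).2 H hUU hdH par hVT hBD hl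
        · exact hB n hnB (p n) hn' (hp n).2 H hUU hdH par hVT hBD (le_of_lt (not_le.1 hl))
      rw [if_pos hG, if_pos hprop]
      rfl
    · rw [if_neg hG]
      split_ifs
      · exact MAIN_.wG_nonneg (hp n).1 (hp n).2 G
      · exact le_refl _
  · filter_upwards with n
    rw [finsum_eq_sum_of_fintype]
    refine le_trans (Finset.sum_le_sum (g := fun G : SimpleGraph (Fin n) => wG (p n) G) ?_)
      (MAIN_.total n (p n)).le
    intro G _
    split_ifs
    · exact le_of_eq rfl
    · exact MAIN_.wG_nonneg (hp n).1 (hp n).2 G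

end Pool.Agent.RST
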