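import Pool.Agent.RST.Targets

/-!
# RST-CTR: contraction of bare paths
-/

set_option autoImplicit false

open Finset

namespace Pool.Agent.RST

namespace CTR_

/-- increasing enumeration of a finite set of natural numbers -/
lemma enum (R : Finset ℕ) : ∃ e r : ℕ → ℕ, (∀ i < R.card, e i ∈ R ∧ r (e i) = i) ∧
    (∀ v ∈ R, r v < R.card ∧ e (r v) = v) ∧ ∀ u ∈ R, ∀ v ∈ R, u < v → r u < r v := by
  classical
  let r : ℕ → ℕ := fun v => (R.filter (· < v)).card
  have hmono : ∀ u ∈ R, ∀ v ∈ R, u < v → r u < r v := by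
    intro u hu v hv huv
    apply Finset.card_lt_card
    rw [Finset.ssubset_iff_of_subset]
    · exact ⟨u, by simp [hu, huv], by simp⟩
    · intro w hw
      simp only [Finset.mem_filter] at hw ⊢
      exact ⟨hw.1, hw.2.trans huv⟩
  have hlt : ∀ v ∈ R, r v < R.card := by
    intro v hv
    apply Finset.card_lt_card
    rw [Finset.ssubset_iff_of_subset (Finset.filter_subset _ _)]
    exact ⟨v, hv, by simp⟩
  have hinj : Set.InjOn r R := by
    intro u hu v hv huv
    rcases lt_trichotomy u v with h | h | h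
    · exact absurd huv (hmono u hu v hv h).ne
    · exact h
    · exact absurd huv (hmono v hv u hu h).ne'
  have himg : R.image r = range R.card := by
    apply Finset.eq_of_subset_of_card_le
    · intro i hi
      obtain ⟨v, hv, rfl⟩ := Finset.mem_image.1 hi
      exact Finset.mem_range.2 (hlt v hv)
    · rw [Finset.card_image_of_injOn hinj, Finset.card_range]
  have hex : ∀ i, ∃ v, i < R.card → v ∈ R ∧ r v = i := by
    intro i
    by_cases hi : i < R.card
    · have : i ∈ R.image r := by rw [himg]; exact Finset.mem_range.2 hi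
      obtain ⟨v, hv, hvi⟩ := Finset.mem_image.1 this
      exact ⟨v, fun _ => ⟨hv, hvi⟩⟩
    · exact ⟨0, fun h => absurd h hi⟩
  choose e he using hex
  refine ⟨e, r, he, ?_, hmono⟩
  intro v hv
  refine ⟨hlt v hv, ?_⟩
  have h := he (r v) (hlt v hv)
  exact hinj h.1 hv h.2

end CTR_

open CTR_ in
theorem pCTR : T_CTR := by
  classical
  intro N par Δ ℓ X hℓ hVT hBD hB
  -- decreasing
  have hltN : ∀ x ∈ X, ∀ j ≤ ℓ, par^[j] x < N := by
    intro x hx j
    induction j with
    | zero => intro _; exact Finset.mem_range.1 (hB.sub hx)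
    | succ j ih =>
      intro hj
      rw [Function.iterate_succ_apply']
      exact (hVT _ (hB.pos x hx j (by omega)) (ih (by omega))).trans (ih (by omega))
  have hstep : ∀ x ∈ X, ∀ j < ℓ, par^[j + 1] x < par^[j] x := by
    intro x hx j hj
    rw [Function.iterate_succ_apply']
    exact hVT _ (hB.pos x hx j hj) (hltN x hx j hj.le)
  have hdec : ∀ x ∈ X, ∀ i j, i < j → j ≤ ℓ → par^[j] x < par^[i] x := by
    intro x hx i j hij
    induction j with
    | zero => omega
    | succ j ih =>
      intro hj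
      rcases Nat.lt_succ_iff_lt_or_eq.mp hij with h | h
      · exact (hstep x hx j (by omega)).trans (ih h (by omega))
      · subst h
        exact hstep x hx i (by omega)
  have hinj : ∀ x ∈ X, ∀ y ∈ X, ∀ i ≤ ℓ, ∀ j ≤ ℓ, par^[i] x = par^[j] y → x = y ∧ i = j := by
    intro x hx y hy i hi j hj h
    have hxy := hB.disj x hx y hy i hi j hj h
    subst hxy
    refine ⟨rfl, ?_⟩
    rcases lt_trichotomy i j with h1 | h1 | h1
    · exact absurd h (hdec x hx i j h1 hj).ne'
    · exact h1
    · exact absurd h (hdec x hx j i h1 hi).ne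
  -- the interior
  set I : Finset ℕ := X.biUnion (fun x => (Finset.Ico 1 ℓ).image (fun j => par^[j] x)) with hI
  have memI : ∀ v, v ∈ I ↔ ∃ x ∈ X, ∃ j, 1 ≤ j ∧ j < ℓ ∧ par^[j] x = v := by
    intro v
    simp only [hI, Finset.mem_biUnion, Finset.mem_image, Finset.mem_Ico]
    constructor
    · rintro ⟨x, hx, j, ⟨h1, h2⟩, h3⟩
      exact ⟨x, hx, j, h1, h2, h3⟩
    · rintro ⟨x, hx, j, h1, h2, h3⟩
      exact ⟨x, hx, j, ⟨h1, h2⟩, h3⟩
  have hIcard : I.card = (ℓ - 1) * X.card := by
    rw [hI, Finset.card_biUnion]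
    · rw [Finset.sum_congr rfl (g := fun _ => ℓ - 1), Finset.sum_const, smul_eq_mul, mul_comm]
      intro x hx
      rw [Finset.card_image_of_injOn, Nat.card_Ico]
      intro i hi j hj h
      simp only [Finset.coe_Ico, Set.mem_Ico] at hi hj
      exact (hinj x hx x hx i hi.2.le j hj.2.le h).2
    · intro x hx y hy hxy
      show Disjoint ((Finset.Ico 1 ℓ).image (fun j => par^[j] x))
        ((Finset.Ico 1 ℓ).image (fun j => par^[j] y))
      rw [Finset.disjoint_left]
      intro v hv hv'
      simp only [Finset.mem_image, Finset.mem_Ico] at hv hv'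
      obtain ⟨i, hi, rfl⟩ := hv
      obtain ⟨j, hj, h⟩ := hv'
      exact hxy (hinj x hx y hy i hi.2.le j hj.2.le h.symm).1
  have hIN : I ⊆ range N := by
    intro v hv
    obtain ⟨x, hx, j, -, h2, rfl⟩ := (memI v).1 hv
    exact Finset.mem_range.2 (hltN x hx j h2.le)
  set R : Finset ℕ := range N \ I with hR
  have memR : ∀ v, v ∈ R ↔ v < N ∧ v ∉ I := by
    intro v
    rw [hR, Finset.mem_sdiff, Finset.mem_range]
  have hXR : ∀ x ∈ X, x ∈ R := by
    intro x hx
    rw [memR]
    refine ⟨Finset.mem_range.1 (hB.sub hx), fun h => ?_⟩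
    obtain ⟨y, hy, j, h1, h2, h3⟩ := (memI x).1 h
    have := (hinj x hx y hy 0 (by omega) j h2.le (by simpa using h3.symm)).2
    omega
  have htopR : ∀ x ∈ X, par^[ℓ] x ∈ R := by
    intro x hx
    rw [memR]
    refine ⟨hltN x hx ℓ le_rfl, fun h => ?_⟩
    obtain ⟨y, hy, j, h1, h2, h3⟩ := (memI _).1 h
    have := (hinj x hx y hy ℓ le_rfl j h2.le h3.symm).2
    omega
  have mem_chd : ∀ (M : ℕ) (pr : ℕ → ℕ) (v w : ℕ), w ∈ chd M pr v ↔ w < M ∧ 0 < w ∧ pr w = v := by
    intro M pr v w
    unfold chd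
    rw [Finset.mem_filter, Finset.mem_range]
  have hparR : ∀ v ∈ R, v ∉ X → 0 < v → par v ∈ R := by
    intro v hv hvX hv0
    have hvN := (memR v).1 hv
    rw [memR]
    refine ⟨(hVT v hv0 hvN.1).trans hvN.1, fun h => ?_⟩
    obtain ⟨x, hx, j, h1, h2, h3⟩ := (memI _).1 h
    have h4 : v ∈ chd N par (par^[j] x) := (mem_chd _ _ _ _).2 ⟨hvN.1, hv0, h3.symm⟩
    rw [hB.one x hx j h1 h2.le, Finset.mem_singleton] at h4
    rcases Nat.eq_zero_or_pos (j - 1) with h5 | h5
    · rw [h5] at h4
      exact hvX (by rw [h4]; exact hx)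
    · exact hvN.2 ((memI v).2 ⟨x, hx, j - 1, h5, by omega, h4.symm⟩)
  obtain ⟨e, r, he, hr, hmono⟩ := enum R
  set N₁ := R.card with hN₁
  set par₁ : ℕ → ℕ := fun i => if e i ∈ X then r (par^[ℓ] (e i)) else r (par (e i)) with hpar₁
  have hrinj : ∀ u ∈ R, ∀ v ∈ R, r u = r v → u = v := by
    intro u hu v hv h
    rw [← (hr u hu).2, ← (hr v hv).2, h]
  have hcard : N₁ + (ℓ - 1) * X.card = N := by
    rw [← hIcard, hN₁, hR, Finset.card_sdiff_of_subset hIN, Finset.card_range]
    have := Finset.card_le_card hIN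
    rw [Finset.card_range] at this
    omega
  have he0 : ∀ i, 0 < i → i < N₁ → 0 < e i := by
    intro i hi hiN
    obtain ⟨h1, h2⟩ := he i hiN
    obtain ⟨h3, h4⟩ := he 0 (by omega)
    rcases lt_trichotomy (e i) (e 0) with h | h | h
    · have := hmono _ h1 _ h3 h
      omega
    · rw [h, h4] at h2
      omega
    · omega
  have hVT₁ : VT N₁ par₁ := by
    intro i hi hiN
    obtain ⟨h1, h2⟩ := he i hiN
    simp only [hpar₁]
    conv_rhs => rw [← h2]
    split_ifs with hX
    · exact hmono _ (htopR _ hX) _ h1 (by simpa using hdec _ hX 0 ℓ (by omega) le_rfl)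
    · exact hmono _ (hparR _ h1 hX (he0 i hi hiN)) _ h1
        (hVT _ (he0 i hi hiN) ((memR _).1 h1).1)
  have hBD₁ : BD N₁ par₁ Δ := by
    intro v
    by_cases htop : ∃ x ∈ X, r (par^[ℓ] x) = v
    · obtain ⟨x, hx, hxv⟩ := htop
      have h1 : chd N₁ par₁ v ⊆ {r x} := by
        intro j hj
        obtain ⟨hjN, hj0, hjv⟩ := (mem_chd _ _ _ _).1 hj
        obtain ⟨h1, h2⟩ := he j hjN
        rw [Finset.mem_singleton]
        simp only [hpar₁] at hjv
        split_ifs at hjv with hX
        · have h3 := hrinj _ (htopR _ hX) _ (htopR _ hx) (hjv.trans hxv.symm)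
          have h4 := (hinj _ hX _ hx ℓ le_rfl ℓ le_rfl h3).1
          rw [← h4, h2]
        · exfalso
          have h3 := hrinj _ (hparR _ h1 hX (he0 j hj0 hjN)) _ (htopR _ hx) (hjv.trans hxv.symm)
          have h4 : e j ∈ chd N par (par^[ℓ] x) :=
            (mem_chd _ _ _ _).2 ⟨((memR _).1 h1).1, he0 j hj0 hjN, h3⟩
          rw [hB.one x hx ℓ (by omega) le_rfl, Finset.mem_singleton] at h4
          exact ((memR _).1 h1).2 ((memI _).2 ⟨x, hx, ℓ - 1, by omega, by omega, h4.symm⟩)
      refine (Finset.card_le_card h1).trans ?_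
      rw [Finset.card_singleton]
      have h2 := hBD (par^[1] x)
      rw [hB.one x hx 1 le_rfl (by omega), Finset.card_singleton] at h2
      exact h2
    · by_cases hvN : v < N₁
      · obtain ⟨hv1, hv2⟩ := he v hvN
        refine le_trans ?_ (hBD (e v))
        apply Finset.card_le_card_of_injOn e
        · intro j hj
          obtain ⟨hjN, hj0, hjv⟩ := (mem_chd _ _ _ _).1 (Finset.mem_coe.1 hj)
          obtain ⟨h1, h2⟩ := he j hjN
          simp only [hpar₁] at hjv
          split_ifs at hjv with hX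
          · exact absurd ⟨e j, hX, hjv⟩ htop
          · refine Finset.mem_coe.2 ((mem_chd _ _ _ _).2 ⟨((memR _).1 h1).1, he0 j hj0 hjN, ?_⟩)
            exact hrinj _ (hparR _ h1 hX (he0 j hj0 hjN)) _ hv1 (hjv.trans hv2.symm)
        · intro i hi j hj hij
          have hi' := ((mem_chd _ _ _ _).1 (Finset.mem_coe.1 hi)).1
          have hj' := ((mem_chd _ _ _ _).1 (Finset.mem_coe.1 hj)).1
          rw [← (he i hi').2, ← (he j hj').2, hij]
      · have h1 : chd N₁ par₁ v = ∅ := by
          rw [Finset.eq_empty_iff_forall_notMem]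
          intro j hj
          obtain ⟨hjN, hj0, hjv⟩ := (mem_chd _ _ _ _).1 hj
          have := hVT₁ j hj0 hjN
          omega
        rw [h1, Finset.card_empty]
        exact Nat.zero_le _
  refine ⟨N₁, par₁, hcard, hVT₁, hBD₁, ?_⟩
  intro V _ H f₁ hf₁
  obtain ⟨hf₁inj, hf₁adj⟩ := hf₁
  have hf₁i : ∀ u ∈ R, ∀ v ∈ R, f₁ (r u) = f₁ (r v) → u = v := by
    intro u hu v hv h
    apply hrinj u hu v hv
    exact hf₁inj (by simpa using (hr u hu).1) (by simpa using (hr v hv).1) h
  refine ⟨fun x => f₁ (r (par^[ℓ] x)), fun x => f₁ (r x),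
    fun x hx => ⟨_, (hr _ (htopR x hx)).1, rfl⟩, fun x hx => ⟨_, (hr _ (hXR x hx)).1, rfl⟩,
    ?_, ?_, ?_, ?_⟩
  · intro x hx y hy h
    exact (hinj x hx y hy ℓ le_rfl ℓ le_rfl (hf₁i _ (htopR x hx) _ (htopR y hy) h)).1
  · intro x hx y hy h
    exact hf₁i _ (hXR x hx) _ (hXR y hy) h
  · intro x hx y hy h
    have h1 := hf₁i _ (htopR x hx) _ (hXR y hy) h
    have := (hinj x hx y hy ℓ le_rfl 0 (by omega) (by simpa using h1)).2
    omega
  · intro S hS hLk
    obtain ⟨l, hl1, hl2, hl3⟩ := hLk
    -- choose representatives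
    have hch : ∀ v, ∃ q : ℕ × ℕ, v ∈ I → q.1 ∈ X ∧ 1 ≤ q.2 ∧ q.2 < ℓ ∧ par^[q.2] q.1 = v := by
      intro v
      by_cases h : v ∈ I
      · obtain ⟨x, hx, j, h1, h2, h3⟩ := (memI v).1 h
        exact ⟨(x, j), fun _ => ⟨hx, h1, h2, h3⟩⟩
      · exact ⟨(0, 0), fun h' => absurd h' h⟩
    choose q hq using hch
    let L : ℕ → List V := fun x => f₁ (r (par^[ℓ] x)) :: (l x ++ [f₁ (r x)])
    have hLlen : ∀ x ∈ X, (L x).length = ℓ + 1 := by
      intro x hx
      have := (hl1 x hx).1
      simp only [L, List.length_cons, List.length_append, List.length_nil]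
      omega
    let f : ℕ → V := fun v => if v ∈ I then (L (q v).1).getD (ℓ - (q v).2) (f₁ 0) else f₁ (r v)
    have hfI : ∀ x ∈ X, ∀ j, 1 ≤ j → j < ℓ → f (par^[j] x) = (L x).getD (ℓ - j) (f₁ 0) := by
      intro x hx j h1 h2
      have hm : par^[j] x ∈ I := (memI _).2 ⟨x, hx, j, h1, h2, rfl⟩
      obtain ⟨h3, h4, h5, h6⟩ := hq _ hm
      obtain ⟨h7, h8⟩ := hinj _ h3 x hx _ h5.le j h2.le h6
      simp only [f, if_pos hm]
      rw [h7, h8]
    have hfR : ∀ v ∈ R, f v = f₁ (r v) := by
      intro v hv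
      simp only [f, if_neg ((memR v).1 hv).2]
    have hfall : ∀ x ∈ X, ∀ j ≤ ℓ, f (par^[j] x) = (L x).getD (ℓ - j) (f₁ 0) := by
      intro x hx j hj
      rcases Nat.eq_zero_or_pos j with h0 | h0
      · subst h0
        simp only [Function.iterate_zero, id_eq, Nat.sub_zero]
        rw [hfR x (hXR x hx)]
        have h1 : ℓ = (l x).length + 1 := ((hl1 x hx).1).symm
        simp only [L]
        rw [h1]
        simp
      · rcases hj.eq_or_lt with h1 | h1
        · subst h1
          rw [hfR _ (htopR x hx), Nat.sub_self]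
          rfl
        · exact hfI x hx j h0 h1
    have hfl : ∀ x ∈ X, ∀ j, 1 ≤ j → j < ℓ → ∃ hlt : ℓ - 1 - j < (l x).length,
        f (par^[j] x) = (l x)[ℓ - 1 - j] := by
      intro x hx j h1 h2
      have hlen := (hl1 x hx).1
      have hlt : ℓ - 1 - j < (l x).length := by omega
      refine ⟨hlt, ?_⟩
      rw [hfI x hx j h1 h2]
      simp only [L]
      have h3 : ℓ - j = (ℓ - 1 - j) + 1 := by omega
      rw [h3, List.getD_cons_succ, List.getD_append _ _ _ _ hlt, List.getD_eq_getElem _ _ hlt]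
    have hfS : ∀ v ∈ I, f v ∈ S := by
      intro v hv
      obtain ⟨x, hx, j, h1, h2, rfl⟩ := (memI v).1 hv
      obtain ⟨h3, h4⟩ := hfl x hx j h1 h2
      rw [h4, hl3]
      exact ⟨x, hx, List.getElem_mem h3⟩
    refine ⟨f, ?_, ?_⟩
    · intro v hv w hw h
      have hv' : v < N := by simpa using hv
      have hw' : w < N := by simpa using hw
      by_cases hvI : v ∈ I
      · by_cases hwI : w ∈ I
        · obtain ⟨x, hx, i, h1, h2, rfl⟩ := (memI v).1 hvI
          obtain ⟨y, hy, j, h3, h4, rfl⟩ := (memI w).1 hwI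
          obtain ⟨h5, h6⟩ := hfl x hx i h1 h2
          obtain ⟨h7, h8⟩ := hfl y hy j h3 h4
          by_cases hxy : x = y
          · subst hxy
            have h9 : (l x)[ℓ - 1 - i] = (l x)[ℓ - 1 - j] := by rw [← h6, ← h8, h]
            have h10 := (List.Nodup.getElem_inj_iff (hl1 x hx).2.1).1 h9
            have : i = j := by omega
            rw [this]
          · exfalso
            have h9 := hl2 x hx y hy hxy
            have h10 : f (par^[i] x) ∈ l x := by rw [h6]; exact List.getElem_mem h5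
            have h11 : f (par^[i] x) ∈ l y := by rw [h, h8]; exact List.getElem_mem h7
            exact h9 h10 h11
        · exfalso
          have hwR : w ∈ R := (memR w).2 ⟨hw', hwI⟩
          have h1 := hfS v hvI
          rw [h, hfR w hwR] at h1
          exact hS _ (hr w hwR).1 h1
      · have hvR : v ∈ R := (memR v).2 ⟨hv', hvI⟩
        by_cases hwI : w ∈ I
        · exfalso
          have h1 := hfS w hwI
          rw [← h, hfR v hvR] at h1
          exact hS _ (hr v hvR).1 h1
        · have hwR : w ∈ R := (memR w).2 ⟨hw', hwI⟩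
          rw [hfR v hvR, hfR w hwR] at h
          exact hf₁i v hvR w hwR h
    · intro i hi0 hiN
      -- adjacency along the blocks
      have hblock : ∀ x ∈ X, ∀ j < ℓ, H.Adj (f (par^[j] x)) (f (par^[j + 1] x)) := by
        intro x hx j hj
        rw [hfall x hx j hj.le, hfall x hx (j + 1) (by omega)]
        have hchain : (L x).IsChain H.Adj := (hl1 x hx).2.2
        have hch := List.isChain_iff_getElem.1 hchain (ℓ - (j + 1))
          (by rw [hLlen x hx]; omega)
        have hlen := hLlen x hx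
        rw [List.getD_eq_getElem _ _ (by omega), List.getD_eq_getElem _ _ (by omega)]
        have h1 : ℓ - (j + 1) + 1 = ℓ - j := by omega
        have h2 := hch.symm
        simp only [h1] at h2
        exact h2
      by_cases hiI : i ∈ I
      · obtain ⟨x, hx, j, h1, h2, rfl⟩ := (memI i).1 hiI
        have := hblock x hx j h2
        rwa [Function.iterate_succ_apply'] at this
      · have hiR : i ∈ R := (memR i).2 ⟨hiN, hiI⟩
        by_cases hiX : i ∈ X
        · have := hblock i hiX 0 (by omega)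
          simpa using this
        · have hpR := hparR i hiR hiX hi0
          rw [hfR i hiR, hfR _ hpR]
          have hlt := hmono _ hpR _ hiR (hVT i hi0 hiN)
          have h1 := hf₁adj (r i) (by omega) (hr i hiR).1
          simp only [hpar₁] at h1
          rw [(hr i hiR).2, if_neg hiX] at h1
          exact h1

end Pool.Agent.RST
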