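import Pool.Agent.RST.Targets

/-!
# RST, target P1: embedding the waste vertices, given the embedding of the exact pieces
-/

set_option autoImplicit false

open Finset

namespace Pool.Agent.RST

namespace P1_

/-- the state of the embedding: `A` is the set of waste vertices embedded so far -/
structure St {V : Type} [DecidableEq V] (H : SimpleGraph V) (W : Finset V) (d m a : ℕ)
    (par : ℕ → ℕ) (E Ws Q : Finset ℕ) (f₀ : ℕ → V) (A : Finset ℕ) (f : ℕ → V)
    (J : Finset (V × V)) (F : Finset V) : Prop where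
  ok : OK H W d m J F
  sub : A ⊆ Ws
  inj : Set.InjOn f (E ∪ A : Finset ℕ)
  f0 : ∀ x ∈ E, f x = f₀ x
  us : used J F = A.image f
  cl : ∀ x ∈ A, x ≠ 0 → par x ∈ E ∪ A
  ch : ∀ q ∈ Q, ∀ i j, 1 ≤ i → i ≤ 2 * a + 1 → 1 ≤ j → j ≤ 2 * a + 1 →
    par^[i] q ∈ A → par^[j] q ∈ A
  adj : ∀ x ∈ A, x ≠ 0 → H.Adj (f x) (f (par x))
  adq : ∀ q ∈ Q, par q ∈ A → H.Adj (f q) (f (par q))
  odb : ∀ x ∈ E ∪ A, od J (f x) ≤ (A.filter (fun y => y ≠ 0 ∧ par y = x)).card +
    (if par x ∈ A ∨ x ∈ A then 1 else 0)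

/-- a vertex of `W` which is not used has outdegree `0` -/
lemma od_zero {V : Type} [DecidableEq V] {H : SimpleGraph V} {W : Finset V} {d m : ℕ}
    {J : Finset (V × V)} {F : Finset V} (h : OK H W d m J F) {v : V} (hv : v ∈ W)
    (hu : v ∉ used J F) : od J v = 0 := by
  unfold od
  rw [Finset.card_eq_zero, Finset.filter_eq_empty_iff]
  intro e he h1
  exact hu (h1 ▸ h.tail e he (h1 ▸ hv))

/-- the number of children grows -/
lemma cnt_mono {par : ℕ → ℕ} {A B : Finset ℕ} (h : A ⊆ B) (x : ℕ) :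
    (A.filter (fun y => y ≠ 0 ∧ par y = x)).card ≤ (B.filter (fun y => y ≠ 0 ∧ par y = x)).card :=
  Finset.card_le_card (Finset.filter_subset_filter _ h)

/-- a new child -/
lemma cnt_new {par : ℕ → ℕ} {A B : Finset ℕ} (h : A ⊆ B) {k : ℕ} (hkA : k ∉ A) (hkB : k ∈ B)
    (hk : k ≠ 0) :
    (A.filter (fun y => y ≠ 0 ∧ par y = par k)).card + 1 ≤
      (B.filter (fun y => y ≠ 0 ∧ par y = par k)).card := by
  apply Nat.succ_le_of_lt
  apply Finset.card_lt_card
  rw [Finset.ssubset_iff_of_subset (Finset.filter_subset_filter _ h)]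
  exact ⟨k, by simp [hkB, hk], by simp [hkA]⟩

lemma ind_mono {par : ℕ → ℕ} {A B : Finset ℕ} (h : A ⊆ B) (x : ℕ) :
    (if par x ∈ A ∨ x ∈ A then 1 else 0) ≤ (if par x ∈ B ∨ x ∈ B then 1 else 0 : ℕ) := by
  by_cases h1 : par x ∈ A ∨ x ∈ A
  · have h2 : par x ∈ B ∨ x ∈ B := by
      rcases h1 with h1 | h1
      · exact Or.inl (h h1)
      · exact Or.inr (h h1)
    rw [if_pos h1, if_pos h2]
  · rw [if_neg h1]; exact Nat.zero_le _

/-- the general extension lemma -/
lemma ext_st {V : Type} [DecidableEq V] {H : SimpleGraph V} {W : Finset V} {d m a : ℕ}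
    {par : ℕ → ℕ} {E Ws Q : Finset ℕ} {f₀ : ℕ → V} {A : Finset ℕ} {f : ℕ → V}
    {J : Finset (V × V)} {F : Finset V} (hQE : Q ⊆ E) (hEW : ∀ x ∈ E, f₀ x ∉ W)
    (hs : St H W d m a par E Ws Q f₀ A f J F)
    (B : Finset ℕ) (f' : ℕ → V) (J' : Finset (V × V)) (F' : Finset V)
    (hok : OK H W d m J' F') (hB : B ⊆ Ws)
    (hff : ∀ x ∈ E ∪ A, f' x = f x) (hBi : Set.InjOn f' B)
    (hBW : ∀ x ∈ B, f' x ∈ W ∧ f' x ∉ used J F)
    (hus : used J' F' = used J F ∪ B.image f')
    (hcl : ∀ x ∈ B, x ≠ 0 → par x ∈ E ∪ (A ∪ B))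
    (hch : ∀ q ∈ Q, ∀ i j, 1 ≤ i → i ≤ 2 * a + 1 → 1 ≤ j → j ≤ 2 * a + 1 →
      par^[i] q ∈ B → par^[j] q ∈ B)
    (hadj : ∀ x ∈ B, x ≠ 0 → H.Adj (f' x) (f' (par x)))
    (hadq : ∀ q ∈ Q, par q ∈ B → H.Adj (f' q) (f' (par q)))
    (hod : ∀ x ∈ E ∪ A, od J' (f x) ≤ ((A ∪ B).filter (fun y => y ≠ 0 ∧ par y = x)).card +
      (if par x ∈ A ∪ B ∨ x ∈ A ∪ B then 1 else 0))
    (hodB : ∀ x ∈ B, od J' (f' x) ≤ 1) :
    St H W d m a par E Ws Q f₀ (A ∪ B) f' J' F' := by
  have hE : ∀ x ∈ E, f' x ∉ W := fun x hx => by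
    rw [hff x (Finset.mem_union_left _ hx), hs.f0 x hx]
    exact hEW x hx
  have hAu : ∀ x ∈ A, f' x ∈ used J F := fun x hx => by
    rw [hff x (Finset.mem_union_right _ hx), hs.us]
    exact Finset.mem_image_of_mem _ hx
  have hnot : ∀ x ∈ E ∪ A, ∀ y ∈ B, f' x ≠ f' y := by
    intro x hx y hy h
    rcases Finset.mem_union.1 hx with h1 | h1
    · exact hE x h1 (h ▸ (hBW y hy).1)
    · exact (hBW y hy).2 (h ▸ hAu x h1)
  have hinj : Set.InjOn f' (E ∪ (A ∪ B) : Finset ℕ) := by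
    intro x hx y hy hxy
    rw [Finset.mem_coe, ← Finset.union_assoc, Finset.mem_union] at hx hy
    rcases hx with hx | hx
    · rcases hy with hy | hy
      · rw [hff x hx, hff y hy] at hxy
        exact hs.inj (Finset.mem_coe.2 hx) (Finset.mem_coe.2 hy) hxy
      · exact absurd hxy (hnot x hx y hy)
    · rcases hy with hy | hy
      · exact absurd hxy.symm (hnot y hy x hx)
      · exact hBi (Finset.mem_coe.2 hx) (Finset.mem_coe.2 hy) hxy
  refine ⟨hok, Finset.union_subset hs.sub hB, hinj, ?_, ?_, ?_, ?_, ?_, ?_, ?_⟩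
  · intro x hx
    rw [hff x (Finset.mem_union_left _ hx), hs.f0 x hx]
  · rw [hus, hs.us, Finset.image_union]
    congr 1
    apply Finset.image_congr
    intro x hx
    exact (hff x (Finset.mem_union_right _ hx)).symm
  · intro x hx h0
    rcases Finset.mem_union.1 hx with h1 | h1
    · have := hs.cl x h1 h0
      rw [← Finset.union_assoc]
      exact Finset.mem_union_left _ this
    · exact hcl x h1 h0
  · intro q hq i j h1 h2 h3 h4 h5
    rcases Finset.mem_union.1 h5 with h6 | h6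
    · exact Finset.mem_union_left _ (hs.ch q hq i j h1 h2 h3 h4 h6)
    · exact Finset.mem_union_right _ (hch q hq i j h1 h2 h3 h4 h6)
  · intro x hx h0
    rcases Finset.mem_union.1 hx with h1 | h1
    · rw [hff x (Finset.mem_union_right _ h1), hff _ (hs.cl x h1 h0)]
      exact hs.adj x h1 h0
    · exact hadj x h1 h0
  · intro q hq h0
    rcases Finset.mem_union.1 h0 with h1 | h1
    · rw [hff q (Finset.mem_union_left _ (hQE hq)), hff _ (Finset.mem_union_right _ h1)]
      exact hs.adq q hq h1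
    · exact hadq q hq h1
  · intro x hx
    rw [← Finset.union_assoc] at hx
    rcases Finset.mem_union.1 hx with h1 | h1
    · rw [hff x h1]
      exact hod x h1
    · have h2 : par x ∈ A ∪ B ∨ x ∈ A ∪ B := Or.inr (Finset.mem_union_right _ h1)
      rw [if_pos h2]
      exact le_trans (hodB x h1) (Nat.le_add_left _ _)

/-- numerical consequences of `WPar` -/
lemma num {V : Type} [DecidableEq V] {H : SimpleGraph V} {W : Finset V} {g : ℝ}
    {d m b a ℓ : ℕ} (hw : WPar H W g d m b a ℓ) {u : ℕ} (hu : 4 * (u : ℝ) ≤ g * W.card) :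
    2 * (u + 2 * m * d) < W.card ∧ m * d + u < W.card := by
  have hd : 6 ≤ d := le_trans (Nat.le_add_left _ _) hw.bd
  have h1 : (1 : ℝ) ≤ m := by exact_mod_cast hw.m1
  have h2 : (6 : ℝ) ≤ d := by exact_mod_cast hd
  have h3 : (6 : ℝ) ≤ m * d := by nlinarith
  have h4 := hw.bud
  have h5 : (0 : ℝ) ≤ 2 * (a : ℝ) * ((m : ℝ) + b) := by positivity
  have h6 : (0 : ℝ) ≤ (ℓ : ℝ) := Nat.cast_nonneg _
  have h7 : 24 * ((m : ℝ) * d) ≤ g * W.card := by nlinarith
  have h8 : (0 : ℝ) ≤ (W.card : ℝ) := Nat.cast_nonneg _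
  have h9 : g * (W.card : ℝ) ≤ 1 / 2 * W.card := mul_le_mul_of_nonneg_right hw.g1 h8
  constructor
  · have : (2 * ((u : ℝ) + 2 * m * d)) < W.card := by nlinarith
    exact_mod_cast this
  · have : (m : ℝ) * d + u < W.card := by nlinarith
    exact_mod_cast this

lemma lg2 {V : Type} {H : SimpleGraph V} {W : Finset V} {g : ℝ}
    {d m b a ℓ : ℕ} (hw : WPar H W g d m b a ℓ) :
    ∀ X : Finset V, m ≤ X.card → W.card ≤ 2 * (nb H X W).card := by
  intro X hX
  have h1 := hw.lg X hX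
  have h2 := hw.g0
  have h8 : (0 : ℝ) ≤ (W.card : ℝ) := Nat.cast_nonneg _
  have : (W.card : ℝ) ≤ 2 * ((nb H X W).card : ℝ) := by nlinarith
  exact_mod_cast this

/-- the outdegree bound in a state -/
lemma od_le {V : Type} [DecidableEq V] {H : SimpleGraph V} {W : Finset V} {d m a : ℕ}
    {par : ℕ → ℕ} {E Ws Q : Finset ℕ} {f₀ : ℕ → V} {A : Finset ℕ} {f : ℕ → V}
    {J : Finset (V × V)} {F : Finset V} {N Δ : ℕ} (hBD : BD N par Δ) (hWs : Ws ⊆ range N)
    (hs : St H W d m a par E Ws Q f₀ A f J F) (x : ℕ) (hx : x ∈ E ∪ A) :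
    od J (f x) ≤ Δ + 1 := by
  refine le_trans (hs.odb x hx) (Nat.add_le_add ?_ (by split_ifs <;> simp))
  refine le_trans (Finset.card_le_card ?_) (hBD x)
  intro y hy
  rw [Finset.mem_filter] at hy
  unfold chd
  rw [Finset.mem_filter]
  exact ⟨hWs (hs.sub hy.1), Nat.pos_of_ne_zero hy.2.1, hy.2.2⟩

/-- the parents along a chain -/
lemma dec {N : ℕ} {par : ℕ → ℕ} (hVT : VT N par) {q D : ℕ} (hq : ∀ j < D, 0 < par^[j] q)
    (hqN : ∀ j ≤ D, par^[j] q < N) : ∀ i j, i < j → j ≤ D → par^[j] q < par^[i] q := by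
  intro i j hij
  induction j with
  | zero => omega
  | succ j ih =>
    intro hj
    have h1 : par^[j + 1] q < par^[j] q := by
      rw [Function.iterate_succ_apply']
      exact hVT _ (hq j (by omega)) (hqN j (by omega))
    rcases Nat.lt_succ_iff_lt_or_eq.1 hij with h | h
    · exact lt_trans h1 (ih h (by omega))
    · rw [h]; exact h1

lemma inj_it {N : ℕ} {par : ℕ → ℕ} (hVT : VT N par) {q D : ℕ} (hq : ∀ j < D, 0 < par^[j] q)
    (hqN : ∀ j ≤ D, par^[j] q < N) {i j : ℕ} (hi : i ≤ D) (hj : j ≤ D)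
    (h : par^[i] q = par^[j] q) : i = j := by
  rcases lt_trichotomy i j with h1 | h1 | h1
  · have := dec hVT hq hqN i j h1 hj; omega
  · exact h1
  · have := dec hVT hq hqN j i h1 hi; omega

/-- the step: the root -/
lemma step_free {V : Type} [Fintype V] [DecidableEq V] (h3 : T_FREE) {H : SimpleGraph V}
    {W : Finset V} {g : ℝ} {d m b a ℓ : ℕ}
    {par : ℕ → ℕ} {E Ws Q : Finset ℕ} {f₀ : ℕ → V} {A : Finset ℕ} {f : ℕ → V}
    {J : Finset (V × V)} {F : Finset V} (hw : WPar H W g d m b a ℓ)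
    (hEWs : Disjoint E Ws) (hQE : Q ⊆ E) (hEW : ∀ x ∈ E, f₀ x ∉ W)
    (hpos : ∀ q ∈ Q, ∀ j < 2 * a + 2, 0 < par^[j] q)
    (hcard : 4 * (Ws.card : ℝ) ≤ g * W.card)
    (hs : St H W d m a par E Ws Q f₀ A f J F) (h0 : 0 ∈ Ws) (h0A : 0 ∉ A) :
    ∃ f' J' F', St H W d m a par E Ws Q f₀ (A ∪ {0}) f' J' F' := by
  have hu : (used J F).card ≤ Ws.card := by
    rw [hs.us]
    exact le_trans Finset.card_image_le (Finset.card_le_card hs.sub)
  have hu' : 4 * ((used J F).card : ℝ) ≤ g * W.card :=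
    le_trans (by exact_mod_cast Nat.mul_le_mul_left 4 hu) hcard
  obtain ⟨hn1, hn2⟩ := num hw hu'
  have hC : m * d < (W \ used J F).card := by
    have := Finset.le_card_sdiff (used J F) W
    omega
  obtain ⟨w, hwC, hok⟩ := h3 V H W d m J F hs.ok hw.m1 (lg2 hw) hn1 (W \ used J F)
    (Finset.Subset.refl _) hC
  rw [Finset.mem_sdiff] at hwC
  have h0E : 0 ∉ E := fun h => (Finset.disjoint_left.1 hEWs h) h0
  refine ⟨Function.update f 0 w, J, insert w F, ?_⟩
  have hff : ∀ x ∈ E ∪ A, Function.update f 0 w x = f x := by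
    intro x hx
    apply Function.update_of_ne
    rintro rfl
    rcases Finset.mem_union.1 hx with h | h
    · exact h0E h
    · exact h0A h
  refine ext_st hQE hEW hs {0} _ _ _ hok (by simpa using h0) hff (by simp) ?_ ?_ ?_ ?_ ?_ ?_ ?_ ?_
  · intro x hx
    rw [Finset.mem_singleton] at hx
    rw [hx, Function.update_self]
    exact hwC
  · unfold used
    simp only [Finset.image_singleton, Function.update_self]
    rw [Finset.union_assoc]
    congr 1
    ext z; simp
  · intro x hx h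
    exact absurd (Finset.mem_singleton.1 hx) h
  · intro q hq i j h1 h2 h4 h5 h6
    have := hpos q hq i (by omega)
    rw [Finset.mem_singleton] at h6
    omega
  · intro x hx h
    exact absurd (Finset.mem_singleton.1 hx) h
  · intro q hq h6
    have := hpos q hq 1 (by omega)
    rw [Finset.mem_singleton] at h6
    simp only [Function.iterate_one] at this
    omega
  · intro x hx
    exact le_trans (hs.odb x hx) (Nat.add_le_add (cnt_mono Finset.subset_union_left x)
      (ind_mono Finset.subset_union_left x))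
  · intro x hx
    rw [Finset.mem_singleton] at hx
    rw [hx, Function.update_self, od_zero hs.ok hwC.1 hwC.2]
    exact Nat.zero_le _

/-- the step: a vertex in no chain -/
lemma step_one {V : Type} [Fintype V] [DecidableEq V] (h2 : T_STEP) {H : SimpleGraph V}
    {W : Finset V} {g : ℝ} {d m b a ℓ N Δ : ℕ}
    {par : ℕ → ℕ} {E Ws Q : Finset ℕ} {f₀ : ℕ → V} {A : Finset ℕ} {f : ℕ → V}
    {J : Finset (V × V)} {F : Finset V} (hw : WPar H W g d m b a ℓ)
    (hBD : BD N par Δ) (hd : b + Δ + 2 ≤ d) (hWs : Ws ⊆ range N)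
    (hEWs : Disjoint E Ws) (hQE : Q ⊆ E) (hEW : ∀ x ∈ E, f₀ x ∉ W)
    (hcard : 4 * (Ws.card : ℝ) ≤ g * W.card)
    (hs : St H W d m a par E Ws Q f₀ A f J F) (k : ℕ) (hk : k ∈ Ws) (hkA : k ∉ A) (hk0 : k ≠ 0)
    (hpk : par k ∈ E ∪ A)
    (hno : ∀ q ∈ Q, ∀ i, 1 ≤ i → i ≤ 2 * a + 1 → par^[i] q ≠ k) :
    ∃ f' J' F', St H W d m a par E Ws Q f₀ (A ∪ {k}) f' J' F' := by
  have hu : (used J F).card ≤ Ws.card := by
    rw [hs.us]
    exact le_trans Finset.card_image_le (Finset.card_le_card hs.sub)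
  have hu' : 4 * ((used J F).card : ℝ) ≤ g * W.card :=
    le_trans (by exact_mod_cast Nat.mul_le_mul_left 4 hu) hcard
  obtain ⟨hn1, hn2⟩ := num hw hu'
  have hou : od J (f (par k)) < d := by
    have := od_le hBD hWs hs (par k) hpk
    omega
  have huW : f (par k) ∈ W → f (par k) ∈ used J F := by
    intro h
    rcases Finset.mem_union.1 hpk with h4 | h4
    · exact absurd h (by rw [hs.f0 _ h4]; exact hEW _ h4)
    · rw [hs.us]; exact Finset.mem_image_of_mem _ h4
  obtain ⟨w, hwW, hwu, hadj, hnJ, hok⟩ := h2 V H W d m J F hs.ok hw.m1 (lg2 hw) hn1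
    (f (par k)) hou huW
  have hkE : k ∉ E := fun h => (Finset.disjoint_left.1 hEWs h) hk
  have hff : ∀ x ∈ E ∪ A, Function.update f k w x = f x := by
    intro x hx
    apply Function.update_of_ne
    rintro rfl
    rcases Finset.mem_union.1 hx with h | h
    · exact hkE h
    · exact hkA h
  have hodn : ∀ v, od (insert (f (par k), w) J) v = od J v + (if v = f (par k) then 1 else 0) := by
    intro v
    unfold od
    rw [Finset.filter_insert]
    by_cases hv : v = f (par k)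
    · rw [if_pos hv.symm, if_pos hv, Finset.card_insert_of_notMem]
      intro h
      exact hnJ (Finset.mem_filter.1 h).1
    · rw [if_neg (fun h => hv h.symm), if_neg hv]
      rfl
  refine ⟨Function.update f k w, insert (f (par k), w) J, F, ?_⟩
  refine ext_st hQE hEW hs {k} _ _ _ hok (by simpa using hk) hff (by simp) ?_ ?_ ?_ ?_ ?_ ?_ ?_ ?_
  · intro x hx
    rw [Finset.mem_singleton] at hx
    rw [hx, Function.update_self]
    exact ⟨hwW, hwu⟩
  · unfold used
    simp only [Finset.image_singleton, Function.update_self, Finset.image_insert]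
    ext z; simp only [Finset.mem_union, Finset.mem_insert, Finset.mem_singleton]; tauto
  · intro x hx h
    rw [Finset.mem_singleton] at hx
    rw [hx, ← Finset.union_assoc]
    exact Finset.mem_union_left _ hpk
  · intro q hq i j h1 h4 h5 h6 h7
    rw [Finset.mem_singleton] at h7
    exact absurd h7 (hno q hq i h1 h4)
  · intro x hx h
    rw [Finset.mem_singleton] at hx
    rw [hx, Function.update_self, hff _ hpk]
    exact hadj.symm
  · intro q hq h6
    rw [Finset.mem_singleton] at h6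
    exact absurd h6 (hno q hq 1 le_rfl (by omega))
  · intro x hx
    rw [hodn]
    by_cases hv : f x = f (par k)
    · have hxk : x = par k := hs.inj (Finset.mem_coe.2 hx) (Finset.mem_coe.2 hpk) hv
      rw [if_pos hv]
      have e1 := hs.odb x hx
      have e2 := ind_mono (par := par) (A := A) (B := A ∪ {k}) Finset.subset_union_left x
      have e3 := cnt_new (par := par) (A := A) (B := A ∪ {k}) Finset.subset_union_left hkA
        (by simp) hk0
      rw [← hxk] at e3
      omega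
    · rw [if_neg hv]
      exact le_trans (hs.odb x hx) (Nat.add_le_add (cnt_mono Finset.subset_union_left x)
        (ind_mono Finset.subset_union_left x))
  · intro x hx
    rw [Finset.mem_singleton] at hx
    rw [hx, Function.update_self, hodn, od_zero hs.ok hwW hwu]
    split_ifs <;> omega

/-- the points of a path as a function -/
lemma path_fun {V : Type} [DecidableEq V] {H : SimpleGraph V} {D : ℕ} {y q : V} {l : List V}
    (h : Pth H D y q l) : ∃ gg : ℕ → V, gg 0 = y ∧ gg D = q ∧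
      (∀ i < D, H.Adj (gg i) (gg (i + 1))) ∧ (∀ i, 1 ≤ i → i < D → gg i ∈ l) ∧
      (∀ i j, 1 ≤ i → i < D → 1 ≤ j → j < D → gg i = gg j → i = j) ∧
      (∀ v ∈ l, ∃ i, 1 ≤ i ∧ i < D ∧ gg i = v) := by
  obtain ⟨hlen, hnd, hch⟩ := h
  have hlen2 : (y :: (l ++ [q])).length = D + 1 := by simp; omega
  have hin : ∀ i, (h1 : 1 ≤ i) → (hi : i < D) → (y :: (l ++ [q])).getD i y = l[i - 1]'(by omega) := by
    intro i h1 h2
    obtain ⟨i', rfl⟩ : ∃ i', i = i' + 1 := ⟨i - 1, by omega⟩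
    rw [List.getD_cons_succ, List.getD_eq_getElem _ _ (by simp; omega),
      List.getElem_append_left (by omega)]
    rfl
  refine ⟨fun i => (y :: (l ++ [q])).getD i y, by simp, ?_, ?_, ?_, ?_, ?_⟩
  · show (y :: (l ++ [q])).getD D y = q
    rw [← hlen, List.getD_cons_succ, List.getD_eq_getElem _ _ (by simp)]
    simp
  · intro i hi
    have := hch.getElem i (by rw [hlen2]; omega)
    show H.Adj ((y :: (l ++ [q])).getD i y) ((y :: (l ++ [q])).getD (i + 1) y)
    rw [List.getD_eq_getElem _ _ (by rw [hlen2]; omega),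
      List.getD_eq_getElem _ _ (by rw [hlen2]; omega)]
    exact this
  · intro i h1 h2
    show (y :: (l ++ [q])).getD i y ∈ l
    rw [hin i h1 h2]
    exact List.getElem_mem _
  · intro i j h1 h2 h3 h4 h5
    change (y :: (l ++ [q])).getD i y = (y :: (l ++ [q])).getD j y at h5
    rw [hin i h1 h2, hin j h3 h4, hnd.getElem_inj_iff] at h5
    omega
  · intro v hv
    obtain ⟨i, hi, rfl⟩ := List.mem_iff_getElem.1 hv
    refine ⟨i + 1, by omega, by omega, ?_⟩
    show (y :: (l ++ [q])).getD (i + 1) y = l[i]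
    rw [hin (i + 1) (by omega) (by omega)]
    rfl

/-- the step: a chain -/
lemma step_conn {V : Type} [Fintype V] [DecidableEq V] (h1 : T_CONN) {H : SimpleGraph V}
    {W : Finset V} {g : ℝ} {d m b a ℓ N Δ : ℕ}
    {par : ℕ → ℕ} {E Ws Q : Finset ℕ} {f₀ : ℕ → V} {A : Finset ℕ} {f : ℕ → V}
    {J : Finset (V × V)} {F : Finset V} (hw : WPar H W g d m b a ℓ) (hVT : VT N par)
    (hBD : BD N par Δ) (hd : b + Δ + 2 ≤ d) (hE : E ⊆ range N) (hWs : Ws ⊆ range N)
    (hEWs : Disjoint E Ws) (hQE : Q ⊆ E) (hEW : ∀ x ∈ E, f₀ x ∉ W)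
    (hpos : ∀ q ∈ Q, ∀ j < 2 * a + 2, 0 < par^[j] q)
    (hcw : ∀ q ∈ Q, ∀ j, 1 ≤ j → j ≤ 2 * a + 2 → par^[j] q ∈ Ws)
    (hexc : ∀ q ∈ Q, ∀ q' ∈ Q, ∀ j j', 1 ≤ j → j ≤ 2 * a + 1 → 1 ≤ j' → j' ≤ 2 * a + 1 →
      par^[j] q = par^[j'] q' → q = q')
    (hcard : 4 * (Ws.card : ℝ) ≤ g * W.card)
    (hs : St H W d m a par E Ws Q f₀ A f J F) (q : ℕ) (hq : q ∈ Q)
    (hnA : ∀ j, 1 ≤ j → j ≤ 2 * a + 1 → par^[j] q ∉ A) (hz : par^[2 * a + 2] q ∈ A) :
    ∃ f' J' F', St H W d m a par E Ws Q f₀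
      (A ∪ (Finset.Icc 1 (2 * a + 1)).image (fun j => par^[j] q)) f' J' F' := by
  have hu : (used J F).card ≤ Ws.card := by
    rw [hs.us]
    exact le_trans Finset.card_image_le (Finset.card_le_card hs.sub)
  have hu' : 4 * ((used J F).card : ℝ) ≤ g * W.card :=
    le_trans (by exact_mod_cast Nat.mul_le_mul_left 4 hu) hcard
  have hqE : q ∈ E := hQE hq
  have hqN : ∀ j ≤ 2 * a + 2, par^[j] q < N := by
    intro j hj
    rcases Nat.eq_zero_or_pos j with h | h
    · rw [h]; exact Finset.mem_range.1 (hE hqE)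
    · exact Finset.mem_range.1 (hWs (hcw q hq j h hj))
  have hit : ∀ {i j : ℕ}, i ≤ 2 * a + 2 → j ≤ 2 * a + 2 → par^[i] q = par^[j] q → i = j :=
    fun hi hj h => inj_it hVT (hpos q hq) hqN hi hj h
  have hqEA : q ∈ E ∪ A := Finset.mem_union_left _ hqE
  have hzEA : par^[2 * a + 2] q ∈ E ∪ A := Finset.mem_union_right _ hz
  have hzq : par^[2 * a + 2] q ≠ q := by
    intro h
    have := hit (i := 2 * a + 2) (j := 0) le_rfl (by omega) h
    omega
  have hyq : f (par^[2 * a + 2] q) ≠ f q := fun h =>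
    hzq (hs.inj (Finset.mem_coe.2 hzEA) (Finset.mem_coe.2 hqEA) h)
  have hyu : f (par^[2 * a + 2] q) ∈ used J F := by
    rw [hs.us]; exact Finset.mem_image_of_mem _ hz
  have hqW : f q ∉ W := by rw [hs.f0 q hqE]; exact hEW q hqE
  have ho1 := od_le hBD hWs hs _ hzEA
  have ho2 := od_le hBD hWs hs _ hqEA
  obtain ⟨l, J', F', hok, hP, hlW, hus, hod1, hod2⟩ := h1 V H W g d m b a ℓ J F hw hs.ok hu'
    (f (par^[2 * a + 2] q)) (f q) hyq (fun _ => hyu) (fun h => absurd h hqW) (by omega)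
    (by omega) (2 * a + 2) le_rfl hw.len
  obtain ⟨gg, hg0, hgD, hgadj, hgl, hginj, hgsur⟩ := path_fun hP
  set B : Finset ℕ := (Finset.Icc 1 (2 * a + 1)).image (fun j => par^[j] q) with hBdef
  have hBmem : ∀ x, x ∈ B ↔ ∃ j, 1 ≤ j ∧ j ≤ 2 * a + 1 ∧ par^[j] q = x := by
    intro x
    rw [hBdef, Finset.mem_image]
    constructor
    · rintro ⟨j, hj, h⟩
      rw [Finset.mem_Icc] at hj
      exact ⟨j, hj.1, hj.2, h⟩
    · rintro ⟨j, h4, h5, h⟩
      exact ⟨j, Finset.mem_Icc.2 ⟨h4, h5⟩, h⟩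
  -- the new function
  obtain ⟨f', hf'1, hf'2⟩ : ∃ f' : ℕ → V, (∀ j ≤ 2 * a + 2, f' (par^[j] q) = gg (2 * a + 2 - j)) ∧
      ∀ x ∈ E ∪ A, f' x = f x := by
    classical
    refine ⟨fun x => if h : ∃ j, j ≤ 2 * a + 2 ∧ par^[j] q = x then
      gg (2 * a + 2 - h.choose) else f x, ?_, ?_⟩
    · intro j hj
      have hex : ∃ i, i ≤ 2 * a + 2 ∧ par^[i] q = par^[j] q := ⟨j, hj, rfl⟩
      have he : hex.choose = j := hit hex.choose_spec.1 hj hex.choose_spec.2
      simp only [dif_pos hex]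
      rw [he]
    · intro x hx
      by_cases hex : ∃ j, j ≤ 2 * a + 2 ∧ par^[j] q = x
      · simp only [dif_pos hex]
        obtain ⟨h4, h5⟩ := hex.choose_spec
        generalize hex.choose = i at h4 h5
        rcases Nat.eq_zero_or_pos i with h6 | h6
        · subst h6
          rw [Nat.sub_zero, hgD]
          rw [← h5]; rfl
        · rcases Nat.lt_or_ge i (2 * a + 2) with h7 | h7
          · exfalso
            rw [← h5] at hx
            rcases Finset.mem_union.1 hx with h8 | h8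
            · exact (Finset.disjoint_left.1 hEWs h8) (hcw q hq i h6 (by omega))
            · exact hnA i h6 (by omega) h8
          · have h8 : i = 2 * a + 2 := by omega
            subst h8
            rw [Nat.sub_self, hg0, h5]
      · simp only [dif_neg hex]
  have hfq : f' q = f q := hf'2 q hqEA
  refine ⟨f', J', F', ?_⟩
  have hparB : ∀ x ∈ B, ∃ j, 1 ≤ j ∧ j ≤ 2 * a + 1 ∧ par^[j] q = x ∧ par x = par^[j + 1] q := by
    intro x hx
    obtain ⟨j, h4, h5, h6⟩ := (hBmem x).1 hx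
    exact ⟨j, h4, h5, h6, by rw [← h6, Function.iterate_succ_apply']⟩
  have hchainB : ∀ q₁ ∈ Q, ∀ i, 1 ≤ i → i ≤ 2 * a + 1 → par^[i] q₁ ∈ B → q₁ = q := by
    intro q₁ hq₁ i h4 h5 h6
    obtain ⟨j, h7, h8, h9⟩ := (hBmem _).1 h6
    exact (hexc q hq q₁ hq₁ j i h7 h8 h4 h5 h9).symm
  have hnl : ∀ x ∈ E ∪ A, f x ∉ l := by
    intro x hx h
    rcases Finset.mem_union.1 hx with h4 | h4
    · exact hEW x h4 (hs.f0 x h4 ▸ (hlW _ h).1)
    · exact (hlW _ h).2 (by rw [hs.us]; exact Finset.mem_image_of_mem _ h4)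
  have hlB : ∀ x ∈ B, f' x ∈ l := by
    intro x hx
    obtain ⟨j, h4, h5, h6⟩ := (hBmem x).1 hx
    rw [← h6, hf'1 j (by omega)]
    exact hgl _ (by omega) (by omega)
  refine ext_st hQE hEW hs B f' J' F' hok ?_ hf'2 ?_ ?_ ?_ ?_ ?_ ?_ ?_ ?_ ?_
  · intro x hx
    obtain ⟨j, h4, h5, h6⟩ := (hBmem x).1 hx
    rw [← h6]
    exact hcw q hq j h4 (by omega)
  · intro x hx y hy hxy
    obtain ⟨i, h4, h5, h6⟩ := (hBmem x).1 (Finset.mem_coe.1 hx)
    obtain ⟨j, h7, h8, h9⟩ := (hBmem y).1 (Finset.mem_coe.1 hy)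
    rw [← h6, ← h9, hf'1 i (by omega), hf'1 j (by omega)] at hxy
    have := hginj _ _ (by omega) (by omega) (by omega) (by omega) hxy
    have hij : i = j := by omega
    rw [← h6, ← h9, hij]
  · intro x hx
    exact hlW _ (hlB x hx)
  · rw [hus]
    congr 1
    ext v
    rw [List.mem_toFinset, Finset.mem_image]
    constructor
    · intro hv
      obtain ⟨i, h4, h5, h6⟩ := hgsur v hv
      refine ⟨par^[2 * a + 2 - i] q, (hBmem _).2 ⟨2 * a + 2 - i, by omega, by omega, rfl⟩, ?_⟩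
      rw [hf'1 _ (by omega), ← h6]
      congr 1
      omega
    · rintro ⟨x, hx, rfl⟩
      exact hlB x hx
  · intro x hx _
    obtain ⟨j, h4, h5, h6, h7⟩ := hparB x hx
    rw [h7, ← Finset.union_assoc]
    rcases Nat.lt_or_ge j (2 * a + 1) with h8 | h8
    · exact Finset.mem_union_right _ ((hBmem _).2 ⟨j + 1, by omega, by omega, rfl⟩)
    · have h9 : j + 1 = 2 * a + 2 := by omega
      rw [h9]
      exact Finset.mem_union_left _ hzEA
  · intro q₁ hq₁ i j h4 h5 h6 h7 h8
    have := hchainB q₁ hq₁ i h4 h5 h8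
    subst this
    exact (hBmem _).2 ⟨j, h6, h7, rfl⟩
  · intro x hx _
    obtain ⟨j, h4, h5, h6, h7⟩ := hparB x hx
    rw [h7, ← h6, hf'1 j (by omega), hf'1 (j + 1) (by omega)]
    have := hgadj (2 * a + 2 - (j + 1)) (by omega)
    have e : 2 * a + 2 - (j + 1) + 1 = 2 * a + 2 - j := by omega
    rw [e] at this
    exact this.symm
  · intro q₁ hq₁ h4
    have := hchainB q₁ hq₁ 1 le_rfl (by omega) h4
    subst this
    have e1 := hf'1 0 (by omega)
    have e2 := hf'1 1 (by omega)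
    simp only [Function.iterate_zero, id, Function.iterate_one, Nat.sub_zero] at e1 e2
    rw [e1, e2]
    have := hgadj (2 * a + 2 - 1) (by omega)
    have e : 2 * a + 2 - 1 + 1 = 2 * a + 2 := by omega
    rw [e] at this
    exact this.symm
  · intro x hx
    have e1 := hs.odb x hx
    have e2 := cnt_mono (par := par) (A := A) (B := A ∪ B) Finset.subset_union_left x
    have e3 := ind_mono (par := par) (A := A) (B := A ∪ B) Finset.subset_union_left x
    by_cases hxz : x = par^[2 * a + 2] q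
    · have e4 := hod1 (f x)
      have e5 := cnt_new (par := par) (A := A) (B := A ∪ B) (k := par^[2 * a + 1] q)
        Finset.subset_union_left (hnA _ (by omega) le_rfl)
        (Finset.mem_union_right _ ((hBmem _).2 ⟨_, by omega, le_rfl, rfl⟩))
        (Nat.pos_iff_ne_zero.1 (hpos q hq _ (by omega)))
      rw [← Function.iterate_succ_apply' par (2 * a + 1) q] at e5
      have e6 : par^[(2 * a + 1).succ] q = x := hxz.symm
      rw [e6] at e5
      omega
    · by_cases hxq : x = q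
      · have e4 := hod1 (f x)
        have e5 : ¬ (par x ∈ A ∨ x ∈ A) := by
          rw [hxq]
          rintro (h | h)
          · exact hnA 1 le_rfl (by omega) h
          · exact (Finset.disjoint_left.1 hEWs hqE) (hs.sub h)
        have e6 : (par x ∈ A ∪ B ∨ x ∈ A ∪ B) := by
          rw [hxq]
          exact Or.inl (Finset.mem_union_right _ ((hBmem _).2 ⟨1, le_rfl, by omega, rfl⟩))
        rw [if_neg e5] at e1
        rw [if_pos e6]
        omega
      · have e4 := hod2 (f x)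
          (fun h => hxz (hs.inj (Finset.mem_coe.2 hx) (Finset.mem_coe.2 hzEA) h))
          (fun h => hxq (hs.inj (Finset.mem_coe.2 hx) (Finset.mem_coe.2 hqEA) h)) (hnl x hx)
        rw [e4]
        omega
  · intro x hx
    have e1 := hlW _ (hlB x hx)
    have e2 := hod1 (f' x)
    rw [od_zero hs.ok e1.1 e1.2] at e2
    exact e2

end P1_

open P1_ in
theorem pP1 (h1 : T_CONN) (h2 : T_STEP) (h3 : T_FREE) : T_P1 := by
  intro V _ _ H W g d m b a ℓ hw hok N par Δ E Ws Q f₀ hVT hBD hd hE hWs hEWs hQE hpw h0 hpos hcw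
    hexc hf0 hEW hcard
  have hstep : ∀ A f J F, St H W d m a par E Ws Q f₀ A f J F → A ≠ Ws →
      ∃ A' f' J' F', St H W d m a par E Ws Q f₀ A' f' J' F' ∧ (Ws \ A').card < (Ws \ A).card := by
    intro A f J F hs hne
    have hex : (Ws \ A).Nonempty := by
      rw [Finset.sdiff_nonempty]
      intro h
      exact hne (Finset.Subset.antisymm hs.sub h)
    set k := (Ws \ A).min' hex with hk
    have hkm : k ∈ Ws \ A := Finset.min'_mem _ _
    have hmin : ∀ x ∈ Ws, x < k → x ∈ A := by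
      intro x hx hlt
      by_contra h
      have := Finset.min'_le (Ws \ A) x (Finset.mem_sdiff.2 ⟨hx, h⟩)
      omega
    rw [Finset.mem_sdiff] at hkm
    have hlt : ∀ B : Finset ℕ, k ∈ B → (Ws \ (A ∪ B)).card < (Ws \ A).card := by
      intro B hB
      apply Finset.card_lt_card
      rw [Finset.ssubset_iff_of_subset (Finset.sdiff_subset_sdiff le_rfl
        Finset.subset_union_left)]
      exact ⟨k, Finset.mem_sdiff.2 hkm, by simp [hB]⟩
    by_cases hk0 : k = 0
    · obtain ⟨f', J', F', h⟩ := step_free h3 hw hEWs hQE hEW hpos hcard hs (hk0 ▸ hkm.1)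
        (hk0 ▸ hkm.2)
      exact ⟨_, f', J', F', h, hlt _ (by simp [hk0])⟩
    · have hkN : k < N := Finset.mem_range.1 (hWs hkm.1)
      by_cases hch : ∃ q ∈ Q, ∃ i, 1 ≤ i ∧ i ≤ 2 * a + 1 ∧ par^[i] q = k
      · obtain ⟨q, hq, i, hi1, hi2, hik⟩ := hch
        have hnA : ∀ j, 1 ≤ j → j ≤ 2 * a + 1 → par^[j] q ∉ A := by
          intro j hj1 hj2 h
          exact hkm.2 (hik ▸ hs.ch q hq j i hj1 hj2 hi1 hi2 h)
        have hqN : ∀ j ≤ 2 * a + 2, par^[j] q < N := by
          intro j hj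
          rcases Nat.eq_zero_or_pos j with h | h
          · rw [h]; exact Finset.mem_range.1 (hE (hQE hq))
          · exact Finset.mem_range.1 (hWs (hcw q hq j h hj))
        have hz : par^[2 * a + 2] q ∈ A := by
          apply hmin _ (hcw q hq _ (by omega) le_rfl)
          rw [← hik]
          exact dec hVT (hpos q hq) hqN i _ (by omega) le_rfl
        obtain ⟨f', J', F', h⟩ := step_conn h1 hw hVT hBD hd hE hWs hEWs hQE hEW hpos hcw hexc
          hcard hs q hq hnA hz
        exact ⟨_, f', J', F', h, hlt _ (Finset.mem_image.2 ⟨i, Finset.mem_Icc.2 ⟨hi1, hi2⟩, hik⟩)⟩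
      · have hpk : par k ∈ E ∪ A := by
          rcases Finset.mem_union.1 (hpw k hkm.1 hk0) with h | h
          · exact Finset.mem_union_left _ h
          · exact Finset.mem_union_right _ (hmin _ h (hVT k (Nat.pos_of_ne_zero hk0) hkN))
        obtain ⟨f', J', F', h⟩ := step_one h2 hw hBD hd hWs hEWs hQE hEW hcard hs k hkm.1 hkm.2 hk0
          hpk (fun q hq i h1 h2 h => hch ⟨q, hq, i, h1, h2, h⟩)
        exact ⟨_, f', J', F', h, hlt _ (by simp)⟩
  have hall : ∀ n : ℕ, ∀ A f J F, St H W d m a par E Ws Q f₀ A f J F → (Ws \ A).card = n →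
      ∃ f J F, St H W d m a par E Ws Q f₀ Ws f J F := by
    intro n
    induction n using Nat.strong_induction_on with
    | _ n ih =>
      intro A f J F hs hn
      by_cases hA : A = Ws
      · subst hA
        exact ⟨f, J, F, hs⟩
      · obtain ⟨A', f', J', F', hs', hlt⟩ := hstep A f J F hs hA
        exact ih _ (hn ▸ hlt) A' f' J' F' hs' rfl
  have hinit : St H W d m a par E Ws Q f₀ ∅ f₀ ∅ ∅ := by
    refine ⟨hok, Finset.empty_subset _, by simpa using hf0, fun _ _ => rfl, by simp [used], ?_, ?_,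
      ?_, ?_, ?_⟩
    · intro x hx; simp at hx
    · intro q hq i j _ _ _ _ h; simp at h
    · intro x hx; simp at hx
    · intro q hq h; simp at h
    · intro x hx; simp [od]
  obtain ⟨f, J, F, hs⟩ := hall _ ∅ f₀ ∅ ∅ hinit rfl
  refine ⟨f, hs.inj, hs.f0, ?_, hs.adj, ?_⟩
  · intro x hx
    apply hs.ok.sub
    rw [hs.us]
    exact Finset.mem_image_of_mem _ hx
  · intro q hq
    exact hs.adq q hq (hcw q hq 1 le_rfl (by omega))

end Pool.Agent.RST
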