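import Pool.Agent.RST.Targets

/-!
# RST: decomposition of a tree with pieces of bounded size
-/

set_option autoImplicit false

open Finset

namespace Pool.Agent.RST

namespace CUT_

/-! ### unions -/

lemma dcp_union {D : ℕ} {par : ℕ → ℕ} {C C1 C2 E1 E2 Q1 Q2 : Finset ℕ} (hC : C = C1 ∪ C2)
    (hd : Disjoint C1 C2) (h1 : Dcp D par C1 E1 Q1) (h2 : Dcp D par C2 E2 Q2) :
    Dcp D par C (E1 ∪ E2) (Q1 ∪ Q2) := by
  subst hC
  have hd' : ∀ x, x ∈ C1 → x ∈ C2 → False := fun x a b => Finset.disjoint_left.1 hd a b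
  refine ⟨Finset.union_subset_union h1.EC h2.EC, Finset.union_subset_union h1.QE h2.QE,
    ?_, ?_, ?_, ?_⟩
  · intro x hx hxQ
    rw [mem_union] at hx hxQ
    rcases hx with hx | hx
    · obtain ⟨a, b⟩ := h1.up x hx fun h => hxQ (Or.inl h)
      exact ⟨a, mem_union_left _ b⟩
    · obtain ⟨a, b⟩ := h2.up x hx fun h => hxQ (Or.inr h)
      exact ⟨a, mem_union_right _ b⟩
  · intro q hq
    rcases mem_union.1 hq with hq | hq
    · exact h1.pos q hq
    · exact h2.pos q hq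
  · intro q hq j hj1 hj2
    rcases mem_union.1 hq with hq | hq
    · have := mem_sdiff.1 (h1.chain q hq j hj1 hj2)
      refine mem_sdiff.2 ⟨mem_union_left _ this.1, fun h => ?_⟩
      rcases mem_union.1 h with h | h
      · exact this.2 h
      · exact hd' _ this.1 (h2.EC h)
    · have := mem_sdiff.1 (h2.chain q hq j hj1 hj2)
      refine mem_sdiff.2 ⟨mem_union_right _ this.1, fun h => ?_⟩
      rcases mem_union.1 h with h | h
      · exact hd' _ (h1.EC h) this.1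
      · exact this.2 h
  · intro q hq q' hq' j j' hj1 hj2 hj1' hj2' he
    rcases mem_union.1 hq with hq | hq <;> rcases mem_union.1 hq' with hq' | hq'
    · exact h1.excl q hq q' hq' j j' hj1 hj2 hj1' hj2' he
    · exfalso
      have a := (mem_sdiff.1 (h1.chain q hq j hj1 hj2)).1
      have b := (mem_sdiff.1 (h2.chain q' hq' j' hj1' hj2')).1
      rw [he] at a
      exact hd' _ a b
    · exfalso
      have a := (mem_sdiff.1 (h2.chain q hq j hj1 hj2)).1
      have b := (mem_sdiff.1 (h1.chain q' hq' j' hj1' hj2')).1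
      rw [he] at a
      exact hd' _ b a
    · exact h2.excl q hq q' hq' j j' hj1 hj2 hj1' hj2' he

/-- a piece of the first set stays in the first set -/
lemma piece {D : ℕ} {par : ℕ → ℕ} {C1 C2 E1 E2 Q1 Q2 : Finset ℕ}
    (hd : Disjoint C1 C2) (h1 : Dcp D par C1 E1 Q1) (h2 : Dcp D par C2 E2 Q2)
    {q x j : ℕ} (hq : q ∈ Q1) (hj : par^[j] x = q)
    (hx : ∀ i < j, par^[i] x ∈ E1 ∪ E2 ∧ par^[i] x ∉ Q1 ∪ Q2) :
    ∀ i < j, par^[i] x ∈ E1 ∧ par^[i] x ∉ Q1 := by
  have key : ∀ m i, i + m = j → par^[i] x ∈ E2 → False := by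
    intro m
    induction m with
    | zero =>
      intro i hi h
      rw [add_zero] at hi
      rw [hi, hj] at h
      exact Finset.disjoint_left.1 hd (h1.EC (h1.QE hq)) (h2.EC h)
    | succ m ih =>
      intro i hi h
      have h3 := (hx i (by omega)).2
      have h4 := (h2.up _ h fun h' => h3 (mem_union_right _ h')).2
      rw [← Function.iterate_succ_apply' par i x] at h4
      exact ih (i + 1) (by omega) h4
  intro i hi
  obtain ⟨a, b⟩ := hx i hi
  refine ⟨?_, fun h => b (mem_union_left _ h)⟩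
  rcases mem_union.1 a with a | a
  · exact a
  · exact absurd a fun a => key (j - i) i (by omega) a

lemma ps_union {D S : ℕ} {par : ℕ → ℕ} {C1 C2 E1 E2 Q1 Q2 : Finset ℕ}
    (hd : Disjoint C1 C2) (h1 : Dcp D par C1 E1 Q1) (h2 : Dcp D par C2 E2 Q2)
    (g1 : PS par E1 Q1 S) (g2 : PS par E2 Q2 S) : PS par (E1 ∪ E2) (Q1 ∪ Q2) S := by
  intro q hq P hP
  rcases mem_union.1 hq with hq | hq
  · apply g1 q hq P
    intro x hx
    obtain ⟨j, hj, h⟩ := hP x hx
    exact ⟨j, hj, piece hd h1 h2 hq hj h⟩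
  · apply g2 q hq P
    intro x hx
    obtain ⟨j, hj, h⟩ := hP x hx
    refine ⟨j, hj, piece hd.symm h2 h1 hq hj ?_⟩
    rw [union_comm E2, union_comm Q2]
    exact h

lemma ps_small {D S : ℕ} {par : ℕ → ℕ} {C E Q : Finset ℕ} (h : Dcp D par C E Q)
    (hS : C.card ≤ S) : PS par E Q S := by
  intro q hq P hP
  refine le_trans (card_le_card fun x hx => ?_) hS
  obtain ⟨j, hj, h'⟩ := hP x hx
  rcases Nat.eq_zero_or_pos j with h0 | h0
  · subst h0
    rw [Function.iterate_zero, id_eq] at hj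
    rw [hj]
    exact h.EC (h.QE hq)
  · exact h.EC (h' 0 h0).1

/-! ### descendants -/

open Classical in
/-- the descendants of `v` in the region `(C, c)` -/
noncomputable def des (par : ℕ → ℕ) (C : Finset ℕ) (c v : ℕ) : Finset ℕ :=
  C.filter (fun x => ∃ j, par^[j] x = v ∧ ∀ i < j, par^[i] x ∈ C ∧ par^[i] x ≠ c)

lemma mem_des {par : ℕ → ℕ} {C : Finset ℕ} {c v x : ℕ} : x ∈ des par C c v ↔
    x ∈ C ∧ ∃ j, par^[j] x = v ∧ ∀ i < j, par^[i] x ∈ C ∧ par^[i] x ≠ c := by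
  simp only [des, mem_filter]

lemma des_ne {par : ℕ → ℕ} {C : Finset ℕ} {c v x : ℕ} (hx : x ∈ des par C c v) (hxv : x ≠ v) :
    x ≠ c := by
  obtain ⟨-, j, hj, h⟩ := mem_des.1 hx
  rcases Nat.eq_zero_or_pos j with h0 | h0
  · subst h0
    exact absurd hj hxv
  · exact (h 0 h0).2

lemma des_par {par : ℕ → ℕ} {C : Finset ℕ} {c v x : ℕ} (hC : Reg par C c)
    (hx : x ∈ des par C c v) (hxv : x ≠ v) :
    par x < x ∧ par x ∈ des par C c v := by
  have hne := des_ne hx hxv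
  obtain ⟨hxC, j, hj, h⟩ := mem_des.1 hx
  obtain ⟨a, b⟩ := hC.2 x hxC hne
  refine ⟨a, mem_des.2 ⟨b, ?_⟩⟩
  rcases Nat.eq_zero_or_pos j with h0 | h0
  · subst h0
    exact absurd hj hxv
  · obtain ⟨j, rfl⟩ : ∃ j', j = j' + 1 := ⟨j - 1, by omega⟩
    refine ⟨j, hj, fun i hi => h (i + 1) (by omega)⟩

lemma des_child {par : ℕ → ℕ} {C : Finset ℕ} {c v x : ℕ} (hxC : x ∈ C) (hxc : x ≠ c)
    (hx : par x ∈ des par C c v) : x ∈ des par C c v := by
  obtain ⟨-, j, hj, h⟩ := mem_des.1 hx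
  refine mem_des.2 ⟨hxC, j + 1, hj, fun i hi => ?_⟩
  rcases Nat.eq_zero_or_pos i with h0 | h0
  · subst h0
    exact ⟨hxC, hxc⟩
  · obtain ⟨i, rfl⟩ : ∃ i', i = i' + 1 := ⟨i - 1, by omega⟩
    exact h i (by omega)

lemma des_self {par : ℕ → ℕ} {C : Finset ℕ} {c v : ℕ} (hv : v ∈ C) : v ∈ des par C c v :=
  mem_des.2 ⟨hv, 0, rfl, fun i hi => absurd hi (Nat.not_lt_zero i)⟩

lemma des_root {par : ℕ → ℕ} {C : Finset ℕ} {c : ℕ} (hC : Reg par C c) :
    des par C c c = C := by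
  refine Finset.Subset.antisymm (fun x hx => (mem_des.1 hx).1) ?_
  intro x
  induction x using Nat.strong_induction_on with
  | _ x ih =>
    intro hx
    by_cases hxc : x = c
    · rw [hxc]
      exact des_self hC.1
    · obtain ⟨a, b⟩ := hC.2 x hx hxc
      exact des_child hx hxc (ih _ a b)

lemma reg_des {par : ℕ → ℕ} {C : Finset ℕ} {c v : ℕ} (hC : Reg par C c) (hv : v ∈ C) :
    Reg par (des par C c v) v :=
  ⟨des_self hv, fun _ hx hxv => des_par hC hx hxv⟩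

lemma reg_sdiff {par : ℕ → ℕ} {C : Finset ℕ} {c v : ℕ} (hC : Reg par C c) (hv : v ≠ c) :
    Reg par (C \ des par C c v) c := by
  refine ⟨mem_sdiff.2 ⟨hC.1, fun h => des_ne h hv.symm rfl⟩, fun x hx hxc => ?_⟩
  obtain ⟨a, b⟩ := mem_sdiff.1 hx
  obtain ⟨d, e⟩ := hC.2 x a hxc
  exact ⟨d, mem_sdiff.2 ⟨e, fun h => b (des_child a hxc h)⟩⟩

/-- a heavy child -/
lemma heavy {par : ℕ → ℕ} {C : Finset ℕ} {c u Δ S0 : ℕ} (hS0 : 1 ≤ S0) (hΔ : 1 ≤ Δ)
    (hdeg : ∀ v, (C.filter (fun x => x ≠ c ∧ par x = v)).card ≤ Δ)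
    (hu : Δ * S0 < (des par C c u).card) :
    ∃ y ∈ C, y ≠ c ∧ par y = u ∧ S0 ≤ (des par C c y).card := by
  classical
  by_contra hcon
  push Not at hcon
  have hsub : des par C c u ⊆
      insert u ((C.filter (fun x => x ≠ c ∧ par x = u)).biUnion fun y => des par C c y) := by
    intro x hx
    obtain ⟨hxC, j, hj, h⟩ := mem_des.1 hx
    rcases Nat.eq_zero_or_pos j with h0 | h0
    · subst h0
      rw [Function.iterate_zero, id_eq] at hj
      rw [hj]
      exact mem_insert_self _ _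
    · obtain ⟨j, rfl⟩ : ∃ j', j = j' + 1 := ⟨j - 1, by omega⟩
      apply mem_insert_of_mem
      rw [mem_biUnion]
      refine ⟨par^[j] x, mem_filter.2 ⟨(h j (by omega)).1, (h j (by omega)).2, ?_⟩, ?_⟩
      · rw [← Function.iterate_succ_apply' par j x]
        exact hj
      · exact mem_des.2 ⟨hxC, j, rfl, fun i hi => h i (by omega)⟩
  have h1 := card_le_card hsub
  have h2 := card_insert_le u
    ((C.filter (fun x => x ≠ c ∧ par x = u)).biUnion fun y => des par C c y)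
  have h3 : ((C.filter (fun x => x ≠ c ∧ par x = u)).biUnion fun y => des par C c y).card ≤
      Δ * (S0 - 1) := by
    refine (card_biUnion_le_card_mul _ _ (S0 - 1) ?_).trans (Nat.mul_le_mul_right _ (hdeg u))
    intro y hy
    obtain ⟨a, b, d⟩ := mem_filter.1 hy
    have := hcon y a b d
    omega
  have h4 : Δ * (S0 - 1) + Δ = Δ * S0 := by
    obtain ⟨s, rfl⟩ : ∃ s, S0 = s + 1 := ⟨S0 - 1, by omega⟩
    rw [Nat.add_sub_cancel]
    ring
  omega

/-- a subtree of moderate size -/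
lemma moderate {par : ℕ → ℕ} {C : Finset ℕ} {c Δ S0 : ℕ} (hS0 : 1 ≤ S0) (hΔ : 1 ≤ Δ)
    (hC : Reg par C c) (hdeg : ∀ v, (C.filter (fun x => x ≠ c ∧ par x = v)).card ≤ Δ)
    (hu : Δ * S0 < C.card) :
    ∃ v ∈ C, v ≠ c ∧ S0 ≤ (des par C c v).card ∧ (des par C c v).card ≤ Δ * S0 := by
  classical
  set V : Finset ℕ := C.filter (fun v => v ≠ c ∧ S0 ≤ (des par C c v).card) with hV
  have hne : V.Nonempty := by
    obtain ⟨y, a, b, -, d⟩ := heavy (par := par) (C := C) (c := c) (u := c) hS0 hΔ hdeg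
      (by rw [des_root hC]; exact hu)
    exact ⟨y, mem_filter.2 ⟨a, b, d⟩⟩
  obtain ⟨a, b, d⟩ := mem_filter.1 (V.max'_mem hne)
  refine ⟨V.max' hne, a, b, d, ?_⟩
  by_contra hcon
  push Not at hcon
  obtain ⟨y, a', b', e', d'⟩ := heavy hS0 hΔ hdeg hcon
  have h1 := V.le_max' y (mem_filter.2 ⟨a', b', d'⟩)
  have h2 := (hC.2 y a' b').1
  rw [e'] at h2
  omega

/-! ### the induction -/

lemma main {Δ D A k S0 : ℕ} {ε : ℝ} (hε : 0 < ε) (hΔ : 1 ≤ Δ) (hS0 : 1 ≤ S0)
    (hA : ∀ (par : ℕ → ℕ) (C : Finset ℕ) (c : ℕ), Reg par C c →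
      (∀ v, (C.filter (fun x => x ≠ c ∧ par x = v)).card ≤ Δ) →
      ∃ E Q : Finset ℕ, Dcp D par C E Q ∧ c ∉ E ∧
        ((C \ E).card : ℝ) ≤ (1 - 1 / (2 * (Δ : ℝ)) ^ D) ^ k * C.card + A)
    (hk : (1 - 1 / (2 * (Δ : ℝ)) ^ D) ^ k ≤ ε / 2) (hAS : (A : ℝ) ≤ ε / 2 * S0)
    (par : ℕ → ℕ) : ∀ (N : ℕ) (C : Finset ℕ) (c : ℕ), C.card = N → Reg par C c →
      (∀ v, (C.filter (fun x => x ≠ c ∧ par x = v)).card ≤ Δ) →
      ∃ E Q : Finset ℕ, Dcp D par C E Q ∧ PS par E Q (Δ * S0) ∧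
        ((C \ E).card : ℝ) ≤ ε * C.card + S0 := by
  classical
  have hmed : ∀ (C : Finset ℕ) (c : ℕ), Reg par C c →
      (∀ v, (C.filter (fun x => x ≠ c ∧ par x = v)).card ≤ Δ) → S0 ≤ C.card →
      C.card ≤ Δ * S0 → ∃ E Q : Finset ℕ, Dcp D par C E Q ∧ PS par E Q (Δ * S0) ∧
        ((C \ E).card : ℝ) ≤ ε * C.card := by
    intro C c hC hdeg h1 h2
    obtain ⟨E, Q, h3, -, h4⟩ := hA par C c hC hdeg
    refine ⟨E, Q, h3, ps_small h3 h2, h4.trans ?_⟩
    have h5 : (S0 : ℝ) ≤ C.card := by exact_mod_cast h1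
    have h6 : (1 - 1 / (2 * (Δ : ℝ)) ^ D) ^ k * (C.card : ℝ) ≤ ε / 2 * C.card :=
      mul_le_mul_of_nonneg_right hk (Nat.cast_nonneg _)
    have h7 : ε / 2 * (S0 : ℝ) ≤ ε / 2 * C.card := mul_le_mul_of_nonneg_left h5 (by linarith)
    linarith
  intro N
  induction N using Nat.strong_induction_on with
  | _ N ih =>
    intro C c hN hC hdeg
    rcases lt_or_ge C.card S0 with h1 | h1
    · refine ⟨∅, ∅, ⟨by simp, by simp, by simp, by simp, by simp, by simp⟩, ?_, ?_⟩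
      · intro q hq
        exact absurd hq (notMem_empty q)
      · rw [sdiff_empty]
        have h2 : (C.card : ℝ) ≤ S0 := by exact_mod_cast h1.le
        have h3 : 0 ≤ ε * (C.card : ℝ) := by positivity
        linarith
    · rcases le_or_gt C.card (Δ * S0) with h2 | h2
      · obtain ⟨E, Q, h3, h4, h5⟩ := hmed C c hC hdeg h1 h2
        refine ⟨E, Q, h3, h4, h5.trans ?_⟩
        have : (0 : ℝ) ≤ S0 := Nat.cast_nonneg _
        linarith
      · obtain ⟨v, hv1, hv2, hv3, hv4⟩ := moderate hS0 hΔ hC hdeg h2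
        set C1 := des par C c v with hC1
        have hsub : C1 ⊆ C := fun x hx => (mem_des.1 hx).1
        have hdeg1 : ∀ u, (C1.filter (fun x => x ≠ v ∧ par x = u)).card ≤ Δ := by
          intro u
          refine (card_le_card fun x hx => ?_).trans (hdeg u)
          obtain ⟨a, b, d⟩ := mem_filter.1 hx
          exact mem_filter.2 ⟨hsub a, des_ne a b, d⟩
        have hdeg2 : ∀ u, ((C \ C1).filter (fun x => x ≠ c ∧ par x = u)).card ≤ Δ := by
          intro u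
          refine (card_le_card fun x hx => ?_).trans (hdeg u)
          obtain ⟨a, b, d⟩ := mem_filter.1 hx
          exact mem_filter.2 ⟨(mem_sdiff.1 a).1, b, d⟩
        obtain ⟨E1, Q1, a1, a2, a3⟩ := hmed C1 v (reg_des hC hv1) hdeg1 hv3 hv4
        have hcard : (C \ C1).card + C1.card = C.card := card_sdiff_add_card_eq_card hsub
        obtain ⟨E2, Q2, b1, b2, b3⟩ := ih (C \ C1).card (by omega) (C \ C1) c rfl
          (reg_sdiff hC hv2) hdeg2
        have hd : Disjoint C1 (C \ C1) := disjoint_sdiff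
        have hu : C = C1 ∪ (C \ C1) := (union_sdiff_of_subset hsub).symm
        refine ⟨E1 ∪ E2, Q1 ∪ Q2, dcp_union hu hd a1 b1, ps_union hd a1 b1 a2 b2, ?_⟩
        have h3 : C \ (E1 ∪ E2) ⊆ (C1 \ E1) ∪ ((C \ C1) \ E2) := by
          intro x hx
          obtain ⟨a, b⟩ := mem_sdiff.1 hx
          rw [mem_union] at b
          push Not at b
          by_cases h : x ∈ C1
          · exact mem_union_left _ (mem_sdiff.2 ⟨h, b.1⟩)
          · exact mem_union_right _ (mem_sdiff.2 ⟨mem_sdiff.2 ⟨a, h⟩, b.2⟩)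
        have h4 : (C \ (E1 ∪ E2)).card ≤ (C1 \ E1).card + ((C \ C1) \ E2).card :=
          (card_le_card h3).trans (card_union_le _ _)
        have h5 : ((C \ (E1 ∪ E2)).card : ℝ) ≤ (C1 \ E1).card + ((C \ C1) \ E2).card := by
          exact_mod_cast h4
        have h6 : ((C \ C1).card : ℝ) + C1.card = C.card := by exact_mod_cast hcard
        calc ((C \ (E1 ∪ E2)).card : ℝ) ≤ (C1 \ E1).card + ((C \ C1) \ E2).card := h5
          _ ≤ ε * C1.card + (ε * (C \ C1).card + S0) := add_le_add a3 b3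
          _ = ε * (((C \ C1).card : ℝ) + C1.card) + S0 := by ring
          _ = ε * C.card + S0 := by rw [h6]

end CUT_

theorem pCUT (h : T_REG) : T_CUT := by
  intro Δ D hΔ hD ε hε
  have hΔ' : (1 : ℝ) ≤ Δ := by exact_mod_cast hΔ
  have hc1 : 0 < 1 / (2 * (Δ : ℝ)) ^ D := by positivity
  have hc2 : 1 / (2 * (Δ : ℝ)) ^ D ≤ 1 := by
    rw [div_le_one (by positivity)]
    exact one_le_pow₀ (by linarith)
  obtain ⟨k, hk⟩ := exists_pow_lt_of_lt_one (show 0 < ε / 2 by linarith)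
    (show 1 - 1 / (2 * (Δ : ℝ)) ^ D < 1 by linarith)
  obtain ⟨A, hA⟩ := h Δ D hΔ hD k
  obtain ⟨S1, hS1⟩ := exists_nat_ge ((A : ℝ) / (ε / 2))
  set S0 : ℕ := S1 + 1 with hS0
  have hAS : (A : ℝ) ≤ ε / 2 * S0 := by
    rw [div_le_iff₀ (by linarith)] at hS1
    rw [hS0]
    push_cast
    have : 0 < ε / 2 := by linarith
    nlinarith
  have hS01 : 1 ≤ S0 := by omega
  refine ⟨Δ * S0, ?_⟩
  intro N par hVT hBD
  rcases Nat.eq_zero_or_pos N with hN | hN
  · subst hN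
    refine ⟨∅, ∅, ⟨by simp, by simp, by simp, by simp, by simp, by simp⟩, ?_, ?_⟩
    · intro q hq
      exact absurd hq (notMem_empty q)
    · rw [range_zero, sdiff_empty, card_empty]
      push_cast
      positivity
  · have hReg : Reg par (range N) 0 := by
      refine ⟨mem_range.2 hN, fun x hx hx0 => ?_⟩
      have h1 := hVT x (Nat.pos_of_ne_zero hx0) (mem_range.1 hx)
      exact ⟨h1, mem_range.2 (h1.trans (mem_range.1 hx))⟩
    have hdeg : ∀ v, ((range N).filter (fun x => x ≠ 0 ∧ par x = v)).card ≤ Δ := by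
      intro v
      refine (card_le_card fun x hx => ?_).trans (hBD v)
      obtain ⟨a, b, d⟩ := mem_filter.1 hx
      exact mem_filter.2 ⟨a, Nat.pos_of_ne_zero b, d⟩
    obtain ⟨E, Q, h1, h2, h3⟩ := CUT_.main hε hΔ hS01 hA hk.le hAS par N (range N) 0
      (card_range N) hReg hdeg
    refine ⟨E, Q, h1, h2, h3.trans ?_⟩
    rw [card_range]
    have h4 : (S0 : ℝ) ≤ ((Δ * S0 : ℕ) : ℝ) := by
      have : S0 ≤ Δ * S0 := Nat.le_mul_of_pos_left _ hΔ
      exact_mod_cast this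
    linarith

end Pool.Agent.RST
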