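import Pool.Agent.RST.Targets

/-!
# DEC: decomposition of a tree with few abundant types of pieces
-/

set_option autoImplicit false

open Finset

namespace Pool.Agent.RST

namespace DEC_

/-- The root of the piece of `x`. -/
private def top (par : ℕ → ℕ) (Q : Finset ℕ) (x : ℕ) : ℕ :=
  if h : x ∉ Q ∧ par x < x then top par Q (par x) else x
termination_by x
decreasing_by exact h.2

private lemma top_of_mem {par : ℕ → ℕ} {Q : Finset ℕ} {x : ℕ} (h : x ∈ Q) : top par Q x = x := by
  rw [top, dif_neg]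
  exact fun h' => h'.1 h

private lemma top_of_lt {par : ℕ → ℕ} {Q : Finset ℕ} {x : ℕ} (h : x ∉ Q) (h1 : par x < x) :
    top par Q x = top par Q (par x) := by
  rw [top, dif_pos ⟨h, h1⟩]

variable {D N : ℕ} {par : ℕ → ℕ} {E Q : Finset ℕ}

private lemma top_mem (h : Dcp D par (range N) E Q) : ∀ x ∈ E, top par Q x ∈ Q := by
  intro x
  induction x using Nat.strong_induction_on with
  | _ x ih =>
    intro hx
    by_cases hq : x ∈ Q
    · rw [top_of_mem hq]; exact hq
    · obtain ⟨h1, h2⟩ := h.up x hx hq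
      rw [top_of_lt hq h1]
      exact ih _ h1 h2

private lemma top_le (h : Dcp D par (range N) E Q) : ∀ x ∈ E, top par Q x ≤ x := by
  intro x
  induction x using Nat.strong_induction_on with
  | _ x ih =>
    intro hx
    by_cases hq : x ∈ Q
    · rw [top_of_mem hq]
    · obtain ⟨h1, h2⟩ := h.up x hx hq
      rw [top_of_lt hq h1]
      exact (ih _ h1 h2).trans h1.le

private lemma top_chain (h : Dcp D par (range N) E Q) : ∀ x ∈ E, ∃ j, par^[j] x = top par Q x ∧
    ∀ i < j, par^[i] x ∈ E ∧ par^[i] x ∉ Q := by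
  intro x
  induction x using Nat.strong_induction_on with
  | _ x ih =>
    intro hx
    by_cases hq : x ∈ Q
    · exact ⟨0, by rw [top_of_mem hq]; rfl, by intro i hi; omega⟩
    · obtain ⟨h1, h2⟩ := h.up x hx hq
      obtain ⟨j, h3, h4⟩ := ih _ h1 h2
      refine ⟨j + 1, ?_, ?_⟩
      · rw [top_of_lt hq h1, Function.iterate_succ_apply]
        exact h3
      · intro i hi
        rcases Nat.eq_zero_or_pos i with h5 | h5
        · subst h5; exact ⟨hx, hq⟩
        · obtain ⟨i', rfl⟩ : ∃ i', i = i' + 1 := ⟨i - 1, by omega⟩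
          rw [Function.iterate_succ_apply]
          exact h4 i' (by omega)

private lemma top_top (h : Dcp D par (range N) E Q) {x : ℕ} (hx : x ∈ E) :
    top par Q (top par Q x) = top par Q x := top_of_mem (top_mem h x hx)

/-- The rank of `x` in its piece. -/
private def rk (par : ℕ → ℕ) (E Q : Finset ℕ) (x : ℕ) : ℕ :=
  (E.filter (fun y => top par Q y = top par Q x ∧ y < x)).card

private lemma rk_lt {x y : ℕ} (hx : x ∈ E) (ht : top par Q x = top par Q y) (hxy : x < y) :
    rk par E Q x < rk par E Q y := by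
  unfold rk
  apply card_lt_card
  rw [ssubset_iff_subset_ne]
  constructor
  · intro z hz
    rw [mem_filter] at hz ⊢
    exact ⟨hz.1, hz.2.1.trans ht, hz.2.2.trans hxy⟩
  · intro heq
    have h1 : x ∈ E.filter (fun z => top par Q z = top par Q y ∧ z < y) := by
      rw [mem_filter]; exact ⟨hx, ht, hxy⟩
    rw [← heq, mem_filter] at h1
    omega

private lemma rk_inj {x y : ℕ} (hx : x ∈ E) (hy : y ∈ E) (ht : top par Q x = top par Q y)
    (hr : rk par E Q x = rk par E Q y) : x = y := by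
  rcases lt_trichotomy x y with h | h | h
  · have := rk_lt hx ht h; omega
  · exact h
  · have := rk_lt hy ht.symm h; omega

private lemma rk_bound (h : Dcp D par (range N) E Q) {S : ℕ} (hS : PS par E Q S) {x : ℕ}
    (hx : x ∈ E) : rk par E Q x < S := by
  have h1 := hS (top par Q x) (top_mem h x hx)
    (insert x (E.filter (fun y => top par Q y = top par Q x ∧ y < x))) (by
      intro y hy
      have hy' : y ∈ E ∧ top par Q y = top par Q x := by
        rw [mem_insert, mem_filter] at hy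
        rcases hy with rfl | hy
        · exact ⟨hx, rfl⟩
        · exact ⟨hy.1, hy.2.1⟩
      obtain ⟨j, h2, h3⟩ := top_chain h y hy'.1
      exact ⟨j, h2.trans hy'.2, h3⟩)
  rw [card_insert_of_notMem (by rw [mem_filter]; omega)] at h1
  unfold rk
  omega

private lemma rk_zero (h : Dcp D par (range N) E Q) {x : ℕ} (hx : x ∈ E) :
    rk par E Q x = 0 ↔ x ∈ Q := by
  constructor
  · intro h0
    have h1 := top_mem h x hx
    have h2 := top_le h x hx
    rcases h2.lt_or_eq with h3 | h3
    · have := rk_lt (h.QE h1) (top_top h hx) h3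
      omega
    · rw [h3] at h1; exact h1
  · intro hq
    unfold rk
    rw [card_eq_zero, filter_eq_empty_iff]
    intro y hy ⟨h1, h2⟩
    rw [top_of_mem hq] at h1
    have := top_le h y hy
    omega

/-- The type of a piece. -/
private def ty (par : ℕ → ℕ) (mark : ℕ → Bool) (E Q : Finset ℕ) (q : ℕ) :
    Finset (ℕ × ℕ) × Finset (ℕ × Bool) :=
  (((E.filter (fun x => top par Q x = q ∧ x ∉ Q)).image
      (fun x => (rk par E Q x, rk par E Q (par x)))),
    ((E.filter (fun x => top par Q x = q)).image (fun x => (rk par E Q x, mark x))))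

/-- All pairs of a type and a rank. -/
private def UU' (S : ℕ) : Finset ((Finset (ℕ × ℕ) × Finset (ℕ × Bool)) × ℕ) :=
  ((range S ×ˢ range S).powerset ×ˢ (range S ×ˢ (Finset.univ : Finset Bool)).powerset) ×ˢ range S

private lemma pair_mem (h : Dcp D par (range N) E Q) {S : ℕ} (hS : PS par E Q S)
    (mark : ℕ → Bool) {x : ℕ} (hx : x ∈ E) :
    (ty par mark E Q (top par Q x), rk par E Q x) ∈ UU' S := by
  unfold UU' ty
  rw [mem_product, mem_product, mem_powerset, mem_powerset, mem_range]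
  refine ⟨⟨?_, ?_⟩, rk_bound h hS hx⟩
  · intro p hp
    rw [mem_image] at hp
    obtain ⟨y, hy, rfl⟩ := hp
    rw [mem_filter] at hy
    obtain ⟨h1, h2⟩ := h.up y hy.1 hy.2.2
    rw [mem_product, mem_range, mem_range]
    exact ⟨rk_bound h hS hy.1, rk_bound h hS h2⟩
  · intro p hp
    rw [mem_image] at hp
    obtain ⟨y, hy, rfl⟩ := hp
    rw [mem_filter] at hy
    rw [mem_product, mem_range]
    exact ⟨rk_bound h hS hy.1, mem_univ _⟩

private lemma exists_code {α : Type} (U : Finset α) :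
    ∃ e : α → ℕ, (∀ a ∈ U, e a < U.card) ∧ ∀ a ∈ U, ∀ b ∈ U, e a = e b → a = b := by
  classical
  refine ⟨fun a => if h : a ∈ U then (U.equivFin ⟨a, h⟩ : ℕ) else 0, ?_, ?_⟩
  · intro a ha
    simp only [dif_pos ha]
    exact (U.equivFin ⟨a, ha⟩).2
  · intro a ha b hb hab
    simp only [dif_pos ha, dif_pos hb] at hab
    have h1 := U.equivFin.injective (Fin.ext hab)
    exact congrArg Subtype.val h1

/-- Elements of pieces of the same type. -/
private lemma transfer (mark : ℕ → Bool) {x q : ℕ} (hx : x ∈ E)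
    (ht : ty par mark E Q q = ty par mark E Q (top par Q x)) :
    ∃ y ∈ E, top par Q y = q ∧ rk par E Q y = rk par E Q x ∧ mark y = mark x := by
  have h1 : (rk par E Q x, mark x) ∈ (ty par mark E Q (top par Q x)).2 := by
    unfold ty
    exact mem_image.2 ⟨x, mem_filter.2 ⟨hx, rfl⟩, rfl⟩
  rw [← ht] at h1
  unfold ty at h1
  obtain ⟨y, hy, h2⟩ := mem_image.1 h1
  rw [mem_filter] at hy
  rw [Prod.mk.injEq] at h2
  exact ⟨y, hy.1, hy.2, h2.1, h2.2⟩

private lemma transfer_par (mark : ℕ → Bool) {x y : ℕ} (hx : x ∈ E) (hy : y ∈ E) (hxQ : x ∉ Q)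
    (ht : ty par mark E Q (top par Q y) = ty par mark E Q (top par Q x))
    (hr : rk par E Q y = rk par E Q x) :
    rk par E Q (par y) = rk par E Q (par x) := by
  have h1 : (rk par E Q x, rk par E Q (par x)) ∈ (ty par mark E Q (top par Q x)).1 := by
    unfold ty
    exact mem_image.2 ⟨x, mem_filter.2 ⟨hx, rfl, hxQ⟩, rfl⟩
  rw [← ht] at h1
  unfold ty at h1
  obtain ⟨z, hz, h2⟩ := mem_image.1 h1
  rw [mem_filter] at hz
  rw [Prod.mk.injEq] at h2
  have h3 : z = y := rk_inj hz.1 hy hz.2.1 (h2.1.trans hr.symm)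
  rw [← h3]
  exact h2.2

end DEC_

open DEC_ in
/-- DEC -/
theorem pDEC (h : T_CUT) : T_DEC := by
  intro Δ D hΔ hD ε hε
  obtain ⟨S, hS⟩ := h Δ D hΔ hD (ε / 4) (by positivity)
  set k₀ : ℕ := (UU' S).card with hk₀
  set ξ : ℝ := ε / (4 * (k₀ + 1)) with hξ
  have hξ0 : 0 < ξ := by positivity
  refine ⟨k₀, ξ, ⌈2 * S / ε⌉₊, hξ0, ?_⟩
  intro N par mark hN hVT hBD
  have hN' : 2 * (S : ℝ) ≤ ε * N := by
    have h1 : 2 * (S : ℝ) / ε ≤ N := (Nat.le_ceil _).trans (by exact_mod_cast hN)
    rw [div_le_iff₀ hε] at h1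
    linarith
  obtain ⟨E0, Q0, hdcp, hps, hw⟩ := hS N par hVT hBD
  obtain ⟨e, he1, he2⟩ := exists_code (UU' S)
  -- the number of pieces of a type
  set cn : Finset (ℕ × ℕ) × Finset (ℕ × Bool) → ℕ := fun τ =>
    (Q0.filter (fun q => ty par mark E0 Q0 q = τ)).card with hcn
  set pr : ℕ → (Finset (ℕ × ℕ) × Finset (ℕ × Bool)) × ℕ := fun x =>
    (ty par mark E0 Q0 (top par Q0 x), rk par E0 Q0 x) with hpr
  have hprU : ∀ x ∈ E0, pr x ∈ UU' S := fun x hx => pair_mem hdcp hps mark hx
  classical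
  set E : Finset ℕ := E0.filter (fun x => ξ * N ≤ (cn (pr x).1 : ℝ)) with hE
  set Q : Finset ℕ := Q0.filter (fun x => ξ * N ≤ (cn (pr x).1 : ℝ)) with hQ
  have hEE : ∀ x ∈ E, x ∈ E0 := fun x hx => (mem_filter.1 hx).1
  have hQQ : ∀ x ∈ E, (x ∈ Q ↔ x ∈ Q0) := by
    intro x hx
    rw [hQ, mem_filter]
    exact ⟨fun h1 => h1.1, fun h1 => ⟨h1, (mem_filter.1 hx).2⟩⟩
  have hparE : ∀ x ∈ E, x ∉ Q0 → par x < x ∧ par x ∈ E ∧ top par Q0 (par x) = top par Q0 x := by
    intro x hx hxq
    obtain ⟨h1, h2⟩ := hdcp.up x (hEE x hx) hxq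
    have h3 := top_of_lt hxq h1
    refine ⟨h1, ?_, h3.symm⟩
    rw [hE, mem_filter]
    refine ⟨h2, ?_⟩
    have h4 := (mem_filter.1 hx).2
    have h5 : (pr (par x)).1 = (pr x).1 := by
      simp only [hpr]
      rw [h3]
    rw [h5]
    exact h4
  -- colours
  have hκ : ∀ x ∈ E, ∀ y ∈ E, e (pr x) = e (pr y) → pr x = pr y := by
    intro x hx y hy hxy
    exact he2 _ (hprU x (hEE x hx)) _ (hprU y (hEE y hy)) hxy
  have hclass : ∀ x ∈ E, (E.filter (fun y => e (pr y) = e (pr x))).card = cn (pr x).1 := by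
    intro x hx
    rw [hcn]
    refine card_bij (fun y _ => top par Q0 y) ?_ ?_ ?_
    · intro y hy
      rw [mem_filter] at hy
      have h1 := hκ y hy.1 x hx hy.2
      rw [mem_filter]
      refine ⟨top_mem hdcp y (hEE y hy.1), ?_⟩
      exact congrArg Prod.fst h1
    · intro y hy y' hy' hyy
      rw [mem_filter] at hy hy'
      have h1 := hκ y hy.1 x hx hy.2
      have h2 := hκ y' hy'.1 x hx hy'.2
      refine rk_inj (hEE y hy.1) (hEE y' hy'.1) hyy ?_
      exact (congrArg Prod.snd h1).trans (congrArg Prod.snd h2).symm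
    · intro q hq
      rw [mem_filter] at hq
      obtain ⟨y, hy, h1, h2, h3⟩ := transfer (Q := Q0) mark (hEE x hx) hq.2
      have h4 : pr y = pr x := by
        simp only [hpr]
        rw [h1, h2, hq.2]
      refine ⟨y, ?_, h1⟩
      rw [mem_filter, hE, mem_filter, h4]
      exact ⟨⟨hy, (mem_filter.1 hx).2⟩, rfl⟩
  refine ⟨E, Q, fun x => e (pr x), ?_, ?_, ?_, ?_, ?_⟩
  · -- decomposition
    refine ⟨?_, ?_, ?_, ?_, ?_, ?_⟩
    · exact fun x hx => hdcp.EC (hEE x hx)
    · intro x hx
      rw [hQ, mem_filter] at hx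
      rw [hE, mem_filter]
      exact ⟨hdcp.QE hx.1, hx.2⟩
    · intro x hx hxq
      rw [hQQ x hx] at hxq
      obtain ⟨h1, h2, -⟩ := hparE x hx hxq
      exact ⟨h1, h2⟩
    · intro q hq
      exact hdcp.pos q (mem_filter.1 hq).1
    · intro q hq j h1 h2
      have h3 := hdcp.chain q (mem_filter.1 hq).1 j h1 h2
      rw [mem_sdiff] at h3 ⊢
      exact ⟨h3.1, fun h4 => h3.2 (hEE _ h4)⟩
    · intro q hq q' hq'
      exact hdcp.excl q (mem_filter.1 hq).1 q' (mem_filter.1 hq').1
  · -- waste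
    have h1 : range N \ E ⊆ (range N \ E0) ∪ (E0 \ E) := by
      intro x hx
      rw [mem_sdiff] at hx
      rw [mem_union, mem_sdiff, mem_sdiff]
      by_cases h2 : x ∈ E0
      · right; exact ⟨h2, hx.2⟩
      · left; exact ⟨hx.1, h2⟩
    have h2 := (card_le_card h1).trans (card_union_le _ _)
    have h3 : (E0 \ E).card ≤ ⌊ξ * N⌋₊ * ((E0 \ E).image pr).card := by
      apply card_le_mul_card_image
      intro a ha
      obtain ⟨x, hx, rfl⟩ := mem_image.1 ha
      rw [mem_sdiff] at hx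
      have h4 : (cn (pr x).1 : ℝ) < ξ * N := by
        by_contra hcon
        exact hx.2 (mem_filter.2 ⟨hx.1, not_lt.1 hcon⟩)
      have h5 : ((E0 \ E).filter (fun y => pr y = pr x)).card ≤ cn (pr x).1 := by
        rw [hcn]
        refine card_le_card_of_injOn (fun y => top par Q0 y) ?_ ?_
        · intro y hy
          have hy' := mem_filter.1 (mem_coe.1 hy)
          rw [mem_sdiff] at hy'
          refine mem_coe.2 (mem_filter.2 ⟨top_mem hdcp y hy'.1.1, ?_⟩)
          exact congrArg Prod.fst hy'.2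
        · intro y hy y' hy' hyy
          have hy1 := mem_filter.1 (mem_coe.1 hy)
          have hy2 := mem_filter.1 (mem_coe.1 hy')
          rw [mem_sdiff] at hy1 hy2
          refine rk_inj hy1.1.1 hy2.1.1 hyy ?_
          exact (congrArg Prod.snd hy1.2).trans (congrArg Prod.snd hy2.2).symm
      apply Nat.le_floor
      have h6 : (((E0 \ E).filter (fun y => pr y = pr x)).card : ℝ) ≤ (cn (pr x).1 : ℝ) := by
        exact_mod_cast h5
      linarith
    have h7 : ((E0 \ E).image pr).card ≤ k₀ := by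
      apply card_le_card
      intro a ha
      obtain ⟨x, hx, rfl⟩ := mem_image.1 ha
      exact hprU x (mem_sdiff.1 hx).1
    have h8 : ((E0 \ E).card : ℝ) ≤ ξ * N * k₀ := by
      have h9 : ((E0 \ E).card : ℝ) ≤ (⌊ξ * N⌋₊ : ℝ) * ((E0 \ E).image pr).card := by
        exact_mod_cast h3
      have h10 : ((⌊ξ * N⌋₊ : ℕ) : ℝ) ≤ ξ * N := Nat.floor_le (by positivity)
      have h11 : (((E0 \ E).image pr).card : ℝ) ≤ k₀ := by exact_mod_cast h7
      calc ((E0 \ E).card : ℝ) ≤ (⌊ξ * N⌋₊ : ℝ) * ((E0 \ E).image pr).card := h9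
        _ ≤ (ξ * N) * k₀ := by
          apply mul_le_mul h10 h11 (by positivity) (by positivity)
    have h12 : ξ * N * k₀ ≤ ε / 4 * N := by
      rw [hξ]
      have h13 : ε / (4 * ((k₀ : ℝ) + 1)) * N * k₀ = (ε / 4 * N) * (k₀ / (k₀ + 1)) := by
        field_simp
      rw [h13]
      have h14 : (k₀ : ℝ) / (k₀ + 1) ≤ 1 := by
        rw [div_le_one (by positivity)]
        linarith
      have h15 : 0 ≤ ε / 4 * (N : ℝ) := by positivity
      nlinarith
    have h16 : ((range N \ E).card : ℝ) ≤ (range N \ E0).card + (E0 \ E).card := by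
      exact_mod_cast h2
    linarith
  · -- colours
    refine ⟨?_, ?_, ?_, ?_⟩
    · intro x hx y hy hxy
      have h1 := congrArg Prod.snd (hκ x hx y hy hxy)
      simp only [hpr] at h1
      rw [hQQ x hx, hQQ y hy, ← rk_zero hdcp (hEE x hx), ← rk_zero hdcp (hEE y hy), h1]
    · intro x hx y hy hxq hxy
      rw [hQQ x hx] at hxq
      have h1 := hκ x hx y hy hxy
      have h2 := congrArg Prod.fst h1
      have h3 := congrArg Prod.snd h1
      simp only [hpr] at h2 h3
      have hyq : y ∉ Q0 := by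
        rw [← rk_zero hdcp (hEE y hy), ← h3, rk_zero hdcp (hEE x hx)]
        exact hxq
      obtain ⟨-, -, h4⟩ := hparE x hx hxq
      obtain ⟨-, -, h5⟩ := hparE y hy hyq
      have h6 := transfer_par mark (hEE x hx) (hEE y hy) hxq h2.symm h3.symm
      show e (pr (par x)) = e (pr (par y))
      congr 1
      simp only [hpr]
      rw [h4, h5, h6, h2]
    · intro x hx y hy hxq hxy hp
      rw [hQQ x hx] at hxq
      have h3 := congrArg Prod.snd (hκ x hx y hy hxy)
      simp only [hpr] at h3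
      have hyq : y ∉ Q0 := by
        rw [← rk_zero hdcp (hEE y hy), ← h3, rk_zero hdcp (hEE x hx)]
        exact hxq
      obtain ⟨-, -, h4⟩ := hparE x hx hxq
      obtain ⟨-, -, h5⟩ := hparE y hy hyq
      exact rk_inj (hEE x hx) (hEE y hy) (by rw [← h4, ← h5, hp]) h3
    · intro x hx hxq
      rw [hQQ x hx] at hxq
      obtain ⟨-, h4, h5⟩ := hparE x hx hxq
      show (E.filter (fun y => e (pr y) = e (pr x))).card =
        (E.filter (fun y => e (pr y) = e (pr (par x)))).card
      rw [hclass x hx, hclass (par x) h4]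
      simp only [hpr]
      rw [h5]
  · intro x hx
    refine ⟨he1 _ (hprU x (hEE x hx)), ?_⟩
    show ξ * N ≤ ((E.filter (fun y => e (pr y) = e (pr x))).card : ℝ)
    rw [hclass x hx]
    exact (mem_filter.1 hx).2
  · intro x hx y hy hxy
    have h1 := hκ x hx y hy hxy
    have h2 := congrArg Prod.fst h1
    have h3 := congrArg Prod.snd h1
    simp only [hpr] at h2 h3
    obtain ⟨z, hz, h4, h5, h6⟩ := transfer (Q := Q0) mark (hEE x hx) h2.symm
    have h7 : z = y := rk_inj hz (hEE y hy) h4 (h5.trans h3)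
    rw [← h6, h7]

end Pool.Agent.RST

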