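import Pool.Agent.RST.Targets

/-!
# RST, FREE: a free vertex from a large set
-/

set_option autoImplicit false
set_option linter.unusedSectionVars false

open Finset

namespace Pool.Agent.RST

namespace FREE_

variable {V : Type} [Fintype V] [DecidableEq V] {H : SimpleGraph V} {W : Finset V} {d m : ℕ}
  {J : Finset (V × V)} {F : Finset V}

private lemma mem_nb {U : Finset V} {w : V} : w ∈ nb H U W ↔ w ∈ W ∧ ∃ u ∈ U, H.Adj u w := by
  classical
  unfold nb
  rw [mem_filter]

/-- the function `phi` -/
private noncomputable def phi (H : SimpleGraph V) (W : Finset V) (J : Finset (V × V)) (F : Finset V)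
    (U : Finset V) : ℕ :=
  (nb H U W \ used J F).card + (J.filter (fun e => e.1 ∈ U)).card

private lemma phi_mod (U U' : Finset V) :
    phi H W J F (U ∪ U') + phi H W J F (U ∩ U') ≤ phi H W J F U + phi H W J F U' := by
  unfold phi
  have h1 : (nb H (U ∪ U') W \ used J F).card + (nb H (U ∩ U') W \ used J F).card ≤
      (nb H U W \ used J F).card + (nb H U' W \ used J F).card := by
    rw [← card_union_add_card_inter (nb H U W \ used J F) (nb H U' W \ used J F)]
    apply Nat.add_le_add
    · apply card_le_card
      intro w hw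
      rw [mem_sdiff, mem_nb] at hw
      obtain ⟨⟨hW, u, hu, hadj⟩, hus⟩ := hw
      rw [mem_union] at hu
      rw [mem_union, mem_sdiff, mem_sdiff, mem_nb, mem_nb]
      rcases hu with hu | hu
      · exact Or.inl ⟨⟨hW, u, hu, hadj⟩, hus⟩
      · exact Or.inr ⟨⟨hW, u, hu, hadj⟩, hus⟩
    · apply card_le_card
      intro w hw
      rw [mem_sdiff, mem_nb] at hw
      obtain ⟨⟨hW, u, hu, hadj⟩, hus⟩ := hw
      rw [mem_inter] at hu
      rw [mem_inter, mem_sdiff, mem_sdiff, mem_nb, mem_nb]
      exact ⟨⟨⟨hW, u, hu.1, hadj⟩, hus⟩, ⟨hW, u, hu.2, hadj⟩, hus⟩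
  have h2 : (J.filter (fun e => e.1 ∈ U ∪ U')).card + (J.filter (fun e => e.1 ∈ U ∩ U')).card =
      (J.filter (fun e => e.1 ∈ U)).card + (J.filter (fun e => e.1 ∈ U')).card := by
    rw [← card_union_add_card_inter (J.filter (fun e => e.1 ∈ U)) (J.filter (fun e => e.1 ∈ U'))]
    congr 2
    · ext e
      simp only [mem_filter, mem_union]
      tauto
    · ext e
      simp only [mem_filter, mem_inter]
      tauto
  omega

/-- tight sets -/
private def Tight (H : SimpleGraph V) (W : Finset V) (d m : ℕ) (J : Finset (V × V)) (F : Finset V)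
    (U : Finset V) : Prop := U.card ≤ 2 * m ∧ phi H W J F U = d * U.card

private lemma tight_lt (hlg : ∀ X : Finset V, m ≤ X.card → W.card ≤ 2 * (nb H X W).card)
    (hbig : 2 * ((used J F).card + 2 * m * d) < W.card) {U : Finset V}
    (hU : Tight H W d m J F U) : U.card < m := by
  by_contra hcon
  push Not at hcon
  have h1 := hlg U hcon
  have h2 : (nb H U W).card ≤ (nb H U W \ used J F).card + (used J F).card := by
    have := card_le_card_sdiff_add_card (s := nb H U W) (t := used J F)
    omega
  have h3 := hU.2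
  unfold phi at h3
  have h4 : d * U.card ≤ d * (2 * m) := Nat.mul_le_mul_left d hU.1
  have h5 : d * (2 * m) = 2 * m * d := by ring
  omega

private lemma tight_union (hok : OK H W d m J F)
    (hlg : ∀ X : Finset V, m ≤ X.card → W.card ≤ 2 * (nb H X W).card)
    (hbig : 2 * ((used J F).card + 2 * m * d) < W.card) {U U' : Finset V}
    (hU : Tight H W d m J F U) (hU' : Tight H W d m J F U') : Tight H W d m J F (U ∪ U') := by
  have h1 := tight_lt hlg hbig hU
  have h2 := tight_lt hlg hbig hU'
  have h3 := card_union_add_card_inter U U'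
  have h4 : (U ∪ U').card ≤ 2 * m := by omega
  have h5 : (U ∩ U').card ≤ 2 * m := by omega
  have h6 : d * (U ∪ U').card ≤ phi H W J F (U ∪ U') := hok.ext _ h4
  have h7 : d * (U ∩ U').card ≤ phi H W J F (U ∩ U') := hok.ext _ h5
  have h8 := phi_mod (H := H) (W := W) (J := J) (F := F) U U'
  have h9 : d * (U ∪ U').card + d * (U ∩ U').card = d * U.card + d * U'.card := by
    rw [← mul_add, h3, mul_add]
  have h10 := hU.2
  have h11 := hU'.2
  exact ⟨h4, by omega⟩

end FREE_

open FREE_ in
theorem pFREE : T_FREE := by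
  classical
  intro V _ _ H W d m J F hok hm hlg hbig C hC hCc
  have hempty : Tight H W d m J F ∅ := by
    refine ⟨by simp, ?_⟩
    unfold FREE_.phi
    have h1 : nb H ∅ W = ∅ := by
      ext w
      rw [FREE_.mem_nb]
      simp
    rw [h1]
    simp
  -- the largest tight set
  obtain ⟨U0, hU0, hmax⟩ : ∃ U0 : Finset V, Tight H W d m J F U0 ∧
      ∀ U : Finset V, Tight H W d m J F U → U.card ≤ U0.card := by
    have hne : (univ.filter (fun U : Finset V => Tight H W d m J F U)).Nonempty :=
      ⟨∅, by simp [hempty]⟩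
    obtain ⟨U0, h1, h2⟩ := exists_max_image _ (fun U : Finset V => U.card) hne
    exact ⟨U0, (mem_filter.1 h1).2, fun U hU => h2 U (mem_filter.2 ⟨mem_univ _, hU⟩)⟩
  have hsub : ∀ U : Finset V, Tight H W d m J F U → U ⊆ U0 := by
    intro U hU
    have h1 := tight_union hok hlg hbig hU hU0
    have h2 := hmax _ h1
    have h3 : U0 = U ∪ U0 := eq_of_subset_of_card_le subset_union_right h2
    rw [h3]
    exact subset_union_left
  have hlt := tight_lt hlg hbig hU0
  have hN : (nb H U0 W \ used J F).card ≤ m * d := by
    have h1 := hU0.2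
    unfold FREE_.phi at h1
    have h2 : d * U0.card ≤ d * m := Nat.mul_le_mul_left d hlt.le
    have h3 : d * m = m * d := by ring
    omega
  obtain ⟨w, hwC, hw⟩ : ∃ w ∈ C, w ∉ nb H U0 W \ used J F := by
    by_contra hcon
    push Not at hcon
    have := card_le_card (s := C) (t := nb H U0 W \ used J F) hcon
    omega
  have hwWu := mem_sdiff.1 (hC hwC)
  have hwnb : w ∉ nb H U0 W := fun h => hw (mem_sdiff.2 ⟨h, hwWu.2⟩)
  have hused : used J (insert w F) = insert w (used J F) := by
    unfold used
    rw [union_insert]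
  refine ⟨w, hwC, ⟨hok.inj, ?_, ?_, hok.adj, ?_, ?_⟩⟩
  · rw [disjoint_insert_right]
    refine ⟨fun h => hwWu.2 ?_, hok.disj⟩
    unfold used
    exact mem_union_left _ h
  · rw [hused]
    exact insert_subset hwWu.1 hok.sub
  · intro e he heW
    rw [hused]
    exact mem_insert_of_mem (hok.tail e he heW)
  · intro U hU
    rw [hused]
    have hext := hok.ext U hU
    by_cases hwU : w ∈ nb H U W
    · have hnt : ¬ Tight H W d m J F U := by
        intro ht
        apply hwnb
        rw [FREE_.mem_nb] at hwU ⊢
        obtain ⟨h1, u, h2, h3⟩ := hwU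
        exact ⟨h1, u, hsub U ht h2, h3⟩
      have hne : (nb H U W \ used J F).card + (J.filter (fun e => e.1 ∈ U)).card ≠ d * U.card :=
        fun h => hnt ⟨hU, h⟩
      have h2 : nb H U W \ insert w (used J F) = (nb H U W \ used J F).erase w := by
        ext x
        simp only [mem_sdiff, mem_insert, mem_erase]
        tauto
      have h3 : ((nb H U W \ used J F).erase w).card + 1 = (nb H U W \ used J F).card :=
        card_erase_add_one (mem_sdiff.2 ⟨hwU, hwWu.2⟩)
      rw [h2]
      omega
    · have h2 : nb H U W \ insert w (used J F) = nb H U W \ used J F := by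
        ext x
        simp only [mem_sdiff, mem_insert]
        constructor
        · rintro ⟨h1, h2⟩
          exact ⟨h1, fun h => h2 (Or.inr h)⟩
        · rintro ⟨h1, h2⟩
          refine ⟨h1, fun h => ?_⟩
          rcases h with h | h
          · exact hwU (h ▸ h1)
          · exact h2 h
      rw [h2]
      exact hext

end Pool.Agent.RST
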