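import Pool.Agent.RST.Targets

/-!
GSUM: generating functions of `G(n,p)`.
-/

set_option autoImplicit false

open Finset Filter Topology

namespace Pool.Agent.RST

namespace GSUM_

open Classical in
/-- edge sets as finsets -/
noncomputable def ef {n : ℕ} (G : SimpleGraph (Fin n)) : Finset (Sym2 (Fin n)) :=
  G.edgeSet.toFinset

theorem mem_ef {n : ℕ} (G : SimpleGraph (Fin n)) (e : Sym2 (Fin n)) :
    e ∈ ef G ↔ e ∈ G.edgeSet := by
  classical
  unfold ef
  rw [Set.mem_toFinset]

theorem coe_ef {n : ℕ} (G : SimpleGraph (Fin n)) : (ef G : Set (Sym2 (Fin n))) = G.edgeSet := by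
  ext e
  rw [Finset.mem_coe, mem_ef]

theorem card_top (n : ℕ) : (ef (⊤ : SimpleGraph (Fin n))).card = n.choose 2 := by
  classical
  have h := SimpleGraph.card_edgeFinset_top_eq_card_choose_two (V := Fin n)
  rw [Fintype.card_fin] at h
  rw [← h]
  congr 1
  ext e
  rw [mem_ef, SimpleGraph.mem_edgeFinset]

end GSUM_

open GSUM_ in
theorem pGSUM : T_GSUM := by
  classical
  intro n p c _ _
  have h1 : ∏ᶠ e ∈ (⊤ : SimpleGraph (Fin n)).edgeSet, (1 - p + p * Real.exp (c e)) =
      ∏ e ∈ ef (⊤ : SimpleGraph (Fin n)), (p * Real.exp (c e) + (1 - p)) := by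
    rw [← coe_ef, finprod_mem_coe_finset]
    exact Finset.prod_congr rfl fun e _ => by ring
  have h2 : ∀ G : SimpleGraph (Fin n), ∑ᶠ e ∈ G.edgeSet, c e = ∑ e ∈ ef G, c e := by
    intro G
    rw [← coe_ef, finsum_mem_coe_finset]
  rw [h1, Finset.prod_add, finsum_eq_sum_of_fintype]
  refine Finset.sum_bij' (fun G _ => ef G)
    (fun S _ => SimpleGraph.fromEdgeSet (S : Set (Sym2 (Fin n)))) ?_ ?_ ?_ ?_ ?_
  · intro G _
    rw [Finset.mem_powerset]
    intro e he
    rw [mem_ef] at he ⊢
    exact SimpleGraph.edgeSet_mono le_top he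
  · intro S _
    exact Finset.mem_univ _
  · intro G _
    rw [coe_ef, SimpleGraph.fromEdgeSet_edgeSet]
  · intro S hS
    rw [Finset.mem_powerset] at hS
    ext e
    rw [mem_ef, SimpleGraph.edgeSet_fromEdgeSet]
    constructor
    · intro h
      exact Finset.mem_coe.1 h.1
    · intro h
      refine ⟨Finset.mem_coe.2 h, ?_⟩
      have h3 := (mem_ef _ _).1 (hS h)
      intro hd
      exact SimpleGraph.not_isDiag_of_mem_edgeSet _ h3 hd
  · intro G _
    have hsub : ef G ⊆ ef (⊤ : SimpleGraph (Fin n)) := by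
      intro e he
      rw [mem_ef] at he ⊢
      exact SimpleGraph.edgeSet_mono le_top he
    have hc : G.edgeSet.ncard = (ef G).card := by
      rw [← coe_ef, Set.ncard_coe_finset]
    have hd : (ef (⊤ : SimpleGraph (Fin n)) \ ef G).card = n.choose 2 - (ef G).card := by
      rw [Finset.card_sdiff_of_subset hsub, card_top]
    unfold wG
    rw [h2, hc, Real.exp_sum, Finset.prod_mul_distrib, Finset.prod_const, Finset.prod_const, hd]
    ring

end Pool.Agent.RST
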