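import Pool.Agent.RST.Targets

/-!
# INIT: the empty state is extendable
-/

set_option autoImplicit false

open Finset Filter Topology

namespace Pool.Agent.RST

namespace INIT_

theorem nb_sub {V : Type} (H : SimpleGraph V) (U W : Finset V) : nb H U W ⊆ W := by
  classical
  unfold nb
  exact filter_subset _ _

theorem dg_nb {V : Type} (H : SimpleGraph V) (U W : Finset V) (u : V) (hu : u ∈ U) :
    dg H u (nb H U W) = dg H u W := by
  classical
  unfold dg nb
  congr 1
  ext w
  simp only [mem_filter]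
  constructor
  · rintro ⟨⟨h1, -⟩, h2⟩
    exact ⟨h1, h2⟩
  · rintro ⟨h1, h2⟩
    exact ⟨⟨h1, u, hu, h2⟩, h2⟩

end INIT_

open INIT_ in
/-- INIT -/
theorem pINIT : T_INIT := by
  intro V _ _ H η p K W d m hp hη0 hη1 hK hUU hdeg hw hKd
  refine ⟨by simp, by simp, by simp [used], by simp, by simp, ?_⟩
  intro U hU
  by_contra hcon
  have hY : (nb H U W).card < d * U.card := by
    simp [used] at hcon
    exact hcon
  have hUpos : 0 < U.card := by
    rcases Nat.eq_zero_or_pos U.card with h | h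
    · rw [h, mul_zero] at hY
      exact absurd hY (Nat.not_lt_zero _)
    · exact h
  have h1 := hUU U (nb H U W)
  have h2 : (∑ x ∈ U, (dg H x (nb H U W) : ℝ)) = ∑ x ∈ U, (dg H x W : ℝ) :=
    sum_congr rfl fun u hu => by rw [dg_nb H U W u hu]
  have h3 : (U.card : ℝ) * (1 / 2 * p * W.card) ≤ ∑ x ∈ U, (dg H x W : ℝ) := by
    rw [← nsmul_eq_mul, ← sum_const]
    exact sum_le_sum fun u _ => hdeg u
  rw [h2] at h1
  have hu : (0 : ℝ) < U.card := by exact_mod_cast hUpos
  have hy : ((nb H U W).card : ℝ) ≤ d * U.card := by exact_mod_cast hY.le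
  have hum : (U.card : ℝ) ≤ 2 * m := by exact_mod_cast hU
  have hd0 : (0 : ℝ) ≤ d := Nat.cast_nonneg _
  have hy0 : (0 : ℝ) ≤ ((nb H U W).card : ℝ) := Nat.cast_nonneg _
  have hym : ((nb H U W).card : ℝ) ≤ 2 * m * d := by nlinarith
  have hpu : 0 < p * (U.card : ℝ) := mul_pos hp hu
  have h4 : (1 + η) * p * U.card * (nb H U W).card ≤ 2 * (p * U.card) * (2 * m * d) := by
    have h5 : (1 + η) * p * U.card ≤ 2 * (p * U.card) := by nlinarith
    exact mul_le_mul h5 hym hy0 (by positivity)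
  have h6 : K * ((U.card : ℝ) + (nb H U W).card) ≤ K * ((1 + d) * U.card) :=
    mul_le_mul_of_nonneg_left (by linarith) hK
  have h7 : (U.card : ℝ) * (1 / 2 * p * W.card) ≤
      U.card * (p * (4 * m * d) + K * (1 + d)) := by
    calc (U.card : ℝ) * (1 / 2 * p * W.card) ≤ _ := h3
      _ ≤ _ := h1
      _ ≤ 2 * (p * U.card) * (2 * m * d) + K * ((1 + d) * U.card) := add_le_add h4 h6
      _ = _ := by ring
  have h8 := le_of_mul_le_mul_left h7 hu
  have h9 : p * (16 * (m : ℝ) * d) ≤ p * W.card := mul_le_mul_of_nonneg_left hw hp.le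
  nlinarith

end Pool.Agent.RST
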