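import Pool.Agent.RST.Targets

/-!
# RST: large sets have large neighbourhoods
-/

set_option autoImplicit false

open Finset

namespace Pool.Agent.RST

namespace LG_

lemma dg_nb {V : Type} (H : SimpleGraph V) (X W : Finset V) (x : V) (hx : x ∈ X) :
    dg H x W = dg H x (nb H X W) := by
  classical
  unfold dg nb
  congr 1
  ext w
  simp only [mem_filter]
  constructor
  · rintro ⟨h1, h2⟩
    exact ⟨⟨h1, x, hx, h2⟩, h2⟩
  · rintro ⟨⟨h1, -⟩, h2⟩
    exact ⟨h1, h2⟩

end LG_

theorem pLG : T_LG := by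
  intro V _ _ H η p K g W m hp hg hg2 hη hη2 hK hm hUU hKm hKW hDG X hX
  have h1 := hUU X (nb H X W)
  have h2 : (1 / 2 + g) * p * W.card * X.card ≤ ∑ x ∈ X, (dg H x (nb H X W) : ℝ) := by
    have h3 : ∀ x ∈ X, (1 / 2 + g) * p * W.card ≤ (dg H x (nb H X W) : ℝ) := by
      intro x hx
      rw [← LG_.dg_nb H X W x hx]
      exact hDG x
    have h4 := Finset.card_nsmul_le_sum X _ _ h3
    rw [nsmul_eq_mul] at h4
    linarith
  have hx1 : (m : ℝ) ≤ X.card := by exact_mod_cast hX
  have hm1 : (1 : ℝ) ≤ m := by exact_mod_cast hm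
  set x : ℝ := (X.card : ℝ) with hx
  set y : ℝ := ((nb H X W).card : ℝ) with hy
  set w : ℝ := (W.card : ℝ) with hw
  have hx0 : 0 < x := by linarith
  have hy0 : 0 ≤ y := by rw [hy]; positivity
  have hw0 : 0 ≤ w := by rw [hw]; positivity
  have a1 : K * x ≤ g * p * w / 8 * x := mul_le_mul_of_nonneg_right (by linarith) hx0.le
  have a2 : K * y ≤ g * p * x / 8 * y := by
    apply mul_le_mul_of_nonneg_right _ hy0
    have : g * p * m ≤ g * p * x := mul_le_mul_of_nonneg_left hx1 (by positivity)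
    linarith
  have a3 : (1 + η) * p * x * y ≤ (1 + g / 4) * p * x * y := by
    have : 0 ≤ p * x * y := by positivity
    nlinarith
  have a4 : (p * x) * ((1 / 2 + g - g / 8) * w) ≤ (p * x) * ((1 + g / 4 + g / 8) * y) := by
    nlinarith
  have a5 : (1 / 2 + g - g / 8) * w ≤ (1 + g / 4 + g / 8) * y :=
    le_of_mul_le_mul_left a4 (by positivity)
  have a6 : (1 + g / 4 + g / 8) * ((1 / 2 + g / 4) * w) ≤ (1 / 2 + g - g / 8) * w := by
    have : (1 + g / 4 + g / 8) * (1 / 2 + g / 4) ≤ 1 / 2 + g - g / 8 := by nlinarith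
    nlinarith
  exact le_of_mul_le_mul_left (a6.trans a5) (by positivity)

end Pool.Agent.RST
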