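import Pool.Agent.RST.Targets

/-! PM: perfect matchings (project RST, MP_052821_co). -/

set_option autoImplicit false

open Finset

namespace Pool.Agent.RST

namespace PM_

theorem mem_nb {V : Type} (H : SimpleGraph V) (U W : Finset V) (w : V) :
    w ∈ nb H U W ↔ w ∈ W ∧ ∃ u ∈ U, H.Adj u w := by
  classical
  unfold nb
  rw [mem_filter]

theorem dg_nb {V : Type} (H : SimpleGraph V) (A L : Finset V) (x : V) (hx : x ∈ A) :
    dg H x L = dg H x (nb H A L) := by
  classical
  unfold dg nb
  congr 1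
  ext w
  simp only [mem_filter]
  constructor
  · rintro ⟨h1, h2⟩
    exact ⟨⟨h1, x, hx, h2⟩, h2⟩
  · rintro ⟨⟨h1, _⟩, h2⟩
    exact ⟨h1, h2⟩

theorem claim {V : Type} (H : SimpleGraph V) (η p K g : ℝ) (A L : Finset V) (N : ℕ)
    (hp : 0 < p) (hg : 0 < g) (_ : 0 ≤ η) (h1 : η ≤ g / 2) (hK : 0 ≤ K) (hU : UU H η p K)
    (hN : 0 < N) (h8 : 8 * K ≤ g * p * N) (hA : A.Nonempty)
    (hd : ∀ x ∈ A, (1 / 2 + g) * p * N ≤ dg H x L) (hlt : (nb H A L).card < A.card) :
    N < 2 * (nb H A L).card := by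
  by_contra hcon
  rw [not_lt] at hcon
  have hcon' : 2 * ((nb H A L).card : ℝ) ≤ N := by exact_mod_cast hcon
  have hlt' : ((nb H A L).card : ℝ) ≤ A.card := by exact_mod_cast hlt.le
  have hA0 : (0 : ℝ) < A.card := by exact_mod_cast hA.card_pos
  have hN' : (0 : ℝ) < N := by exact_mod_cast hN
  have hb0 : (0 : ℝ) ≤ ((nb H A L).card : ℝ) := Nat.cast_nonneg _
  have hs : (A.card : ℝ) * ((1 / 2 + g) * p * N) ≤ ∑ x ∈ A, (dg H x (nb H A L) : ℝ) := by
    have := Finset.sum_le_sum (s := A) (f := fun _ => (1 / 2 + g) * p * (N : ℝ))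
      (g := fun x => (dg H x (nb H A L) : ℝ)) (fun x hx => by
        have h2 := hd x hx
        rw [dg_nb H A L x hx] at h2
        exact h2)
    simpa [Finset.sum_const, nsmul_eq_mul] using this
  have hU' := hU A (nb H A L)
  generalize (nb H A L).card = b at *
  set a : ℝ := (A.card : ℝ) with ha
  have hc : a * ((1 / 2 + g) * p * N) ≤ a * ((1 + η) * p * b + 2 * K) := by
    have h3 : K * (a + b) ≤ K * (a + a) := by
      apply mul_le_mul_of_nonneg_left _ hK
      linarith
    nlinarith [hs, hU', h3]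
  have hc' : (1 / 2 + g) * p * N ≤ (1 + η) * p * b + 2 * K := le_of_mul_le_mul_left hc hA0
  have h4 : (1 + η) * p * b ≤ (1 + g / 2) * p * (N / 2) := by
    apply mul_le_mul
    · apply mul_le_mul_of_nonneg_right _ hp.le
      linarith
    · linarith
    · exact hb0
    · positivity
  have h5 : 0 < g * p * N := by positivity
  nlinarith [hc', h4, h8, h5]

end PM_

open PM_ in
/-- PM: perfect matchings from Hall's theorem -/
theorem pPM : T_PM := by
  classical
  intro V _ _ H η p K g P L hp hg h0 h1 hK hU hPL h8 hdP hdL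
  let t : {x // x ∈ P} → Finset V := fun x => L.filter (fun w => H.Adj x w)
  have hall : ∀ s : Finset {x // x ∈ P}, s.card ≤ (s.biUnion t).card := by
    intro s
    by_contra hlt
    rw [not_le] at hlt
    obtain ⟨A, hAdef⟩ : ∃ A : Finset V, A = s.map (Function.Embedding.subtype _) := ⟨_, rfl⟩
    have hAc : A.card = s.card := by rw [hAdef, card_map]
    have hAP : A ⊆ P := by
      intro x hx
      rw [hAdef, mem_map] at hx
      obtain ⟨y, _, rfl⟩ := hx
      exact y.2
    have hB : s.biUnion t = nb H A L := by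
      ext w
      rw [mem_nb]
      simp only [mem_biUnion, t, mem_filter, hAdef, mem_map, Function.Embedding.coe_subtype]
      constructor
      · rintro ⟨x, hx, hw, hxw⟩
        exact ⟨hw, x, ⟨x, hx, rfl⟩, hxw⟩
      · rintro ⟨hw, _, ⟨x, hx, rfl⟩, hxw⟩
        exact ⟨x, hx, hw, hxw⟩
    rw [hB, ← hAc] at hlt
    have hAne : A.Nonempty := by
      rw [← card_pos]
      omega
    have hAle : A.card ≤ P.card := card_le_card hAP
    have hN : 0 < P.card := lt_of_lt_of_le hAne.card_pos hAle
    have c1 := claim H η p K g A L P.card hp hg h0 h1 hK hU hN h8 hAne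
      (fun x hx => hdP x (hAP hx)) hlt
    have hBL : nb H A L ⊆ L := by
      intro w hw
      exact ((mem_nb H A L w).mp hw).1
    have hA' : (L \ nb H A L).card = P.card - (nb H A L).card := by
      rw [card_sdiff_of_subset hBL, hPL]
    have hA'ne : (L \ nb H A L).Nonempty := by
      rw [← card_pos, hA']
      omega
    have hB' : nb H (L \ nb H A L) P ⊆ P \ A := by
      intro w hw
      obtain ⟨hwP, u, hu, huw⟩ := (mem_nb H _ P w).mp hw
      rw [mem_sdiff]
      refine ⟨hwP, fun hwA => ?_⟩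
      rw [mem_sdiff] at hu
      apply hu.2
      exact (mem_nb H A L u).mpr ⟨hu.1, w, hwA, huw.symm⟩
    have hB'c : (nb H (L \ nb H A L) P).card ≤ P.card - A.card := by
      have := card_le_card hB'
      rwa [card_sdiff_of_subset hAP] at this
    have c2 := claim H η p K g (L \ nb H A L) P P.card hp hg h0 h1 hK hU hN h8 hA'ne
      (fun y hy => hdL y (mem_sdiff.mp hy).1) (by omega)
    omega
  obtain ⟨f, hfi, hft⟩ := (Finset.all_card_le_biUnion_card_iff_exists_injective t).mp hall
  have hft' : ∀ x : {x // x ∈ P}, f x ∈ L ∧ H.Adj x (f x) := fun x => by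
    have := hft x
    simpa [t] using this
  let M : V → V := fun v => if h : v ∈ P then f ⟨v, h⟩ else v
  have hM : ∀ v (h : v ∈ P), M v = f ⟨v, h⟩ := fun v h => by simp [M, h]
  have hmaps : Set.MapsTo M P L := by
    intro v hv
    rw [hM v hv]
    exact (hft' ⟨v, hv⟩).1
  have hinj : Set.InjOn M P := by
    intro v hv w hw hvw
    rw [hM v hv, hM w hw] at hvw
    exact congrArg Subtype.val (hfi hvw)
  refine ⟨M, ⟨hmaps, hinj, ?_⟩, fun x hx => ?_⟩
  · exact Finset.surjOn_of_injOn_of_card_le M hmaps hinj hPL.symm.le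
  · rw [hM x hx]
    exact (hft' ⟨x, hx⟩).2

end Pool.Agent.RST
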