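import Pool.Agent.RST.Targets

/-!
# REG: decomposition of one region
-/

set_option autoImplicit false

open Finset Filter Topology

namespace Pool.Agent.RST

namespace REG_

/-- forests with the set `T` of roots -/
structure Fr (par : ℕ → ℕ) (F T : Finset ℕ) : Prop where
  TF : T ⊆ F
  up : ∀ x ∈ F, x ∉ T → par x < x ∧ par x ∈ F

/-- at most `Δ` children -/
def CB (par : ℕ → ℕ) (F T : Finset ℕ) (Δ : ℕ) : Prop :=
  ∀ v, (F.filter (fun x => x ∉ T ∧ par x = v)).card ≤ Δ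

open Classical in
/-- the descendants of `t` -/
noncomputable def desc (par : ℕ → ℕ) (F T : Finset ℕ) (t : ℕ) : Finset ℕ :=
  F.filter (fun x => ∃ j, par^[j] x = t ∧ ∀ i < j, par^[i] x ∈ F ∧ par^[i] x ∉ T)

theorem mem_desc {par : ℕ → ℕ} {F T : Finset ℕ} {t x : ℕ} : x ∈ desc par F T t ↔
    x ∈ F ∧ ∃ j, par^[j] x = t ∧ ∀ i < j, par^[i] x ∈ F ∧ par^[i] x ∉ T := by
  simp only [desc, mem_filter]

theorem desc_sub {par : ℕ → ℕ} {F T : Finset ℕ} {t : ℕ} : desc par F T t ⊆ F :=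
  fun _ hx => (mem_desc.1 hx).1

theorem desc_self {par : ℕ → ℕ} {F T : Finset ℕ} {t : ℕ} (h : Fr par F T) (ht : t ∈ T) :
    t ∈ desc par F T t :=
  mem_desc.2 ⟨h.TF ht, 0, rfl, fun i hi => absurd hi (by omega)⟩

theorem desc_up {par : ℕ → ℕ} {F T : Finset ℕ} {t x : ℕ} (h : Fr par F T)
    (hx : x ∈ desc par F T t) (hne : x ≠ t) :
    x ∉ T ∧ par x < x ∧ par x ∈ desc par F T t := by
  obtain ⟨hxF, j, hj, hi⟩ := mem_desc.1 hx
  cases j with
  | zero => exact absurd hj hne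
  | succ j =>
    have h0 := (hi 0 (by omega)).2
    have h1 : x ∉ T := h0
    obtain ⟨h2, h3⟩ := h.up x hxF h1
    refine ⟨h1, h2, mem_desc.2 ⟨h3, j, ?_, fun i hi' => ?_⟩⟩
    · rw [← Function.iterate_succ_apply]; exact hj
    · have h4 := hi (i + 1) (by omega)
      rw [Function.iterate_succ_apply] at h4
      exact h4

theorem desc_reg {par : ℕ → ℕ} {F T : Finset ℕ} {t : ℕ} (h : Fr par F T) (ht : t ∈ T) :
    Reg par (desc par F T t) t :=
  ⟨desc_self h ht, fun _ hx hne => (desc_up h hx hne).2⟩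

theorem desc_compl {par : ℕ → ℕ} {F T : Finset ℕ} {t : ℕ} (h : Fr par F T) (ht : t ∈ T) :
    Fr par (F \ desc par F T t) (T.erase t) := by
  constructor
  · intro x hx
    obtain ⟨h1, h2⟩ := mem_erase.1 hx
    refine mem_sdiff.2 ⟨h.TF h2, fun h3 => ?_⟩
    exact (desc_up h h3 h1).1 h2
  · intro x hx hxT
    obtain ⟨h1, h2⟩ := mem_sdiff.1 hx
    have h3 : x ≠ t := by
      rintro rfl
      exact h2 (desc_self h ht)
    have h4 : x ∉ T := fun h5 => hxT (mem_erase.2 ⟨h3, h5⟩)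
    obtain ⟨h5, h6⟩ := h.up x h1 h4
    refine ⟨h5, mem_sdiff.2 ⟨h6, fun h7 => h2 ?_⟩⟩
    obtain ⟨_, j, hj, hi⟩ := mem_desc.1 h7
    refine mem_desc.2 ⟨h1, j + 1, ?_, fun i hi' => ?_⟩
    · rw [Function.iterate_succ_apply]; exact hj
    · cases i with
      | zero => exact ⟨h1, h4⟩
      | succ i =>
        rw [Function.iterate_succ_apply]
        exact hi i (by omega)

theorem cover {par : ℕ → ℕ} {F T : Finset ℕ} (h : Fr par F T) :
    ∀ x ∈ F, ∃ t ∈ T, x ∈ desc par F T t := by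
  intro x
  induction x using Nat.strong_induction_on with
  | _ x ih =>
    intro hx
    by_cases hxT : x ∈ T
    · exact ⟨x, hxT, desc_self h hxT⟩
    · obtain ⟨h1, h2⟩ := h.up x hx hxT
      obtain ⟨t, ht, h3⟩ := ih (par x) h1 h2
      obtain ⟨_, j, hj, hi⟩ := mem_desc.1 h3
      refine ⟨t, ht, mem_desc.2 ⟨hx, j + 1, ?_, fun i hi' => ?_⟩⟩
      · rw [Function.iterate_succ_apply]; exact hj
      · cases i with
        | zero => exact ⟨hx, hxT⟩
        | succ i =>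
          rw [Function.iterate_succ_apply]
          exact hi i (by omega)

theorem heavy {par : ℕ → ℕ} {F T : Finset ℕ} {Δ : ℕ} (h : Fr par F T) (hT : T.card ≤ Δ)
    (hF : F.Nonempty) : ∃ t ∈ T, F.card ≤ Δ * (desc par F T t).card := by
  by_contra hcon
  push Not at hcon
  have hTn : T.Nonempty := by
    obtain ⟨x, hx⟩ := hF
    obtain ⟨t, ht, _⟩ := cover h x hx
    exact ⟨t, ht⟩
  have h1 : F.card ≤ ∑ t ∈ T, (desc par F T t).card := by
    refine le_trans (card_le_card ?_) card_biUnion_le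
    intro x hx
    obtain ⟨t, ht, h2⟩ := cover h x hx
    exact mem_biUnion.2 ⟨t, ht, h2⟩
  have h2 : ∑ t ∈ T, Δ * (desc par F T t).card < ∑ t ∈ T, F.card :=
    sum_lt_sum_of_nonempty hTn hcon
  rw [← mul_sum, sum_const, smul_eq_mul] at h2
  have h3 := Nat.mul_le_mul_left Δ h1
  have h4 := Nat.mul_le_mul_right F.card hT
  omega

theorem desc_CB {par : ℕ → ℕ} {F T : Finset ℕ} {t Δ : ℕ} (h : Fr par F T)
    (hc : CB par F T Δ) (v : ℕ) :
    ((desc par F T t).filter (fun x => x ≠ t ∧ par x = v)).card ≤ Δ := by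
  refine le_trans (card_le_card ?_) (hc v)
  intro x hx
  obtain ⟨h1, h2, h3⟩ := mem_filter.1 hx
  exact mem_filter.2 ⟨desc_sub h1, (desc_up h h1 h2).1, h3⟩

theorem compl_CB {par : ℕ → ℕ} {F T : Finset ℕ} {t Δ : ℕ} (h : Fr par F T) (ht : t ∈ T)
    (hc : CB par F T Δ) : CB par (F \ desc par F T t) (T.erase t) Δ := by
  intro v
  refine le_trans (card_le_card ?_) (hc v)
  intro x hx
  obtain ⟨h1, h2, h3⟩ := mem_filter.1 hx
  obtain ⟨h4, h5⟩ := mem_sdiff.1 h1
  refine mem_filter.2 ⟨h4, fun h6 => h2 (mem_erase.2 ⟨?_, h6⟩), h3⟩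
  rintro rfl
  exact h5 (desc_self h ht)

theorem union {D : ℕ} {par : ℕ → ℕ} {C₁ C₂ E₁ E₂ Q₁ Q₂ : Finset ℕ} (h : Disjoint C₁ C₂)
    (h₁ : Dcp D par C₁ E₁ Q₁) (h₂ : Dcp D par C₂ E₂ Q₂) :
    Dcp D par (C₁ ∪ C₂) (E₁ ∪ E₂) (Q₁ ∪ Q₂) := by
  have hd : ∀ x, x ∈ C₁ → x ∈ C₂ → False := fun x h3 h4 => disjoint_left.1 h h3 h4
  constructor
  · exact union_subset_union h₁.EC h₂.EC
  · exact union_subset_union h₁.QE h₂.QE
  · intro x hx hxQ
    rw [mem_union, not_or] at hxQ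
    rcases mem_union.1 hx with h3 | h3
    · obtain ⟨h4, h5⟩ := h₁.up x h3 hxQ.1
      exact ⟨h4, mem_union_left _ h5⟩
    · obtain ⟨h4, h5⟩ := h₂.up x h3 hxQ.2
      exact ⟨h4, mem_union_right _ h5⟩
  · intro q hq
    rcases mem_union.1 hq with h3 | h3
    · exact h₁.pos q h3
    · exact h₂.pos q h3
  · intro q hq j hj1 hj2
    rcases mem_union.1 hq with h3 | h3
    · obtain ⟨h4, h5⟩ := mem_sdiff.1 (h₁.chain q h3 j hj1 hj2)
      refine mem_sdiff.2 ⟨mem_union_left _ h4, fun h6 => ?_⟩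
      rcases mem_union.1 h6 with h7 | h7
      · exact h5 h7
      · exact hd _ h4 (h₂.EC h7)
    · obtain ⟨h4, h5⟩ := mem_sdiff.1 (h₂.chain q h3 j hj1 hj2)
      refine mem_sdiff.2 ⟨mem_union_right _ h4, fun h6 => ?_⟩
      rcases mem_union.1 h6 with h7 | h7
      · exact hd _ (h₁.EC h7) h4
      · exact h5 h7
  · intro q hq q' hq' j j' hj1 hj2 hj1' hj2' he
    rcases mem_union.1 hq with h3 | h3 <;> rcases mem_union.1 hq' with h4 | h4
    · exact h₁.excl q h3 q' h4 j j' hj1 hj2 hj1' hj2' he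
    · have h5 := (mem_sdiff.1 (h₁.chain q h3 j hj1 hj2)).1
      have h6 := (mem_sdiff.1 (h₂.chain q' h4 j' hj1' hj2')).1
      rw [he] at h5
      exact (hd _ h5 h6).elim
    · have h5 := (mem_sdiff.1 (h₂.chain q h3 j hj1 hj2)).1
      have h6 := (mem_sdiff.1 (h₁.chain q' h4 j' hj1' hj2')).1
      rw [he] at h5
      exact (hd _ h6 h5).elim
    · exact h₂.excl q h3 q' h4 j j' hj1 hj2 hj1' hj2' he

theorem union_card {C₁ C₂ E₁ E₂ : Finset ℕ} :
    ((C₁ ∪ C₂) \ (E₁ ∪ E₂)).card ≤ (C₁ \ E₁).card + (C₂ \ E₂).card := by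
  refine le_trans (card_le_card ?_) (card_union_le _ _)
  intro x hx
  obtain ⟨h1, h2⟩ := mem_sdiff.1 hx
  rw [mem_union, not_or] at h2
  rcases mem_union.1 h1 with h3 | h3
  · exact mem_union_left _ (mem_sdiff.2 ⟨h3, h2.1⟩)
  · exact mem_union_right _ (mem_sdiff.2 ⟨h3, h2.2⟩)

theorem empty_dcp (D : ℕ) (par : ℕ → ℕ) (C : Finset ℕ) : Dcp D par C ∅ ∅ := by
  constructor
  · exact empty_subset _
  · exact empty_subset _
  · intro x hx
    exact absurd hx (notMem_empty x)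
  · intro x hx
    exact absurd hx (notMem_empty x)
  · intro x hx
    exact absurd hx (notMem_empty x)
  · intro x hx
    exact absurd hx (notMem_empty x)

/-- statement for regions -/
def HT (Δ D k A : ℕ) : Prop := ∀ (par : ℕ → ℕ)
  (C : Finset ℕ) (c : ℕ), Reg par C c →
  (∀ v, (C.filter (fun x => x ≠ c ∧ par x = v)).card ≤ Δ) →
  ∃ E Q : Finset ℕ, Dcp D par C E Q ∧ c ∉ E ∧
    ((C \ E).card : ℝ) ≤ (1 - 1 / (2 * (Δ : ℝ)) ^ D) ^ k * C.card + A

/-- statement for forests -/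
def HF (Δ D k A : ℕ) : Prop := ∀ (par : ℕ → ℕ) (n : ℕ)
  (F T : Finset ℕ), T.card = n → Fr par F T → CB par F T Δ →
  ∃ E Q : Finset ℕ, Dcp D par F E Q ∧
    ((F \ E).card : ℝ) ≤ (1 - 1 / (2 * (Δ : ℝ)) ^ D) ^ k * F.card + A * n

theorem HF_of_HT {Δ D k A : ℕ} (h : HT Δ D k A) : HF Δ D k A := by
  intro par n
  induction n with
  | zero =>
    intro F T hT hFr _
    have hF : F = ∅ := by
      by_contra hne
      obtain ⟨x, hx⟩ := nonempty_iff_ne_empty.2 hne
      obtain ⟨t, ht, _⟩ := cover hFr x hx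
      rw [card_eq_zero.1 hT] at ht
      exact notMem_empty t ht
    refine ⟨∅, ∅, empty_dcp _ _ _, ?_⟩
    rw [hF]
    simp
  | succ n ih =>
    intro F T hT hFr hc
    obtain ⟨t, ht⟩ : T.Nonempty := card_pos.1 (by omega)
    obtain ⟨E₁, Q₁, h1, _, h2⟩ := h par _ t (desc_reg hFr ht) (desc_CB hFr hc)
    obtain ⟨E₂, Q₂, h3, h4⟩ := ih (F \ desc par F T t) (T.erase t)
      (by rw [card_erase_of_mem ht, hT]; rfl) (desc_compl hFr ht) (compl_CB hFr ht hc)
    have hu : desc par F T t ∪ (F \ desc par F T t) = F := union_sdiff_of_subset desc_sub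
    have h5 := union disjoint_sdiff h1 h3
    have h6 : ((desc par F T t ∪ (F \ desc par F T t)) \ (E₁ ∪ E₂)).card ≤ _ := union_card
    rw [hu] at h5 h6
    refine ⟨_, _, h5, ?_⟩
    have h7 : ((F \ (E₁ ∪ E₂)).card : ℝ) ≤ ((desc par F T t \ E₁).card : ℝ) +
        (((F \ desc par F T t) \ E₂).card : ℝ) := by exact_mod_cast h6
    have h8 : (F.card : ℝ) = ((desc par F T t).card : ℝ) + ((F \ desc par F T t).card : ℝ) := by
      rw [← hu, card_union_of_disjoint disjoint_sdiff, hu]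
      push_cast
      ring
    rw [h8]
    push_cast
    linarith

/-- the result of the walk to the heavy children -/
structure PathRes (Δ D k A : ℕ) (par : ℕ → ℕ) (C : Finset ℕ) (c d q : ℕ)
    (R C' E Q : Finset ℕ) : Prop where
  qR : q ∈ R
  RC : R ⊆ C
  Rup : ∀ x ∈ R, x ≠ q → par x < x ∧ par x ∈ R
  top : par^[d] q = c
  pos : ∀ j < d, par (par^[j] q) < par^[j] q
  ch : ∀ j, 1 ≤ j → j ≤ d → par^[j] q ∈ C ∧ par^[j] q ∉ R ∧ par^[j] q ∉ C'
  CC : C' ⊆ C
  dis : Disjoint C' R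
  cov : ∀ x ∈ C, x ∈ R ∨ x ∈ C' ∨ ∃ j, 1 ≤ j ∧ j ≤ d ∧ x = par^[j] q
  dcp : Dcp D par C' E Q
  waste : ((C' \ E).card : ℝ) ≤ (1 - 1 / (2 * (Δ : ℝ)) ^ D) ^ k * C'.card + d * Δ * A
  big : C.card ≤ (2 * Δ) ^ d * R.card

theorem path {Δ D k A : ℕ} (hΔ : 1 ≤ Δ) (hH : HF Δ D k A) (d : ℕ) : ∀ (par : ℕ → ℕ)
    (C : Finset ℕ) (c : ℕ), Reg par C c →
    (∀ v, (C.filter (fun x => x ≠ c ∧ par x = v)).card ≤ Δ) → 2 * (2 * Δ) ^ d ≤ C.card →
    ∃ (q : ℕ) (R C' E Q : Finset ℕ), PathRes Δ D k A par C c d q R C' E Q := by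
  induction d with
  | zero =>
    intro par C c hreg _ _
    refine ⟨c, C, ∅, ∅, ∅, ?_⟩
    refine ⟨hreg.1, Subset.refl _, hreg.2, rfl, ?_, ?_, empty_subset _, disjoint_empty_left _,
      fun x hx => Or.inl hx, empty_dcp _ _ _, ?_, ?_⟩
    · intro j hj
      exact absurd hj (by omega)
    · intro j hj1 hj2
      exact absurd hj1 (by omega)
    · simp
    · simp
  | succ d ih =>
    intro par C c hreg hch hbig
    have hpow : 1 ≤ (2 * Δ) ^ (d + 1) := Nat.one_le_pow _ _ (by omega)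
    have hC2 : 2 ≤ C.card := by omega
    set F : Finset ℕ := C.erase c with hF
    set T : Finset ℕ := C.filter (fun x => x ≠ c ∧ par x = c) with hT
    have hFr : Fr par F T := by
      constructor
      · intro x hx
        obtain ⟨h1, h2, _⟩ := mem_filter.1 hx
        exact mem_erase.2 ⟨h2, h1⟩
      · intro x hx hxT
        obtain ⟨h1, h2⟩ := mem_erase.1 hx
        obtain ⟨h3, h4⟩ := hreg.2 x h2 h1
        refine ⟨h3, mem_erase.2 ⟨fun h5 => hxT (mem_filter.2 ⟨h2, h1, h5⟩), h4⟩⟩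
    have hcb : CB par F T Δ := by
      intro v
      refine le_trans (card_le_card ?_) (hch v)
      intro x hx
      obtain ⟨h1, _, h3⟩ := mem_filter.1 hx
      obtain ⟨h4, h5⟩ := mem_erase.1 h1
      exact mem_filter.2 ⟨h5, h4, h3⟩
    have hTc : T.card ≤ Δ := hch c
    have hFc : F.card + 1 = C.card := card_erase_add_one hreg.1
    have hFn : F.Nonempty := card_pos.1 (by omega)
    have hFC : F ⊆ C := erase_subset _ _
    have hcF : c ∉ F := notMem_erase _ _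
    obtain ⟨t, ht, h1⟩ := heavy hFr hTc hFn
    have htC : t ∈ C := (mem_filter.1 ht).1
    have htc : t ≠ c := (mem_filter.1 ht).2.1
    have htp : par t = c := (mem_filter.1 ht).2.2
    have htlt : par t < t := (hreg.2 t htC htc).1
    set S : Finset ℕ := desc par F T t with hS
    have hSF : S ⊆ F := desc_sub
    have h2 : C.card ≤ 2 * Δ * S.card := by
      have e : 2 * Δ * S.card = 2 * (Δ * S.card) := by ring
      omega
    have h3 : 2 * (2 * Δ) ^ d ≤ S.card := by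
      have e : 2 * Δ * (2 * (2 * Δ) ^ d) = 2 * (2 * Δ) ^ (d + 1) := by ring
      have h4 : 2 * Δ * (2 * (2 * Δ) ^ d) ≤ 2 * Δ * S.card := by
        rw [e]; exact hbig.trans h2
      exact Nat.le_of_mul_le_mul_left h4 (by omega)
    obtain ⟨q, R, C₀, E₀, Q₀, hp⟩ := ih par S t (desc_reg hFr ht) (desc_CB hFr hcb) h3
    obtain ⟨E₁, Q₁, h4, h5⟩ := hH par (T.card - 1) (F \ S) (T.erase t)
      (card_erase_of_mem ht) (desc_compl hFr ht) (compl_CB hFr ht hcb)
    have hdis : Disjoint C₀ (F \ S) :=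
      disjoint_left.2 fun x hx hx' => (mem_sdiff.1 hx').2 (hp.CC hx)
    have hlast : par^[d + 1] q = c := by
      rw [Function.iterate_succ_apply', hp.top, htp]
    refine ⟨q, R, C₀ ∪ (F \ S), E₀ ∪ E₁, Q₀ ∪ Q₁, ?_⟩
    refine ⟨hp.qR, fun x hx => hFC (hSF (hp.RC hx)), hp.Rup, hlast, ?_, ?_, ?_, ?_, ?_,
      union hdis hp.dcp h4, ?_, ?_⟩
    · intro j hj
      rcases Nat.lt_succ_iff_lt_or_eq.1 hj with h6 | h6
      · exact hp.pos j h6
      · rw [h6, hp.top]; exact htlt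
    · intro j hj1 hj2
      rcases Nat.lt_succ_iff_lt_or_eq.1 (Nat.lt_succ_of_le hj2) with h6 | h6
      · obtain ⟨h7, h8, h9⟩ := hp.ch j hj1 (by omega)
        refine ⟨hFC (hSF h7), h8, fun h10 => ?_⟩
        rcases mem_union.1 h10 with h11 | h11
        · exact h9 h11
        · exact (mem_sdiff.1 h11).2 h7
      · rw [h6, hlast]
        refine ⟨hreg.1, fun h7 => hcF (hSF (hp.RC h7)), fun h7 => ?_⟩
        rcases mem_union.1 h7 with h8 | h8
        · exact hcF (hSF (hp.CC h8))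
        · exact hcF (mem_sdiff.1 h8).1
    · intro x hx
      rcases mem_union.1 hx with h6 | h6
      · exact hFC (hSF (hp.CC h6))
      · exact hFC (mem_sdiff.1 h6).1
    · rw [disjoint_union_left]
      exact ⟨hp.dis, disjoint_left.2 fun x hx hx' => (mem_sdiff.1 hx).2 (hp.RC hx')⟩
    · intro x hx
      by_cases hxc : x = c
      · exact Or.inr (Or.inr ⟨d + 1, by omega, le_rfl, by rw [hlast, hxc]⟩)
      · have hxF : x ∈ F := mem_erase.2 ⟨hxc, hx⟩
        by_cases hxS : x ∈ S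
        · rcases hp.cov x hxS with h6 | h6 | ⟨j, hj1, hj2, h6⟩
          · exact Or.inl h6
          · exact Or.inr (Or.inl (mem_union_left _ h6))
          · exact Or.inr (Or.inr ⟨j, hj1, by omega, h6⟩)
        · exact Or.inr (Or.inl (mem_union_right _ (mem_sdiff.2 ⟨hxF, hxS⟩)))
    · have h6 : (((C₀ ∪ (F \ S)) \ (E₀ ∪ E₁)).card : ℝ) ≤ ((C₀ \ E₀).card : ℝ) +
          (((F \ S) \ E₁).card : ℝ) := by exact_mod_cast union_card
      have h7 : ((C₀ ∪ (F \ S)).card : ℝ) = (C₀.card : ℝ) + ((F \ S).card : ℝ) := by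
        rw [card_union_of_disjoint hdis]
        push_cast
        rfl
      have h8 : ((T.card - 1 : ℕ) : ℝ) ≤ (Δ : ℝ) := by
        exact_mod_cast le_trans (Nat.sub_le _ _) hTc
      have h9 : (A : ℝ) * ((T.card - 1 : ℕ) : ℝ) ≤ A * Δ :=
        mul_le_mul_of_nonneg_left h8 (Nat.cast_nonneg _)
      have h10 := hp.waste
      rw [h7]
      push_cast
      linarith
    · calc C.card ≤ 2 * Δ * S.card := h2
        _ ≤ 2 * Δ * ((2 * Δ) ^ d * R.card) := Nat.mul_le_mul_left _ hp.big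
        _ = (2 * Δ) ^ (d + 1) * R.card := by ring

theorem step {Δ D k A : ℕ} (hΔ : 1 ≤ Δ) (hD : 1 ≤ D) (h : HT Δ D k A) :
    HT Δ D (k + 1) (2 * (2 * Δ) ^ D + D + D * Δ * A) := by
  intro par C c hreg hch
  set c₀ : ℝ := 1 / (2 * (Δ : ℝ)) ^ D with hc₀
  have hΔ' : (1 : ℝ) ≤ Δ := by exact_mod_cast hΔ
  have hpow : (1 : ℝ) ≤ (2 * (Δ : ℝ)) ^ D := one_le_pow₀ (by linarith)
  have hc1 : c₀ ≤ 1 := by
    rw [hc₀, div_le_one (by linarith)]
    exact hpow
  have hq0 : 0 ≤ (1 - c₀) ^ k := pow_nonneg (by linarith) _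
  have hq1 : 0 ≤ (1 - c₀) ^ (k + 1) := pow_nonneg (by linarith) _
  by_cases hbig : 2 * (2 * Δ) ^ D ≤ C.card
  · obtain ⟨q, R, C', E, Q, hp⟩ := path hΔ (HF_of_HT h) D par C c hreg hch hbig
    have hRE : ∀ x ∈ R, x ∉ C' := fun x hx hx' => disjoint_left.1 hp.dis hx' hx
    refine ⟨R ∪ E, insert q Q, ⟨?_, ?_, ?_, ?_, ?_, ?_⟩, ?_, ?_⟩
    · exact union_subset hp.RC (hp.dcp.EC.trans hp.CC)
    · intro x hx
      rcases mem_insert.1 hx with h1 | h1
      · rw [h1]; exact mem_union_left _ hp.qR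
      · exact mem_union_right _ (hp.dcp.QE h1)
    · intro x hx hxQ
      rw [mem_insert, not_or] at hxQ
      rcases mem_union.1 hx with h1 | h1
      · obtain ⟨h2, h3⟩ := hp.Rup x h1 hxQ.1
        exact ⟨h2, mem_union_left _ h3⟩
      · obtain ⟨h2, h3⟩ := hp.dcp.up x h1 hxQ.2
        exact ⟨h2, mem_union_right _ h3⟩
    · intro x hx
      rcases mem_insert.1 hx with h1 | h1
      · rw [h1]; exact hp.pos
      · exact hp.dcp.pos x h1
    · intro x hx j hj1 hj2
      rcases mem_insert.1 hx with h1 | h1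
      · rw [h1]
        obtain ⟨h2, h3, h4⟩ := hp.ch j hj1 hj2
        refine mem_sdiff.2 ⟨h2, fun h5 => ?_⟩
        rcases mem_union.1 h5 with h6 | h6
        · exact h3 h6
        · exact h4 (hp.dcp.EC h6)
      · obtain ⟨h2, h3⟩ := mem_sdiff.1 (hp.dcp.chain x h1 j hj1 hj2)
        refine mem_sdiff.2 ⟨hp.CC h2, fun h5 => ?_⟩
        rcases mem_union.1 h5 with h6 | h6
        · exact hRE _ h6 h2
        · exact h3 h6
    · intro x hx y hy j j' hj1 hj2 hj1' hj2' he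
      rcases mem_insert.1 hx with h1 | h1 <;> rcases mem_insert.1 hy with h2 | h2
      · rw [h1, h2]
      · exfalso
        rw [h1] at he
        have h3 := (hp.ch j hj1 hj2).2.2
        rw [he] at h3
        exact h3 (mem_sdiff.1 (hp.dcp.chain y h2 j' hj1' hj2')).1
      · exfalso
        rw [h2] at he
        have h3 := (hp.ch j' hj1' hj2').2.2
        rw [← he] at h3
        exact h3 (mem_sdiff.1 (hp.dcp.chain x h1 j hj1 hj2)).1
      · exact hp.dcp.excl x h1 y h2 j j' hj1 hj2 hj1' hj2' he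
    · intro h1
      obtain ⟨_, h2, h3⟩ := hp.ch D hD le_rfl
      rw [hp.top] at h2 h3
      rcases mem_union.1 h1 with h4 | h4
      · exact h2 h4
      · exact h3 (hp.dcp.EC h4)
    · have h1 : (C \ (R ∪ E)).card ≤ D + (C' \ E).card := by
        have h2 : C \ (R ∪ E) ⊆ (Icc 1 D).image (fun j => par^[j] q) ∪ (C' \ E) := by
          intro x hx
          obtain ⟨h3, h4⟩ := mem_sdiff.1 hx
          rw [mem_union, not_or] at h4
          rcases hp.cov x h3 with h5 | h5 | ⟨j, hj1, hj2, h5⟩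
          · exact absurd h5 h4.1
          · exact mem_union_right _ (mem_sdiff.2 ⟨h5, h4.2⟩)
          · exact mem_union_left _ (mem_image.2 ⟨j, mem_Icc.2 ⟨hj1, hj2⟩, h5.symm⟩)
        refine (card_le_card h2).trans ((card_union_le _ _).trans ?_)
        have h3 : ((Icc 1 D).image (fun j => par^[j] q)).card ≤ D := by
          refine card_image_le.trans ?_
          rw [Nat.card_Icc]
          omega
        omega
      have h2 : ((C \ (R ∪ E)).card : ℝ) ≤ D + ((C' \ E).card : ℝ) := by exact_mod_cast h1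
      have h3 := hp.waste
      have h4 : C'.card + R.card ≤ C.card := by
        rw [← card_union_of_disjoint hp.dis]
        exact card_le_card (union_subset hp.CC hp.RC)
      have h5 : (C'.card : ℝ) + R.card ≤ C.card := by exact_mod_cast h4
      have h6 : (C.card : ℝ) ≤ (2 * (Δ : ℝ)) ^ D * R.card := by exact_mod_cast hp.big
      have h7 : c₀ * C.card ≤ R.card := by
        rw [hc₀, div_mul_eq_mul_div, one_mul, div_le_iff₀ (by linarith)]
        linarith
      have h8 : (C'.card : ℝ) ≤ (1 - c₀) * C.card := by linarith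
      have h9 : (1 - c₀) ^ k * C'.card ≤ (1 - c₀) ^ k * ((1 - c₀) * C.card) :=
        mul_le_mul_of_nonneg_left h8 hq0
      have h10 : (1 - c₀) ^ k * ((1 - c₀) * C.card) = (1 - c₀) ^ (k + 1) * C.card := by ring
      have h11 : (0 : ℝ) ≤ 2 * (2 * (Δ : ℝ)) ^ D := by linarith
      rw [← hc₀] at h3
      push_cast
      linarith
  · refine ⟨∅, ∅, empty_dcp _ _ _, notMem_empty _, ?_⟩
    push Not at hbig
    have h1 : (C.card : ℝ) ≤ 2 * (2 * (Δ : ℝ)) ^ D := by
      have : (C.card : ℝ) < 2 * (2 * (Δ : ℝ)) ^ D := by exact_mod_cast hbig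
      exact this.le
    have h2 : 0 ≤ (1 - c₀) ^ (k + 1) * (C.card : ℝ) := mul_nonneg hq1 (Nat.cast_nonneg _)
    have h3 : (0 : ℝ) ≤ D * Δ * A := by positivity
    have h4 : (0 : ℝ) ≤ D := Nat.cast_nonneg _
    rw [sdiff_empty]
    push_cast
    linarith

theorem base (Δ D : ℕ) : HT Δ D 0 0 := by
  intro par C c _ _
  refine ⟨∅, ∅, empty_dcp _ _ _, notMem_empty _, ?_⟩
  simp

end REG_

/-- REG -/
theorem pREG : T_REG := by
  intro Δ D hΔ hD k
  induction k with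
  | zero => exact ⟨0, REG_.base Δ D⟩
  | succ k ih =>
    obtain ⟨A, hA⟩ := ih
    exact ⟨_, REG_.step hΔ hD hA⟩

end Pool.Agent.RST
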