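import Pool.Agent.RST.Targets

set_option autoImplicit false

open Finset

namespace Pool.Agent.RST

namespace RPART_

private lemma exists_exact {n : ℕ} {ι : Type} [Fintype ι] [DecidableEq ι] (s : ι → ℕ)
    (hs : ∑ i, s i = n) :
    ∃ c : Fin n → ι, ∀ i, (univ.filter (fun v => c v = i)).card = s i := by
  have hcard : Fintype.card (Σ i, Fin (s i)) = n := by simp [hs]
  let e : (Σ i, Fin (s i)) ≃ Fin n := Fintype.equivFinOfCardEq hcard
  refine ⟨fun v => (e.symm v).1, fun i => ?_⟩
  have h1 : (univ.filter (fun v => (e.symm v).1 = i)).card =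
      (univ.filter (fun x : Σ i, Fin (s i) => x.1 = i)).card := by
    refine Finset.card_bij (fun v _ => e.symm v) ?_ ?_ ?_
    · intro v hv
      simpa using hv
    · intro v _ w _ h
      exact e.symm.injective h
    · intro x hx
      refine ⟨e x, ?_, by simp⟩
      simpa using hx
  rw [h1]
  have h2 : (univ.filter (fun x : Σ i, Fin (s i) => x.1 = i)) =
      (univ : Finset (Fin (s i))).map (Function.Embedding.sigmaMk i) := by
    ext ⟨j, y⟩
    simp only [mem_filter, mem_univ, true_and, mem_map, Function.Embedding.sigmaMk_apply]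
    constructor
    · rintro rfl
      exact ⟨y, rfl⟩
    · rintro ⟨a, ha⟩
      exact (congrArg Sigma.fst ha).symm
  rw [h2, card_map, card_univ, Fintype.card_fin]

/-- the number of exact maps is at least the multinomial coefficient -/
private lemma multinomial_le {n : ℕ} {ι : Type} [Fintype ι] [DecidableEq ι] (s : ι → ℕ)
    (hs : ∑ i, s i = n) :
    Nat.multinomial univ s ≤ (univ.filter (fun c : Fin n → ι =>
      ∀ i, (univ.filter (fun v => c v = i)).card = s i)).card := by
  obtain ⟨c₀, hc₀⟩ := exists_exact s hs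
  have hst : (univ.filter (fun g : Equiv.Perm (Fin n) => c₀ ∘ g = c₀)).card =
      ∏ i, (s i).factorial := by
    rw [← Fintype.card_subtype, DomMulAct.stabilizer_card]
    refine Finset.prod_congr rfl fun i _ => ?_
    rw [Fintype.card_subtype, hc₀]
  have h1 : (univ : Finset (Equiv.Perm (Fin n))).card ≤ (∏ i, (s i).factorial) *
      (univ.filter (fun c : Fin n → ι =>
        ∀ i, (univ.filter (fun v => c v = i)).card = s i)).card := by
    refine Finset.card_le_mul_card_image_of_maps_to
      (f := fun σ : Equiv.Perm (Fin n) => c₀ ∘ σ) ?_ _ ?_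
    · intro σ _
      simp only [mem_filter, mem_univ, true_and]
      intro i
      rw [← hc₀ i]
      refine Finset.card_bij (fun v _ => σ v) ?_ ?_ ?_
      · intro v hv
        simpa using hv
      · intro v _ w _ h
        exact σ.injective h
      · intro x hx
        refine ⟨σ.symm x, ?_, by simp⟩
        simpa using hx
    · intro b _
      by_cases hne : (univ.filter (fun σ : Equiv.Perm (Fin n) => c₀ ∘ σ = b)).Nonempty
      · obtain ⟨σ₁, hσ₁⟩ := hne
        rw [mem_filter] at hσ₁
        have hσ₂ := hσ₁.2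
        rw [← hst]
        refine Finset.card_le_card_of_injOn (fun σ : Equiv.Perm (Fin n) => σ * σ₁⁻¹) ?_ ?_
        · intro σ hσ
          simp only [coe_filter, mem_univ, true_and, Set.mem_ofPred_eq] at hσ ⊢
          funext v
          have h3 : (c₀ ∘ σ) (σ₁⁻¹ v) = (c₀ ∘ σ₁) (σ₁⁻¹ v) := by rw [hσ, hσ₂]
          simpa using h3
        · intro a _ b _ h
          exact mul_right_cancel h
      · rw [Finset.not_nonempty_iff_eq_empty.mp hne]
        simp
  rw [Finset.card_univ, Fintype.card_perm, Fintype.card_fin] at h1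
  have h2 := Nat.multinomial_spec univ s
  rw [hs] at h2
  rw [← h2] at h1
  exact Nat.le_of_mul_le_mul_left h1 (Finset.prod_pos fun i _ => Nat.factorial_pos _)

private lemma key_pow (N m : ℕ) : N ^ m * N.factorial ≤ N ^ N * m.factorial := by
  rcases le_total N m with h | h
  · have h1 := Nat.factorial_mul_pow_sub_le_factorial h
    have h2 : N ^ m = N ^ N * N ^ (m - N) := by
      rw [← pow_add, Nat.add_sub_cancel' h]
    rw [h2]
    calc N ^ N * N ^ (m - N) * N.factorial = N ^ N * (N.factorial * N ^ (m - N)) := by ring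
      _ ≤ N ^ N * m.factorial := Nat.mul_le_mul_left _ h1
  · have h1 : (N - (N - m)).factorial * N.descFactorial (N - m) = N.factorial :=
      Nat.factorial_mul_descFactorial (Nat.sub_le N m)
    have h2 : N - (N - m) = m := Nat.sub_sub_self h
    rw [h2] at h1
    have h3 : N.descFactorial (N - m) ≤ N ^ (N - m) := Nat.descFactorial_le_pow N (N - m)
    have h4 : N ^ N = N ^ m * N ^ (N - m) := by
      rw [← pow_add, Nat.add_sub_cancel' h]
    rw [h4, ← h1]
    calc N ^ m * (m.factorial * N.descFactorial (N - m))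
        = (N ^ m * m.factorial) * N.descFactorial (N - m) := by ring
      _ ≤ (N ^ m * m.factorial) * N ^ (N - m) := Nat.mul_le_mul_left _ h3
      _ = N ^ m * N ^ (N - m) * m.factorial := by ring

private lemma mult_max {n : ℕ} {ι : Type} [Fintype ι] (s m : ι → ℕ)
    (hs : ∑ i, s i = n) (hm : ∑ i, m i = n) :
    Nat.multinomial univ m * ∏ i, s i ^ m i ≤ Nat.multinomial univ s * ∏ i, s i ^ s i := by
  have h1 := Nat.multinomial_spec univ s
  have h2 := Nat.multinomial_spec univ m
  rw [hs] at h1
  rw [hm] at h2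
  have h3 : (∏ i, s i ^ m i) * (∏ i, (s i).factorial) ≤
      (∏ i, s i ^ s i) * (∏ i, (m i).factorial) := by
    rw [← Finset.prod_mul_distrib, ← Finset.prod_mul_distrib]
    exact Finset.prod_le_prod' fun i _ => key_pow (s i) (m i)
  have hp1 : 0 < ∏ i, (s i).factorial := Finset.prod_pos fun i _ => Nat.factorial_pos _
  have hp2 : 0 < ∏ i, (m i).factorial := Finset.prod_pos fun i _ => Nat.factorial_pos _
  refine Nat.le_of_mul_le_mul_left ?_ (Nat.mul_pos hp1 hp2)
  calc (∏ i, (s i).factorial) * (∏ i, (m i).factorial) *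
        (Nat.multinomial univ m * ∏ i, s i ^ m i)
      = ((∏ i, (m i).factorial) * Nat.multinomial univ m) *
        ((∏ i, s i ^ m i) * (∏ i, (s i).factorial)) := by ring
    _ ≤ ((∏ i, (m i).factorial) * Nat.multinomial univ m) *
        ((∏ i, s i ^ s i) * (∏ i, (m i).factorial)) := Nat.mul_le_mul_left _ h3
    _ = ((∏ i, (s i).factorial) * Nat.multinomial univ s) *
        ((∏ i, s i ^ s i) * (∏ i, (m i).factorial)) := by rw [h1, h2]
    _ = _ := by ring

private lemma sum_biUnion_le {α β : Type} [DecidableEq β] (S : Finset α) (t : α → Finset β)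
    (f : β → ℝ) (hf : ∀ b, 0 ≤ f b) : ∑ b ∈ S.biUnion t, f b ≤ ∑ a ∈ S, ∑ b ∈ t a, f b := by
  classical
  induction S using Finset.induction_on with
  | empty => simp
  | insert a S ha ih =>
    rw [Finset.biUnion_insert, Finset.sum_insert ha]
    have h1 := Finset.sum_union_inter (s₁ := t a) (s₂ := S.biUnion t) (f := f)
    have h2 : 0 ≤ ∑ b ∈ t a ∩ S.biUnion t, f b := Finset.sum_nonneg fun b _ => hf b
    linarith

/-- the exact maps have large weight -/
private lemma exact_weight {n : ℕ} {ι : Type} [Fintype ι] [DecidableEq ι] (s : ι → ℕ)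
    (hs : ∑ i, s i = n) :
    n ^ n ≤ (n + 1) ^ (Fintype.card ι) * ∑ c ∈ univ.filter (fun c : Fin n → ι =>
      ∀ i, (univ.filter (fun v => c v = i)).card = s i), ∏ v, s (c v) := by
  have h1 : ∀ c ∈ univ.filter (fun c : Fin n → ι =>
      ∀ i, (univ.filter (fun v => c v = i)).card = s i), ∏ v, s (c v) = ∏ i, s i ^ s i := by
    intro c hc
    simp only [mem_filter, mem_univ, true_and] at hc
    rw [← Finset.prod_fiberwise (univ : Finset (Fin n)) c (fun v => s (c v))]
    refine Finset.prod_congr rfl fun i _ => ?_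
    have h2 : ∀ v ∈ univ.filter (fun v => c v = i), s (c v) = s i := by
      intro v hv
      simp only [mem_filter, mem_univ, true_and] at hv
      rw [hv]
    rw [Finset.prod_congr rfl h2, Finset.prod_const, hc i]
  rw [Finset.sum_congr rfl h1, Finset.sum_const, smul_eq_mul]
  have h3 : n ^ n = ∑ m ∈ Finset.piAntidiag univ n, Nat.multinomial univ m * ∏ i, s i ^ m i := by
    have h4 := Finset.sum_pow_eq_sum_piAntidiag (univ : Finset ι) s n
    rw [hs] at h4
    rw [h4]
    simp
  have h5 : (Finset.piAntidiag (univ : Finset ι) n).card ≤ (n + 1) ^ (Fintype.card ι) := by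
    have h6 : Finset.piAntidiag (univ : Finset ι) n ⊆
        Fintype.piFinset (fun _ : ι => Finset.range (n + 1)) := by
      intro m hm
      rw [Finset.mem_piAntidiag] at hm
      rw [Fintype.mem_piFinset]
      intro i
      rw [Finset.mem_range]
      have h7 : m i ≤ ∑ j, m j := Finset.single_le_sum (fun j _ => Nat.zero_le _) (mem_univ i)
      have h8 : ∑ j, m j = n := hm.1
      omega
    calc (Finset.piAntidiag (univ : Finset ι) n).card
        ≤ (Fintype.piFinset (fun _ : ι => Finset.range (n + 1))).card := Finset.card_le_card h6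
      _ = (n + 1) ^ (Fintype.card ι) := by
        rw [Fintype.card_piFinset]; simp
  calc n ^ n = ∑ m ∈ Finset.piAntidiag univ n, Nat.multinomial univ m * ∏ i, s i ^ m i := h3
    _ ≤ ∑ m ∈ Finset.piAntidiag (univ : Finset ι) n,
        Nat.multinomial univ s * ∏ i, s i ^ s i := by
      refine Finset.sum_le_sum fun m hm => ?_
      rw [Finset.mem_piAntidiag] at hm
      exact mult_max s m hs hm.1
    _ = (Finset.piAntidiag (univ : Finset ι) n).card *
        (Nat.multinomial univ s * ∏ i, s i ^ s i) := by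
      rw [Finset.sum_const, smul_eq_mul]
    _ ≤ (n + 1) ^ (Fintype.card ι) * (Nat.multinomial univ s * ∏ i, s i ^ s i) :=
      Nat.mul_le_mul_right _ h5
    _ ≤ _ := Nat.mul_le_mul_left _ (Nat.mul_le_mul_right _ (multinomial_le s hs))

private lemma eta_ineq {η : ℝ} (h0 : 0 < η) (h1 : η < 1) :
    η ^ 2 / 2 ≤ η + (1 - η) * Real.log (1 - η) := by
  have hx : 0 < 1 - η := by linarith
  have h2 : Real.log (1 - η) ≤ 0 := Real.log_nonpos hx.le (by linarith)
  have h3 : Real.sinh (Real.log (1 - η)) ≤ Real.log (1 - η) := Real.sinh_le_self_iff.mpr h2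
  rw [Real.sinh_log hx] at h3
  have h4 : (1 - η) * (((1 - η) - (1 - η)⁻¹) / 2) ≤ (1 - η) * Real.log (1 - η) :=
    mul_le_mul_of_nonneg_left h3 hx.le
  have h5 : (1 - η) * (((1 - η) - (1 - η)⁻¹) / 2) = ((1 - η) ^ 2 - 1) / 2 := by
    have h6 : (1 - η) * (1 - η)⁻¹ = 1 := mul_inv_cancel₀ hx.ne'
    have h7 : (1 - η) * (((1 - η) - (1 - η)⁻¹) / 2) =
      ((1 - η) ^ 2 - (1 - η) * (1 - η)⁻¹) / 2 := by ring
    rw [h7, h6]
  rw [h5] at h4
  nlinarith [h4]

/-- the generating function -/
private lemma genfun {n : ℕ} {ι : Type} [Fintype ι] [DecidableEq ι] (s : ι → ℕ)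
    (hs : ∑ i, s i = n) (A : Finset (Fin n)) (i : ι) (x : ℝ) :
    ∑ c : Fin n → ι, ((∏ v, (s (c v) : ℝ)) * x ^ ((A.filter (fun w => c w = i)).card)) =
      ((n : ℝ) - (1 - x) * s i) ^ A.card * (n : ℝ) ^ (n - A.card) := by
  have h1 : ∀ c : Fin n → ι, (∏ v, (s (c v) : ℝ)) * x ^ ((A.filter (fun w => c w = i)).card) =
      ∏ v, ((s (c v) : ℝ) * (if v ∈ A ∧ c v = i then x else 1)) := by
    intro c
    rw [Finset.prod_mul_distrib]
    congr 1
    rw [Finset.prod_ite, Finset.prod_const_one, mul_one, Finset.prod_const]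
    congr 2
    ext w
    simp
  simp_rw [h1]
  have h2 := Finset.prod_univ_sum (fun _ : Fin n => (univ : Finset ι))
    (fun v j => (s j : ℝ) * (if v ∈ A ∧ j = i then x else 1))
  rw [Fintype.piFinset_univ] at h2
  rw [← h2]
  have h3 : ∀ v : Fin n, ∑ j, ((s j : ℝ) * (if v ∈ A ∧ j = i then x else 1)) =
      if v ∈ A then (n : ℝ) - (1 - x) * s i else n := by
    intro v
    have hs' : ∑ j, (s j : ℝ) = n := by rw [← hs]; push_cast; rfl
    by_cases hv : v ∈ A
    · rw [if_pos hv]
      have h4 : ∀ j, (s j : ℝ) * (if v ∈ A ∧ j = i then x else 1) =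
          s j - (if j = i then (1 - x) * s i else 0) := by
        intro j
        by_cases hj : j = i
        · subst hj; simp [hv]; ring
        · simp [hj]
      rw [Finset.sum_congr rfl fun j _ => h4 j, Finset.sum_sub_distrib, hs',
        Finset.sum_ite_eq' univ i]
      simp
    · rw [if_neg hv]
      rw [← hs']
      refine Finset.sum_congr rfl fun j _ => ?_
      simp [hv]
  rw [Finset.prod_congr rfl fun v _ => h3 v, Finset.prod_ite, Finset.prod_const, Finset.prod_const]
  congr 2
  · congr 1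
    ext w
    simp
  · have h5 : (univ.filter (fun v => v ∉ A)) = Aᶜ := by
      ext w
      simp
    rw [h5, Finset.card_compl, Fintype.card_fin]

/-- the bad maps have small weight -/
private lemma bad_weight {n : ℕ} {ι : Type} [Fintype ι] [DecidableEq ι] (s : ι → ℕ)
    (hs : ∑ i, s i = n) (hn : 0 < n) (A : Finset (Fin n)) (i : ι) {η : ℝ} (h0 : 0 < η)
    (h1 : η < 1) :
    ∑ c ∈ univ.filter (fun c : Fin n → ι =>
      ((A.filter (fun w => c w = i)).card : ℝ) < (1 - η) * (s i / n) * A.card),
      ∏ v, (s (c v) : ℝ) ≤ (n : ℝ) ^ n * Real.exp (-(η ^ 2 / 2 * ((s i / n) * A.card))) := by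
  have hx : 0 < 1 - η := by linarith
  have hn' : (0 : ℝ) < n := by exact_mod_cast hn
  set q : ℝ := s i / n with hq
  have hq0 : 0 ≤ q := by positivity
  set L := Real.log (1 - η) with hL
  have hL0 : L ≤ 0 := Real.log_nonpos hx.le (by linarith)
  set a : ℝ := (A.card : ℝ) with ha
  have hA : A.card ≤ n := by
    calc A.card ≤ (univ : Finset (Fin n)).card := Finset.card_le_univ A
      _ = n := by simp
  -- generating function bound
  have hgf : ∑ c : Fin n → ι, ((∏ v, (s (c v) : ℝ)) *
      (1 - η) ^ ((A.filter (fun w => c w = i)).card)) ≤ (n : ℝ) ^ n * Real.exp (-(η * (q * a))) := by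
    rw [genfun s hs A i (1 - η)]
    have h2 : (n : ℝ) - (1 - (1 - η)) * s i = n * (1 - η * q) := by
      rw [hq]; field_simp; ring
    rw [h2, mul_pow]
    have h3 : (n : ℝ) ^ A.card * (1 - η * q) ^ A.card * (n : ℝ) ^ (n - A.card) =
        (n : ℝ) ^ n * (1 - η * q) ^ A.card := by
      have h4 : (n : ℝ) ^ n = (n : ℝ) ^ A.card * (n : ℝ) ^ (n - A.card) := by
        rw [← pow_add, Nat.add_sub_cancel' hA]
      rw [h4]; ring
    rw [h3]
    have hq1 : q ≤ 1 := by
      rw [hq, div_le_one hn']
      have h5 : s i ≤ ∑ j, s j := Finset.single_le_sum (fun j _ => Nat.zero_le _) (mem_univ i)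
      rw [hs] at h5
      exact_mod_cast h5
    have h6 : 0 ≤ 1 - η * q := by nlinarith
    have h7 : 1 - η * q ≤ Real.exp (-(η * q)) := by
      have := Real.add_one_le_exp (-(η * q))
      linarith
    have h8 : (1 - η * q) ^ A.card ≤ Real.exp (-(η * (q * a))) := by
      calc (1 - η * q) ^ A.card ≤ (Real.exp (-(η * q))) ^ A.card := pow_le_pow_left₀ h6 h7 _
        _ = Real.exp (A.card * (-(η * q))) := by rw [← Real.exp_nat_mul]
        _ = Real.exp (-(η * (q * a))) := by rw [ha]; ring_nf
    exact mul_le_mul_of_nonneg_left h8 (by positivity)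
  -- Markov
  have hmk : (∑ c ∈ univ.filter (fun c : Fin n → ι =>
      ((A.filter (fun w => c w = i)).card : ℝ) < (1 - η) * q * a),
      ∏ v, (s (c v) : ℝ)) * Real.exp ((1 - η) * q * a * L) ≤
      ∑ c : Fin n → ι, ((∏ v, (s (c v) : ℝ)) *
      (1 - η) ^ ((A.filter (fun w => c w = i)).card)) := by
    rw [Finset.sum_mul]
    calc ∑ c ∈ univ.filter (fun c : Fin n → ι =>
        ((A.filter (fun w => c w = i)).card : ℝ) < (1 - η) * q * a),
        (∏ v, (s (c v) : ℝ)) * Real.exp ((1 - η) * q * a * L)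
        ≤ ∑ c ∈ univ.filter (fun c : Fin n → ι =>
        ((A.filter (fun w => c w = i)).card : ℝ) < (1 - η) * q * a),
        ((∏ v, (s (c v) : ℝ)) * (1 - η) ^ ((A.filter (fun w => c w = i)).card)) := by
          refine Finset.sum_le_sum fun c hc => ?_
          simp only [mem_filter, mem_univ, true_and] at hc
          refine mul_le_mul_of_nonneg_left ?_ (Finset.prod_nonneg fun v _ => Nat.cast_nonneg _)
          have h9 : (1 - η) ^ ((A.filter (fun w => c w = i)).card) =
              Real.exp (((A.filter (fun w => c w = i)).card : ℝ) * L) := by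
            rw [Real.exp_nat_mul, hL, Real.exp_log hx]
          rw [h9]
          apply Real.exp_le_exp.mpr
          exact mul_le_mul_of_nonpos_right hc.le hL0
      _ ≤ _ := by
        refine Finset.sum_le_sum_of_subset_of_nonneg (Finset.filter_subset _ _) ?_
        intro c _ _
        exact mul_nonneg (Finset.prod_nonneg fun v _ => Nat.cast_nonneg _) (pow_nonneg hx.le _)
  have h10 := hmk.trans hgf
  have h11 : (∑ c ∈ univ.filter (fun c : Fin n → ι =>
      ((A.filter (fun w => c w = i)).card : ℝ) < (1 - η) * q * a),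
      ∏ v, (s (c v) : ℝ)) ≤ (n : ℝ) ^ n * Real.exp (-(η * (q * a))) /
        Real.exp ((1 - η) * q * a * L) := by
    rw [le_div_iff₀ (Real.exp_pos _)]
    exact h10
  refine h11.trans ?_
  rw [mul_div_assoc, ← Real.exp_sub]
  refine mul_le_mul_of_nonneg_left (Real.exp_le_exp.mpr ?_) (by positivity)
  have h12 := eta_ineq h0 h1
  have h13 : 0 ≤ q * a := mul_nonneg hq0 (Nat.cast_nonneg _)
  have h14 := mul_le_mul_of_nonneg_right h12 h13
  rw [← hL] at h14
  nlinarith [h14]

end RPART_

open RPART_ in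
theorem pRPART : T_RPART := by
  intro n H ι _ _ s D₀ η smin hn hs h0 h1 hD₀ hdeg hsmall
  classical
  have hn' : (0 : ℝ) < n := by exact_mod_cast hn
  set N : Fin n → Finset (Fin n) := fun v => univ.filter (fun w => H.Adj v w) with hN
  have hdgU : ∀ v, dg H v univ = (N v).card := by
    intro v
    simp [dg, hN]
  have hdgP : ∀ (c : Fin n → ι) (i : ι) (v : Fin n),
      dg H v (univ.filter (fun w => c w = i)) = ((N v).filter (fun w => c w = i)).card := by
    intro c i v
    unfold dg
    congr 1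
    ext w
    simp [hN, and_comm]
  set E := univ.filter (fun c : Fin n → ι =>
      ∀ i, (univ.filter (fun v => c v = i)).card = s i) with hE
  set B : Fin n → ι → Finset (Fin n → ι) := fun v i => univ.filter (fun c : Fin n → ι =>
      (((N v).filter (fun w => c w = i)).card : ℝ) < (1 - η) * (s i / n) * (N v).card) with hB
  set ex : ℝ := Real.exp (-(η ^ 2 * smin * D₀ / (2 * n))) with hex
  have hbad : ∀ v i, smin ≤ s i → ∑ c ∈ B v i, ∏ v, (s (c v) : ℝ) ≤ (n : ℝ) ^ n * ex := by
    intro v i hsi
    refine (bad_weight s hs hn (N v) i h0 h1).trans ?_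
    refine mul_le_mul_of_nonneg_left (Real.exp_le_exp.mpr ?_) (by positivity)
    have hd := hdeg v
    rw [hdgU v] at hd
    have h2 : smin * D₀ ≤ s i * (N v).card := by
      rcases le_total 0 smin with h | h
      · exact mul_le_mul hsi hd hD₀ (Nat.cast_nonneg _)
      · have h3 : smin * D₀ ≤ 0 := mul_nonpos_of_nonpos_of_nonneg h hD₀
        exact h3.trans (by positivity)
    have h4 : η ^ 2 * smin * D₀ / (2 * n) = η ^ 2 / 2 * (smin * D₀ / n) := by
      field_simp
    have h5 : η ^ 2 / 2 * ((s i : ℝ) / n * (N v).card) =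
        η ^ 2 / 2 * ((s i * (N v).card) / n) := by ring
    rw [h4, h5]
    apply neg_le_neg
    refine mul_le_mul_of_nonneg_left ?_ (by positivity)
    exact div_le_div_of_nonneg_right h2 hn'.le
  -- weight of the exact maps
  have hexact := exact_weight s hs
  have hexact' : (n : ℝ) ^ n ≤ ((n : ℝ) + 1) ^ (Fintype.card ι) *
      ∑ c ∈ E, ∏ v, (s (c v) : ℝ) := by
    have : ((n ^ n : ℕ) : ℝ) ≤ (((n + 1) ^ (Fintype.card ι) * ∑ c ∈ E, ∏ v, s (c v) : ℕ) : ℝ) := by
      exact_mod_cast hexact
    push_cast at this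
    exact this
  by_contra hcon
  -- every exact map is bad
  have hsub : E ⊆ (univ ×ˢ (univ.filter (fun i => smin ≤ (s i : ℝ)))).biUnion
      (fun x : Fin n × ι => B x.1 x.2) := by
    intro c hc
    simp only [hE, mem_filter, mem_univ, true_and] at hc
    by_contra hcb
    apply hcon
    refine ⟨fun i => univ.filter (fun v => c v = i), hc, ?_, ?_, ?_⟩
    · intro i j hij
      rw [Finset.disjoint_left]
      intro v hv hv'
      simp only [mem_filter, mem_univ, true_and] at hv hv'
      exact hij (hv.symm.trans hv')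
    · intro v
      exact ⟨c v, by simp⟩
    · intro i hi v
      rw [hdgU, hdgP]
      by_contra hlt
      push Not at hlt
      apply hcb
      simp only [mem_biUnion, mem_product, mem_univ, true_and, mem_filter]
      refine ⟨(v, i), hi, ?_⟩
      simp only [hB, mem_filter, mem_univ, true_and]
      exact hlt
  have hw0 : ∀ c : Fin n → ι, 0 ≤ ∏ v, (s (c v) : ℝ) :=
    fun c => Finset.prod_nonneg fun v _ => Nat.cast_nonneg _
  have h6 : ∑ c ∈ E, ∏ v, (s (c v) : ℝ) ≤ (n : ℝ) * (Fintype.card ι) * ((n : ℝ) ^ n * ex) := by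
    calc ∑ c ∈ E, ∏ v, (s (c v) : ℝ)
        ≤ ∑ c ∈ (univ ×ˢ (univ.filter (fun i => smin ≤ (s i : ℝ)))).biUnion
          (fun x : Fin n × ι => B x.1 x.2), ∏ v, (s (c v) : ℝ) :=
          Finset.sum_le_sum_of_subset_of_nonneg hsub fun c _ _ => hw0 c
      _ ≤ ∑ x ∈ (univ ×ˢ (univ.filter (fun i => smin ≤ (s i : ℝ)))),
          ∑ c ∈ B x.1 x.2, ∏ v, (s (c v) : ℝ) :=
          sum_biUnion_le _ _ _ hw0
      _ ≤ ∑ x ∈ ((univ : Finset (Fin n)) ×ˢ (univ.filter (fun i : ι => smin ≤ (s i : ℝ)))),
          (n : ℝ) ^ n * ex := by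
          refine Finset.sum_le_sum fun x hx => ?_
          simp only [mem_product, mem_univ, true_and, mem_filter] at hx
          exact hbad x.1 x.2 hx
      _ = ((((univ : Finset (Fin n)) ×ˢ (univ.filter (fun i : ι => smin ≤ (s i : ℝ)))).card : ℕ) : ℝ)
          * ((n : ℝ) ^ n * ex) := by
          rw [Finset.sum_const, nsmul_eq_mul]
      _ ≤ (n : ℝ) * (Fintype.card ι) * ((n : ℝ) ^ n * ex) := by
          refine mul_le_mul_of_nonneg_right ?_ (by positivity)
          rw [Finset.card_product]
          have h7 : ((univ.filter (fun i : ι => smin ≤ (s i : ℝ))).card : ℝ) ≤ Fintype.card ι := by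
            exact_mod_cast Finset.card_le_univ _
          push_cast
          simp only [Finset.card_univ, Fintype.card_fin]
          exact mul_le_mul_of_nonneg_left h7 hn'.le
  have h8 : (n : ℝ) ^ n ≤ (n : ℝ) ^ n *
      ((n : ℝ) * (Fintype.card ι) * ((n : ℝ) + 1) ^ (Fintype.card ι) * ex) := by
    calc (n : ℝ) ^ n ≤ ((n : ℝ) + 1) ^ (Fintype.card ι) * ∑ c ∈ E, ∏ v, (s (c v) : ℝ) := hexact'
      _ ≤ ((n : ℝ) + 1) ^ (Fintype.card ι) *
          ((n : ℝ) * (Fintype.card ι) * ((n : ℝ) ^ n * ex)) :=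
          mul_le_mul_of_nonneg_left h6 (by positivity)
      _ = _ := by ring
  have h9 : (n : ℝ) ^ n *
      ((n : ℝ) * (Fintype.card ι) * ((n : ℝ) + 1) ^ (Fintype.card ι) * ex) < (n : ℝ) ^ n * 1 :=
    mul_lt_mul_of_pos_left hsmall (by positivity)
  linarith

end Pool.Agent.RST
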