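import Pool.Agent.RST.Targets

/-!
# RST: roll back (target `T_SHR`)
-/

set_option autoImplicit false

open Finset

namespace Pool.Agent.RST

theorem pSHR : T_SHR := by
  intro V _ _ H W d m J J' F F' hOK hJ hF htail
  have hused : used J' F' ⊆ used J F := by
    unfold used
    exact union_subset_union (image_subset_image hJ) hF
  refine ⟨hOK.inj.mono (fun e he => hJ he), ?_, hused.trans hOK.sub,
    fun e he => hOK.adj e (hJ he), htail, ?_⟩
  · exact disjoint_of_subset_left (image_subset_image hJ) (disjoint_of_subset_right hF hOK.disj)
  · intro U hU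
    have h1 := hOK.ext U hU
    set N := ((J \ J').filter (fun e => e.1 ∈ U)) with hN
    have hcardN : (N.image Prod.snd).card = N.card := by
      refine card_image_of_injOn (hOK.inj.mono ?_)
      intro e he
      have : e ∈ N := he
      rw [hN, mem_filter, mem_sdiff] at this
      exact this.1.1
    have hsplit : (J.filter (fun e => e.1 ∈ U)).card =
        (J'.filter (fun e => e.1 ∈ U)).card + N.card := by
      rw [← card_union_of_disjoint]
      · congr 1
        ext e
        simp only [hN, mem_filter, mem_union, mem_sdiff]
        constructor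
        · rintro ⟨h1, h2⟩
          by_cases h3 : e ∈ J'
          · exact Or.inl ⟨h3, h2⟩
          · exact Or.inr ⟨⟨h1, h3⟩, h2⟩
        · rintro (⟨h1, h2⟩ | ⟨⟨h1, _⟩, h2⟩)
          · exact ⟨hJ h1, h2⟩
          · exact ⟨h1, h2⟩
      · rw [disjoint_left]
        intro e he he'
        rw [hN, mem_filter, mem_sdiff] at he'
        exact he'.1.2 (mem_filter.mp he).1
    have hdis : Disjoint (nb H U W \ used J F) (N.image Prod.snd) := by
      rw [disjoint_left]
      intro x hx hx'
      obtain ⟨e, he, rfl⟩ := mem_image.mp hx'
      rw [hN, mem_filter, mem_sdiff] at he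
      refine (mem_sdiff.mp hx).2 ?_
      unfold used
      exact mem_union_left _ (mem_image_of_mem _ he.1.1)
    have hsub : (nb H U W \ used J F) ∪ N.image Prod.snd ⊆ nb H U W \ used J' F' := by
      refine union_subset (sdiff_subset_sdiff (Subset.refl _) hused) ?_
      intro x hx
      obtain ⟨e, he, rfl⟩ := mem_image.mp hx
      rw [hN, mem_filter, mem_sdiff] at he
      obtain ⟨⟨heJ, heJ'⟩, heU⟩ := he
      have hused1 : e.2 ∈ used J F := by
        unfold used
        exact mem_union_left _ (mem_image_of_mem _ heJ)
      rw [mem_sdiff]
      refine ⟨?_, ?_⟩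
      · unfold nb
        classical
        exact Finset.mem_filter.mpr ⟨hOK.sub hused1, e.1, heU, hOK.adj e heJ⟩
      · intro hmem
        unfold used at hmem
        rcases mem_union.mp hmem with h2 | h2
        · obtain ⟨e', he', heq⟩ := mem_image.mp h2
          have : e' = e := hOK.inj (hJ he') heJ heq
          rw [this] at he'
          exact heJ' he'
        · exact disjoint_left.mp hOK.disj (mem_image_of_mem _ heJ) (hF h2)
    have h3 := card_le_card hsub
    rw [card_union_of_disjoint hdis, hcardN] at h3
    omega

end Pool.Agent.RST
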