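import Pool.Agent.RST.Targets

set_option autoImplicit false

open Finset

namespace Pool.Agent.RST

namespace STEP_

variable {V : Type} [DecidableEq V] {H : SimpleGraph V} {W : Finset V} {d m : ℕ}
  {J : Finset (V × V)} {F : Finset V}

/-- the free neighbours -/
noncomputable def nn (H : SimpleGraph V) (W : Finset V) (J : Finset (V × V)) (F : Finset V)
    (U : Finset V) : ℕ := (nb H U W \ used J F).card

/-- the edges with tail in `U` -/
def oo (J : Finset (V × V)) (U : Finset V) : ℕ := (J.filter (fun e => e.1 ∈ U)).card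

lemma nb_union (U U' : Finset V) : nb H (U ∪ U') W = nb H U W ∪ nb H U' W := by
  ext w
  simp only [nb, mem_filter, mem_union]
  constructor
  · rintro ⟨hw, u, hu | hu, h⟩
    · exact Or.inl ⟨hw, u, hu, h⟩
    · exact Or.inr ⟨hw, u, hu, h⟩
  · rintro (⟨hw, u, hu, h⟩ | ⟨hw, u, hu, h⟩)
    · exact ⟨hw, u, Or.inl hu, h⟩
    · exact ⟨hw, u, Or.inr hu, h⟩

lemma nb_mono {U U' : Finset V} (h : U ⊆ U') : nb H U W ⊆ nb H U' W := by
  intro w
  simp only [nb, mem_filter]
  rintro ⟨hw, u, hu, h'⟩
  exact ⟨hw, u, h hu, h'⟩

lemma nb_sub (U : Finset V) : nb H U W ⊆ W := by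
  classical
  exact filter_subset _ _

lemma nn_sub (U U' : Finset V) : nn H W J F (U ∪ U') + nn H W J F (U ∩ U') ≤
    nn H W J F U + nn H W J F U' := by
  unfold nn
  have h1 : nb H (U ∪ U') W \ used J F = (nb H U W \ used J F) ∪ (nb H U' W \ used J F) := by
    rw [nb_union, union_sdiff_distrib]
  have h2 : nb H (U ∩ U') W \ used J F ⊆ (nb H U W \ used J F) ∩ (nb H U' W \ used J F) := by
    intro w hw
    rw [mem_sdiff] at hw
    rw [mem_inter, mem_sdiff, mem_sdiff]
    exact ⟨⟨nb_mono inter_subset_left hw.1, hw.2⟩, ⟨nb_mono inter_subset_right hw.1, hw.2⟩⟩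
  have h3 := card_le_card h2
  have h4 := card_union_add_card_inter (nb H U W \ used J F) (nb H U' W \ used J F)
  rw [h1]
  omega

lemma oo_mod (U U' : Finset V) : oo J (U ∪ U') + oo J (U ∩ U') = oo J U + oo J U' := by
  unfold oo
  rw [← card_union_add_card_inter (J.filter (fun e => e.1 ∈ U)) (J.filter (fun e => e.1 ∈ U')),
    ← filter_or, ← filter_and]
  simp only [mem_union, mem_inter]

/-- tight sets -/
def Tight (H : SimpleGraph V) (W : Finset V) (d m : ℕ) (J : Finset (V × V)) (F : Finset V)
    (U : Finset V) : Prop := U.card ≤ 2 * m ∧ nn H W J F U + oo J U ≤ d * U.card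

lemma tight_small (hLG : ∀ X : Finset V, m ≤ X.card → W.card ≤ 2 * (nb H X W).card)
    (hu : 2 * ((used J F).card + 2 * m * d) < W.card) {U : Finset V}
    (h : Tight H W d m J F U) : U.card < m := by
  by_contra hm
  rw [not_lt] at hm
  have h1 := hLG U hm
  have h2 : (nb H U W).card ≤ nn H W J F U + (used J F).card := by
    unfold nn
    have := card_le_card_sdiff_add_card (s := nb H U W) (t := used J F)
    omega
  have h3 : nn H W J F U ≤ d * U.card := by have := h.2; omega
  have h4 : d * U.card ≤ d * (2 * m) := Nat.mul_le_mul_left _ h.1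
  have h5 : d * (2 * m) = 2 * m * d := by ring
  omega

lemma tight_union (hOK : OK H W d m J F)
    (hLG : ∀ X : Finset V, m ≤ X.card → W.card ≤ 2 * (nb H X W).card)
    (hu : 2 * ((used J F).card + 2 * m * d) < W.card) {U U' : Finset V}
    (h : Tight H W d m J F U) (h' : Tight H W d m J F U') : Tight H W d m J F (U ∪ U') := by
  have h1 := tight_small hLG hu h
  have h2 := tight_small hLG hu h'
  have h3 := card_union_add_card_inter U U'
  have h4 : d * (U ∩ U').card ≤ nn H W J F (U ∩ U') + oo J (U ∩ U') :=
    hOK.ext _ (by omega)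
  have h5 := nn_sub (H := H) (W := W) (J := J) (F := F) U U'
  have h6 := oo_mod (J := J) U U'
  have h7 := h.2
  have h8 := h'.2
  have h9 : d * (U ∪ U').card + d * (U ∩ U').card = d * U.card + d * U'.card := by
    rw [← mul_add, h3, mul_add]
  exact ⟨by omega, by omega⟩

lemma tight_empty : Tight H W d m J F ∅ := by
  refine ⟨by simp, ?_⟩
  have h1 : nb H ∅ W = ∅ := by
    unfold nb
    simp
  unfold nn oo
  rw [h1]
  simp

end STEP_

open STEP_ in
theorem pSTEP : T_STEP := by
  intro V _ _ H W d m J F hOK hm hLG hu u hod huW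
  classical
  let T : Finset (Finset V) := univ.filter (fun U => Tight H W d m J F U ∧ u ∉ U)
  set Us : Finset V := T.sup id with hUs
  have hUsp : Tight H W d m J F Us ∧ u ∉ Us := by
    refine Finset.sup_induction (p := fun U => Tight H W d m J F U ∧ u ∉ U) ?_ ?_ ?_
    · exact ⟨tight_empty, notMem_empty u⟩
    · rintro a ⟨ha, ha'⟩ b ⟨hb, hb'⟩
      refine ⟨tight_union hOK hLG hu ha hb, ?_⟩
      rw [sup_eq_union, mem_union]
      tauto
    · intro b hb
      exact (mem_filter.mp hb).2
  obtain ⟨hT, huUs⟩ := hUsp
  have hsmall := tight_small hLG hu hT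
  have hins : (insert u Us).card = Us.card + 1 := card_insert_of_notMem huUs
  have hext : d * (insert u Us).card ≤ nn H W J F (insert u Us) + oo J (insert u Us) :=
    hOK.ext _ (by omega)
  have hoo : oo J (insert u Us) = oo J Us + od J u := by
    unfold oo od
    rw [← card_union_of_disjoint, ← filter_or]
    · congr 1
      ext e
      simp only [mem_filter, mem_insert]
      tauto
    · rw [disjoint_filter]
      intro e _ h1 h2
      rw [h2] at h1
      exact huUs h1
  have hlt : nn H W J F Us < nn H W J F (insert u Us) := by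
    have h1 := hT.2
    rw [hins, mul_add, mul_one] at hext
    omega
  have hex : ∃ w ∈ nb H (insert u Us) W \ used J F, w ∉ nb H Us W \ used J F := by
    by_contra hcon
    push_neg at hcon
    exact absurd (card_le_card (fun w hw => hcon w hw)) (not_le.mpr hlt)
  obtain ⟨w, hw1, hw2⟩ := hex
  rw [mem_sdiff] at hw1 hw2
  obtain ⟨hw1, hwu⟩ := hw1
  have hw3 : w ∉ nb H Us W := fun h => hw2 ⟨h, hwu⟩
  have hwW : w ∈ W := nb_sub _ hw1
  have hadj : H.Adj u w := by
    unfold nb at hw1
    rw [mem_filter] at hw1
    obtain ⟨-, x, hx, hxw⟩ := hw1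
    rw [mem_insert] at hx
    rcases hx with rfl | hx
    · exact hxw
    · exact absurd (by unfold nb; rw [mem_filter]; exact ⟨hwW, x, hx, hxw⟩) hw3
  have hwJ : w ∉ J.image Prod.snd := fun h => hwu (mem_union_left _ h)
  have hwF : w ∉ F := fun h => hwu (mem_union_right _ h)
  have hnJ : (u, w) ∉ J := fun h => hwJ (mem_image.mpr ⟨(u, w), h, rfl⟩)
  have hused : used (insert (u, w) J) F = insert w (used J F) := by
    unfold used
    rw [image_insert, insert_union]
  refine ⟨w, hwW, hwu, hadj, hnJ, ?_⟩
  refine ⟨?_, ?_, ?_, ?_, ?_, ?_⟩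
  · rw [coe_insert]
    refine (Set.injOn_insert ?_).mpr ⟨hOK.inj, ?_⟩
    · exact hnJ
    · rintro ⟨e, he, hew⟩
      exact hwJ (mem_image.mpr ⟨e, he, hew⟩)
  · rw [image_insert, disjoint_insert_left]
    exact ⟨hwF, hOK.disj⟩
  · rw [hused]
    exact insert_subset hwW hOK.sub
  · intro e he
    rw [mem_insert] at he
    rcases he with rfl | he
    · exact hadj
    · exact hOK.adj e he
  · intro e he heW
    rw [hused, mem_insert]
    rw [mem_insert] at he
    rcases he with rfl | he
    · exact Or.inr (huW heW)
    · exact Or.inr (hOK.tail e he heW)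
  · intro U hU
    rw [hused]
    have h0 : d * U.card ≤ nn H W J F U + oo J U := hOK.ext U hU
    have h1 : nn H W J F U ≤ (nb H U W \ insert w (used J F)).card + 1 := by
      unfold nn
      have h2 : nb H U W \ used J F ⊆ insert w (nb H U W \ insert w (used J F)) := by
        intro x hx
        rw [mem_sdiff] at hx
        rw [mem_insert, mem_sdiff, mem_insert]
        by_cases hxw : x = w
        · exact Or.inl hxw
        · exact Or.inr ⟨hx.1, by tauto⟩
      exact (card_le_card h2).trans (card_insert_le _ _)
    by_cases huU : u ∈ U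
    · have h3 : ((insert (u, w) J).filter (fun e => e.1 ∈ U)).card = oo J U + 1 := by
        rw [filter_insert, if_pos huU, card_insert_of_notMem]
        · rfl
        · intro h
          exact hnJ (mem_filter.mp h).1
      rw [h3]
      omega
    · have h3 : ((insert (u, w) J).filter (fun e => e.1 ∈ U)).card = oo J U := by
        rw [filter_insert, if_neg huU]
        rfl
      rw [h3]
      by_cases hwU : w ∈ nb H U W
      · have h4 : ¬ Tight H W d m J F U := by
          intro ht
          have h5 : U ⊆ Us := by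
            rw [hUs]
            exact Finset.le_sup (f := id) (mem_filter.mpr ⟨mem_univ _, ht, huU⟩)
          exact hw3 (nb_mono h5 hwU)
        have h5 : d * U.card < nn H W J F U + oo J U := by
          by_contra hcon
          exact h4 ⟨hU, not_lt.mp hcon⟩
        omega
      · have h4 : nb H U W \ used J F ⊆ nb H U W \ insert w (used J F) := by
          intro x hx
          rw [mem_sdiff] at hx
          rw [mem_sdiff, mem_insert]
          refine ⟨hx.1, ?_⟩
          rintro (rfl | h)
          · exact hwU hx.1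
          · exact hx.2 h
        have h5 := card_le_card h4
        unfold nn at h0
        omega

end Pool.Agent.RST
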