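import Pool.Agent.RST.Targets

/-!
# CASEB: trees with few leaves
-/

set_option autoImplicit false

open Finset

namespace Pool.Agent.RST

namespace CASEB_


lemma consts (a : ℕ) (g : ℝ) (hg0 : 0 < g) (hg1 : g ≤ 1 / 4) : ∃ ω K ℓ C3 C4 : ℕ,
    2 ≤ K ∧ ℓ = K + 4 * a + 3 ∧ gl a ≤ ℓ ∧ 4 * a + 3 ≤ ω ∧ (16 * (a : ℝ) + 16) ≤ g / 4 * ω ∧
    4 * (ω : ℝ) ≤ g * K ∧ C3 = K * (ω - (4 * a + 2)) ∧ 4 * ((ℓ : ℝ) * C3) ≤ g / 4 * C4 ∧
    (ℓ - 2) * C3 ≤ C4 ∧ 1 ≤ C3 ∧ 1 ≤ C4 := by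
  set ω : ℕ := ⌈(16 * (a : ℝ) + 16) / (g / 4)⌉₊ with hω
  have hω1 : (16 * (a : ℝ) + 16) / (g / 4) ≤ ω := Nat.le_ceil _
  have hω2 : (16 * (a : ℝ) + 16) ≤ g / 4 * ω := by
    rw [div_le_iff₀ (by positivity)] at hω1
    linarith
  have hω3 : 4 * a + 3 ≤ ω := by
    have h1 : (16 * (a : ℝ) + 16) ≤ ω := by
      have : g / 4 * (ω : ℝ) ≤ 1 * ω := mul_le_mul_of_nonneg_right (by linarith) (Nat.cast_nonneg _)
      linarith
    have h2 : 16 * a + 16 ≤ ω := by exact_mod_cast h1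
    omega
  set K : ℕ := ⌈4 * (ω : ℝ) / g⌉₊ + gl a + 2 with hK
  have hK1 : 4 * (ω : ℝ) ≤ g * K := by
    have h1 : 4 * (ω : ℝ) / g ≤ ⌈4 * (ω : ℝ) / g⌉₊ := Nat.le_ceil _
    have h2 : (⌈4 * (ω : ℝ) / g⌉₊ : ℝ) ≤ K := by
      rw [hK]; push_cast
      have : (0 : ℝ) ≤ gl a := Nat.cast_nonneg _
      linarith
    have h3 := h1.trans h2
    rw [div_le_iff₀ hg0] at h3
    linarith
  set C3 : ℕ := K * (ω - (4 * a + 2)) with hC3
  set ℓ : ℕ := K + 4 * a + 3 with hℓ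
  refine ⟨ω, K, ℓ, C3, ⌈4 * ((ℓ : ℝ) * C3) / (g / 4)⌉₊ + (ℓ - 2) * C3 + 1, by omega, rfl, by omega,
    hω3, hω2, hK1, rfl, ?_, by omega, ?_, by omega⟩
  · have h1 : 4 * ((ℓ : ℝ) * C3) / (g / 4) ≤ ⌈4 * ((ℓ : ℝ) * C3) / (g / 4)⌉₊ := Nat.le_ceil _
    rw [div_le_iff₀ (by positivity)] at h1
    push_cast
    have h2 : 0 ≤ g / 4 * ((((ℓ - 2 : ℕ) : ℝ) * C3) + 1) := by positivity
    nlinarith
  · rw [hC3]
    exact Nat.mul_pos (by omega) (by omega)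

lemma exBij {V : Type} (v0 : V) (s : Finset ℕ) (t : Finset V) (h : s.card = t.card) :
    ∃ φ : ℕ → V, Set.BijOn φ s t := by
  classical
  let e := Finset.equivOfCardEq h
  refine ⟨fun x => if hx : x ∈ s then (e ⟨x, hx⟩ : V) else v0, ?_, ?_, ?_⟩
  · intro x hx
    rw [Finset.mem_coe] at hx
    simp only [dif_pos hx]
    exact (e ⟨x, hx⟩).2
  · intro x hx y hy hxy
    rw [Finset.mem_coe] at hx hy
    simp only [dif_pos hx, dif_pos hy] at hxy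
    have := e.injective (Subtype.ext hxy)
    exact congrArg Subtype.val this
  · intro y hy
    rw [Finset.mem_coe] at hy
    refine ⟨e.symm ⟨y, hy⟩, (e.symm ⟨y, hy⟩).2, ?_⟩
    simp

lemma transport {V : Type} [DecidableEq V] (v0 : V) (z' z hm : ℕ) (Y Z : Finset V)
    (hY : Y.card = 9 * z') (hZ : Z.card = z) (hYZ : Disjoint Y Z) (Γ : ℕ → Finset ℕ)
    (hΓ : ∀ x < 10 * z', Γ x ⊆ range (9 * z' + z) ∧ (Γ x).Nonempty)
    (hdeg : ∀ y, ((range (10 * z')).filter (fun x => y ∈ Γ x)).card ≤ hm)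
    (hrob : ∀ Z' : Finset ℕ, Z' ⊆ Ico (9 * z') (9 * z' + z) → Z'.card = z' →
      ∃ μ : ℕ → ℕ, Set.BijOn μ (range (10 * z') : Set ℕ) (range (9 * z') ∪ Z' : Finset ℕ) ∧
        ∀ x < 10 * z', μ x ∈ Γ x) :
    ∃ Γ' : ℕ → Finset V, (∀ x < 10 * z', Γ' x ⊆ Y ∪ Z ∧ (Γ' x).Nonempty ∧
        (Γ' x).card = (Γ x).card) ∧
      (∀ v, ((range (10 * z')).filter (fun x => v ∈ Γ' x)).card ≤ hm) ∧
      (∀ Z' : Finset V, Z' ⊆ Z → Z'.card = z' → ∃ μ : ℕ → V,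
        Set.BijOn μ (range (10 * z') : Set ℕ) (Y ∪ Z' : Finset V) ∧
          ∀ x < 10 * z', μ x ∈ Γ' x) := by
  obtain ⟨φ1, h1⟩ := exBij v0 (range (9 * z')) Y (by rw [card_range, hY])
  obtain ⟨φ2, h2⟩ := exBij v0 (Ico (9 * z') (9 * z' + z)) Z (by rw [Nat.card_Ico, hZ]; omega)
  set φ : ℕ → V := fun x => if x < 9 * z' then φ1 x else φ2 x with hφ
  have hφ1 : ∀ x, x < 9 * z' → φ x = φ1 x := fun x hx => if_pos hx
  have hφ2 : ∀ x, 9 * z' ≤ x → φ x = φ2 x := fun x hx => if_neg (by omega)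
  have hY' : ∀ x, x < 9 * z' → φ x ∈ Y := by
    intro x hx
    rw [hφ1 x hx]
    exact h1.mapsTo (by simpa using hx)
  have hZ' : ∀ x, 9 * z' ≤ x → x < 9 * z' + z → φ x ∈ Z := by
    intro x hx hx'
    rw [hφ2 x hx]
    exact h2.mapsTo (by simpa using ⟨hx, hx'⟩)
  have hinj : ∀ x < 9 * z' + z, ∀ y < 9 * z' + z, φ x = φ y → x = y := by
    intro x hx y hy hxy
    by_cases h3 : x < 9 * z' <;> by_cases h4 : y < 9 * z'
    · rw [hφ1 x h3, hφ1 y h4] at hxy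
      exact h1.injOn (by simpa using h3) (by simpa using h4) hxy
    · exact absurd hxy (by
        intro h
        have a1 := hY' x h3
        have a2 := hZ' y (by omega) hy
        rw [h] at a1
        exact (Finset.disjoint_left.mp hYZ) a1 a2)
    · exact absurd hxy (by
        intro h
        have a1 := hY' y h4
        have a2 := hZ' x (by omega) hx
        rw [h] at a2
        exact (Finset.disjoint_left.mp hYZ) a1 a2)
    · rw [hφ2 x (by omega), hφ2 y (by omega)] at hxy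
      exact h2.injOn (by simp; omega) (by simp; omega) hxy
  have hmem : ∀ x < 10 * z', ∀ y ∈ Γ x, y < 9 * z' + z := by
    intro x hx y hy
    exact mem_range.mp ((hΓ x hx).1 hy)
  have hYZm : ∀ y < 9 * z' + z, φ y ∈ Y ∪ Z := by
    intro y hy
    rw [mem_union]
    by_cases h3 : y < 9 * z'
    · exact Or.inl (hY' y h3)
    · exact Or.inr (hZ' y (by omega) hy)
  refine ⟨fun x => (Γ x).image φ, ?_, ?_, ?_⟩
  · intro x hx
    refine ⟨?_, (hΓ x hx).2.image φ, ?_⟩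
    · intro v hv
      obtain ⟨y, hy, rfl⟩ := mem_image.mp hv
      exact hYZm y (hmem x hx y hy)
    · apply card_image_of_injOn
      intro y hy y' hy' h
      exact hinj y (hmem x hx y hy) y' (hmem x hx y' hy') h
  · intro v
    by_cases hv : ∃ y < 9 * z' + z, φ y = v
    · obtain ⟨y, hy, rfl⟩ := hv
      refine le_trans (card_le_card ?_) (hdeg y)
      intro x hx
      rw [mem_filter, mem_range] at hx ⊢
      obtain ⟨hx1, hx2⟩ := hx
      obtain ⟨y', hy', he⟩ := mem_image.mp hx2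
      have := hinj y' (hmem x hx1 y' hy') y hy he
      subst this
      exact ⟨hx1, hy'⟩
    · have : (range (10 * z')).filter (fun x => v ∈ (Γ x).image φ) = ∅ := by
        rw [filter_eq_empty_iff]
        intro x hx hvx
        obtain ⟨y', hy', he⟩ := mem_image.mp hvx
        exact hv ⟨y', hmem x (mem_range.mp hx) y' hy', he⟩
      rw [this, card_empty]
      exact Nat.zero_le _
  · intro Z' hZ1 hZ2
    set Z'' : Finset ℕ := (Ico (9 * z') (9 * z' + z)).filter (fun y => φ y ∈ Z') with hZ''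
    have him : Z''.image φ = Z' := by
      ext v
      rw [mem_image]
      constructor
      · rintro ⟨y, hy, rfl⟩
        exact (mem_filter.mp hy).2
      · intro hv
        obtain ⟨y, hy, rfl⟩ := h2.surjOn (hZ1 hv)
        rw [mem_coe, mem_Ico] at hy
        refine ⟨y, mem_filter.mpr ⟨mem_Ico.mpr hy, ?_⟩, hφ2 y hy.1⟩
        rw [hφ2 y hy.1]
        exact hv
    have hlt : ∀ y ∈ Z'', y < 9 * z' + z := fun y hy => (mem_Ico.mp (mem_filter.mp hy).1).2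
    have hcard : Z''.card = z' := by
      rw [← hZ2, ← him, card_image_of_injOn]
      intro y hy y' hy' h
      exact hinj y (hlt y hy) y' (hlt y' hy') h
    obtain ⟨μ, hμ1, hμ2⟩ := hrob Z'' (filter_subset _ _) hcard
    refine ⟨fun x => φ (μ x), ?_, fun x hx => mem_image_of_mem φ (hμ2 x hx)⟩
    have hb : Set.BijOn φ ((range (9 * z') ∪ Z'' : Finset ℕ) : Set ℕ) ((Y ∪ Z' : Finset V) : Set V) := by
      have hlt' : ∀ y ∈ range (9 * z') ∪ Z'', y < 9 * z' + z := by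
        intro y hy
        rcases mem_union.mp hy with h | h
        · have := mem_range.mp h
          omega
        · exact hlt y h
      refine ⟨?_, ?_, ?_⟩
      · intro y hy
        rw [mem_coe, mem_union] at hy ⊢
        rcases hy with h | h
        · exact Or.inl (hY' y (mem_range.mp h))
        · exact Or.inr (mem_filter.mp h).2
      · intro y hy y' hy' h
        exact hinj y (hlt' y hy) y' (hlt' y' hy') h
      · intro v hv
        rw [mem_coe, mem_union] at hv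
        rcases hv with h | h
        · obtain ⟨y, hy, rfl⟩ := h1.surjOn h
          have hy' : y < 9 * z' := by simpa using hy
          exact ⟨y, by rw [mem_coe, mem_union]; exact Or.inl (mem_range.mpr hy'), hφ1 y hy'⟩
        · rw [← him] at h
          obtain ⟨y, hy, rfl⟩ := mem_image.mp h
          exact ⟨y, by rw [mem_coe, mem_union]; exact Or.inr hy, rfl⟩
    exact hb.comp hμ1



lemma part (h1 : T_RPART) (n : ℕ) (H : SimpleGraph (Fin n)) (k0 J K : ℕ) (sV : ℕ → ℕ)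
    (w : Fin 4 → ℕ) (sE sW : ℕ → ℕ) (D₀ η smin : ℝ) (hn : 0 < n)
    (hsum : ∑ c ∈ range k0, sV c + (w 0 + w 1 + w 2 + w 3) +
      ∑ j ∈ range J, (K * sE j + sW j) = n)
    (hη : 0 < η) (hη1 : η < 1) (hD : 0 ≤ D₀) (hd : ∀ v, D₀ ≤ dg H v univ)
    (hexp : (n : ℝ) * ((k0 + 4 + J * K + J : ℕ) : ℝ) * ((n : ℝ) + 1) ^ (k0 + 4 + J * K + J) *
      Real.exp (-(η ^ 2 * smin * D₀ / (2 * n))) < 1) :
    ∃ (Vc : ℕ → Finset (Fin n)) (B : Fin 4 → Finset (Fin n)) (E : ℕ → ℕ → Finset (Fin n))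
      (Wf : ℕ → Finset (Fin n)),
      (∀ c < k0, (Vc c).card = sV c) ∧ (∀ t, (B t).card = w t) ∧
      (∀ j < J, ∀ i < K, (E j i).card = sE j) ∧ (∀ j < J, (Wf j).card = sW j) ∧
      (∀ c < k0, ∀ c' < k0, c ≠ c' → Disjoint (Vc c) (Vc c')) ∧
      (∀ c < k0, ∀ t, Disjoint (Vc c) (B t)) ∧
      (∀ c < k0, ∀ j < J, ∀ i < K, Disjoint (Vc c) (E j i)) ∧
      (∀ c < k0, ∀ j < J, Disjoint (Vc c) (Wf j)) ∧
      (∀ t t', t ≠ t' → Disjoint (B t) (B t')) ∧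
      (∀ t, ∀ j < J, ∀ i < K, Disjoint (E j i) (B t)) ∧
      (∀ t, ∀ j < J, Disjoint (Wf j) (B t)) ∧
      (∀ j < J, ∀ i < K, ∀ j' < J, ∀ i' < K, (j, i) ≠ (j', i') → Disjoint (E j i) (E j' i')) ∧
      (∀ j < J, ∀ i < K, ∀ j' < J, Disjoint (E j i) (Wf j')) ∧
      (∀ j < J, ∀ j' < J, j ≠ j' → Disjoint (Wf j) (Wf j')) ∧
      (∀ S : Finset (Fin n), ((∃ c < k0, S = Vc c) ∨ (∃ t, S = B t) ∨
        (∃ j < J, ∃ i < K, S = E j i) ∨ (∃ j < J, S = Wf j)) → smin ≤ S.card → ∀ v,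
          (1 - η) * ((S.card : ℝ) / n) * dg H v univ ≤ dg H v S) := by
  classical
  set s : (Fin k0 ⊕ (Fin 4 ⊕ ((Fin J × Fin K) ⊕ Fin J))) → ℕ := fun x =>
    match x with
    | Sum.inl c => sV c
    | Sum.inr (Sum.inl t) => w t
    | Sum.inr (Sum.inr (Sum.inl ji)) => sE ji.1
    | Sum.inr (Sum.inr (Sum.inr j)) => sW j with hs
  have hcard : Fintype.card (Fin k0 ⊕ (Fin 4 ⊕ ((Fin J × Fin K) ⊕ Fin J))) =
      k0 + 4 + J * K + J := by
    simp only [Fintype.card_sum, Fintype.card_fin, Fintype.card_prod]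
    ring
  have hs1 : ∑ i, s i = n := by
    rw [← hsum]
    rw [Fintype.sum_sum_type, Fintype.sum_sum_type, Fintype.sum_sum_type]
    have e1 : ∑ c : Fin k0, s (Sum.inl c) = ∑ c ∈ range k0, sV c := by
      rw [Finset.sum_range]
    have e2 : ∑ t : Fin 4, s (Sum.inr (Sum.inl t)) = w 0 + w 1 + w 2 + w 3 :=
      Fin.sum_univ_four _
    have e3 : ∑ ji : Fin J × Fin K, s (Sum.inr (Sum.inr (Sum.inl ji))) =
        ∑ j ∈ range J, K * sE j := by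
      rw [Fintype.sum_prod_type, Finset.sum_range]
      refine Finset.sum_congr rfl fun j _ => ?_
      simp [hs]
    have e4 : ∑ j : Fin J, s (Sum.inr (Sum.inr (Sum.inr j))) = ∑ j ∈ range J, sW j := by
      rw [Finset.sum_range]
    rw [e1, e2, e3, e4, Finset.sum_add_distrib]
    ring
  obtain ⟨P, hP1, hP2, -, hP4⟩ := h1 n H _ s D₀ η smin hn hs1 hη hη1 hD hd (by
    rw [hcard]
    exact hexp)
  have hP5 : ∀ i, smin ≤ ((P i).card : ℝ) → ∀ v,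
      (1 - η) * (((P i).card : ℝ) / n) * dg H v univ ≤ dg H v (P i) := by
    intro i hi v
    rw [hP1 i] at hi ⊢
    exact hP4 i hi v
  refine ⟨fun c => if h : c < k0 then P (Sum.inl ⟨c, h⟩) else ∅,
    fun t => P (Sum.inr (Sum.inl t)),
    fun j i => if h : j < J ∧ i < K then P (Sum.inr (Sum.inr (Sum.inl (⟨j, h.1⟩, ⟨i, h.2⟩)))) else ∅,
    fun j => if h : j < J then P (Sum.inr (Sum.inr (Sum.inr ⟨j, h⟩))) else ∅,
    ?_, ?_, ?_, ?_, ?_, ?_, ?_, ?_, ?_, ?_, ?_, ?_, ?_, ?_, ?_⟩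
  · intro c hc
    simp only [dif_pos hc, hP1, hs]
  · intro t
    simp only [hP1, hs]
  · intro j hj i hi
    simp only [dif_pos (And.intro hj hi), hP1, hs]
  · intro j hj
    simp only [dif_pos hj, hP1, hs]
  · intro c hc c' hc' hne
    simp only [dif_pos hc, dif_pos hc']
    exact hP2 _ _ (by simp [hne])
  · intro c hc t
    simp only [dif_pos hc]
    exact hP2 _ _ (by simp)
  · intro c hc j hj i hi
    simp only [dif_pos hc, dif_pos (And.intro hj hi)]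
    exact hP2 _ _ (by simp)
  · intro c hc j hj
    simp only [dif_pos hc, dif_pos hj]
    exact hP2 _ _ (by simp)
  · intro t t' hne
    exact hP2 _ _ (by simp [hne])
  · intro t j hj i hi
    simp only [dif_pos (And.intro hj hi)]
    exact hP2 _ _ (by simp)
  · intro t j hj
    simp only [dif_pos hj]
    exact hP2 _ _ (by simp)
  · intro j hj i hi j' hj' i' hi' hne
    simp only [dif_pos (And.intro hj hi), dif_pos (And.intro hj' hi')]
    exact hP2 _ _ (by simpa using hne)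
  · intro j hj i hi j' hj'
    simp only [dif_pos (And.intro hj hi), dif_pos hj']
    exact hP2 _ _ (by simp)
  · intro j hj j' hj' hne
    simp only [dif_pos hj, dif_pos hj']
    exact hP2 _ _ (by simp [hne])
  · rintro S (⟨c, hc, rfl⟩ | ⟨t, rfl⟩ | ⟨j, hj, i, hi, rfl⟩ | ⟨j, hj, rfl⟩) hS v
    · simp only [dif_pos hc] at hS ⊢
      exact hP5 _ hS v
    · exact hP5 _ hS v
    · simp only [dif_pos (And.intro hj hi)] at hS ⊢
      exact hP5 _ hS v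
    · simp only [dif_pos hj] at hS ⊢
      exact hP5 _ hS v

lemma phsum (N ρ W : ℕ → ℕ) (A K J : ℕ) (hW : ∀ j < J, W j = A * N j + K * ρ (j + 1))
    (hρ : ∀ j < J, ρ j ≤ N j) :
    ∑ j ∈ range J, (K * (N j - ρ j) + W j) + K * ρ 0 = (K + A) * ∑ j ∈ range J, N j + K * ρ J := by
  induction J with
  | zero => simp
  | succ J ih =>
    rw [Finset.sum_range_succ, Finset.sum_range_succ]
    have ih' := ih (fun j hj => hW j (by omega)) (fun j hj => hρ j (by omega))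
    rw [hW J (by omega)]
    obtain ⟨t, ht⟩ := Nat.exists_eq_add_of_le (hρ J (by omega))
    rw [ht, Nat.add_sub_cancel_left]
    nlinarith

lemma sumN (K J h : ℕ) (hJ : 1 ≤ J) :
    ∑ j ∈ range J, K * 2 ^ (J - 1 - j) * h ≤ 2 * (K * 2 ^ (J - 1) * h) := by
  have e : ∑ j ∈ range J, K * 2 ^ (J - 1 - j) * h = ∑ j ∈ range J, K * 2 ^ j * h :=
    Finset.sum_range_reflect (fun j => K * 2 ^ j * h) J
  rw [e, ← Finset.sum_mul, ← Finset.mul_sum]
  have h1 : ∑ j ∈ range J, 2 ^ j ≤ 2 * 2 ^ (J - 1) := by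
    rw [Nat.geomSum_eq le_rfl]
    obtain ⟨t, rfl⟩ : ∃ t, J = t + 1 := ⟨J - 1, by omega⟩
    simp only [Nat.add_sub_cancel]
    rw [pow_succ]
    omega
  calc (K * ∑ j ∈ range J, 2 ^ j) * h ≤ (K * (2 * 2 ^ (J - 1))) * h :=
        Nat.mul_le_mul_right _ (Nat.mul_le_mul_left _ h1)
    _ = 2 * (K * 2 ^ (J - 1) * h) := by ring

lemma numW (g gw c1 c2 : ℝ) (n K L C4 h J Ng wsc : ℕ) (hg : 0 < g) (hgw : gw ≤ 1)
    (hK : 1 ≤ K) (hc2p : 0 ≤ c2) (hc2 : c2 = K * g * c1 / 12) (hws : (wsc : ℝ) ≤ c2 * n)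
    (hNg : 8 * ((Ng : ℝ) * (L + 1)) ≤ gw * (c2 * n))
    (hM : 10 * ((C4 : ℝ) * h) + K + 3 ≤ c2 * n)
    (hJ : c1 * n / 2 ≤ (K : ℝ) * 2 ^ (J - 1) * h) :
    ∃ w1 wA r0 : ℕ, c2 * n ≤ w1 ∧ c2 * n ≤ wA ∧
      w1 + wA + 10 * (C4 * h) = wsc + L * Ng + K * r0 ∧
      2 * (r0 : ℝ) ≤ g * ((K * 2 ^ (J - 1) * h : ℕ) : ℝ) := by
  set w0 : ℕ := ⌈c2 * n⌉₊ with hw0
  have hc2n : 0 ≤ c2 * n := mul_nonneg hc2p (Nat.cast_nonneg _)
  have hw1 : c2 * n ≤ w0 := Nat.le_ceil _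
  have hw2 : (w0 : ℝ) < c2 * n + 1 := Nat.ceil_lt_add_one hc2n
  have hLN : ((L * Ng : ℕ) : ℝ) ≤ w0 := by
    push_cast
    have h1 : gw * (c2 * n) ≤ 1 * (c2 * n) := mul_le_mul_of_nonneg_right hgw hc2n
    have h2 : (0 : ℝ) ≤ (Ng : ℝ) * L := by positivity
    have h3 : (0 : ℝ) ≤ (Ng : ℝ) := by positivity
    nlinarith
  have hLN' : L * Ng ≤ w0 := by exact_mod_cast hLN
  have hws' : wsc ≤ w0 := by
    have : (wsc : ℝ) ≤ w0 := hws.trans hw1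
    exact_mod_cast this
  obtain ⟨A0, hA0⟩ : ∃ A0, w0 + w0 + 10 * (C4 * h) = wsc + L * Ng + A0 :=
    ⟨w0 + w0 + 10 * (C4 * h) - (wsc + L * Ng), by omega⟩
  have hr1 : A0 ≤ K * ((A0 + K - 1) / K) := by
    have h1 := Nat.div_add_mod (A0 + K - 1) K
    have h2 := Nat.mod_lt (A0 + K - 1) (show K > 0 by omega)
    omega
  have hr2 : K * ((A0 + K - 1) / K) ≤ A0 + K - 1 := Nat.mul_div_le _ _
  set r0 := (A0 + K - 1) / K with hr0
  refine ⟨w0 + (K * r0 - A0), w0, r0, ?_, hw1, by omega, ?_⟩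
  · push_cast
    have : (0 : ℝ) ≤ ((K * r0 - A0 : ℕ) : ℝ) := Nat.cast_nonneg _
    linarith
  · have h1 : K * r0 ≤ 2 * w0 + 10 * (C4 * h) + K := by omega
    have h2 : (K : ℝ) * r0 ≤ 2 * w0 + 10 * (C4 * h) + K := by exact_mod_cast h1
    have h3 : (K : ℝ) * r0 ≤ 3 * (c2 * n) := by linarith
    have hK0 : (0 : ℝ) < K := by
      have : (1 : ℝ) ≤ K := by exact_mod_cast hK
      linarith
    have h4 : (K : ℝ) * r0 ≤ K * (g * c1 * n / 4) := by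
      rw [hc2] at h3
      linarith
    have h5 := le_of_mul_le_mul_left h4 hK0
    have h6 : g * (c1 * n / 2) ≤ g * ((K : ℝ) * 2 ^ (J - 1) * h) :=
      mul_le_mul_of_nonneg_left hJ hg.le
    push_cast
    linarith

lemma dgl {n : ℕ} (H : SimpleGraph (Fin n)) (γ p : ℝ) (S : Finset (Fin n)) (hn : 0 < n)
    (hγ : 0 < γ) (hγ1 : γ ≤ 1 / 2) (hp : 0 ≤ p)
    (hdeg : ∀ v, (1 / 2 + γ) * p * n ≤ dg H v univ)
    (h : ∀ v, (1 - γ / 100) * ((S.card : ℝ) / n) * dg H v univ ≤ dg H v S) :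
    DG H (γ / 2) p S := by
  intro v
  refine le_trans ?_ (h v)
  have hn0 : (0 : ℝ) < n := by exact_mod_cast hn
  have h1 : (1 - γ / 100) * ((S.card : ℝ) / n) * ((1 / 2 + γ) * p * n) ≤
      (1 - γ / 100) * ((S.card : ℝ) / n) * dg H v univ :=
    mul_le_mul_of_nonneg_left (hdeg v) (mul_nonneg (by linarith) (by positivity))
  refine le_trans ?_ h1
  have e : (1 - γ / 100) * ((S.card : ℝ) / n) * ((1 / 2 + γ) * p * n) =
      ((1 - γ / 100) * (1 / 2 + γ)) * (p * S.card) := by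
    field_simp
  rw [e]
  have h2 : (1 / 2 + γ / 2) * p * S.card = (1 / 2 + γ / 2) * (p * S.card) := by ring
  rw [h2]
  apply mul_le_mul_of_nonneg_right _ (by positivity)
  nlinarith


lemma sumn (e wsc w1 wA z' Ng r0 K L T S SN n N1 : ℕ)
    (h1 : w1 + wA + 10 * z' = wsc + (L + 1) * Ng + K * r0)
    (h2 : S + K * r0 = (L + 1) * SN + T) (h3 : N1 + (L + 1) * (Ng + SN + T) = n)
    (h4 : e + wsc = N1) : e + (w1 + wA + 9 * z' + (z' + L * T)) + S = n := by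
  nlinarith

/-- the sizes of the phases -/
def rho (r0 q J h : ℕ) : ℕ → ℕ
  | 0 => r0
  | j + 1 => q * 2 ^ (J - 1 - j) * h

lemma rho_ok (g : ℝ) (K J h ω q r0 a : ℕ) (hg1 : g ≤ 1 / 4) (hω : ω = q + (4 * a + 2))
    (hK4 : 4 * (ω : ℝ) ≤ g * K) (hJ : 1 ≤ J)
    (hr0 : 2 * (r0 : ℝ) ≤ g * ((K * 2 ^ (J - 1) * h : ℕ) : ℝ)) :
    ∃ ρ : ℕ → ℕ, ρ 0 = r0 ∧ ρ J = q * h ∧
      (∀ j < J, ω * (K * 2 ^ (J - 1 - j) * h) =
        (4 * a + 2) * (K * 2 ^ (J - 1 - j) * h) + K * ρ (j + 1)) ∧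
      (∀ j < J, 2 * (ρ j : ℝ) ≤ g * ((K * 2 ^ (J - 1 - j) * h : ℕ) : ℝ)) ∧
      (∀ j < J, 2 * ρ j ≤ K * 2 ^ (J - 1 - j) * h) := by
  have key : ∀ j < J, 2 * (rho r0 q J h j : ℝ) ≤ g * ((K * 2 ^ (J - 1 - j) * h : ℕ) : ℝ) := by
    intro j hj
    rcases j with _ | j
    · simpa [rho] using hr0
    · have e : J - 1 - j = (J - 1 - (j + 1)) + 1 := by omega
      simp only [rho]
      rw [e, pow_succ]
      push_cast
      have h1 : (4 : ℝ) * q ≤ g * K := by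
        have : (q : ℝ) ≤ ω := by
          rw [hω]
          push_cast
          have : (0 : ℝ) ≤ a := Nat.cast_nonneg _
          linarith
        linarith
      have h2 : (0 : ℝ) ≤ 2 ^ (J - 1 - (j + 1)) * h := by positivity
      nlinarith [mul_le_mul_of_nonneg_right h1 h2]
  refine ⟨rho r0 q J h, rfl, ?_, ?_, key, ?_⟩
  · obtain ⟨t, rfl⟩ : ∃ t, J = t + 1 := ⟨J - 1, by omega⟩
    simp [rho]
  · intro j hj
    simp only [rho]
    rw [hω]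
    ring
  · intro j hj
    have h1 := key j hj
    have h2 : g * ((K * 2 ^ (J - 1 - j) * h : ℕ) : ℝ) ≤ 1 * ((K * 2 ^ (J - 1 - j) * h : ℕ) : ℝ) :=
      mul_le_mul_of_nonneg_right (by linarith) (Nat.cast_nonneg _)
    rw [one_mul] at h2
    exact_mod_cast h1.trans h2

set_option maxHeartbeats 4000000 in
lemma core (h1 : T_RPART) (h3 : T_PH1) (h8 : T_LINK)
    (n : ℕ) (H : SimpleGraph (Fin n)) (p γ g gw Ku c1 c2 ξ eps : ℝ)
    (Δ a ω q K ℓ C3 C4 k₀ J h b m d z' z Ng : ℕ)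
    (hn : 0 < n) (hp0 : 0 < p) (hγ : 0 < γ) (hγ1 : γ ≤ 1 / 2) (hg : g = γ / 2) (hgw : gw = g / 4)
    (hKu0 : 0 ≤ Ku) (hUU : UU H (γ / 100) p Ku) (hdeg : ∀ v, (1 / 2 + γ) * p * n ≤ dg H v univ)
    (hK2 : 2 ≤ K) (hℓ : ℓ = K + 4 * a + 3) (hgl : gl a ≤ ℓ) (hω : ω = q + (4 * a + 2))
    (hω2 : 16 * (a : ℝ) + 16 ≤ gw * ω) (hK4 : 4 * (ω : ℝ) ≤ g * K) (hC3 : C3 = K * q)
    (hC4 : 4 * ((ℓ : ℝ) * C3) ≤ gw * C4) (hC41 : 1 ≤ C4)
    (hz' : z' = C4 * h) (hz : z = z' + (ℓ - 2) * (K * (q * h)))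
    (hc2p : 0 ≤ c2) (hc2e : c2 = K * g * c1 / 12) (heps : eps = gw * c2 / 4)
    (hh1 : 1 ≤ h) (hKu : 16 * Ku ≤ gw * p * h) (hhξ : (h : ℝ) ≤ ξ * (n / 2))
    (hξ : 0 < ξ)
    (hNg : 8 * ((Ng : ℝ) * ℓ) ≤ gw * (c2 * n))
    (hc2 : 10 * ((C4 : ℝ) * h) + K + 3 ≤ c2 * n)
    (hJ1 : 1 ≤ J) (hJc2 : c1 * n / 2 ≤ (K : ℝ) * 2 ^ (J - 1) * h)
    (hexp : (n : ℝ) * ((k₀ + 4 + J * K + J : ℕ) : ℝ) * ((n : ℝ) + 1) ^ (k₀ + 4 + J * K + J) *
      Real.exp (-((γ / 100) ^ 2 * h * (1 / 2 * p * n) / (2 * n))) < 1)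
    (hWP : ∀ W : Finset (Fin n), (h : ℝ) ≤ W.card → DG H g p W →
      WPar H W gw d m b a ℓ ∧ OK H W d m ∅ ∅)
    (hbd : b + Δ + 2 ≤ d) (hbd2 : b + 2 * b + 6 ≤ d)
    (Γ : ℕ → Finset ℕ)
    (hΓ : ∀ x < 10 * z', Γ x ⊆ range (9 * z' + z) ∧ (Γ x).Nonempty)
    (hΓd : ∀ y, ((range (10 * z')).filter (fun x => y ∈ Γ x)).card ≤ b)
    (hrob : ∀ Z' : Finset ℕ, Z' ⊆ Ico (9 * z') (9 * z' + z) → Z'.card = z' →
      ∃ μ : ℕ → ℕ, Set.BijOn μ (range (10 * z') : Set ℕ) (range (9 * z') ∪ Z' : Finset ℕ) ∧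
        ∀ x < 10 * z', μ x ∈ Γ x)
    (hNgΓ : ∑ x ∈ range (10 * z'), (Γ x).card = Ng)
    (N1 : ℕ) (par par1 : ℕ → ℕ) (hVT1 : VT N1 par1) (hBD1 : BD N1 par1 Δ)
    (hN1 : N1 + (ℓ - 1) * (Ng + ∑ j ∈ range J, K * 2 ^ (J - 1 - j) * h + K * (q * h)) = n)
    (hN1h : (n : ℝ) / 2 ≤ N1)
    (E Q : Finset ℕ) (κ : ℕ → ℕ) (hD : Dcp (2 * a + 2) par1 (range N1) E Q)
    (hWs : ((range N1 \ E).card : ℝ) ≤ eps * N1) (hCol : Col par1 E Q κ)
    (hκ : ∀ x ∈ E, κ x < k₀ ∧ ξ * N1 ≤ ((E.filter (fun y => κ y = κ x)).card : ℝ))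
    (X : Finset ℕ)
    (hXc : X.card = Ng + ∑ j ∈ range J, K * 2 ^ (J - 1 - j) * h + K * (q * h))
    (hctr : ∀ f₁ : ℕ → Fin n, Emb H N1 par1 f₁ →
      ∃ a b : ℕ → Fin n, (∀ x ∈ X, ∃ i < N1, a x = f₁ i) ∧ (∀ x ∈ X, ∃ i < N1, b x = f₁ i) ∧
        Set.InjOn a X ∧ Set.InjOn b X ∧ (∀ x ∈ X, ∀ y ∈ X, a x ≠ b y) ∧
        ∀ S : Finset (Fin n), (∀ i < N1, f₁ i ∉ S) → Lk H ℓ X a b S →
          ∃ f : ℕ → Fin n, Emb H n par f) :
    ∃ f : ℕ → Fin n, Emb H n par f := by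
  have hg0 : 0 < g := by rw [hg]; linarith
  have hg1 : g ≤ 1 / 4 := by rw [hg]; linarith
  have hgw0 : 0 < gw := by rw [hgw]; linarith
  have hgw1 : gw ≤ 1 := by rw [hgw]; linarith
  have hn0 : (0 : ℝ) < n := by exact_mod_cast hn
  have hh0 : (0 : ℝ) < h := by exact_mod_cast hh1
  have hη0 : (0 : ℝ) ≤ γ / 100 := by linarith
  -- the exceptional vertices
  set Ws : Finset ℕ := range N1 \ E with hWsd
  have hN1n : N1 ≤ n := by omega
  have hN1n' : (N1 : ℝ) ≤ n := by exact_mod_cast hN1n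
  have heps0 : 0 ≤ eps := by rw [heps]; positivity
  have hWs1 : (Ws.card : ℝ) ≤ eps * n := hWs.trans (mul_le_mul_of_nonneg_left hN1n' heps0)
  have hc2n : 0 ≤ c2 * n := mul_nonneg hc2p hn0.le
  have hWs2 : 4 * (Ws.card : ℝ) ≤ gw * (c2 * n) := by
    rw [heps] at hWs1
    linarith
  have hWs3 : (Ws.card : ℝ) ≤ c2 * n := by
    have : gw * (c2 * n) ≤ 1 * (c2 * n) := mul_le_mul_of_nonneg_right hgw1 hc2n
    linarith
  have hEW : E.card + Ws.card = N1 := by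
    rw [hWsd, ← card_union_of_disjoint disjoint_sdiff, union_sdiff_of_subset hD.EC, card_range]
  have hℓ1 : ℓ - 1 = (ℓ - 2) + 1 := by omega
  -- the numbers
  have hN8 : 8 * ((Ng : ℝ) * (((ℓ - 1 : ℕ) : ℝ) + 1)) ≤ gw * (c2 * n) := by
    have : ((ℓ - 1 : ℕ) : ℝ) + 1 = ℓ := by
      rw [Nat.cast_sub (by omega)]
      push_cast
      ring
    rw [this]
    exact hNg
  obtain ⟨w1, wA, r0, hw1, hwA, hweq, hr0⟩ := numW g gw c1 c2 n K (ℓ - 1) C4 h J Ng Ws.card hg0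
    hgw1 (by omega) hc2p hc2e hWs3 hN8 hc2 hJc2
  obtain ⟨ρ, hρ0, hρJ, hρW, hρg, hρN⟩ := rho_ok g K J h ω q r0 a hg1 hω hK4 hJ1 hr0
  have hph := phsum (fun j => K * 2 ^ (J - 1 - j) * h) ρ (fun j => ω * (K * 2 ^ (J - 1 - j) * h))
    (4 * a + 2) K J hρW (fun j hj => by have := hρN j hj; omega)
  rw [hρ0, hρJ, show K + (4 * a + 2) = (ℓ - 2) + 1 by omega] at hph
  rw [hℓ1] at hweq hN1
  rw [← hz'] at hweq
  have hsum := sumn E.card Ws.card w1 wA z' Ng r0 K (ℓ - 2) (K * (q * h)) _ _ n N1 hweq hph hN1 hEW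
  rw [← hz] at hsum
  have hcol : ∑ c ∈ range k₀, (E.filter (fun y => κ y = c)).card = E.card :=
    (Finset.card_eq_sum_card_fiberwise (fun x hx => by
      rw [mem_coe, mem_range]
      exact (hκ x hx).1)).symm
  -- the partition
  obtain ⟨Vc, B, Ej, Wf, cV, cB, cE, cW, dVV, dVB, dVE, dVW, dBB, dEB, dWB, dEE, dEW, dWW, hdg⟩ :=
    part h1 n H k₀ J K (fun c => (E.filter (fun y => κ y = c)).card) ![w1, wA, 9 * z', z]
      (fun j => K * 2 ^ (J - 1 - j) * h - ρ j) (fun j => ω * (K * 2 ^ (J - 1 - j) * h))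
      (1 / 2 * p * n) (γ / 100) h hn (by
        rw [hcol]
        simpa using hsum) (by linarith) (by linarith) (by positivity) (fun v => by
        refine le_trans ?_ (hdeg v)
        have : 0 ≤ γ * (p * n) := by positivity
        nlinarith) hexp
  have cB0 : (B 0).card = w1 := cB 0
  have cB1 : (B 1).card = wA := cB 1
  have cB2 : (B 2).card = 9 * z' := cB 2
  have cB3 : (B 3).card = z := cB 3
  have hDGc : ∀ S : Finset (Fin n), ((∃ c < k₀, S = Vc c) ∨ (∃ t, S = B t) ∨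
        (∃ j < J, ∃ i < K, S = Ej j i) ∨ (∃ j < J, S = Wf j)) → (h : ℝ) ≤ S.card →
      DG H g p S := by
    intro S hS hS'
    rw [hg]
    exact dgl H γ p S hn hγ hγ1 hp0.le hdeg (hdg S hS hS')
  -- sizes are at least `h`
  have hh10 : (h : ℝ) ≤ c2 * n := by
    have h1 : (1 : ℝ) ≤ C4 := by exact_mod_cast hC41
    have h2 : (h : ℝ) ≤ C4 * h := by nlinarith
    have h3 : (0 : ℝ) ≤ K := Nat.cast_nonneg _
    linarith
  have hz'h : h ≤ z' := by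
    rw [hz']
    exact Nat.le_mul_of_pos_left h (by omega)
  have hsB0 : (h : ℝ) ≤ (B 0).card := by rw [cB0]; exact hh10.trans hw1
  have hsB1 : (h : ℝ) ≤ (B 1).card := by rw [cB1]; exact hh10.trans hwA
  have hsB3 : (h : ℝ) ≤ (B 3).card := by
    rw [cB3, hz]
    have : h ≤ z' + (ℓ - 2) * (K * (q * h)) := by omega
    exact_mod_cast this
  have hNh : ∀ j < J, 2 * h ≤ K * 2 ^ (J - 1 - j) * h := by
    intro j _
    apply Nat.mul_le_mul_right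
    calc 2 = 2 * 1 := rfl
      _ ≤ K * 2 ^ (J - 1 - j) := Nat.mul_le_mul hK2 (Nat.one_le_two_pow)
  have hsE : ∀ j < J, ∀ i < K, (h : ℝ) ≤ (Ej j i).card := by
    intro j hj i hi
    rw [cE j hj i hi]
    have h1 := hNh j hj
    have h2 := hρN j hj
    have : h ≤ K * 2 ^ (J - 1 - j) * h - ρ j := by omega
    exact_mod_cast this
  have hω1 : 1 ≤ ω := by omega
  have hsW : ∀ j < J, (h : ℝ) ≤ (Wf j).card := by
    intro j hj
    rw [cW j hj]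
    have h1 := hNh j hj
    have h2 : K * 2 ^ (J - 1 - j) * h ≤ ω * (K * 2 ^ (J - 1 - j) * h) :=
      Nat.le_mul_of_pos_left _ (by omega)
    have : h ≤ ω * (K * 2 ^ (J - 1 - j) * h) := by omega
    exact_mod_cast this
  have hsV : ∀ x ∈ E, (h : ℝ) ≤ (Vc (κ x)).card := by
    intro x hx
    rw [cV _ (hκ x hx).1]
    refine le_trans (hhξ.trans ?_) (hκ x hx).2
    exact mul_le_mul_of_nonneg_left hN1h hξ.le
  obtain ⟨wpB0, okB0⟩ := hWP (B 0) hsB0 (hDGc _ (Or.inr (Or.inl ⟨0, rfl⟩)) hsB0)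
  obtain ⟨wpB1, okB1⟩ := hWP (B 1) hsB1 (hDGc _ (Or.inr (Or.inl ⟨1, rfl⟩)) hsB1)
  obtain ⟨wpB3, okB3⟩ := hWP (B 3) hsB3 (hDGc _ (Or.inr (Or.inl ⟨3, rfl⟩)) hsB3)
  have hKup : ∀ x : ℝ, (h : ℝ) ≤ x → 16 * Ku ≤ g * p * x := by
    intro x hx
    refine hKu.trans ?_
    have h1 : gw * p ≤ g * p := mul_le_mul_of_nonneg_right (by rw [hgw]; linarith) hp0.le
    have h2 : 0 ≤ gw * p := by positivity
    calc gw * p * h ≤ g * p * h := mul_le_mul_of_nonneg_right h1 hh0.le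
      _ ≤ g * p * x := mul_le_mul_of_nonneg_left hx (by positivity)
  -- phase 1
  have hNpos : 0 < N1 := by
    have : (0 : ℝ) < N1 := by linarith
    exact_mod_cast this
  have hWs0 : 0 ∈ Ws := by
    rw [hWsd, mem_sdiff, mem_range]
    refine ⟨hNpos, fun h0 => ?_⟩
    by_cases hq : 0 ∈ Q
    · have := hD.pos 0 hq 0 (by omega)
      simp only [Function.iterate_zero, id_eq] at this
      omega
    · have := (hD.up 0 h0 hq).1
      omega
  have hEWr : E ∪ Ws = range N1 := union_sdiff_of_subset hD.EC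
  obtain ⟨f1, f1i, f1E, f1W, f1a⟩ := h3 (Fin n) H (B 0) g gw (γ / 100) p Ku d m b a ℓ hp0 hg0
    (by linarith) hη0 (by rw [hg]; linarith) hKu0 hUU wpB0 okB0 N1 par1 Δ E Ws Q κ Vc hVT1 hBD1
    hbd hD.EC sdiff_subset disjoint_sdiff hD.QE hD.up (fun x hx hx0 => by
      rw [hEWr, mem_range]
      have h1 : x < N1 := mem_range.mp (mem_sdiff.mp hx).1
      have h2 := hVT1 x (Nat.pos_of_ne_zero hx0) h1
      omega) (fun _ => hWs0) (fun q hq j hj => by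
      have := hD.pos q hq j hj
      omega) (fun q hq j hj1 hj2 => hD.chain q hq j hj1 hj2)
    (fun q hq q' hq' j j' hj1 hj2 hj1' hj2' he =>
      hD.excl q hq q' hq' j j' hj1 (by omega) hj1' (by omega) he) hCol
    (fun x hx y hy hne => dVV _ (hκ x hx).1 _ (hκ y hy).1 hne)
    (fun x hx => ⟨cV _ (hκ x hx).1, hDGc _ (Or.inl ⟨κ x, (hκ x hx).1, rfl⟩) (hsV x hx), by
      have := hKup _ (hsV x hx)
      linarith, dVB _ (hκ x hx).1 0⟩) (by
      rw [cB0]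
      refine hWs2.trans ?_
      exact mul_le_mul_of_nonneg_left hw1 hgw0.le)
  have hemb : Emb H N1 par1 f1 := by
    rw [hEWr] at f1i f1a
    exact ⟨f1i, fun i hi0 hi => f1a i (mem_range.mpr hi) (by omega)⟩
  obtain ⟨ya, yb, hya, hyb, yai, ybi, yne, hfin⟩ := hctr f1 hemb
  -- the remainder
  set R₁ : Finset (Fin n) := B 0 \ Ws.image f1 with hR₁
  have hR₁c : R₁.card + Ws.card = w1 := by
    have h2 : (Ws.image f1).card = Ws.card := by
      apply card_image_of_injOn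
      intro x hx y hy hxy
      exact f1i (by rw [mem_coe, mem_union]; exact Or.inr hx)
        (by rw [mem_coe, mem_union]; exact Or.inr hy) hxy
    have h3 : Ws.image f1 ⊆ B 0 := by
      intro v hv
      obtain ⟨x, hx, rfl⟩ := mem_image.mp hv
      exact f1W x hx
    rw [hR₁, ← h2, card_sdiff_add_card_eq_card h3, cB0]
  have hR₁s : R₁ ⊆ B 0 := sdiff_subset
  -- the image of the small tree avoids everything
  have hav : ∀ i < N1, (f1 i ∉ R₁ ∪ B 1 ∪ B 2 ∪ B 3) ∧ ∀ j < J, f1 i ∉ Wf j ∧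
      ∀ k < K, f1 i ∉ Ej j k := by
    intro i hi
    have hi' : i ∈ E ∪ Ws := by rw [hEWr]; exact mem_range.mpr hi
    rcases mem_union.mp hi' with hE | hW
    · have hm := f1E i hE
      have hk := (hκ i hE).1
      refine ⟨?_, fun j hj => ⟨fun h => ?_, fun k hk' h => ?_⟩⟩
      · intro h
        rw [mem_union, mem_union, mem_union] at h
        rcases h with ((h | h) | h) | h
        · exact disjoint_left.mp (dVB _ hk 0) hm (hR₁s h)
        · exact disjoint_left.mp (dVB _ hk 1) hm h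
        · exact disjoint_left.mp (dVB _ hk 2) hm h
        · exact disjoint_left.mp (dVB _ hk 3) hm h
      · exact disjoint_left.mp (dVW _ hk j hj) hm h
      · exact disjoint_left.mp (dVE _ hk j hj k hk') hm h
    · have hm := f1W i hW
      refine ⟨?_, fun j hj => ⟨fun h => ?_, fun k hk' h => ?_⟩⟩
      · intro h
        rw [mem_union, mem_union, mem_union] at h
        rcases h with ((h | h) | h) | h
        · rw [hR₁, mem_sdiff] at h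
          exact h.2 (mem_image_of_mem f1 hW)
        · exact disjoint_left.mp (dBB 0 1 (by decide)) hm h
        · exact disjoint_left.mp (dBB 0 2 (by decide)) hm h
        · exact disjoint_left.mp (dBB 0 3 (by decide)) hm h
      · exact disjoint_left.mp (dWB 0 j hj) h hm
      · exact disjoint_left.mp (dEB 0 j hj k hk') h hm
  refine hfin (R₁ ∪ B 1 ∪ B 2 ∪ B 3 ∪
    (range J).biUnion (fun j => Wf j ∪ (range K).biUnion (Ej j))) ?_ ?_
  · intro i hi h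
    obtain ⟨h2, h3⟩ := hav i hi
    rw [mem_union] at h
    rcases h with h | h
    · exact h2 h
    · rw [mem_biUnion] at h
      obtain ⟨j, hj, h⟩ := h
      rw [mem_range] at hj
      rw [mem_union] at h
      rcases h with h | h
      · exact (h3 j hj).1 h
      · rw [mem_biUnion] at h
        obtain ⟨k, hk, h⟩ := h
        exact (h3 j hj).2 k (mem_range.mp hk) h
  -- the templates
  obtain ⟨Γ', hΓ1, hΓ2, hΓ3⟩ := transport (⟨0, hn⟩ : Fin n) z' z b (B 2) (B 3) cB2 cB3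
    (dBB 2 3 (by decide)) Γ hΓ hΓd hrob
  have hNg' : ∑ x ∈ range (10 * z'), (Γ' x).card = Ng := by
    rw [← hNgΓ]
    exact Finset.sum_congr rfl fun x hx => (hΓ1 x (mem_range.mp hx)).2.2
  have hNg'' : ∑ x ∈ range (10 * z'), ((Γ' x).card : ℝ) = Ng := by
    rw [← hNg']
    push_cast
    rfl
  have dRB : ∀ t, t ≠ 0 → Disjoint R₁ (B t) := fun t ht =>
    (dBB 0 t (Ne.symm ht)).mono_left hR₁s
  refine h8 (Fin n) H g gw (γ / 100) p Ku d m b a ℓ K J Ej Wf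
    (fun j => K * 2 ^ (J - 1 - j) * h) ρ R₁ (B 1) (B 2) (B 3) (10 * z') b z' Γ' hp0 hg0
    (by linarith) hη0 (by rw [hg]; linarith) hKu0 hUU hK2 hℓ hgl ?_ ?_ dEE
    (fun j hj j' hj' hne => dWW j hj j' hj' hne) (fun j hj i hi j' hj' => dEW j hj i hi j' hj')
    ?_ (dRB 1 (by decide)) ?_ ?_ wpB1 okB1 wpB3 okB3 (fun x hx => ⟨(hΓ1 x hx).1, (hΓ1 x hx).2.1⟩)
    hΓ2 hbd2 hΓ3 ?_ ?_ ?_ ?_ ℕ X ya yb ?_ yai ybi yne ?_
  · intro j hj i hi
    refine ⟨?_, hDGc _ (Or.inr (Or.inr (Or.inl ⟨j, hj, i, hi, rfl⟩))) (hsE j hj i hi)⟩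
    rw [cE j hj i hi]
    have := hρN j hj
    omega
  · intro j hj
    obtain ⟨wp, ok⟩ := hWP (Wf j) (hsW j hj)
      (hDGc _ (Or.inr (Or.inr (Or.inr ⟨j, hj, rfl⟩))) (hsW j hj))
    refine ⟨wp, ok, ?_, ?_, ?_, hρg j hj⟩
    · rw [cW j hj]
      exact hρW j hj
    · rw [cW j hj]
      push_cast
      have h2 : (0 : ℝ) ≤ (K : ℝ) * 2 ^ (J - 1 - j) * h := by positivity
      have h3 := mul_le_mul_of_nonneg_right hω2 h2
      linarith
    · apply hKup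
      have h2 := hNh j hj
      have h3 : h ≤ K * 2 ^ (J - 1 - j) * h := by omega
      exact_mod_cast h3
  · intro j hj
    constructor
    · rw [disjoint_union_right, disjoint_union_right, disjoint_union_right]
      exact ⟨⟨⟨(dWB 0 j hj).mono_right hR₁s, dWB 1 j hj⟩, dWB 2 j hj⟩, dWB 3 j hj⟩
    · intro i hi
      rw [disjoint_union_right, disjoint_union_right, disjoint_union_right]
      exact ⟨⟨⟨(dEB 0 j hj i hi).mono_right hR₁s, dEB 1 j hj i hi⟩, dEB 2 j hj i hi⟩,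
        dEB 3 j hj i hi⟩
  · rw [disjoint_union_left]
    exact ⟨dRB 2 (by decide), dBB 1 2 (by decide)⟩
  · rw [disjoint_union_left, disjoint_union_left]
    exact ⟨⟨dRB 3 (by decide), dBB 1 3 (by decide)⟩, dBB 2 3 (by decide)⟩
  · rw [hNg'', cB1]
    exact hNg.trans (mul_le_mul_of_nonneg_left hwA hgw0.le)
  · rw [cB3, hρJ]
    exact hz
  · rw [cB3, hρJ]
    have e1 : (z' : ℝ) ≤ z := by
      have : z' ≤ z := by omega
      exact_mod_cast this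
    have e2 : (z' : ℝ) = C4 * h := by rw [hz']; push_cast; rfl
    have e3 := mul_le_mul_of_nonneg_right hC4 hh0.le
    have e4 := mul_le_mul_of_nonneg_left e1 hgw0.le
    have e5 : (C3 : ℝ) = K * q := by rw [hC3]; push_cast; rfl
    rw [e5] at e3
    rw [e2] at e4
    push_cast
    linarith
  · rw [hNg', hρ0, cB1, hℓ1]
    omega
  · rw [hXc, hNg', hρJ]
  · intro i hi
    obtain ⟨i1, hi1, e1⟩ := hya i hi
    obtain ⟨i2, hi2, e2⟩ := hyb i hi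
    rw [e1, e2]
    obtain ⟨u1, u2⟩ := hav i1 hi1
    obtain ⟨v1, v2⟩ := hav i2 hi2
    exact ⟨u1, v1, fun j hj => ⟨(u2 j hj).1, (v2 j hj).1, fun k hk =>
      ⟨(u2 j hj).2 k hk, (v2 j hj).2 k hk⟩⟩⟩

end CASEB_

set_option maxHeartbeats 4000000 in
open CASEB_ in
theorem pCASEB (h1 : T_RPART) (h2 : T_WP) (h3 : T_PH1) (h4 : T_DEC) (h5 : T_BARE) (h6 : T_CTR)
    (h7 : T_TPL) (h8 : T_LINK) (h9 : T_NUMB) : T_CASEB := by
  intro Δ γ δ C hΔ hγ hγ1 hδ hδ1 hC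
  have hκ0 : 0 < δ / 20 := by linarith
  obtain ⟨g, hg⟩ : ∃ g : ℝ, g = γ / 2 := ⟨_, rfl⟩
  obtain ⟨gw, hgw⟩ : ∃ gw : ℝ, gw = g / 4 := ⟨_, rfl⟩
  have hg0 : 0 < g := by rw [hg]; linarith
  have hg1 : g ≤ 1 / 4 := by rw [hg]; linarith
  have hgw0 : 0 < gw := by rw [hgw]; linarith
  obtain ⟨a, ha⟩ : ∃ a : ℕ, a = aa (δ / 20) := ⟨_, rfl⟩
  obtain ⟨ω, K, ℓ, C3, C4, hK2, hℓ, hgl, hω1, hω2, hK4, hC3, hC4, hC34, hC31, hC41⟩ :=
    consts a g hg0 hg1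
  obtain ⟨q, hq⟩ : ∃ q, ω = q + (4 * a + 2) := ⟨ω - (4 * a + 2), by omega⟩
  have hC3' : C3 = K * q := by rw [hC3, hq, Nat.add_sub_cancel]
  have hℓ0 : (0 : ℝ) < 8 * ((ℓ : ℝ) + 1) := by positivity
  obtain ⟨c1, hc1e⟩ : ∃ c1 : ℝ, c1 = 1 / (8 * ((ℓ : ℝ) + 1)) := ⟨_, rfl⟩
  obtain ⟨c2, hc2e⟩ : ∃ c2 : ℝ, c2 = K * g * c1 / 12 := ⟨_, rfl⟩
  have hK0 : (0 : ℝ) < K := by
    have : (2 : ℝ) ≤ K := by exact_mod_cast hK2
    linarith
  have hc10 : 0 < c1 := by rw [hc1e]; positivity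
  have hc20 : 0 < c2 := by rw [hc2e]; positivity
  have hc1ℓ : c1 * (8 * ((ℓ : ℝ) + 1)) = 1 := by
    rw [hc1e]
    field_simp
  have hc21 : c2 ≤ 1 := by
    have hKℓ : (K : ℝ) ≤ ℓ := by
      have : K ≤ ℓ := by omega
      exact_mod_cast this
    have h1 : c1 * K ≤ 1 := by nlinarith
    rw [hc2e]
    nlinarith
  obtain ⟨eps, heps⟩ : ∃ eps : ℝ, eps = gw * c2 / 4 := ⟨_, rfl⟩
  obtain ⟨k₀, ξ, N₀, hξ, hDEC⟩ := h4 Δ (2 * a + 2) hΔ (by omega) eps (by rw [heps]; positivity)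
  obtain ⟨z₀, hTPL⟩ := h7 (δ / 20) hκ0
  obtain ⟨n1, hNUM⟩ := h9 δ gw C ξ (γ / 100) c1 c2 K ℓ C3 C4 k₀ z₀ N₀ hδ hδ1 hgw0 hC hξ
    (by linarith) hc10 hc20 (by omega)
  obtain ⟨n2, hWP⟩ := h2 δ g C Δ ℓ hδ hδ1 hg0 (by linarith) (by rw [← ha]; omega) hC
  refine ⟨c1, hc10, max n1 n2, ?_⟩
  intro n hn p hp hp1 H hUU hdeg par hVT hBD hlv
  obtain ⟨hn1, hp0, hN0, hh1, hz0, hpw, hKu, hhξ, hNg, hc2, hc1, J, hJ1, hJc1, hJc2, hexp⟩ :=
    hNUM n (le_trans (le_max_left _ _) hn) p hp hp1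
  have hWP' := hWP n (le_trans (le_max_right _ _) hn) p (γ / 100) hp hp1 (by linarith)
    (by rw [hg]; linarith) H hUU
  obtain ⟨h, hh⟩ : ∃ h, h = Pool.Agent.RST.hh (δ / 20) n p := ⟨_, rfl⟩
  obtain ⟨b, hb⟩ : ∃ b, b = bb (δ / 20) n := ⟨_, rfl⟩
  rw [← hh] at hh1 hz0 hpw hKu hhξ hNg hc2 hc1 hJc1 hJc2 hexp
  rw [← hb] at hNg hc1
  rw [← ha] at hWP'
  have hn0 : (0 : ℝ) < n := by exact_mod_cast hn1
  have hh0 : (0 : ℝ) < h := by exact_mod_cast hh1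
  have hKu0 : 0 ≤ C * Real.log n := mul_nonneg hC (Real.log_nonneg (by exact_mod_cast hn1))
  -- the templates
  obtain ⟨z', hz'⟩ : ∃ z', z' = C4 * h := ⟨_, rfl⟩
  obtain ⟨z, hz⟩ : ∃ z, z = z' + (ℓ - 2) * (K * (q * h)) := ⟨_, rfl⟩
  have hz1 : (ℓ - 2) * (K * (q * h)) ≤ z' := by
    rw [hz']
    calc (ℓ - 2) * (K * (q * h)) = ((ℓ - 2) * C3) * h := by rw [hC3']; ring
      _ ≤ C4 * h := Nat.mul_le_mul_right _ hC34
  have hz2 : h ≤ z' := by
    rw [hz']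
    exact Nat.le_mul_of_pos_left h (by omega)
  obtain ⟨Γ, hΓ, hΓd, hrob⟩ := hTPL z' z (by omega) (by omega) (by omega)
  have hz'r : (z' : ℝ) = C4 * h := by rw [hz']; push_cast; rfl
  have hzr : (z : ℝ) ≤ 2 * z' := by
    have : z ≤ 2 * z' := by omega
    exact_mod_cast this
  have hc2n : c2 * n ≤ n := by
    have := mul_le_mul_of_nonneg_right hc21 hn0.le
    rwa [one_mul] at this
  have hzn : (z : ℝ) ≤ n := by
    have h0 : (0 : ℝ) ≤ (C4 : ℝ) * h := by positivity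
    linarith
  have hzb : (z : ℝ) ^ (δ / 20) ≤ b := by
    refine (Real.rpow_le_rpow (Nat.cast_nonneg _) hzn hκ0.le).trans ?_
    rw [hb]
    exact Nat.le_ceil _
  have hΓc : ∀ x < 10 * z', (Γ x).card ≤ b := by
    intro x hx
    have := (hΓ x hx).2.2.trans hzb
    exact_mod_cast this
  have hΓd' : ∀ y, ((range (10 * z')).filter (fun x => y ∈ Γ x)).card ≤ b := by
    intro y
    have := (hΓd y).trans hzb
    exact_mod_cast this
  obtain ⟨Ng, hNgd⟩ : ∃ Ng, ∑ x ∈ range (10 * z'), (Γ x).card = Ng := ⟨_, rfl⟩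
  have hNg1 : Ng ≤ 10 * z' * b := by
    rw [← hNgd]
    calc ∑ x ∈ range (10 * z'), (Γ x).card ≤ ∑ x ∈ range (10 * z'), b :=
          Finset.sum_le_sum fun x hx => hΓc x (mem_range.mp hx)
      _ = 10 * z' * b := by simp
  have hNg1r : (Ng : ℝ) ≤ 10 * (C4 * h) * b := by
    have : (Ng : ℝ) ≤ 10 * z' * b := by exact_mod_cast hNg1
    rw [hz'r] at this
    exact this
  have hNg8 : 8 * ((Ng : ℝ) * ℓ) ≤ gw * (c2 * n) := by
    have h0 : (0 : ℝ) ≤ ℓ := Nat.cast_nonneg _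
    have := mul_le_mul_of_nonneg_right hNg1r h0
    linarith
  -- the bare paths
  obtain ⟨Nres, hNres⟩ : ∃ Nres, Nres = Ng + ∑ j ∈ range J, K * 2 ^ (J - 1 - j) * h +
    K * (q * h) := ⟨_, rfl⟩
  have hNres1 : (Nres : ℝ) ≤ 3 * (c1 * n) := by
    have e1 : Nres ≤ Ng + 2 * (K * 2 ^ (J - 1) * h) + C3 * h := by
      have := sumN K J h hJ1
      have e2 : K * (q * h) = C3 * h := by rw [hC3']; ring
      omega
    have e2 : (Nres : ℝ) ≤ Ng + 2 * (K * 2 ^ (J - 1) * h) + C3 * h := by exact_mod_cast e1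
    linarith
  obtain ⟨X0, hX0, hX0c⟩ := h5 n par ℓ (by omega) hVT
  have hX0r : (n : ℝ) ≤ ((ℓ : ℝ) + 1) * (X0.card + 2 * (lv n par).card) := by exact_mod_cast hX0c
  have hℓp : (0 : ℝ) < (ℓ : ℝ) + 1 := by positivity
  have hX0N : Nres ≤ X0.card := by
    have e1 : ((ℓ : ℝ) + 1) * (X0.card + 2 * (lv n par).card) ≤
        ((ℓ : ℝ) + 1) * (X0.card + 2 * (c1 * n)) :=
      mul_le_mul_of_nonneg_left (by linarith) hℓp.le
    have e2 : ((ℓ : ℝ) + 1) * (2 * (c1 * n)) = n / 4 := by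
      have : ((ℓ : ℝ) + 1) * (2 * (c1 * n)) = (c1 * (8 * ((ℓ : ℝ) + 1))) * n / 4 := by ring
      rw [this, hc1ℓ, one_mul]
    have e3 : ((ℓ : ℝ) + 1) * (3 * (c1 * n)) = 3 * n / 8 := by
      have : ((ℓ : ℝ) + 1) * (3 * (c1 * n)) = 3 * ((c1 * (8 * ((ℓ : ℝ) + 1))) * n) / 8 := by ring
      rw [this, hc1ℓ, one_mul]
    have e4 : ((ℓ : ℝ) + 1) * (3 * (c1 * n)) ≤ ((ℓ : ℝ) + 1) * X0.card := by
      rw [e3]
      linarith
    have e5 := le_of_mul_le_mul_left e4 hℓp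
    exact_mod_cast hNres1.trans e5
  obtain ⟨X, hXX, hXc⟩ := Finset.exists_subset_card_eq hX0N
  have hX : Bare n par ℓ X :=
    { sub := hXX.trans hX0.sub
      pos := fun x hx => hX0.pos x (hXX hx)
      one := fun x hx => hX0.one x (hXX hx)
      disj := fun x hx y hy => hX0.disj x (hXX hx) y (hXX hy) }
  obtain ⟨N1, par1, hN1, hVT1, hBD1, hctr⟩ := h6 n par Δ ℓ X (by omega) hVT hBD hX
  rw [hXc] at hN1
  have hN1h : (n : ℝ) / 2 ≤ N1 := by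
    have e1 : (N1 : ℝ) + ((ℓ - 1 : ℕ) : ℝ) * Nres = n := by exact_mod_cast hN1
    have e2 : ((ℓ - 1 : ℕ) : ℝ) ≤ (ℓ : ℝ) + 1 := by
      have : ℓ - 1 ≤ ℓ + 1 := by omega
      exact_mod_cast this
    have e3 : ((ℓ : ℝ) + 1) * (3 * (c1 * n)) = 3 * n / 8 := by
      have : ((ℓ : ℝ) + 1) * (3 * (c1 * n)) = 3 * ((c1 * (8 * ((ℓ : ℝ) + 1))) * n) / 8 := by ring
      rw [this, hc1ℓ, one_mul]
    have e4 : ((ℓ - 1 : ℕ) : ℝ) * Nres ≤ ((ℓ : ℝ) + 1) * (3 * (c1 * n)) :=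
      mul_le_mul e2 hNres1 (Nat.cast_nonneg _) hℓp.le
    linarith
  have hN1N : N₀ ≤ N1 := by
    have e1 : (2 : ℝ) * N₀ ≤ n := by exact_mod_cast hN0
    have e2 : (N₀ : ℝ) ≤ N1 := by linarith
    exact_mod_cast e2
  obtain ⟨E, Q, κ, hD, hWs, hCol, hκ, -⟩ := hDEC N1 par1 (fun _ => false) hN1N hVT1 hBD1
  rw [hNres] at hN1 hXc
  exact core h1 h3 h8 n H p γ g gw (C * Real.log n) c1 c2 ξ eps Δ a ω q K ℓ C3 C4 k₀ J h b
    (mm (δ / 20) n p) (dd (δ / 20) n Δ) z' z Ng hn1 hp0 hγ hγ1 hg hgw hKu0 hUU hdeg hK2 hℓ hgl hq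
    (by rw [hgw]; exact hω2) hK4 hC3' (by rw [hgw]; exact hC4) hC41 hz' hz hc20.le hc2e heps hh1
    hKu hhξ hξ hNg8 hc2 hJ1 hJc2 hexp (fun W hW hDG => by
      rw [hgw, hb]
      exact hWP' W (hpw.trans (mul_le_mul_of_nonneg_left hW hp0.le)) hDG)
    (by unfold dd; rw [← hb]; omega) (by unfold dd; rw [← hb]; omega) Γ
    (fun x hx => ⟨(hΓ x hx).1, (hΓ x hx).2.1⟩) hΓd' hrob hNgd N1 par par1 hVT1 hBD1 hN1 hN1h E Q κ
    hD hWs hCol hκ X hXc (fun f₁ hf => hctr (Fin n) H f₁ hf)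

end Pool.Agent.RST
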