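import Pool.Agent.RST.Targets

/-!
# BARE: a tree with few leaves has many disjoint bare paths (MP_052821_co)
-/

set_option autoImplicit false

open Finset

namespace Pool.Agent.RST

namespace BARE_

/-- the position in a chain of vertices with one child -/
def tt (N : ℕ) (par : ℕ → ℕ) (x : ℕ) : ℕ :=
  if h : 0 < x ∧ x < N ∧ par x < x ∧ (chd N par (par x)).card = 1 then tt N par (par x) + 1 else 0
termination_by x
decreasing_by exact h.2.2.1

variable {N : ℕ} {par : ℕ → ℕ}

theorem mem_chd {x v : ℕ} : x ∈ chd N par v ↔ x < N ∧ 0 < x ∧ par x = v := by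
  unfold chd
  simp

theorem tt_step {x : ℕ} (h : 1 ≤ tt N par x) :
    0 < x ∧ x < N ∧ par x < x ∧ chd N par (par x) = {x} ∧ tt N par (par x) + 1 = tt N par x := by
  rw [tt] at h
  split_ifs at h with hc
  · refine ⟨hc.1, hc.2.1, hc.2.2.1, ?_, ?_⟩
    · obtain ⟨a, ha⟩ := Finset.card_eq_one.mp hc.2.2.2
      have hx : x ∈ chd N par (par x) := mem_chd.mpr ⟨hc.2.1, hc.1, rfl⟩
      rw [ha] at hx ⊢
      rw [Finset.mem_singleton.mp hx]
    · conv_rhs => rw [tt]
      rw [dif_pos hc]
  · omega

/-- going up -/
theorem tt_iter {x : ℕ} (hx : x < N) (j : ℕ) (hj : j ≤ tt N par x) :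
    par^[j] x < N ∧ tt N par (par^[j] x) + j = tt N par x ∧
      (∀ i < j, 0 < par^[i] x) ∧ ∀ i, 1 ≤ i → i ≤ j → chd N par (par^[i] x) = {par^[i-1] x} := by
  induction j with
  | zero =>
    refine ⟨hx, rfl, fun i hi => absurd hi (Nat.not_lt_zero i), fun i h1 h2 => ?_⟩
    omega
  | succ j ih =>
    obtain ⟨h1, h2, h3, h4⟩ := ih (by omega)
    have h5 := tt_step (N := N) (par := par) (x := par^[j] x) (by omega)
    obtain ⟨g1, g2, g3, g4, g5⟩ := h5
    rw [Function.iterate_succ_apply']
    refine ⟨by omega, by omega, fun i hi => ?_, fun i hi1 hi2 => ?_⟩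
    · rcases Nat.lt_or_ge i j with h | h
      · exact h3 i h
      · have : i = j := by omega
        rw [this]
        exact g1
    · rcases Nat.lt_or_ge i (j + 1) with h | h
      · exact h4 i hi1 (by omega)
      · have : i = j + 1 := by omega
        rw [this, Function.iterate_succ_apply', Nat.add_sub_cancel]
        exact g4

/-- going down is unique -/
theorem tt_inj {x y : ℕ} (hx : x < N) (hy : y < N) (j : ℕ) (hjx : j ≤ tt N par x)
    (hjy : j ≤ tt N par y) (h : par^[j] x = par^[j] y) : x = y := by
  induction j with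
  | zero => exact h
  | succ j ih =>
    refine ih (by omega) (by omega) ?_
    have h1 := (tt_iter hx (j + 1) hjx).2.2.2 (j + 1) (by omega) le_rfl
    have h2 := (tt_iter hy (j + 1) hjy).2.2.2 (j + 1) (by omega) le_rfl
    rw [h, h2, Nat.add_sub_cancel] at h1
    exact (Finset.singleton_injective h1).symm

/-- the total number of children -/
theorem sum_chd (hV : VT N par) (hN : 0 < N) : ∑ v ∈ range N, (chd N par v).card + 1 = N := by
  have h1 : ((range N).filter (fun j => 0 < j)).card =
      ∑ v ∈ range N, (((range N).filter (fun j => 0 < j)).filter (fun j => par j = v)).card := by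
    refine Finset.card_eq_sum_card_fiberwise ?_
    intro x hx
    rw [Finset.mem_coe, Finset.mem_filter, Finset.mem_range] at hx
    rw [Finset.mem_coe, Finset.mem_range]
    exact lt_trans (hV x hx.2 hx.1) hx.1
  have h2 : ∀ v, ((range N).filter (fun j => 0 < j)).filter (fun j => par j = v) =
      chd N par v := by
    intro v
    unfold chd
    rw [Finset.filter_filter]
  simp only [h2] at h1
  have h3 : ((range N).filter (fun j => 0 < j)).card + 1 = N := by
    have e : (range N).filter (fun j => 0 < j) = (range N).erase 0 := by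
      ext x
      rw [Finset.mem_filter, Finset.mem_erase]
      constructor
      · rintro ⟨h1, h2⟩
        exact ⟨by omega, h1⟩
      · rintro ⟨h1, h2⟩
        exact ⟨h2, by omega⟩
    rw [e, Finset.card_erase_of_mem (Finset.mem_range.mpr hN), Finset.card_range]
    omega
  omega

/-- the number of chains -/
theorem roots (hV : VT N par) :
    ((range N).filter (fun x => tt N par x = 0)).card ≤ 2 * (lv N par).card := by
  rcases Nat.eq_zero_or_pos N with h0 | hN
  · subst h0
    simp
  -- the roots which are not the root of the tree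
  obtain ⟨R', hR'⟩ : ∃ R' : Finset ℕ, R' = (range N).filter
      (fun x => 0 < x ∧ 2 ≤ (chd N par (par x)).card) := ⟨_, rfl⟩
  have hsub : (range N).filter (fun x => tt N par x = 0) ⊆ insert 0 R' := by
    intro x hx
    rw [Finset.mem_filter, Finset.mem_range] at hx
    rw [Finset.mem_insert]
    rcases Nat.eq_zero_or_pos x with h | h
    · exact Or.inl h
    · right
      rw [hR', Finset.mem_filter, Finset.mem_range]
      refine ⟨hx.1, h, ?_⟩
      have h1 : (chd N par (par x)).card ≠ 1 := by
        intro h1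
        have h2 := hx.2
        rw [tt, dif_pos ⟨h, hx.1, hV x h hx.1, h1⟩] at h2
        omega
      have h2 : 0 < (chd N par (par x)).card :=
        Finset.card_pos.mpr ⟨x, mem_chd.mpr ⟨hx.1, h, rfl⟩⟩
      omega
  have hR'card : R'.card ≤ ∑ v ∈ range N,
      (if 2 ≤ (chd N par v).card then (chd N par v).card else 0) := by
    have h1 : R'.card = ∑ v ∈ range N, (R'.filter (fun j => par j = v)).card := by
      refine Finset.card_eq_sum_card_fiberwise ?_
      intro x hx
      rw [Finset.mem_coe, hR', Finset.mem_filter, Finset.mem_range] at hx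
      rw [Finset.mem_coe, Finset.mem_range]
      exact lt_trans (hV x hx.2.1 hx.1) hx.1
    rw [h1]
    refine Finset.sum_le_sum fun v _ => ?_
    split_ifs with h2
    · refine Finset.card_le_card fun x hx => ?_
      rw [Finset.mem_filter, hR', Finset.mem_filter, Finset.mem_range] at hx
      exact mem_chd.mpr ⟨hx.1.1, hx.1.2.1, hx.2⟩
    · rw [Nat.le_zero, Finset.card_eq_zero, Finset.filter_eq_empty_iff]
      intro x hx hxv
      rw [hR', Finset.mem_filter] at hx
      rw [hxv] at hx
      exact h2 hx.2.2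
  have hpt : ∑ v ∈ range N, ((if 2 ≤ (chd N par v).card then (chd N par v).card else 0) + 2) ≤
      ∑ v ∈ range N, (2 * (chd N par v).card + 2 * (if chd N par v = ∅ then 1 else 0)) := by
    refine Finset.sum_le_sum fun v _ => ?_
    by_cases h : chd N par v = ∅
    · rw [if_pos h, h]
      simp
    · rw [if_neg h]
      have : 0 < (chd N par v).card := Finset.card_pos.mpr (Finset.nonempty_iff_ne_empty.mpr h)
      split_ifs <;> omega
  rw [Finset.sum_add_distrib, Finset.sum_add_distrib, ← Finset.mul_sum, ← Finset.mul_sum,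
    Finset.sum_const, Finset.card_range, smul_eq_mul, ← Finset.card_filter] at hpt
  have hlv : (lv N par).card = ((range N).filter (fun v => chd N par v = ∅)).card := rfl
  rw [← hlv] at hpt
  have hs := sum_chd hV hN
  have h3 := Finset.card_le_card hsub
  have h4 := Finset.card_insert_le 0 R'
  omega

end BARE_

open BARE_ in
/-- BARE -/
theorem pBARE : T_BARE := by
  intro N par ℓ hℓ hV
  obtain ⟨X, hX⟩ : ∃ X : Finset ℕ, X = (range N).filter (fun x => tt N par x % (ℓ + 1) = ℓ) :=
    ⟨_, rfl⟩
  have hXm : ∀ x, x ∈ X ↔ x < N ∧ tt N par x % (ℓ + 1) = ℓ := by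
    intro x
    rw [hX, Finset.mem_filter, Finset.mem_range]
  have hge : ∀ x, x ∈ X → ℓ ≤ tt N par x := by
    intro x hx
    rw [hXm] at hx
    have := Nat.mod_le (tt N par x) (ℓ + 1)
    omega
  refine ⟨X, ⟨?_, ?_, ?_, ?_⟩, ?_⟩
  · rw [hX]
    exact Finset.filter_subset _ _
  · intro x hx j hj
    exact (tt_iter ((hXm x).mp hx).1 ℓ (hge x hx)).2.2.1 j hj
  · intro x hx j hj1 hj2
    exact (tt_iter ((hXm x).mp hx).1 ℓ (hge x hx)).2.2.2 j hj1 hj2
  · intro x hx y hy i hi j hj hij
    have hx1 := (tt_iter ((hXm x).mp hx).1 i (hi.trans (hge x hx))).2.1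
    have hy1 := (tt_iter ((hXm y).mp hy).1 j (hj.trans (hge y hy))).2.1
    rw [hij] at hx1
    have hxm := ((hXm x).mp hx).2
    have hym := ((hXm y).mp hy).2
    have hxd := Nat.div_add_mod (tt N par x) (ℓ + 1)
    have hyd := Nat.div_add_mod (tt N par y) (ℓ + 1)
    rw [hxm] at hxd
    rw [hym] at hyd
    have hij' : i = j := by
      rcases Nat.lt_trichotomy (tt N par x / (ℓ + 1)) (tt N par y / (ℓ + 1)) with h | h | h
      · have h1 : (ℓ + 1) * (tt N par x / (ℓ + 1) + 1) ≤ (ℓ + 1) * (tt N par y / (ℓ + 1)) :=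
          Nat.mul_le_mul_left _ h
        rw [Nat.mul_add, Nat.mul_one] at h1
        omega
      · rw [h] at hxd
        omega
      · have h1 : (ℓ + 1) * (tt N par y / (ℓ + 1) + 1) ≤ (ℓ + 1) * (tt N par x / (ℓ + 1)) :=
          Nat.mul_le_mul_left _ h
        rw [Nat.mul_add, Nat.mul_one] at h1
        omega
    subst hij'
    exact tt_inj ((hXm x).mp hx).1 ((hXm y).mp hy).1 i (hi.trans (hge x hx))
      (hi.trans (hge y hy)) hij
  · -- counting
    obtain ⟨R, hR⟩ : ∃ R : Finset ℕ, R = (range N).filter (fun x => tt N par x = 0) := ⟨_, rfl⟩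
    have hRm : ∀ x, x ∈ R ↔ x < N ∧ tt N par x = 0 := by
      intro x
      rw [hR, Finset.mem_filter, Finset.mem_range]
    have hRX : ∀ x, x ∈ R → x ∉ X := by
      intro x hx hx'
      rw [hRm] at hx
      rw [hXm, hx.2, Nat.zero_mod] at hx'
      omega
    have hcard : (range N).card ≤ (range (ℓ + 1) ×ˢ (R ∪ X)).card := by
      refine Finset.card_le_card_of_injOn (fun x => (tt N par x % (ℓ + 1),
        if tt N par x < ℓ + 1 then par^[tt N par x % (ℓ + 1)] x
        else par^[tt N par x % (ℓ + 1) + 1] x)) ?_ ?_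
      · intro x hx
        rw [Finset.mem_coe, Finset.mem_range] at hx
        rw [Finset.mem_coe, Finset.mem_product, Finset.mem_range, Finset.mem_union]
        refine ⟨Nat.mod_lt _ (Nat.succ_pos ℓ), ?_⟩
        show (if tt N par x < ℓ + 1 then par^[tt N par x % (ℓ + 1)] x
          else par^[tt N par x % (ℓ + 1) + 1] x) ∈ R ∨ (if tt N par x < ℓ + 1 then
            par^[tt N par x % (ℓ + 1)] x else par^[tt N par x % (ℓ + 1) + 1] x) ∈ X
        by_cases h : tt N par x < ℓ + 1
        · left
          rw [if_pos h, hRm, Nat.mod_eq_of_lt h]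
          have h1 := tt_iter hx (tt N par x) le_rfl
          exact ⟨h1.1, by omega⟩
        · right
          have hdm := Nat.div_add_mod (tt N par x) (ℓ + 1)
          have hmod : tt N par x % (ℓ + 1) < ℓ + 1 := Nat.mod_lt _ (Nat.succ_pos ℓ)
          rw [if_neg h, hXm]
          have h1 := tt_iter (par := par) hx (tt N par x % (ℓ + 1) + 1) (by omega)
          refine ⟨h1.1, ?_⟩
          obtain ⟨q, hq⟩ : ∃ q, tt N par x / (ℓ + 1) = q + 1 := by
            have : 0 < tt N par x / (ℓ + 1) := Nat.div_pos (not_lt.mp h) (Nat.succ_pos ℓ)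
            exact ⟨tt N par x / (ℓ + 1) - 1, by omega⟩
          rw [hq, Nat.mul_add, Nat.mul_one] at hdm
          have h2 : tt N par (par^[tt N par x % (ℓ + 1) + 1] x) = ℓ + (ℓ + 1) * q := by omega
          rw [h2, Nat.add_mul_mod_self_left, Nat.mod_eq_of_lt (Nat.lt_succ_self ℓ)]
      · intro x hx y hy hxy
        rw [Finset.mem_coe, Finset.mem_range] at hx hy
        have hxy1 : tt N par x % (ℓ + 1) = tt N par y % (ℓ + 1) := congrArg Prod.fst hxy
        have hxy2 : (if tt N par x < ℓ + 1 then par^[tt N par x % (ℓ + 1)] x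
          else par^[tt N par x % (ℓ + 1) + 1] x) = (if tt N par y < ℓ + 1 then
            par^[tt N par y % (ℓ + 1)] y else par^[tt N par y % (ℓ + 1) + 1] y) :=
          congrArg Prod.snd hxy
        have key : ∀ z, z < N → tt N par z < ℓ + 1 → par^[tt N par z % (ℓ + 1)] z ∈ R := by
          intro z hz h
          rw [hRm, Nat.mod_eq_of_lt h]
          have h1 := tt_iter hz (tt N par z) le_rfl
          exact ⟨h1.1, by omega⟩
        have key2 : ∀ z, z < N → ¬ tt N par z < ℓ + 1 →
            par^[tt N par z % (ℓ + 1) + 1] z ∈ X := by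
          intro z hz h
          have hdm := Nat.div_add_mod (tt N par z) (ℓ + 1)
          have hmod : tt N par z % (ℓ + 1) < ℓ + 1 := Nat.mod_lt _ (Nat.succ_pos ℓ)
          rw [hXm]
          have h1 := tt_iter (par := par) hz (tt N par z % (ℓ + 1) + 1) (by omega)
          refine ⟨h1.1, ?_⟩
          obtain ⟨q, hq⟩ : ∃ q, tt N par z / (ℓ + 1) = q + 1 := by
            have : 0 < tt N par z / (ℓ + 1) := Nat.div_pos (not_lt.mp h) (Nat.succ_pos ℓ)
            exact ⟨tt N par z / (ℓ + 1) - 1, by omega⟩
          rw [hq, Nat.mul_add, Nat.mul_one] at hdm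
          have h2 : tt N par (par^[tt N par z % (ℓ + 1) + 1] z) = ℓ + (ℓ + 1) * q := by omega
          rw [h2, Nat.add_mul_mod_self_left, Nat.mod_eq_of_lt (Nat.lt_succ_self ℓ)]
        by_cases h : tt N par x < ℓ + 1
        · by_cases h' : tt N par y < ℓ + 1
          · rw [if_pos h, if_pos h', ← hxy1] at hxy2
            have h1 := Nat.mod_eq_of_lt h
            have h2 := Nat.mod_eq_of_lt h'
            exact tt_inj hx hy _ (by omega) (by omega) hxy2
          · exfalso
            rw [if_pos h, if_neg h'] at hxy2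
            exact hRX _ (key x hx h) (by rw [hxy2]; exact key2 y hy h')
        · by_cases h' : tt N par y < ℓ + 1
          · exfalso
            rw [if_neg h, if_pos h'] at hxy2
            exact hRX _ (key y hy h') (by rw [← hxy2]; exact key2 x hx h)
          · rw [if_neg h, if_neg h', ← hxy1] at hxy2
            have h1 : tt N par x % (ℓ + 1) < ℓ + 1 := Nat.mod_lt _ (Nat.succ_pos ℓ)
            exact tt_inj hx hy _ (by omega) (by omega) hxy2
    rw [Finset.card_range, Finset.card_product, Finset.card_range] at hcard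
    have h1 := Finset.card_union_le R X
    have h2 := roots hV
    rw [← hR] at h2
    calc N ≤ (ℓ + 1) * (R ∪ X).card := hcard
      _ ≤ (ℓ + 1) * (X.card + 2 * (lv N par).card) := Nat.mul_le_mul_left _ (by omega)

end Pool.Agent.RST
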