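import Pool.Agent.RST.Targets

/-!
# RST-NUMB: the numerical conditions in the case of few leaves
-/

set_option autoImplicit false

open Finset Filter Topology

namespace Pool.Agent.RST

namespace NUMB_

/-- a power of `n` is eventually larger than any constant -/
theorem ev_rpow (s c : ℝ) (hs : 0 < s) : ∀ᶠ n : ℕ in atTop, c ≤ (n : ℝ) ^ s :=
  ((tendsto_rpow_atTop hs).comp tendsto_natCast_atTop_atTop).eventually_ge_atTop c

/-- a power of `n` beats the square of the logarithm -/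
theorem ev_log (s c : ℝ) (hs : 0 < s) :
    ∀ᶠ n : ℕ in atTop, c * (Real.log n) ^ 2 < (n : ℝ) ^ s := by
  have h1 : (fun x : ℝ => (Real.log x) ^ (2 : ℝ)) =o[atTop] fun x : ℝ => x ^ s :=
    isLittleO_log_rpow_rpow_atTop 2 hs
  have hc : (0 : ℝ) < 1 / (|c| + 1) := by positivity
  have h2 := h1.bound hc
  have h3 := tendsto_natCast_atTop_atTop (R := ℝ) |>.eventually h2
  filter_upwards [h3, eventually_ge_atTop 1] with n hn hn1
  have hN : (1 : ℝ) ≤ n := by exact_mod_cast hn1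
  have hl : 0 ≤ Real.log n := Real.log_nonneg hN
  have hp : 0 < (n : ℝ) ^ s := Real.rpow_pos_of_pos (by linarith) s
  rw [Real.norm_of_nonneg (Real.rpow_nonneg hl _), Real.norm_of_nonneg hp.le] at hn
  have e : (Real.log n) ^ (2 : ℝ) = (Real.log n) ^ 2 := by
    rw [show (2 : ℝ) = ((2 : ℕ) : ℝ) by norm_num, Real.rpow_natCast]
  rw [e, div_mul_eq_mul_div, one_mul, le_div_iff₀ (by positivity)] at hn
  have h4 : c ≤ |c| := le_abs_self c
  have h5 : 0 ≤ (Real.log n) ^ 2 := sq_nonneg _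
  rcases h5.eq_or_lt with h | h
  · rw [← h]; simpa using hp
  · nlinarith

/-- the choice of `J` -/
theorem exJ (y : ℝ) (hy : 1 ≤ y) : ∃ J : ℕ, 1 ≤ J ∧ (2 : ℝ) ^ (J - 1) ≤ y ∧
    y / 2 ≤ (2 : ℝ) ^ (J - 1) := by
  obtain ⟨k, hk1, hk2⟩ := exists_nat_pow_near hy (by norm_num : (1 : ℝ) < 2)
  refine ⟨k + 1, by omega, by simpa using hk1, ?_⟩
  have : (2 : ℝ) ^ (k + 1) = 2 * 2 ^ k := by ring
  rw [this] at hk2
  simp only [Nat.add_sub_cancel]
  linarith

/-- the number of classes -/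
theorem last (N B η p h c₁ y : ℝ) (K k₀ J : ℕ) (hN3 : 3 ≤ N) (hc : c₁ ≤ N)
    (hη : 0 < η) (hlog1 : 1 ≤ Real.log N) (hB : B = (k₀ : ℝ) + 4 + 4 * (K + 1))
    (hJ1 : 1 ≤ J) (hy : y ≤ c₁ * N) (hJ2 : (2 : ℝ) ^ (J - 1) ≤ y)
    (h13 : ((1 + 3 * B) * 4 / η ^ 2) * (Real.log N) ^ 2 < p * h) :
    N * ((k₀ + 4 + J * K + J : ℕ) : ℝ) * (N + 1) ^ (k₀ + 4 + J * K + J) *
      Real.exp (-(η ^ 2 * h * (1 / 2 * p * N) / (2 * N))) < 1 := by
  have hN0 : 0 < N := by linarith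
  have hlog0 : 0 < Real.log N := by linarith
  have hB0 : 0 < B := by rw [hB]; positivity
  have hJN : (2 : ℝ) ^ (J - 1) ≤ N ^ 2 := by
    have h1 : c₁ * N ≤ N * N := mul_le_mul_of_nonneg_right hc hN0.le
    calc (2 : ℝ) ^ (J - 1) ≤ y := hJ2
      _ ≤ c₁ * N := hy
      _ ≤ N * N := h1
      _ = N ^ 2 := by ring
  have hJlog : ((J - 1 : ℕ) : ℝ) * Real.log 2 ≤ 2 * Real.log N := by
    have := Real.log_le_log (by positivity) hJN
    rwa [Real.log_pow, Real.log_pow, Nat.cast_ofNat] at this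
  have hl2 := Real.log_two_gt_d9
  have hJ4 : (J : ℝ) ≤ 4 * Real.log N := by
    have e1 : ((J - 1 : ℕ) : ℝ) = (J : ℝ) - 1 := by
      rw [Nat.cast_sub hJ1]; simp
    rw [e1] at hJlog
    have hJr : (1 : ℝ) ≤ J := by exact_mod_cast hJ1
    have e2 : ((J : ℝ) - 1) * (69 / 100) ≤ ((J : ℝ) - 1) * Real.log 2 :=
      mul_le_mul_of_nonneg_left (by linarith) (by linarith)
    linarith
  set k : ℕ := k₀ + 4 + J * K + J with hk
  have hkB : (k : ℝ) ≤ B * Real.log N := by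
    have e1 : (k : ℝ) = k₀ + 4 + J * (K + 1) := by
      rw [hk]; push_cast; ring
    rw [e1, hB]
    have e2 : (J : ℝ) * (K + 1) ≤ 4 * Real.log N * (K + 1) :=
      mul_le_mul_of_nonneg_right hJ4 (by positivity)
    have e3 : ((k₀ : ℝ) + 4) * 1 ≤ (k₀ + 4) * Real.log N :=
      mul_le_mul_of_nonneg_left hlog1 (by positivity)
    linarith
  have hk0 : (0 : ℝ) < k := by
    have : 0 < k := by omega
    exact_mod_cast this
  have hlk : Real.log k ≤ k := (Real.log_le_sub_one_of_pos hk0).trans (by linarith)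
  have hlN : Real.log (N + 1) ≤ 2 * Real.log N := by
    have e1 : N + 1 ≤ N ^ 2 := by nlinarith
    have := Real.log_le_log (by positivity) e1
    rwa [Real.log_pow, Nat.cast_ofNat] at this
  have hmain : N * (k : ℝ) * (N + 1) ^ k =
      Real.exp (Real.log N + Real.log k + k * Real.log (N + 1)) := by
    rw [Real.exp_add, Real.exp_add, Real.exp_log hN0, Real.exp_log hk0, ← Real.log_pow,
      Real.exp_log (by positivity)]
  have hex : η ^ 2 * h * (1 / 2 * p * N) / (2 * N) = η ^ 2 * (p * h) / 4 := by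
    field_simp
    ring
  rw [hmain, hex, ← Real.exp_add, Real.exp_lt_one_iff]
  have e1 : k * Real.log (N + 1) ≤ B * Real.log N * (2 * Real.log N) :=
    mul_le_mul hkB hlN (Real.log_nonneg (by linarith)) (by positivity)
  have e2 : Real.log N ≤ Real.log N ^ 2 := by nlinarith
  have e3 : B * Real.log N ≤ B * Real.log N ^ 2 := mul_le_mul_of_nonneg_left e2 hB0.le
  have e4 : Real.log N + Real.log k + k * Real.log (N + 1) ≤ (1 + 3 * B) * Real.log N ^ 2 := by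
    have e7 : B * Real.log N * (2 * Real.log N) = 2 * (B * Real.log N ^ 2) := by ring
    have e8 : (1 + 3 * B) * Real.log N ^ 2 = Real.log N ^ 2 + 3 * (B * Real.log N ^ 2) := by ring
    linarith
  have e5 : (1 + 3 * B) * Real.log N ^ 2 < η ^ 2 * (p * h) / 4 := by
    have hη2 : 0 < η ^ 2 := by positivity
    rw [div_mul_eq_mul_div, div_lt_iff₀ hη2] at h13
    linarith
  linarith

end NUMB_

open NUMB_ in
theorem pNUMB : T_NUMB := by
  intro δ g C ξ η c₁ c₂ K ℓ C₃ C₄ k₀ z₀ N₀ hδ hδ1 hg hC hξ hη hc₁ hc₂ hK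
  set κ : ℝ := δ / 20 with hκ
  have hκ0 : 0 < κ := by positivity
  have hKr : (1 : ℝ) ≤ K := by exact_mod_cast hK
  set B : ℝ := (k₀ : ℝ) + 4 + 4 * (K + 1) with hB
  have hB0 : 0 < B := by positivity
  have hev : ∀ᶠ n : ℕ in atTop,
      (3 : ℝ) ≤ n ∧ c₁ ≤ n ∧ 2 * (N₀ : ℝ) ≤ n ∧ (z₀ : ℝ) ≤ (n : ℝ) ^ (5 * κ) ∧
      (16 * C / g) * (Real.log n) ^ 2 < (n : ℝ) ^ (5 * κ) ∧
      4 / ξ ≤ (n : ℝ) ^ (15 * κ) ∧ 320 * ℓ * C₄ / (g * c₂) ≤ (n : ℝ) ^ (14 * κ) ∧
      40 * C₄ / c₂ ≤ (n : ℝ) ^ (15 * κ) ∧ 2 * (K + 3) / c₂ ≤ (n : ℝ) ∧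
      80 * C₄ / c₁ ≤ (n : ℝ) ^ (14 * κ) ∧ 4 * C₃ / c₁ ≤ (n : ℝ) ^ (15 * κ) ∧
      2 * K / c₁ ≤ (n : ℝ) ^ (15 * κ) ∧
      ((1 + 3 * B) * 4 / η ^ 2) * (Real.log n) ^ 2 < (n : ℝ) ^ (5 * κ) := by
    have hn : ∀ c : ℝ, ∀ᶠ n : ℕ in atTop, c ≤ (n : ℝ) := fun c =>
      tendsto_natCast_atTop_atTop.eventually_ge_atTop c
    filter_upwards [hn 3, hn c₁, hn (2 * N₀), ev_rpow (5 * κ) z₀ (by positivity),
      ev_log (5 * κ) (16 * C / g) (by positivity), ev_rpow (15 * κ) (4 / ξ) (by positivity),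
      ev_rpow (14 * κ) (320 * ℓ * C₄ / (g * c₂)) (by positivity),
      ev_rpow (15 * κ) (40 * C₄ / c₂) (by positivity), hn (2 * (K + 3) / c₂),
      ev_rpow (14 * κ) (80 * C₄ / c₁) (by positivity),
      ev_rpow (15 * κ) (4 * C₃ / c₁) (by positivity),
      ev_rpow (15 * κ) (2 * K / c₁) (by positivity),
      ev_log (5 * κ) ((1 + 3 * B) * 4 / η ^ 2) (by positivity)] with n a1 a2 a3 a4 a5 a6 a7 a8 a9
        a10 a11 a12 a13
    exact ⟨a1, a2, a3, a4, a5, a6, a7, a8, a9, a10, a11, a12, a13⟩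
  obtain ⟨n₀, hn₀⟩ := eventually_atTop.1 hev
  refine ⟨n₀, fun n hn p hp hp1 => ?_⟩
  obtain ⟨a1, a2, a3, a4, a5, a6, a7, a8, a9, a10, a11, a12, a13⟩ := hn₀ n hn
  set N : ℝ := (n : ℝ) with hN
  have hN0 : 0 < N := by linarith
  have hN1 : 1 ≤ N := by linarith
  have hp0 : 0 < p := lt_of_lt_of_le (Real.rpow_pos_of_pos hN0 _) hp
  have hlog1 : 1 ≤ Real.log N := by
    rw [Real.le_log_iff_exp_le hN0]
    have := Real.exp_one_lt_d9
    linarith
  have hlog0 : 0 < Real.log N := by linarith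
  set h : ℕ := hh κ n p with hh'
  have hx1 : N ^ (5 * κ) / p ≤ (h : ℝ) := Nat.le_ceil _
  have hr5 : 1 ≤ N ^ (5 * κ) := Real.one_le_rpow hN1 (by positivity)
  have hxge : N ^ (5 * κ) ≤ N ^ (5 * κ) / p := by
    rw [le_div_iff₀ hp0]
    nlinarith
  have hx2 : (h : ℝ) ≤ 2 * (N ^ (5 * κ) / p) := by
    have h1 : (h : ℝ) < N ^ (5 * κ) / p + 1 := Nat.ceil_lt_add_one (by positivity)
    linarith
  have hx3 : N ^ (5 * κ) / p ≤ N ^ (1 - 15 * κ) := by
    rw [div_le_iff₀ hp0]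
    calc N ^ (5 * κ) = N ^ (1 - 15 * κ) * N ^ (-1 + δ) := by
          rw [← Real.rpow_add hN0]; congr 1; rw [hκ]; ring
      _ ≤ _ := by
          apply mul_le_mul_of_nonneg_left hp
          positivity
  have hh2 : (h : ℝ) ≤ 2 * N ^ (1 - 15 * κ) := by linarith
  have hph : N ^ (5 * κ) ≤ p * h := by
    rw [div_le_iff₀ hp0] at hx1
    linarith
  have h15 : N ^ (1 - 15 * κ) * N ^ (15 * κ) = N := by
    rw [← Real.rpow_add hN0]; simp
  have h14 : N ^ (1 - 14 * κ) * N ^ (14 * κ) = N := by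
    rw [← Real.rpow_add hN0]; simp
  have hp15 : 0 < N ^ (1 - 15 * κ) := by positivity
  have hp14 : 0 < N ^ (1 - 14 * κ) := by positivity
  set b : ℕ := bb κ n with hb'
  have hb : (b : ℝ) ≤ 2 * N ^ κ := by
    have h1 : (b : ℝ) < N ^ κ + 1 := Nat.ceil_lt_add_one (by positivity)
    have h2 : 1 ≤ N ^ κ := Real.one_le_rpow hN1 hκ0.le
    linarith
  have hhb : (h : ℝ) * b ≤ 4 * N ^ (1 - 14 * κ) := by
    calc (h : ℝ) * b ≤ (2 * N ^ (1 - 15 * κ)) * (2 * N ^ κ) := by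
          apply mul_le_mul hh2 hb (Nat.cast_nonneg _) (by positivity)
      _ = 4 * (N ^ (1 - 15 * κ) * N ^ κ) := by ring
      _ = 4 * N ^ (1 - 14 * κ) := by
          rw [← Real.rpow_add hN0]; congr 2; ring
  have hh1 : (1 : ℝ) ≤ h := by linarith
  -- use the eventual inequalities
  rw [div_le_iff₀ hξ] at a6
  rw [div_le_iff₀ (by positivity)] at a7
  rw [div_le_iff₀ hc₂] at a8 a9
  rw [div_le_iff₀ hc₁] at a10 a11 a12
  refine ⟨?_, hp0, ?_, ?_, ?_, ?_, ?_, ?_, ?_, ?_, ?_, ?_⟩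
  · have : (1 : ℝ) ≤ (n : ℝ) := hN1
    exact_mod_cast this
  · have : 2 * (N₀ : ℝ) ≤ (n : ℝ) := a3
    exact_mod_cast this
  · exact_mod_cast hh1
  · have : (z₀ : ℝ) ≤ (h : ℝ) := by linarith
    exact_mod_cast this
  · refine le_trans ?_ hph
    exact Real.rpow_le_rpow_of_exponent_le hN1 (by linarith)
  · have e1 : 16 * C / g * Real.log N ^ 2 * g = 16 * C * Real.log N ^ 2 := by
      field_simp
    have e2 : 16 * C * Real.log N ^ 2 ≤ g * N ^ (5 * κ) := by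
      rw [← e1, mul_comm g]
      exact mul_le_mul_of_nonneg_right a5.le hg.le
    have e3 : Real.log N ≤ Real.log N ^ 2 := by nlinarith
    have e4 : 16 * (C * Real.log N) ≤ 16 * C * Real.log N ^ 2 := by
      have := mul_le_mul_of_nonneg_left e3 hC
      linarith
    have e5 : g * N ^ (5 * κ) ≤ g * p * h := by
      rw [mul_assoc]
      exact mul_le_mul_of_nonneg_left hph hg.le
    linarith
  · have : 2 * N ^ (1 - 15 * κ) ≤ ξ * (N / 2) := by
      have := mul_le_mul_of_nonneg_left a6 hp15.le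
      have e : N ^ (1 - 15 * κ) * (N ^ (15 * κ) * ξ) = N * ξ := by rw [← mul_assoc, h15]
      rw [e] at this
      linarith
    linarith
  · have e1 : 80 * (ℓ : ℝ) * (C₄ * h) * b = 80 * ℓ * C₄ * (h * b) := by ring
    rw [e1]
    have e2 : 80 * (ℓ : ℝ) * C₄ * (h * b) ≤ 80 * ℓ * C₄ * (4 * N ^ (1 - 14 * κ)) :=
      mul_le_mul_of_nonneg_left hhb (by positivity)
    have e3 := mul_le_mul_of_nonneg_left a7 hp14.le
    have e4 : N ^ (1 - 14 * κ) * (N ^ (14 * κ) * (g * c₂)) = N * (g * c₂) := by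
      rw [← mul_assoc, h14]
    rw [e4] at e3
    linarith
  · have e3 := mul_le_mul_of_nonneg_left a8 hp15.le
    have e4 : N ^ (1 - 15 * κ) * (N ^ (15 * κ) * c₂) = N * c₂ := by
      rw [← mul_assoc, h15]
    rw [e4] at e3
    have e5 : (C₄ : ℝ) * h ≤ C₄ * (2 * N ^ (1 - 15 * κ)) :=
      mul_le_mul_of_nonneg_left hh2 (Nat.cast_nonneg _)
    linarith
  · have e1 : 10 * ((C₄ : ℝ) * h) * b = 10 * C₄ * (h * b) := by ring
    rw [e1]
    have e2 : 10 * (C₄ : ℝ) * (h * b) ≤ 10 * C₄ * (4 * N ^ (1 - 14 * κ)) :=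
      mul_le_mul_of_nonneg_left hhb (by positivity)
    have e3 := mul_le_mul_of_nonneg_left a10 hp14.le
    have e4 : N ^ (1 - 14 * κ) * (N ^ (14 * κ) * c₁) = N * c₁ := by
      rw [← mul_assoc, h14]
    rw [e4] at e3
    have e5 : (C₃ : ℝ) * h ≤ C₃ * (2 * N ^ (1 - 15 * κ)) :=
      mul_le_mul_of_nonneg_left hh2 (Nat.cast_nonneg _)
    have e6 := mul_le_mul_of_nonneg_left a11 hp15.le
    have e7 : N ^ (1 - 15 * κ) * (N ^ (15 * κ) * c₁) = N * c₁ := by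
      rw [← mul_assoc, h15]
    rw [e7] at e6
    linarith
  · -- the choice of `J`
    have hKh : 0 < (K : ℝ) * h := by positivity
    have hKh1 : 1 ≤ (K : ℝ) * h := by nlinarith
    have hy : 1 ≤ c₁ * N / (K * h) := by
      rw [le_div_iff₀ hKh, one_mul]
      have e5 : (K : ℝ) * h ≤ K * (2 * N ^ (1 - 15 * κ)) :=
        mul_le_mul_of_nonneg_left hh2 (Nat.cast_nonneg _)
      have e6 := mul_le_mul_of_nonneg_left a12 hp15.le
      have e7 : N ^ (1 - 15 * κ) * (N ^ (15 * κ) * c₁) = N * c₁ := by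
        rw [← mul_assoc, h15]
      rw [e7] at e6
      linarith
    obtain ⟨J, hJ1, hJ2, hJ3⟩ := exJ _ hy
    refine ⟨J, hJ1, ?_, ?_, ?_⟩
    · rw [le_div_iff₀ hKh] at hJ2
      linarith
    · rw [div_div, div_le_iff₀ (by positivity)] at hJ3
      linarith
    · -- the number of classes
      exact last N B η p h c₁ _ K k₀ J a1 a2 hη hlog1 hB hJ1
        (div_le_self (by positivity) hKh1) hJ2 (lt_of_lt_of_le a13 hph)

end Pool.Agent.RST
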