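import Pool.Agent.RST.Targets

/-!
# TPL: robustly matchable bipartite templates of small degree
-/

set_option autoImplicit false

open Finset Filter Topology

namespace Pool.Agent.RST

namespace TPL_

/-- a bijection between finite sets of the same size -/
theorem exists_bij {α β : Type} [Nonempty β] {A : Finset α} {B : Finset β}
    (h : A.card = B.card) : ∃ f : α → β, Set.BijOn f (A : Set α) (B : Set β) := by
  apply Set.Finite.exists_bijOn_of_encard_eq A.finite_toSet
  rw [Set.encard_coe_eq_coe_finsetCard, Set.encard_coe_eq_coe_finsetCard, h]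

theorem ev_log {δ : ℝ} (hδ : 0 < δ) : ∀ᶠ n : ℕ in atTop,
    Real.log n ≤ (1 / 1000000) * (n : ℝ) ^ δ ∧ 24 ≤ (n : ℝ) ^ δ ∧ (24 : ℝ) ≤ n := by
  have h1 := (isLittleO_log_rpow_atTop hδ).bound (by norm_num : (0 : ℝ) < 1 / 1000000)
  have h2 := (tendsto_rpow_atTop hδ).eventually (eventually_ge_atTop 24)
  have h3 := (tendsto_natCast_atTop_atTop (R := ℝ)).eventually
    (h1.and (h2.and (eventually_ge_atTop 24)))
  filter_upwards [h3] with n hn
  obtain ⟨h4, h5, h6⟩ := hn
  refine ⟨?_, h5, h6⟩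
  rw [Real.norm_eq_abs, Real.norm_eq_abs, abs_of_nonneg (by positivity : (0 : ℝ) ≤ (n : ℝ) ^ δ)]
    at h4
  exact (le_abs_self _).trans h4

/-- the numerical conditions -/
theorem nums {δ : ℝ} (hδ : 0 < δ) (hδ1 : 2 * δ ≤ 1) {n z' z : ℕ} (hn : n = 19 * z' + z)
    (hz : z' ≤ z) (hz2 : z ≤ 2 * z') (h1 : Real.log n ≤ 1 / 1000000 * (n : ℝ) ^ δ)
    (h2 : 24 ≤ (n : ℝ) ^ δ) (h3 : (24 : ℝ) ≤ n) (q : ℝ) (hq : q = (n : ℝ) ^ (-1 + δ)) :
    0 < q ∧
    (n : ℝ) * 3 * ((n : ℝ) + 1) ^ 3 *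
      Real.exp (-((1 / 10) ^ 2 * z' * ((1 - 1 / 10) * q * n) / (2 * n))) < 1 ∧
    8 * (12 / (1 / 10) * Real.log n) ≤ 1 / 5 * q * (10 * z') ∧
    (1 + 1 / 10) * q * n ≤ (z : ℝ) ^ (2 * δ) := by
  have hn0 : (0 : ℝ) < n := by linarith
  have hq0 : 0 < q := by rw [hq]; positivity
  have hqn : q * n = (n : ℝ) ^ δ := by
    rw [hq]
    calc (n : ℝ) ^ (-1 + δ) * n = (n : ℝ) ^ (-1 + δ) * (n : ℝ) ^ (1 : ℝ) := by rw [Real.rpow_one]
      _ = (n : ℝ) ^ (-1 + δ + 1) := (Real.rpow_add hn0 _ _).symm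
      _ = (n : ℝ) ^ δ := by congr 1; ring
  have hnr : (n : ℝ) = 19 * z' + z := by rw [hn]; push_cast; ring
  have hzr : (z' : ℝ) ≤ z := by exact_mod_cast hz
  have hzr2 : (z : ℝ) ≤ 2 * z' := by exact_mod_cast hz2
  have hz21 : (n : ℝ) ≤ 21 * z' := by linarith
  have hqz : (n : ℝ) ^ δ ≤ 21 * (q * z') := by
    rw [← hqn]
    nlinarith
  refine ⟨hq0, ?_, ?_, ?_⟩
  · set t : ℝ := (n : ℝ) ^ δ with ht
    have e1 : (1 / 10) ^ 2 * (z' : ℝ) * ((1 - 1 / 10) * q * n) / (2 * n) =
        9 / 2000 * (q * z') := by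
      field_simp
      ring
    rw [e1]
    have e2 : (n : ℝ) * 3 * ((n : ℝ) + 1) ^ 3 ≤ (n : ℝ) ^ 5 := by
      have : (n : ℝ) + 1 ≤ 2 * n := by linarith
      calc (n : ℝ) * 3 * ((n : ℝ) + 1) ^ 3 ≤ (n : ℝ) * 3 * (2 * n) ^ 3 := by gcongr
        _ = 24 * (n : ℝ) ^ 4 := by ring
        _ ≤ n * (n : ℝ) ^ 4 := by gcongr
        _ = (n : ℝ) ^ 5 := by ring
    have e3 : (n : ℝ) ^ 5 = Real.exp (5 * Real.log n) := by
      rw [mul_comm, Real.exp_mul, Real.exp_log hn0]
      norm_cast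
    calc (n : ℝ) * 3 * ((n : ℝ) + 1) ^ 3 * Real.exp (-(9 / 2000 * (q * z')))
        ≤ (n : ℝ) ^ 5 * Real.exp (-(9 / 2000 * (q * z'))) :=
          mul_le_mul_of_nonneg_right e2 (Real.exp_pos _).le
      _ = Real.exp (5 * Real.log n + -(9 / 2000 * (q * z'))) := by rw [e3, Real.exp_add]
      _ < 1 := by
        rw [Real.exp_lt_one_iff]
        nlinarith
  · linarith
  · have e1 : (1 + 1 / 10) * q * n = 11 / 10 * (n : ℝ) ^ δ := by
      rw [← hqn]; ring
    have e2 : (n : ℝ) ^ (2 * δ) = (n : ℝ) ^ δ * (n : ℝ) ^ δ := by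
      rw [← Real.rpow_add hn0]; congr 1; ring
    have hz0 : (0 : ℝ) ≤ z := Nat.cast_nonneg _
    have e3 : (n : ℝ) ^ (2 * δ) ≤ 21 * (z : ℝ) ^ (2 * δ) := by
      calc (n : ℝ) ^ (2 * δ) ≤ (21 * z) ^ (2 * δ) :=
            Real.rpow_le_rpow hn0.le (by linarith) (by positivity)
        _ = 21 ^ (2 * δ) * (z : ℝ) ^ (2 * δ) := Real.mul_rpow (by norm_num) hz0
        _ ≤ 21 * (z : ℝ) ^ (2 * δ) := by
            have : (21 : ℝ) ^ (2 * δ) ≤ 21 ^ (1 : ℝ) :=
              Real.rpow_le_rpow_of_exponent_le (by norm_num) hδ1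
            rw [Real.rpow_one] at this
            exact mul_le_mul_of_nonneg_right this (by positivity)
    rw [e1]
    nlinarith

theorem dg_mono {V : Type} (H : SimpleGraph V) (v : V) {A B : Finset V} (h : A ⊆ B) :
    dg H v A ≤ dg H v B := by
  classical
  unfold dg
  exact card_le_card (filter_subset_filter _ h)

theorem dg_comm_card {V α : Type} (H : SimpleGraph V) (v : V) (A : Finset α) (f : α → V)
    (hf : Set.InjOn f (A : Set α)) (S : Finset V) (hS : ∀ x ∈ A, f x ∈ S)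
    (B : Finset α) (hBA : B ⊆ A) (hB : ∀ x ∈ B, H.Adj v (f x)) : B.card ≤ dg H v S := by
  classical
  unfold dg
  refine card_le_card_of_injOn f ?_ (hf.mono (by exact_mod_cast hBA))
  intro x hx
  rw [mem_coe] at hx
  rw [mem_coe, mem_filter]
  exact ⟨hS x (hBA hx), hB x hx⟩

theorem comb (hR : T_RPART) (hP : T_PM) {n z' z : ℕ} (hn : n = 19 * z' + z)
    (hz0 : 0 < z') (G : SimpleGraph (Fin n)) (q B : ℝ) (hq : 0 < q)
    (hU : UU G (1 / 10) q (12 / (1 / 10) * Real.log n))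
    (hdeg : ∀ v, (1 - 1 / 10) * q * n ≤ dg G v univ ∧ (dg G v univ : ℝ) ≤ (1 + 1 / 10) * q * n)
    (c1 : (n : ℝ) * 3 * ((n : ℝ) + 1) ^ 3 *
      Real.exp (-((1 / 10) ^ 2 * z' * ((1 - 1 / 10) * q * n) / (2 * n))) < 1)
    (c2 : 8 * (12 / (1 / 10) * Real.log n) ≤ 1 / 5 * q * (10 * z'))
    (c3 : (1 + 1 / 10) * q * n ≤ B) :
    ∃ Γ : ℕ → Finset ℕ, (∀ x < 10 * z', Γ x ⊆ range (9 * z' + z) ∧ (Γ x).Nonempty ∧
      ((Γ x).card : ℝ) ≤ B) ∧
    (∀ y, (((range (10 * z')).filter (fun x => y ∈ Γ x)).card : ℝ) ≤ B) ∧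
    ∀ Z' : Finset ℕ, Z' ⊆ Ico (9 * z') (9 * z' + z) → Z'.card = z' →
      ∃ μ : ℕ → ℕ, Set.BijOn μ (range (10 * z') : Set ℕ) (range (9 * z') ∪ Z' : Finset ℕ) ∧
        ∀ x < 10 * z', μ x ∈ Γ x := by
  classical
  have hn0 : 0 < n := by omega
  have hnr : (0 : ℝ) < n := by exact_mod_cast hn0
  have hzr : (0 : ℝ) < z' := by exact_mod_cast hz0
  have : Nonempty (Fin n) := ⟨⟨0, hn0⟩⟩
  obtain ⟨P, hPc, hPd, -, hPdeg⟩ := hR n G (Fin 3) ![10 * z', 9 * z', z]
    ((1 - 1 / 10) * q * n) (1 / 10) z' hn0 (by rw [Fin.sum_univ_three]; simp; omega)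
    (by norm_num) (by norm_num) (by positivity) (fun v => (hdeg v).1) (by
      rw [Fintype.card_fin]; exact_mod_cast c1)
  have cI : (P 0).card = 10 * z' := by rw [hPc]; rfl
  have cY : (P 1).card = 9 * z' := by rw [hPc]; rfl
  have cZ : (P 2).card = z := by rw [hPc]; rfl
  have dI : ∀ v, 7 * (q * z') ≤ dg G v (P 0) := by
    intro v
    have h1 := hPdeg 0 (by simp; nlinarith) v
    have h2 := (hdeg v).1
    have e : (((![10 * z', 9 * z', z] : Fin 3 → ℕ) 0 : ℕ) : ℝ) = 10 * z' := by simp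
    rw [e] at h1
    refine le_trans ?_ h1
    calc 7 * (q * z') ≤ (1 - 1 / 10) * (10 * z' / n) * ((1 - 1 / 10) * q * n) := by
          have : (1 - 1 / 10) * (10 * z' / n) * ((1 - 1 / 10) * q * n) = 81 / 10 * (q * z') := by
            field_simp
            ring
          rw [this]
          nlinarith [mul_pos hq hzr]
      _ ≤ _ := mul_le_mul_of_nonneg_left h2 (by positivity)
  have dY : ∀ v, 7 * (q * z') ≤ dg G v (P 1) := by
    intro v
    have h1 := hPdeg 1 (by simp; nlinarith) v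
    have h2 := (hdeg v).1
    have e : (((![10 * z', 9 * z', z] : Fin 3 → ℕ) 1 : ℕ) : ℝ) = 9 * z' := by simp
    rw [e] at h1
    refine le_trans ?_ h1
    calc 7 * (q * z') ≤ (1 - 1 / 10) * (9 * z' / n) * ((1 - 1 / 10) * q * n) := by
          have : (1 - 1 / 10) * (9 * z' / n) * ((1 - 1 / 10) * q * n) = 729 / 100 * (q * z') := by
            field_simp
            ring
          rw [this]
          nlinarith [mul_pos hq hzr]
      _ ≤ _ := mul_le_mul_of_nonneg_left h2 (by positivity)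
  obtain ⟨a, ha⟩ := exists_bij (A := range (10 * z')) (B := P 0) (by rw [card_range, cI])
  obtain ⟨b1, hb1⟩ := exists_bij (A := range (9 * z')) (B := P 1) (by rw [card_range, cY])
  obtain ⟨b2, hb2⟩ := exists_bij (A := Ico (9 * z') (9 * z' + z)) (B := P 2)
    (by rw [Nat.card_Ico, cZ]; omega)
  set b : ℕ → Fin n := fun y => if y < 9 * z' then b1 y else b2 y with hb
  have hbY : Set.BijOn b (range (9 * z') : Set ℕ) (P 1 : Set (Fin n)) := by
    refine hb1.congr fun y hy => ?_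
    have : y < 9 * z' := by simpa using hy
    simp only [hb, if_pos this]
  have hbZ : Set.BijOn b (Ico (9 * z') (9 * z' + z) : Set ℕ) (P 2 : Set (Fin n)) := by
    refine hb2.congr fun y hy => ?_
    have : ¬ y < 9 * z' := by
      rw [mem_coe, mem_Ico] at hy
      omega
    simp only [hb, if_neg this]
  have hYZ : Disjoint (P 1) (P 2) := hPd 1 2 (by decide)
  have hinj : Set.InjOn b (range (9 * z' + z) : Set ℕ) := by
    have hsplit : ∀ x ∈ (range (9 * z' + z) : Set ℕ), x ∈ (range (9 * z') : Set ℕ) ∨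
        x ∈ (Ico (9 * z') (9 * z' + z) : Set ℕ) := by
      intro x hx
      simp only [coe_range, Set.mem_Iio, coe_Ico, Set.mem_Ico] at hx ⊢
      omega
    intro x hx y hy hxy
    rcases hsplit x hx with h1 | h1 <;> rcases hsplit y hy with h2 | h2
    · exact hbY.injOn h1 h2 hxy
    · exact absurd (hbZ.mapsTo h2) (by
        rw [← hxy]; exact disjoint_left.1 hYZ (mem_coe.1 (hbY.mapsTo h1)))
    · exact absurd (hbZ.mapsTo h1) (by
        rw [hxy]; exact disjoint_left.1 hYZ (mem_coe.1 (hbY.mapsTo h2)))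
    · exact hbZ.injOn h1 h2 hxy
  refine ⟨fun x => (range (9 * z' + z)).filter (fun y => G.Adj (a x) (b y)), ?_, ?_, ?_⟩
  · intro x hx
    refine ⟨filter_subset _ _, ?_, ?_⟩
    · have h1 : 0 < dg G (a x) (P 1) := by
        have h2 := dY (a x)
        have h3 : (0 : ℝ) < 7 * (q * z') := by positivity
        exact_mod_cast lt_of_lt_of_le h3 h2
      unfold dg at h1
      obtain ⟨w, hw⟩ := card_pos.1 h1
      rw [mem_filter] at hw
      obtain ⟨y, hy, rfl⟩ := hbY.surjOn (mem_coe.2 hw.1)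
      refine ⟨y, ?_⟩
      rw [mem_filter, mem_range]
      refine ⟨?_, hw.2⟩
      simp only [coe_range, Set.mem_Iio] at hy
      omega
    · refine le_trans ?_ ((hdeg (a x)).2.trans c3)
      exact_mod_cast dg_comm_card G (a x) (range (9 * z' + z)) b hinj univ
        (fun _ _ => mem_univ _) _ (filter_subset _ _) (fun y hy => (mem_filter.1 hy).2)
  · intro y
    refine le_trans ?_ ((hdeg (b y)).2.trans c3)
    have hc := dg_comm_card G (b y) (range (10 * z')) a ha.injOn univ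
      (fun _ _ => mem_univ _) ((range (10 * z')).filter (fun x =>
        y ∈ (range (9 * z' + z)).filter (fun y => G.Adj (a x) (b y)))) (filter_subset _ _)
      (fun x hx => by
        have h1 := (mem_filter.1 hx).2
        have h2 : G.Adj (a x) (b y) := (mem_filter.1 h1).2
        exact h2.symm)
    exact_mod_cast hc
  · intro Z' hZ' hZc
    set S : Finset ℕ := range (9 * z') ∪ Z' with hS
    have hSsub : S ⊆ range (9 * z' + z) := by
      intro x hx
      rw [hS, mem_union] at hx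
      rw [mem_range]
      rcases hx with h | h
      · rw [mem_range] at h
        omega
      · have := mem_Ico.1 (hZ' h)
        omega
    have hSc : S.card = 10 * z' := by
      rw [hS, card_union_of_disjoint, card_range, hZc]
      · omega
      · rw [disjoint_left]
        intro x h1 h2
        have := mem_Ico.1 (hZ' h2)
        rw [mem_range] at h1
        omega
    have hSinj : Set.InjOn b (S : Set ℕ) := hinj.mono (by exact_mod_cast hSsub)
    have hbS : Set.BijOn b (S : Set ℕ) (S.image b : Finset (Fin n)) := by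
      rw [coe_image]
      exact hSinj.bijOn_image
    have hLc : (S.image b).card = 10 * z' := by rw [card_image_of_injOn hSinj, hSc]
    have hYL : P 1 ⊆ S.image b := by
      intro w hw
      obtain ⟨y, hy, rfl⟩ := hbY.surjOn (mem_coe.2 hw)
      exact mem_image_of_mem b (mem_union_left _ (mem_coe.1 hy))
    have hlog : 0 ≤ Real.log n := Real.log_nonneg (by exact_mod_cast hn0)
    have hcast : ((10 * z' : ℕ) : ℝ) = 10 * z' := by push_cast; ring
    obtain ⟨M, hM, hadj⟩ := hP (Fin n) G (1 / 10) q (12 / (1 / 10) * Real.log n) (1 / 5)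
      (P 0) (S.image b) hq (by norm_num) (by norm_num) (by norm_num) (by positivity) hU
      (by rw [cI, hLc]) (by rw [cI, hcast]; exact c2)
      (by
        intro x _
        rw [cI, hcast]
        have h1 : (dg G x (P 1) : ℝ) ≤ dg G x (S.image b) := by exact_mod_cast dg_mono G x hYL
        have h2 := dY x
        nlinarith)
      (by
        intro y _
        rw [cI, hcast]
        have h2 := dI y
        nlinarith)
    have hinv := hbS.invOn_invFunOn
    have hb' : Set.BijOn (Function.invFunOn b (S : Set ℕ)) (S.image b : Finset (Fin n))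
        (S : Set ℕ) := hbS.symm hinv.symm
    refine ⟨fun x => Function.invFunOn b (S : Set ℕ) (M (a x)), ?_, ?_⟩
    · exact (hb'.comp hM).comp ha
    · intro x hx
      have h1 : a x ∈ P 0 := mem_coe.1 (ha.mapsTo (by simpa using hx))
      have h2 : M (a x) ∈ S.image b := mem_coe.1 (hM.mapsTo (mem_coe.2 h1))
      have h3 : b (Function.invFunOn b (S : Set ℕ) (M (a x))) = M (a x) :=
        hinv.2 (mem_coe.2 h2)
      rw [mem_filter, h3]
      exact ⟨hSsub (mem_coe.1 (hb'.mapsTo (mem_coe.2 h2))), hadj _ h1⟩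

end TPL_

open TPL_ in
open Classical in
/-- TPL -/
theorem pTPL (h1 : T_GNP) (h2 : T_RPART) (h3 : T_PM) : T_TPL := by
  intro κ hκ
  set δ : ℝ := min κ 1 / 2 with hδ
  have hδ0 : 0 < δ := by
    have : 0 < min κ 1 := lt_min hκ one_pos
    positivity
  have hδ1 : 2 * δ ≤ 1 := by
    have : min κ 1 ≤ 1 := min_le_right _ _
    linarith
  have hδκ : 2 * δ ≤ κ := by
    have : min κ 1 ≤ κ := min_le_left _ _
    linarith
  have hg := h1 δ (1 / 10) (fun n => (n : ℝ) ^ (-1 + δ)) hδ0 (by norm_num) (by norm_num)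
    (fun n => by
      refine ⟨by positivity, ?_⟩
      rcases Nat.eq_zero_or_pos n with h | h
      · rw [h, Nat.cast_zero, Real.zero_rpow (by linarith)]
        norm_num
      · exact Real.rpow_le_one_of_one_le_of_nonpos (by exact_mod_cast h) (by linarith))
    (Eventually.of_forall fun n => le_refl _)
  have hev := hg.eventually (lt_mem_nhds (by norm_num : (1 / 2 : ℝ) < 1))
  have hex : ∀ᶠ n : ℕ in atTop, ∃ G : SimpleGraph (Fin n),
      Good G (1 / 10) ((n : ℝ) ^ (-1 + δ)) := by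
    filter_upwards [hev] with n hn
    by_contra hcon
    push Not at hcon
    have : (∑ᶠ G : SimpleGraph (Fin n), if Good G (1 / 10) ((n : ℝ) ^ (-1 + δ)) then
        wG ((n : ℝ) ^ (-1 + δ)) G else 0) = 0 := by
      apply finsum_eq_zero_of_forall_eq_zero
      intro G
      rw [if_neg (hcon G)]
    rw [this] at hn
    norm_num at hn
  obtain ⟨n1, hn1⟩ := eventually_atTop.1 (hex.and (ev_log hδ0))
  refine ⟨max n1 1, fun z' z hz' hz hz2 => ?_⟩
  have hz1 : 1 ≤ z' := le_trans (le_max_right _ _) hz'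
  have hz2' : n1 ≤ z' := le_trans (le_max_left _ _) hz'
  obtain ⟨⟨G, hG⟩, e1, e2, e3⟩ := hn1 (19 * z' + z) (by omega)
  obtain ⟨d1, d2, d3, d4⟩ := nums hδ0 hδ1 rfl hz hz2 e1 e2 e3 _ rfl
  have hzr : (1 : ℝ) ≤ z := by exact_mod_cast le_trans hz1 hz
  obtain ⟨Γ, g1, g2, g3⟩ := comb h2 h3 rfl hz1 G _ ((z : ℝ) ^ κ) d1 hG.1 hG.2 d2 d3
    (d4.trans (Real.rpow_le_rpow_of_exponent_le hzr hδκ))
  exact ⟨Γ, g1, g2, g3⟩

end Pool.Agent.RST
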