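import Pool.Agent.RST.Targets

/-!
# ABS: the absorber
-/

set_option autoImplicit false

open Finset

namespace Pool.Agent.RST

namespace ABS_

lemma enum {α : Type} (C : Finset α) (h : ℕ) (hC : C.card = h) (h1 : 1 ≤ h) :
    ∃ e : ℕ → α, Set.BijOn e (range h : Set ℕ) C := by
  subst hC
  obtain ⟨c0, hc0⟩ := Finset.card_pos.mp h1
  have key : ∀ i (hi : i < C.card),
      (if hi : i < C.card then ((C.equivFin.symm ⟨i, hi⟩ : C) : α) else c0) =
        ((C.equivFin.symm ⟨i, hi⟩ : C) : α) := by
    intro i hi
    rw [dif_pos hi]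
  refine ⟨fun i => if hi : i < C.card then ((C.equivFin.symm ⟨i, hi⟩ : C) : α) else c0, ?_, ?_, ?_⟩
  · intro i hi
    rw [Finset.mem_coe, Finset.mem_range] at hi
    simp only [key i hi]
    exact (C.equivFin.symm ⟨i, hi⟩).2
  · intro i hi j hj hij
    rw [Finset.mem_coe, Finset.mem_range] at hi hj
    simp only [key i hi, key j hj] at hij
    have h2 := C.equivFin.symm.injective (Subtype.ext hij)
    simpa using h2
  · intro x hx
    rw [Finset.mem_coe] at hx
    refine ⟨(C.equivFin ⟨x, hx⟩ : ℕ), ?_, ?_⟩
    · rw [Finset.mem_coe, Finset.mem_range]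
      exact (C.equivFin ⟨x, hx⟩).2
    · simp only [key _ (C.equivFin ⟨x, hx⟩).2]
      simp

lemma lk_union {V ι : Type} [DecidableEq V] [DecidableEq ι] {H : SimpleGraph V} {ℓ : ℕ}
    {A B : Finset ι} {a b : ι → V} {S T : Finset V} (h1 : Lk H ℓ A a b S) (h2 : Lk H ℓ B a b T)
    (hAB : Disjoint A B) (hST : Disjoint S T) : Lk H ℓ (A ∪ B) a b (S ∪ T) := by
  obtain ⟨l, a1, a2, a3⟩ := h1
  obtain ⟨k, b1, b2, b3⟩ := h2
  have hB : ∀ i ∈ B, i ∉ A := fun i hi hA => Finset.disjoint_left.mp hAB hA hi
  have hl : ∀ i ∈ A, (fun i => if i ∈ A then l i else k i) i = l i := fun i hi => by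
    simp only [if_pos hi]
  have hk : ∀ i ∈ B, (fun i => if i ∈ A then l i else k i) i = k i := fun i hi => by
    simp only [if_neg (hB i hi)]
  refine ⟨fun i => if i ∈ A then l i else k i, ?_, ?_, ?_⟩
  · intro i hi
    rw [Finset.mem_union] at hi
    rcases hi with hi | hi
    · rw [hl i hi]
      exact a1 i hi
    · rw [hk i hi]
      exact b1 i hi
  · intro i hi j hj hij
    rw [Finset.mem_union] at hi hj
    rcases hi with hi | hi <;> rcases hj with hj | hj
    · rw [hl i hi, hl j hj]
      exact a2 i hi j hj hij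
    · rw [hl i hi, hk j hj]
      intro x hx hx'
      exact Finset.disjoint_left.mp hST ((a3 x).mpr ⟨i, hi, hx⟩) ((b3 x).mpr ⟨j, hj, hx'⟩)
    · rw [hk i hi, hl j hj]
      intro x hx hx'
      exact Finset.disjoint_left.mp hST ((a3 x).mpr ⟨j, hj, hx'⟩) ((b3 x).mpr ⟨i, hi, hx⟩)
    · rw [hk i hi, hk j hj]
      exact b2 i hi j hj hij
  · intro x
    rw [Finset.mem_union, a3 x, b3 x]
    constructor
    · rintro (⟨i, hi, hx⟩ | ⟨i, hi, hx⟩)
      · refine ⟨i, Finset.mem_union_left _ hi, ?_⟩
        rw [hl i hi]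
        exact hx
      · refine ⟨i, Finset.mem_union_right _ hi, ?_⟩
        rw [hk i hi]
        exact hx
    · rintro ⟨i, hi, hx⟩
      rw [Finset.mem_union] at hi
      rcases hi with hi | hi
      · rw [hl i hi] at hx
        exact Or.inl ⟨i, hi, hx⟩
      · rw [hk i hi] at hx
        exact Or.inr ⟨i, hi, hx⟩

lemma lk_map {V ι : Type} [DecidableEq V] [DecidableEq ι] {H : SimpleGraph V} {ℓ h : ℕ}
    {C : Finset ι} {a b : ι → V} {S : Finset V} {e : ℕ → ι}
    (he : Set.BijOn e (range h : Set ℕ) C)
    (h1 : Lk H ℓ (range h) (fun i => a (e i)) (fun i => b (e i)) S) : Lk H ℓ C a b S := by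
  obtain ⟨l, a1, a2, a3⟩ := h1
  have hinv : ∀ c : ι, ∃ i : ℕ, c ∈ C → i ∈ range h ∧ e i = c := by
    intro c
    by_cases hc : c ∈ C
    · obtain ⟨i, hi, hic⟩ := he.surjOn (Finset.mem_coe.mpr hc)
      exact ⟨i, fun _ => ⟨Finset.mem_coe.mp hi, hic⟩⟩
    · exact ⟨0, fun h => absurd h hc⟩
  choose f hf using hinv
  refine ⟨fun c => l (f c), ?_, ?_, ?_⟩
  · intro c hc
    have := a1 (f c) (hf c hc).1
    simp only [(hf c hc).2] at this
    exact this
  · intro c hc c' hc' hcc
    refine a2 (f c) (hf c hc).1 (f c') (hf c' hc').1 (fun h => hcc ?_)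
    rw [← (hf c hc).2, ← (hf c' hc').2, h]
  · intro x
    rw [a3 x]
    constructor
    · rintro ⟨i, hi, hx⟩
      have hc : e i ∈ C := Finset.mem_coe.mp (he.mapsTo (Finset.mem_coe.mpr hi))
      refine ⟨e i, hc, ?_⟩
      have : f (e i) = i := he.injOn (Finset.mem_coe.mpr (hf _ hc).1) (Finset.mem_coe.mpr hi)
        (hf _ hc).2
      simp only [this]
      exact hx
    · rintro ⟨c, hc, hx⟩
      exact ⟨f c, (hf c hc).1, hx⟩

end ABS_

open ABS_ in
theorem pABS (h : T_CHG) : T_ABS := by
  intro V _ _ H W g d m b a ℓ hW hOK hgl M hm Γ YZ hΓ hdeg hd hYW ι _ A y y' hA hy hy' hyy hyW hsz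
  have hℓ : 1 ≤ ℓ := by
    unfold gl at hgl
    omega
  have key : ∀ M' ≤ M, ∃ B ⊆ A, B.card = ∑ x ∈ range M', (Γ x).card ∧
      ∃ (J : Finset (V × V)) (F : Finset V), OK H W d m J F ∧
        (used J F).card + M' = (ℓ - 1) * B.card ∧
        (∀ v ∈ YZ, od J v ≤ 2 * ((range M').filter (fun x => v ∈ Γ x)).card) ∧
        (∀ i ∈ A, i ∉ B → od J (y i) = 0 ∧ od J (y' i) = 0) ∧
        ∀ (S : Finset V) (μ : ℕ → V), Set.BijOn μ (range M' : Set ℕ) S →
          (∀ x < M', μ x ∈ Γ x) → Lk H ℓ B y y' (used J F ∪ S) := by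
    intro M'
    induction M' with
    | zero =>
      intro _
      refine ⟨∅, Finset.empty_subset _, by simp, ∅, ∅, hOK, by simp [used], ?_, ?_, ?_⟩
      · intro v _
        simp [od]
      · intro i _ _
        simp [od]
      · intro S μ hμ _
        have hS : S = ∅ := by
          rw [Finset.range_zero, Finset.coe_empty] at hμ
          have := hμ.image_eq
          rw [Set.image_empty] at this
          exact_mod_cast this.symm
        subst hS
        refine ⟨fun _ => [], by simp, by simp, ?_⟩
        intro x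
        simp [used]
    | succ M' ih =>
      intro hM
      obtain ⟨B, hBA, hBc, J, F, hJ, hc, hod, hod', hLk⟩ := ih (by omega)
      have hM' : M' < M := by omega
      obtain ⟨hΓs, hΓn⟩ := hΓ M' hM'
      set k := (Γ M').card with hk
      have hk1 : 1 ≤ k := Finset.card_pos.mpr hΓn
      -- the sum
      have hsum : ∑ x ∈ range (M' + 1), (Γ x).card ≤ ∑ x ∈ range M, (Γ x).card :=
        Finset.sum_le_sum_of_subset (Finset.range_subset_range.mpr hM)
      rw [Finset.sum_range_succ, ← hBc, ← hA] at hsum
      have hcard : k ≤ (A \ B).card := by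
        rw [Finset.card_sdiff_of_subset hBA]
        omega
      obtain ⟨C, hCs, hCc⟩ := Finset.exists_subset_card_eq hcard
      obtain ⟨e, he⟩ := enum C k hCc hk1
      obtain ⟨av, hav⟩ := enum (Γ M') k rfl hk1
      have heC : ∀ i < k, e i ∈ C := fun i hi =>
        Finset.mem_coe.mp (he.mapsTo (Finset.mem_coe.mpr (Finset.mem_range.mpr hi)))
      have heA : ∀ i < k, e i ∈ A ∧ e i ∉ B := fun i hi =>
        Finset.mem_sdiff.mp (hCs (heC i hi))
      have havΓ : ∀ i < k, av i ∈ Γ M' := fun i hi =>
        Finset.mem_coe.mp (hav.mapsTo (Finset.mem_coe.mpr (Finset.mem_range.mpr hi)))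
      have havYZ : ∀ i < k, av i ∈ YZ := fun i hi => hΓs (havΓ i hi)
      have hnW : ∀ v ∈ YZ, v ∉ W := fun v hv => Finset.disjoint_left.mp hYW hv
      have hyn : ∀ i ∈ A, y i ∉ W ∧ y i ∉ YZ ∧ y' i ∉ W ∧ y' i ∉ YZ := by
        intro i hi
        obtain ⟨h1, h2⟩ := hyW i hi
        rw [Finset.mem_union, not_or] at h1 h2
        exact ⟨h1.1, h1.2, h2.1, h2.2⟩
      have hcB : (used J F).card ≤ (ℓ - 1) * B.card := by omega
      have hsz2 : 4 * (((used J F).card : ℝ) + ((k : ℝ) + 1) * ℓ) ≤ g * W.card := by
        refine le_trans ?_ hsz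
        have h1 : ((used J F).card : ℝ) ≤ ℓ * B.card := by
          have : (used J F).card ≤ ℓ * B.card :=
            hcB.trans (Nat.mul_le_mul_right _ (Nat.sub_le _ _))
          exact_mod_cast this
        have h2 : ((B.card : ℝ) + k) ≤ A.card := by exact_mod_cast hsum
        have h3 : (1 : ℝ) ≤ k := by exact_mod_cast hk1
        have h4 : (0 : ℝ) ≤ ℓ := Nat.cast_nonneg _
        have h5 : (0 : ℝ) ≤ B.card := Nat.cast_nonneg _
        have h6 : (B.card + k + 1 : ℝ) * ℓ ≤ (2 * A.card) * ℓ := by
          apply mul_le_mul_of_nonneg_right _ h4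
          linarith
        nlinarith
      obtain ⟨I, J', F', hJ', hIW, hused, hIc, hIL, hIod, hIod'⟩ :=
        h V H W g d m b a ℓ J F k hW hJ hk1 hsz2 hgl av (fun i => y (e i)) (fun i => y' (e i))
          hav.injOn
          (fun i hi j hj hij => he.injOn hi hj (hy (Finset.mem_coe.mpr
            (heA i (Finset.mem_range.mp (Finset.mem_coe.mp hi))).1)
            (Finset.mem_coe.mpr (heA j (Finset.mem_range.mp (Finset.mem_coe.mp hj))).1) hij))
          (fun i hi j hj hij => he.injOn hi hj (hy' (Finset.mem_coe.mpr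
            (heA i (Finset.mem_range.mp (Finset.mem_coe.mp hi))).1)
            (Finset.mem_coe.mpr (heA j (Finset.mem_range.mp (Finset.mem_coe.mp hj))).1) hij))
          (fun i hi j hj => ⟨hyy _ (heA i hi).1 _ (heA j hj).1,
            fun hh => (hyn _ (heA i hi).1).2.1 (hh ▸ havYZ j hj),
            fun hh => (hyn _ (heA i hi).1).2.2.2 (hh ▸ havYZ j hj)⟩)
          (fun i hi => ⟨hnW _ (havYZ i hi), (hyn _ (heA i hi).1).1, (hyn _ (heA i hi).1).2.2.1⟩)
          (fun i hi => by
            have h1 := hod _ (havYZ i hi)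
            have h2 : ((range M').filter (fun x => av i ∈ Γ x)).card ≤ hm :=
              le_trans (Finset.card_le_card (Finset.filter_subset_filter _
                (Finset.range_subset_range.mpr (by omega)))) (hdeg (av i))
            have h3 := hod' _ (heA i hi).1 (heA i hi).2
            refine ⟨by omega, ?_, ?_⟩
            · rw [h3.1]
              omega
            · rw [h3.2]
              omega)
      have hBC : Disjoint B C := by
        rw [Finset.disjoint_left]
        intro i hi hC
        exact (Finset.mem_sdiff.mp (hCs hC)).2 hi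
      have hIu : Disjoint (used J F) I := by
        rw [Finset.disjoint_left]
        intro v hv hI
        exact (Finset.mem_sdiff.mp (hIW hI)).2 hv
      have hInW : ∀ v ∈ I, v ∈ W := fun v hv => (Finset.mem_sdiff.mp (hIW hv)).1
      refine ⟨B ∪ C, Finset.union_subset hBA (fun i hi => (Finset.mem_sdiff.mp (hCs hi)).1), ?_,
        J', F', hJ', ?_, ?_, ?_, ?_⟩
      · rw [Finset.card_union_of_disjoint hBC, Finset.sum_range_succ, hBc, hCc]
      · rw [hused, Finset.card_union_of_disjoint hIu, Finset.card_union_of_disjoint hBC, hCc,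
          mul_add, ← hc]
        have : (ℓ - 1) * k = I.card + 1 := by rw [hIc, mul_comm]
        omega
      · intro v hv
        rw [Finset.range_add_one, Finset.filter_insert]
        have hvI : v ∉ I := fun hI => hnW v hv (hInW v hI)
        by_cases hvΓ : v ∈ Γ M'
        · rw [if_pos hvΓ, Finset.card_insert_of_notMem (by simp)]
          obtain ⟨i, hi, hiv⟩ := hav.surjOn (Finset.mem_coe.mpr hvΓ)
          have := (hIod i (Finset.mem_range.mp (Finset.mem_coe.mp hi))).1
          rw [hiv] at this
          have := hod v hv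
          omega
        · rw [if_neg hvΓ, hIod' v hvI (fun i hi => ⟨fun hh => hvΓ (hh ▸ havΓ i hi),
            fun hh => (hyn _ (heA i hi).1).2.1 (hh ▸ hv),
            fun hh => (hyn _ (heA i hi).1).2.2.2 (hh ▸ hv)⟩)]
          exact hod v hv
      · intro i hi hiB
        rw [Finset.mem_union, not_or] at hiB
        have hne : ∀ j < k, i ≠ e j := fun j hj hh => hiB.2 (hh ▸ heC j hj)
        obtain ⟨n1, n2, n3, n4⟩ := hyn i hi
        rw [hIod' (y i) (fun hI => n1 (hInW _ hI)) (fun j hj => ⟨fun hh => n2 (hh ▸ havYZ j hj),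
            fun hh => hne j hj (hy (Finset.mem_coe.mpr hi) (Finset.mem_coe.mpr (heA j hj).1) hh),
            hyy i hi _ (heA j hj).1⟩),
          hIod' (y' i) (fun hI => n3 (hInW _ hI)) (fun j hj => ⟨fun hh => n4 (hh ▸ havYZ j hj),
            fun hh => hyy _ (heA j hj).1 i hi hh.symm,
            fun hh => hne j hj (hy' (Finset.mem_coe.mpr hi) (Finset.mem_coe.mpr (heA j hj).1)
              hh)⟩)]
        exact hod' i hi hiB.1
      · intro S μ hμ hμΓ
        have hμM : μ M' ∈ Γ M' := hμΓ M' (by omega)
        obtain ⟨i, hi, hiv⟩ := hav.surjOn (Finset.mem_coe.mpr hμM)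
        have hi' : i < k := Finset.mem_range.mp (Finset.mem_coe.mp hi)
        have hS : S = (range M').image μ ∪ {μ M'} := by
          apply Finset.coe_injective
          rw [← hμ.image_eq]
          ext v
          simp only [Set.mem_image, Finset.coe_range, Set.mem_Iio, Finset.coe_union,
            Finset.coe_image, Finset.coe_singleton, Set.mem_union, Set.mem_singleton_iff]
          constructor
          · rintro ⟨x, hx, rfl⟩
            rcases Nat.lt_succ_iff_lt_or_eq.mp hx with h | rfl
            · exact Or.inl ⟨x, h, rfl⟩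
            · exact Or.inr rfl
          · rintro (⟨x, hx, rfl⟩ | rfl)
            · exact ⟨x, by omega, rfl⟩
            · exact ⟨M', by omega, rfl⟩
        have hμ' : Set.InjOn μ (range M' : Set ℕ) := by
          intro x hx x' hx' hxx
          rw [Finset.mem_coe, Finset.mem_range] at hx hx'
          exact hμ.injOn (Finset.mem_coe.mpr (Finset.mem_range.mpr (by omega)))
            (Finset.mem_coe.mpr (Finset.mem_range.mpr (by omega))) hxx
        have hbij : Set.BijOn μ (range M' : Set ℕ) ((range M').image μ : Finset V) := by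
          rw [Finset.coe_image]
          exact hμ'.bijOn_image
        have h1 := hLk _ μ hbij (fun x hx => hμΓ x (by omega))
        have h2 := lk_map he (hIL i hi')
        rw [hiv] at h2
        have hns : μ M' ∉ (range M').image μ := by
          intro hh
          rw [Finset.mem_image] at hh
          obtain ⟨x, hx, hxx⟩ := hh
          rw [Finset.mem_range] at hx
          have := hμ.injOn (Finset.mem_coe.mpr (Finset.mem_range.mpr (by omega)))
            (Finset.mem_coe.mpr (Finset.mem_range.mpr (by omega))) hxx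
          omega
        have hdis : Disjoint (used J F ∪ (range M').image μ) (insert (μ M') I) := by
          rw [Finset.disjoint_left]
          intro v hv hv'
          rw [Finset.mem_union] at hv
          rw [Finset.mem_insert] at hv'
          rcases hv with hv | hv
          · rcases hv' with rfl | hv'
            · exact hnW _ (hΓs hμM) (hJ.sub hv)
            · exact Finset.disjoint_left.mp hIu hv hv'
          · rcases hv' with rfl | hv'
            · exact hns hv
            · rw [Finset.mem_image] at hv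
              obtain ⟨x, hx, rfl⟩ := hv
              rw [Finset.mem_range] at hx
              exact hnW _ ((hΓ x (by omega)).1 (hμΓ x (by omega))) (hInW _ hv')
        have h3 := lk_union h1 h2 hBC hdis
        have h4 : used J' F' ∪ S = used J F ∪ (range M').image μ ∪ insert (μ M') I := by
          rw [hused, hS]
          ext v
          simp only [Finset.mem_union, Finset.mem_singleton, Finset.mem_insert]
          tauto
        rw [h4]
        exact h3
  obtain ⟨B, hBA, hBc, J, F, hJ, hc, -, -, hLk⟩ := key M le_rfl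
  have hBA' : B = A := Finset.eq_of_subset_of_card_le hBA (by rw [hBc, hA])
  subst hBA'
  exact ⟨used J F, hJ.sub, hc, hLk⟩

end Pool.Agent.RST
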