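import Pool.Agent.RST.Targets

set_option autoImplicit false

namespace Pool.Agent.RST

namespace ALT_

variable {V : Type}

private theorem app {R : V → V → Prop} {A B : List V} {a b c d : V}
    (hA : A.IsChain R ∧ A.head? = some a ∧ A.getLast? = some b)
    (hB : B.IsChain R ∧ B.head? = some c ∧ B.getLast? = some d) (h : R b c) :
    (A ++ B).IsChain R ∧ (A ++ B).head? = some a ∧ (A ++ B).getLast? = some d := by
  obtain ⟨hA1, hA2, hA3⟩ := hA
  obtain ⟨hB1, hB2, hB3⟩ := hB
  refine ⟨?_, ?_, ?_⟩
  · rw [List.isChain_append]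
    refine ⟨hA1, hB1, ?_⟩
    intro x hx y hy
    rw [hA3] at hx
    rw [hB2] at hy
    have hx' := Option.mem_some_iff.mp hx
    have hy' := Option.mem_some_iff.mp hy
    subst hx'
    subst hy'
    exact h
  · rw [List.head?_append, hA2]
    rfl
  · rw [List.getLast?_append, hB3]
    rfl

private theorem sing {R : V → V → Prop} (a : V) :
    [a].IsChain R ∧ [a].head? = some a ∧ [a].getLast? = some a :=
  ⟨List.isChain_singleton a, rfl, rfl⟩

private theorem fwd {R : V → V → Prop} (O : ℕ → List V) (fs ls : ℕ → V) (r : ℕ)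
    (h1 : ∀ i < r + 1, (O i).IsChain R ∧ (O i).head? = some (fs i) ∧
      (O i).getLast? = some (ls i))
    (h2 : ∀ i, i + 1 < r + 1 → R (ls i) (fs (i + 1))) :
    ((List.range (r + 1)).flatMap O).IsChain R ∧
      ((List.range (r + 1)).flatMap O).head? = some (fs 0) ∧
      ((List.range (r + 1)).flatMap O).getLast? = some (ls r) := by
  induction r with
  | zero =>
    have := h1 0 (by omega)
    simpa using this
  | succ r ih =>
    have ih' := ih (fun i hi => h1 i (by omega)) (fun i hi => h2 i (by omega))
    rw [List.range_succ, List.flatMap_append]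
    have e : [r + 1].flatMap O = O (r + 1) := by simp
    rw [e]
    exact app ih' (h1 (r + 1) (by omega)) (h2 r (by omega))

private theorem bwd {R : V → V → Prop} (O : ℕ → List V) (fs ls : ℕ → V) (r : ℕ)
    (h1 : ∀ i < r + 1, (O i).IsChain R ∧ (O i).head? = some (fs i) ∧
      (O i).getLast? = some (ls i))
    (h2 : ∀ i, i + 1 < r + 1 → R (ls (i + 1)) (fs i)) :
    ((List.range (r + 1)).reverse.flatMap O).IsChain R ∧
      ((List.range (r + 1)).reverse.flatMap O).head? = some (fs r) ∧
      ((List.range (r + 1)).reverse.flatMap O).getLast? = some (ls 0) := by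
  induction r with
  | zero =>
    have := h1 0 (by omega)
    simpa using this
  | succ r ih =>
    have ih' := ih (fun i hi => h1 i (by omega)) (fun i hi => h2 i (by omega))
    rw [List.range_succ, List.reverse_append, List.flatMap_append]
    have e : [r + 1].reverse.flatMap O = O (r + 1) := by simp
    rw [e]
    exact app (h1 (r + 1) (by omega)) ih' (h2 r (by omega))

end ALT_

/-- ALT: the two alternating traversals. -/
theorem pALT : T_ALT := by
  intro V _ H r O fs ls s t u hr h1 h2 hs0 hlt hsu huf hl0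
  obtain ⟨q, rfl⟩ : ∃ q, r = q + 1 := ⟨r - 1, by omega⟩
  simp only [Nat.add_sub_cancel] at hlt huf
  have hf := ALT_.fwd O fs ls q h1 (fun i hi => (h2 i hi).1)
  have hb := ALT_.bwd O fs ls q h1 (fun i hi => (h2 i hi).2)
  have h3 := ALT_.app (ALT_.sing s) (ALT_.app hf (ALT_.sing t) hlt) hs0
  have h4 := ALT_.app (ALT_.sing s) (ALT_.app (ALT_.sing u)
    (ALT_.app hb (ALT_.sing t) hl0) huf) hsu
  exact ⟨h3.1, h4.1⟩

end Pool.Agent.RST
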