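import Pool.Agent.RST.Targets

/-!
# CHG: a chain of gadgets
-/

set_option autoImplicit false

open Finset

namespace Pool.Agent.RST

namespace CHG_

variable {V : Type} [Fintype V] [DecidableEq V]

/-- the three vertices of the gadget `j` -/
def Us (h : ℕ) (av c : ℕ → V) (j : ℕ) : Finset V :=
  ({av j} : Finset V) ∪ (if 0 < j then {c (j - 1)} else ∅) ∪ (if j + 1 < h then {c j} else ∅)

omit [Fintype V] in
theorem mem_Us (h : ℕ) (av c : ℕ → V) (j : ℕ) (u : V) :
    u ∈ Us h av c j ↔ u = av j ∨ (0 < j ∧ u = c (j - 1)) ∨ (j + 1 < h ∧ u = c j) := by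
  unfold Us
  by_cases h1 : 0 < j <;> by_cases h2 : j + 1 < h <;>
    simp [h1, h2]

omit [Fintype V] in
theorem card_Us (h : ℕ) (av c : ℕ → V) (j : ℕ) :
    1 ≤ (Us h av c j).card ∧ (Us h av c j).card ≤ 3 := by
  constructor
  · exact Finset.card_pos.2 ⟨av j, (mem_Us h av c j _).2 (Or.inl rfl)⟩
  · unfold Us
    have h1 : (if 0 < j then ({c (j - 1)} : Finset V) else ∅).card ≤ 1 := by
      by_cases h1 : 0 < j <;> simp [h1]
    have h2 : (if j + 1 < h then ({c j} : Finset V) else ∅).card ≤ 1 := by
      by_cases h1 : j + 1 < h <;> simp [h1]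
    have h3 := Finset.card_union_le (({av j} : Finset V) ∪ (if 0 < j then {c (j - 1)} else ∅))
      (if j + 1 < h then ({c j} : Finset V) else ∅)
    have h4 := Finset.card_union_le ({av j} : Finset V) (if 0 < j then {c (j - 1)} else ∅)
    have h5 : ({av j} : Finset V).card = 1 := Finset.card_singleton _
    omega

/-- the state before the gadget `i` -/
structure Stt (H : SimpleGraph V) (W : Finset V) (d m ℓ h : ℕ) (J : Finset (V × V))
    (F : Finset V) (av y y' c : ℕ → V) (i : ℕ) (Is : ℕ → Finset V) (ls : ℕ → V → List V)
    (Ji : Finset (V × V)) (Fi : Finset V) : Prop where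
  ok : OK H W d m Ji Fi
  sub : ∀ j < i, Is j ⊆ W \ (used J F ∪ (range (h - 1)).image c)
  dis : ∀ j < i, ∀ k < i, j ≠ k → Disjoint (Is j) (Is k)
  card : ∀ j < i, (Is j).card + 2 = ℓ
  us : used Ji Fi = used J F ∪ (range (h - 1)).image c ∪ (range i).biUnion Is
  pth : ∀ j < i, ∀ u ∈ Us h av c j, Pth H ℓ (y j) (y' j) (ls j u) ∧
    (ls j u).toFinset = insert u (Is j)
  unc : ∀ v, v ∉ (range (h - 1)).image c → (∀ j < i, v ∉ Is j) →
    (∀ j < i, v ≠ av j ∧ v ≠ y j ∧ v ≠ y' j) → od Ji v = od J v
  oav : ∀ j < i, od Ji (av j) ≤ od J (av j) + 2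
  oy : ∀ j < i, od Ji (y j) ≤ od J (y j) + 1
  oy' : ∀ j < i, od Ji (y' j) ≤ od J (y' j) + 1
  oc : ∀ j, j + 1 < h → (i ≤ j → od Ji (c j) = 0) ∧ (i ≤ j + 1 → od Ji (c j) ≤ 2)

omit [Fintype V] in
theorem used_insert (J : Finset (V × V)) (F : Finset V) (w : V) :
    used J (insert w F) = insert w (used J F) := by
  unfold used
  rw [Finset.union_insert]

omit [Fintype V] in
theorem used_union (J : Finset (V × V)) (F B : Finset V) :
    used J (F ∪ B) = used J F ∪ B := by
  unfold used
  rw [Finset.union_assoc]

/-- the buffers -/
theorem buffers (h1 : T_FREE) (H : SimpleGraph V) (W : Finset V) (g : ℝ) (d m b a ℓ : ℕ)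
    (J : Finset (V × V)) (F : Finset V) (h : ℕ) (hW : WPar H W g d m b a ℓ)
    (hOK : OK H W d m J F) (hh : 4 * (((used J F).card : ℝ) + (h + 1) * ℓ) ≤ g * W.card)
    (k : ℕ) (hk : k ≤ h) :
    ∃ c : ℕ → V, Set.InjOn c (range k : Set ℕ) ∧ (∀ j < k, c j ∈ W \ used J F) ∧
      OK H W d m J (F ∪ (range k).image c) := by
  have hg0 := hW.g0
  have hg1 := hW.g1
  have hlen : 2 ≤ ℓ := by
    have := hW.len
    omega
  have hw0 : (0 : ℝ) ≤ W.card := Nat.cast_nonneg _
  have hgw : g * W.card ≤ 1 / 2 * W.card := mul_le_mul_of_nonneg_right hg1 hw0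
  have hbud := hW.bud
  have ha0 : (0 : ℝ) ≤ 2 * (a : ℝ) * ((m : ℝ) + b) := by positivity
  have hmd0 : (0 : ℝ) ≤ (m : ℝ) * d := by positivity
  have hℓ : (2 : ℝ) ≤ ℓ := by exact_mod_cast hlen
  induction k with
  | zero =>
    obtain ⟨x, hx⟩ : W.Nonempty := by
      rw [← Finset.card_pos]
      by_contra h0
      have h2 : W.card = 0 := by omega
      rw [h2] at hbud
      push_cast at hbud
      nlinarith
    exact ⟨fun _ => x, by simp, by simp, by simpa using hOK⟩
  | succ k ih =>
    obtain ⟨c, hc1, hc2, hc3⟩ := ih (by omega)
    have hlg : ∀ X : Finset V, m ≤ X.card → W.card ≤ 2 * (nb H X W).card := by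
      intro X hX
      have h2 := hW.lg X hX
      have h3 : (W.card : ℝ) ≤ 2 * ((nb H X W).card : ℝ) := by nlinarith
      exact_mod_cast h3
    have hcard : (used J (F ∪ (range k).image c)).card ≤ (used J F).card + k := by
      rw [used_union]
      refine (Finset.card_union_le _ _).trans ?_
      have := Finset.card_image_le (s := range k) (f := c)
      rw [Finset.card_range] at this
      omega
    have hcard' : ((used J (F ∪ (range k).image c)).card : ℝ) ≤ (used J F).card + k := by
      exact_mod_cast hcard
    have hkh : (k : ℝ) ≤ (h + 1) * ℓ := by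
      have h2 : (k : ℝ) + 1 ≤ h := by exact_mod_cast hk
      nlinarith
    have hu0 : (0 : ℝ) ≤ (used J F).card := Nat.cast_nonneg _
    have hmain : 2 * (((used J (F ∪ (range k).image c)).card : ℝ) + 2 * m * d) < W.card := by
      nlinarith
    have hmain' : 2 * ((used J (F ∪ (range k).image c)).card + 2 * m * d) < W.card := by
      exact_mod_cast hmain
    obtain ⟨w, hw1, hw2⟩ := h1 V H W d m J (F ∪ (range k).image c) hc3 hW.m1 hlg hmain'
      (W \ used J (F ∪ (range k).image c)) (Finset.Subset.refl _) (by
        have h2 := Finset.le_card_sdiff (used J (F ∪ (range k).image c)) W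
        have h3 : (m : ℝ) * d + ((used J (F ∪ (range k).image c)).card : ℝ) < W.card := by
          nlinarith
        have h4 : m * d + (used J (F ∪ (range k).image c)).card < W.card := by
          exact_mod_cast h3
        omega)
    rw [used_union, Finset.mem_sdiff, Finset.mem_union, not_or] at hw1
    obtain ⟨hwW, hwu, hwc⟩ := hw1
    have him : (range (k + 1)).image (Function.update c k w) = insert w ((range k).image c) := by
      rw [Finset.range_add_one, Finset.image_insert, Function.update_self]
      congr 1
      refine Finset.image_congr ?_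
      intro j hj
      have : j ≠ k := by
        have := Finset.mem_range.1 (Finset.mem_coe.1 hj)
        omega
      simp [Function.update_of_ne this]
    refine ⟨Function.update c k w, ?_, ?_, ?_⟩
    · intro i hi j hj hij
      have hi' : i < k + 1 := Finset.mem_range.1 (Finset.mem_coe.1 hi)
      have hj' : j < k + 1 := Finset.mem_range.1 (Finset.mem_coe.1 hj)
      by_cases e1 : i = k
      · by_cases e2 : j = k
        · rw [e1, e2]
        · exfalso
          rw [e1, Function.update_self, Function.update_of_ne e2] at hij
          exact hwc (hij ▸ Finset.mem_image_of_mem c (Finset.mem_range.2 (by omega)))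
      · by_cases e2 : j = k
        · exfalso
          rw [e2, Function.update_self, Function.update_of_ne e1] at hij
          exact hwc (hij ▸ Finset.mem_image_of_mem c (Finset.mem_range.2 (by omega)))
        · rw [Function.update_of_ne e1, Function.update_of_ne e2] at hij
          exact hc1 (Finset.mem_coe.2 (Finset.mem_range.2 (by omega)))
            (Finset.mem_coe.2 (Finset.mem_range.2 (by omega))) hij
    · intro j hj
      by_cases e1 : j = k
      · rw [e1, Function.update_self]
        exact Finset.mem_sdiff.2 ⟨hwW, hwu⟩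
      · rw [Function.update_of_ne e1]
        exact hc2 j (by omega)
    · rw [him, Finset.union_insert]
      exact hw2

/-- the state after `i` gadgets -/
theorem gadgets (h2 : T_GAD) (H : SimpleGraph V) (W : Finset V) (g : ℝ) (d m b a ℓ : ℕ)
    (J : Finset (V × V)) (F : Finset V) (h : ℕ) (hW : WPar H W g d m b a ℓ)
    (hOK : OK H W d m J F)
    (hh : 4 * (((used J F).card : ℝ) + (h + 1) * ℓ) ≤ g * W.card) (hgl : gl a ≤ ℓ)
    (av y y' : ℕ → V) (hav : Set.InjOn av (range h : Set ℕ)) (hy : Set.InjOn y (range h : Set ℕ))
    (hy' : Set.InjOn y' (range h : Set ℕ))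
    (hne : ∀ i < h, ∀ j < h, y i ≠ y' j ∧ y i ≠ av j ∧ y' i ≠ av j)
    (hout : ∀ i < h, av i ∉ W ∧ y i ∉ W ∧ y' i ∉ W)
    (hod : ∀ i < h, od J (av i) + 2 + b ≤ d ∧ od J (y i) + 1 + b ≤ d ∧ od J (y' i) + 1 + b ≤ d)
    (c : ℕ → V) (hc1 : Set.InjOn c (range (h - 1) : Set ℕ))
    (hc2 : ∀ j < h - 1, c j ∈ W \ used J F)
    (hc3 : OK H W d m J (F ∪ (range (h - 1)).image c)) (i : ℕ) (hi : i ≤ h) :
    ∃ (Is : ℕ → Finset V) (ls : ℕ → V → List V) (Ji : Finset (V × V)) (Fi : Finset V),
      Stt H W d m ℓ h J F av y y' c i Is ls Ji Fi := by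
  have hlen : 2 ≤ ℓ := by
    have := hW.len
    omega
  have hinj : ∀ {f : ℕ → V} {k : ℕ}, Set.InjOn f (range k : Set ℕ) → ∀ i < k, ∀ j < k,
      f i = f j → i = j := by
    intro f k hf i hi j hj hij
    exact hf (Finset.mem_coe.2 (Finset.mem_range.2 hi)) (Finset.mem_coe.2 (Finset.mem_range.2 hj))
      hij
  have hcW : ∀ j, j + 1 < h → c j ∈ W := fun j hj => (Finset.mem_sdiff.1 (hc2 j (by omega))).1
  have hcu : ∀ j, j + 1 < h → c j ∉ used J F := fun j hj =>
    (Finset.mem_sdiff.1 (hc2 j (by omega))).2
  have hcB : ∀ j, j + 1 < h → c j ∈ (range (h - 1)).image c := fun j hj =>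
    Finset.mem_image_of_mem c (Finset.mem_range.2 (by omega))
  have hBW : ∀ v ∈ (range (h - 1)).image c, v ∈ W := by
    intro v hv
    obtain ⟨j, hj, rfl⟩ := Finset.mem_image.1 hv
    exact hcW j (by have := Finset.mem_range.1 hj; omega)
  have hcod : ∀ j, j + 1 < h → od J (c j) = 0 := by
    intro j hj
    unfold od
    rw [Finset.card_eq_zero, Finset.filter_eq_empty_iff]
    intro e he hej
    exact hcu j hj (hej ▸ hOK.tail e he (hej ▸ hcW j hj))
  induction i with
  | zero =>
    refine ⟨fun _ => ∅, fun _ _ => [], J, F ∪ (range (h - 1)).image c, ?_⟩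
    exact
      { ok := hc3
        sub := fun j hj => absurd hj (Nat.not_lt_zero _)
        dis := fun j hj => absurd hj (Nat.not_lt_zero _)
        card := fun j hj => absurd hj (Nat.not_lt_zero _)
        us := by rw [used_union]; simp
        pth := fun j hj => absurd hj (Nat.not_lt_zero _)
        unc := fun v _ _ _ => rfl
        oav := fun j hj => absurd hj (Nat.not_lt_zero _)
        oy := fun j hj => absurd hj (Nat.not_lt_zero _)
        oy' := fun j hj => absurd hj (Nat.not_lt_zero _)
        oc := fun j hj => ⟨fun _ => hcod j hj, fun _ => by rw [hcod j hj]; omega⟩ }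
  | succ i ih =>
    obtain ⟨Is, ls, Ji, Fi, hS⟩ := ih (by omega)
    have hih : i < h := by omega
    -- facts on the vertices outside `W`
    have hIsW : ∀ j < i, ∀ v ∈ Is j, v ∈ W := fun j hj v hv =>
      (Finset.mem_sdiff.1 (hS.sub j hj hv)).1
    have hout1 : ∀ v, v ∉ W → v ∉ (range (h - 1)).image c := fun v hv hv' => hv (hBW v hv')
    have hout2 : ∀ v, v ∉ W → ∀ j < i, v ∉ Is j := fun v hv j hj hv' => hv (hIsW j hj v hv')
    have odav : od Ji (av i) = od J (av i) := by
      refine hS.unc _ (hout1 _ (hout i hih).1) (hout2 _ (hout i hih).1) ?_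
      intro j hj
      refine ⟨?_, ?_, ?_⟩
      · intro e
        have := hinj hav i hih j (by omega) e
        omega
      · exact fun e => (hne j (by omega) i hih).2.1 e.symm
      · exact fun e => (hne j (by omega) i hih).2.2 e.symm
    have ody : od Ji (y i) = od J (y i) := by
      refine hS.unc _ (hout1 _ (hout i hih).2.1) (hout2 _ (hout i hih).2.1) ?_
      intro j hj
      refine ⟨?_, ?_, ?_⟩
      · exact fun e => (hne i hih j (by omega)).2.1 e
      · intro e
        have := hinj hy i hih j (by omega) e
        omega
      · exact fun e => (hne i hih j (by omega)).1 e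
    have ody' : od Ji (y' i) = od J (y' i) := by
      refine hS.unc _ (hout1 _ (hout i hih).2.2) (hout2 _ (hout i hih).2.2) ?_
      intro j hj
      refine ⟨?_, ?_, ?_⟩
      · exact fun e => (hne i hih j (by omega)).2.2 e
      · exact fun e => (hne j (by omega) i hih).1 e.symm
      · intro e
        have := hinj hy' i hih j (by omega) e
        omega
    -- the numerical condition
    have hcardu : (used Ji Fi).card ≤ (used J F).card + (h - 1) + i * (ℓ - 2) := by
      rw [hS.us]
      refine (Finset.card_union_le _ _).trans ?_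
      have e1 := Finset.card_union_le (used J F) ((range (h - 1)).image c)
      have e2 := Finset.card_image_le (s := range (h - 1)) (f := c)
      rw [Finset.card_range] at e2
      have e3 : ((range i).biUnion Is).card ≤ i * (ℓ - 2) := by
        refine (Finset.card_biUnion_le_card_mul _ _ (ℓ - 2) ?_).trans ?_
        · intro j hj
          have := hS.card j (Finset.mem_range.1 hj)
          omega
        · rw [Finset.card_range]
      omega
    have hnum : 4 * (((used Ji Fi).card : ℝ) + ℓ) ≤ g * W.card := by
      refine le_trans ?_ hh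
      obtain ⟨L, rfl⟩ : ∃ L, ℓ = L + 2 := ⟨ℓ - 2, by omega⟩
      obtain ⟨h', rfl⟩ : ∃ h', h = h' + 1 := ⟨h - 1, by omega⟩
      have e1 : (used Ji Fi).card + (L + 2) ≤ (used J F).card + (h' + 1 + 1) * (L + 2) := by
        have e2 : i * L ≤ h' * L := Nat.mul_le_mul_right _ (by omega)
        have e3 : (h' + 1 + 1) * (L + 2) = h' * L + 2 * h' + 2 * L + 4 := by ring
        have e4 : h' + 1 - 1 = h' := by omega
        have e5 : L + 2 - 2 = L := by omega
        rw [e4, e5] at hcardu
        omega
      have e2 : ((used Ji Fi).card : ℝ) + ((L + 2 : ℕ) : ℝ) ≤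
          (used J F).card + (((h' + 1 : ℕ) : ℝ) + 1) * ((L + 2 : ℕ) : ℝ) := by
        exact_mod_cast e1
      linarith
    -- the gadget
    have hUW : ∀ v ∈ Us h av c i, v ∈ W → v ∈ used Ji Fi := by
      intro v hv hvW
      rcases (mem_Us h av c i v).1 hv with e | ⟨e1, e2⟩ | ⟨e1, e2⟩
      · exact absurd (e ▸ hvW) (hout i hih).1
      · rw [hS.us, e2]
        exact Finset.mem_union_left _ (Finset.mem_union_right _ (hcB _ (by omega)))
      · rw [hS.us, e2]
        exact Finset.mem_union_left _ (Finset.mem_union_right _ (hcB _ e1))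
    have hyU : ∀ v, v ∉ W → v ≠ av i → v ∉ Us h av c i := by
      intro v hv hv1 hv2
      rcases (mem_Us h av c i v).1 hv2 with e | ⟨e1, e2⟩ | ⟨e1, e2⟩
      · exact hv1 e
      · exact hv (e2 ▸ hcW _ (by omega))
      · exact hv (e2 ▸ hcW _ e1)
    obtain ⟨I', J'', F'', g1, g2, g3, g4, g5, g6, g7, g8, g9⟩ := h2 V H W g d m b a ℓ Ji Fi hW
      hS.ok hnum hgl (Us h av c i) (y i) (y' i) (card_Us h av c i).1 (card_Us h av c i).2
      (hne i hih i hih).1 (hyU _ (hout i hih).2.1 (hne i hih i hih).2.1)
      (hyU _ (hout i hih).2.2 (hne i hih i hih).2.2)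
      (by
        rintro v (hv | hv | hv) hvW
        · exact hUW v hv hvW
        · exact absurd (hv ▸ hvW) (hout i hih).2.1
        · exact absurd (hv ▸ hvW) (hout i hih).2.2)
      (by
        intro u hu
        have hbd := hW.bd
        rcases (mem_Us h av c i u).1 hu with e | ⟨e1, e2⟩ | ⟨e1, e2⟩
        · rw [e, odav]
          exact (hod i hih).1
        · have := (hS.oc (i - 1) (by omega)).2 (by omega)
          rw [e2]
          omega
        · have := (hS.oc i e1).1 le_rfl
          rw [e2]
          omega)
      (by rw [ody]; exact (hod i hih).2.1) (by rw [ody']; exact (hod i hih).2.2)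
    have hI'W : ∀ v ∈ I', v ∈ W := fun v hv => (Finset.mem_sdiff.1 (g2 hv)).1
    have hI'u : ∀ v ∈ I', v ∉ used Ji Fi := fun v hv => (Finset.mem_sdiff.1 (g2 hv)).2
    choose! lf hlf using g5
    have hupd : ∀ j < i, Function.update Is i I' j = Is j := fun j hj =>
      Function.update_of_ne (by omega) _ _
    have hupd' : ∀ j < i, Function.update ls i lf j = ls j := fun j hj =>
      Function.update_of_ne (by omega) _ _
    refine ⟨Function.update Is i I', Function.update ls i lf, J'', F'', ?_⟩
    exact
      { ok := g1
        sub := by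
          intro j hj
          by_cases e : j = i
          · rw [e, Function.update_self]
            intro v hv
            have h3 := hI'u v hv
            rw [hS.us] at h3
            exact Finset.mem_sdiff.2 ⟨hI'W v hv, fun h4 => h3 (Finset.mem_union_left _ h4)⟩
          · rw [hupd j (by omega)]
            exact hS.sub j (by omega)
        dis := by
          have key : ∀ j < i, Disjoint (Is j) I' := by
            intro j hj
            rw [Finset.disjoint_left]
            intro v hv hv'
            have h3 := hI'u v hv'
            rw [hS.us] at h3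
            exact h3 (Finset.mem_union_right _
              (Finset.mem_biUnion.2 ⟨j, Finset.mem_range.2 hj, hv⟩))
          intro j hj k hk hjk
          by_cases e : j = i
          · by_cases e' : k = i
            · omega
            · rw [e, Function.update_self, hupd k (by omega)]
              exact (key k (by omega)).symm
          · by_cases e' : k = i
            · rw [e', Function.update_self, hupd j (by omega)]
              exact key j (by omega)
            · rw [hupd j (by omega), hupd k (by omega)]
              exact hS.dis j (by omega) k (by omega) hjk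
        card := by
          intro j hj
          by_cases e : j = i
          · rw [e, Function.update_self]
            exact g4
          · rw [hupd j (by omega)]
            exact hS.card j (by omega)
        us := by
          rw [g3, hS.us, Finset.range_add_one, Finset.biUnion_insert, Function.update_self]
          have e1 : (range i).biUnion (Function.update Is i I') = (range i).biUnion Is :=
            Finset.biUnion_congr rfl fun j hj => hupd j (Finset.mem_range.1 hj)
          rw [e1]
          ext v
          simp only [Finset.mem_union]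
          tauto
        pth := by
          intro j hj u hu
          by_cases e : j = i
          · rw [e] at hu ⊢
            rw [Function.update_self, Function.update_self]
            exact hlf u hu
          · rw [hupd j (by omega), hupd' j (by omega)]
            exact hS.pth j (by omega) u hu
        unc := by
          intro v hv1 hv2 hv3
          have e1 : v ∉ I' := by
            have := hv2 i (by omega)
            rwa [Function.update_self] at this
          have e2 : v ∉ Us h av c i := by
            intro hv4
            rcases (mem_Us h av c i v).1 hv4 with e | ⟨e1, e2⟩ | ⟨e1, e2⟩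
            · exact (hv3 i (by omega)).1 e
            · exact hv1 (e2 ▸ hcB _ (by omega))
            · exact hv1 (e2 ▸ hcB _ e1)
          rw [g9 v e1 e2 (hv3 i (by omega)).2.1 (hv3 i (by omega)).2.2]
          refine hS.unc v hv1 ?_ fun j hj => hv3 j (by omega)
          intro j hj
          have := hv2 j (by omega)
          rwa [hupd j hj] at this
        oav := by
          intro j hj
          by_cases e : j = i
          · rw [e, ← odav]
            exact g6 _ ((mem_Us h av c i _).2 (Or.inl rfl))
          · have hjh : j < h := by omega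
            rw [g9 (av j) (fun h3 => (hout j hjh).1 (hI'W _ h3)) (hyU _ (hout j hjh).1 ?_)
              (fun e => (hne i hih j hjh).2.1 e.symm) (fun e => (hne i hih j hjh).2.2 e.symm)]
            · exact hS.oav j (by omega)
            · intro h3
              exact e (hinj hav j hjh i hih h3)
        oy := by
          intro j hj
          by_cases e : j = i
          · rw [e, ← ody]
            exact g7
          · have hjh : j < h := by omega
            rw [g9 (y j) (fun h3 => (hout j hjh).2.1 (hI'W _ h3))
              (hyU _ (hout j hjh).2.1 (hne j hjh i hih).2.1) ?_ (hne j hjh i hih).1]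
            · exact hS.oy j (by omega)
            · intro h3
              exact e (hinj hy j hjh i hih h3)
        oy' := by
          intro j hj
          by_cases e : j = i
          · rw [e, ← ody']
            exact g8
          · have hjh : j < h := by omega
            rw [g9 (y' j) (fun h3 => (hout j hjh).2.2 (hI'W _ h3))
              (hyU _ (hout j hjh).2.2 (hne j hjh i hih).2.2)
              (fun e => (hne i hih j hjh).1 e.symm) ?_]
            · exact hS.oy' j (by omega)
            · intro h3
              exact e (hinj hy' j hjh i hih h3)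
        oc := by
          intro j hj
          have hcI : c j ∉ I' := by
            intro h3
            have h4 := hI'u _ h3
            rw [hS.us] at h4
            exact h4 (Finset.mem_union_left _ (Finset.mem_union_right _ (hcB j hj)))
          have key : i < j → od J'' (c j) = 0 := by
            intro hij
            rw [g9 (c j) hcI ?_ ?_ ?_]
            · exact (hS.oc j hj).1 (by omega)
            · intro h3
              rcases (mem_Us h av c i (c j)).1 h3 with e | ⟨e1, e2⟩ | ⟨e1, e2⟩
              · exact (hout i hih).1 (e ▸ hcW j hj)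
              · have := hinj hc1 j (by omega) (i - 1) (by omega) e2
                omega
              · have := hinj hc1 j (by omega) i (by omega) e2
                omega
            · intro e
              exact (hout i hih).2.1 (e ▸ hcW j hj)
            · intro e
              exact (hout i hih).2.2 (e ▸ hcW j hj)
          refine ⟨fun hij => key (by omega), fun hij => ?_⟩
          by_cases e : i = j
          · have h3 := g6 (c i) ((mem_Us h av c i _).2 (Or.inr (Or.inr ⟨by omega, rfl⟩)))
            have h4 := (hS.oc i (by omega)).1 le_rfl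
            rw [← e]
            omega
          · rw [key (by omega)]
            omega }

end CHG_

open CHG_ in
theorem pCHG (h1 : T_FREE) (h2 : T_GAD) : T_CHG := by
  intro V _ _ H W g d m b a ℓ J F h hW hOK hh1 hh hgl av y y' hav hy hy' hne hout hod
  obtain ⟨c, hc1, hc2, hc3⟩ := buffers h1 H W g d m b a ℓ J F h hW hOK hh (h - 1) (by omega)
  obtain ⟨Is, ls, J', F', hS⟩ := gadgets h2 H W g d m b a ℓ J F h hW hOK hh hgl av y y' hav hy hy'
    hne hout hod c hc1 hc2 hc3 h le_rfl
  have hlen : 2 ≤ ℓ := by
    have := hW.len
    omega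
  set B : Finset V := (range (h - 1)).image c with hB
  have hBW : ∀ v ∈ B, v ∈ W \ used J F := by
    intro v hv
    obtain ⟨j, hj, rfl⟩ := Finset.mem_image.1 hv
    exact hc2 j (Finset.mem_range.1 hj)
  have hcB : ∀ j, j < h - 1 → c j ∈ B := fun j hj =>
    Finset.mem_image_of_mem c (Finset.mem_range.2 hj)
  have hIW : ∀ j < h, ∀ v ∈ Is j, v ∈ W ∧ v ∉ used J F ∧ v ∉ B := by
    intro j hj v hv
    have h3 := Finset.mem_sdiff.1 (hS.sub j hj hv)
    exact ⟨h3.1, fun h4 => h3.2 (Finset.mem_union_left _ h4),
      fun h4 => h3.2 (Finset.mem_union_right _ h4)⟩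
  have hdBI : Disjoint B ((range h).biUnion Is) := by
    rw [Finset.disjoint_left]
    intro v hv hv'
    obtain ⟨j, hj, hvj⟩ := Finset.mem_biUnion.1 hv'
    exact (hIW j (Finset.mem_range.1 hj) v hvj).2.2 hv
  have hcardB : B.card = h - 1 := by
    rw [hB, Finset.card_image_of_injOn hc1, Finset.card_range]
  have hcardI : ((range h).biUnion Is).card = h * (ℓ - 2) := by
    rw [Finset.card_biUnion]
    · rw [Finset.sum_congr rfl (fun j hj => show (Is j).card = ℓ - 2 by
        have := hS.card j (Finset.mem_range.1 hj)
        omega)]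
      rw [Finset.sum_const, Finset.card_range, smul_eq_mul]
    · intro j hj k hk hjk
      exact hS.dis j (Finset.mem_range.1 hj) k (Finset.mem_range.1 hk) hjk
  refine ⟨B ∪ (range h).biUnion Is, J', F', hS.ok, ?_, ?_, ?_, ?_, ?_, ?_⟩
  · intro v hv
    rcases Finset.mem_union.1 hv with h3 | h3
    · exact hBW v h3
    · obtain ⟨j, hj, hvj⟩ := Finset.mem_biUnion.1 h3
      have h4 := hIW j (Finset.mem_range.1 hj) v hvj
      exact Finset.mem_sdiff.2 ⟨h4.1, h4.2.1⟩
  · rw [hS.us, Finset.union_assoc]
  · rw [Finset.card_union_of_disjoint hdBI, hcardB, hcardI]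
    obtain ⟨L, rfl⟩ : ∃ L, ℓ = L + 2 := ⟨ℓ - 2, by omega⟩
    obtain ⟨h', rfl⟩ : ∃ h', h = h' + 1 := ⟨h - 1, by omega⟩
    have e1 : L + 2 - 2 = L := by omega
    have e2 : L + 2 - 1 = L + 1 := by omega
    have e3 : h' + 1 - 1 = h' := by omega
    rw [e1, e2, e3]
    ring
  · intro i0 hi0
    set ul : ℕ → V := fun j => if j < i0 then c j else if j = i0 then av i0 else c (j - 1) with hul
    have hul1 : ∀ j, j < i0 → ul j = c j := fun j hj => by simp only [hul, if_pos hj]
    have hul2 : ul i0 = av i0 := by simp [hul]
    have hul3 : ∀ j, i0 < j → ul j = c (j - 1) := fun j hj => by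
      simp only [hul, if_neg (show ¬ j < i0 by omega), if_neg (show ¬ j = i0 by omega)]
    have hulU : ∀ j < h, ul j ∈ Us h av c j := by
      intro j hj
      rw [mem_Us]
      rcases lt_trichotomy j i0 with e | e | e
      · exact Or.inr (Or.inr ⟨by omega, hul1 j e⟩)
      · rw [e]
        exact Or.inl hul2
      · exact Or.inr (Or.inl ⟨by omega, hul3 j e⟩)
    have hulB : ∀ j < h, j ≠ i0 → ul j ∈ B := by
      intro j hj hne
      rcases lt_or_gt_of_ne hne with e | e
      · rw [hul1 j e]
        exact hcB j (by omega)
      · rw [hul3 j e]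
        exact hcB _ (by omega)
    have hulI : ∀ j < h, ∀ k < h, ul j ∉ Is k := by
      intro j hj k hk h3
      have h4 := hIW k hk _ h3
      by_cases e : j = i0
      · rw [e, hul2] at h4
        exact (hout i0 hi0).1 h4.1
      · exact h4.2.2 (hulB j hj e)
    have hcinj : ∀ i < h - 1, ∀ j < h - 1, c i = c j → i = j := by
      intro i hi j hj hij
      exact hc1 (Finset.mem_coe.2 (Finset.mem_range.2 hi))
        (Finset.mem_coe.2 (Finset.mem_range.2 hj)) hij
    have havB : av i0 ∉ B := fun h3 => (hout i0 hi0).1 (Finset.mem_sdiff.1 (hBW _ h3)).1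
    have hulinj : ∀ j < h, ∀ k < h, ul j = ul k → j = k := by
      intro j hj k hk hjk
      by_cases e1 : j = i0
      · by_cases e2 : k = i0
        · rw [e1, e2]
        · exfalso
          rw [e1, hul2] at hjk
          exact havB (hjk ▸ hulB k hk e2)
      · by_cases e2 : k = i0
        · exfalso
          rw [e2, hul2] at hjk
          exact havB (hjk ▸ hulB j hj e1)
        · rcases lt_or_gt_of_ne e1 with f1 | f1
          · rcases lt_or_gt_of_ne e2 with f2 | f2
            · rw [hul1 j f1, hul1 k f2] at hjk
              exact hcinj j (by omega) k (by omega) hjk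
            · rw [hul1 j f1, hul3 k f2] at hjk
              have := hcinj j (by omega) (k - 1) (by omega) hjk
              omega
          · rcases lt_or_gt_of_ne e2 with f2 | f2
            · rw [hul3 j f1, hul1 k f2] at hjk
              have := hcinj (j - 1) (by omega) k (by omega) hjk
              omega
            · rw [hul3 j f1, hul3 k f2] at hjk
              have := hcinj (j - 1) (by omega) (k - 1) (by omega) hjk
              omega
    have hmem : ∀ j < h, ∀ x, x ∈ ls j (ul j) ↔ x = ul j ∨ x ∈ Is j := by
      intro j hj x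
      rw [← List.mem_toFinset, (hS.pth j hj _ (hulU j hj)).2, Finset.mem_insert]
    refine ⟨fun j => ls j (ul j), ?_, ?_, ?_⟩
    · intro j hj
      exact (hS.pth j (Finset.mem_range.1 hj) _ (hulU j (Finset.mem_range.1 hj))).1
    · intro j hj k hk hjk
      have hj' := Finset.mem_range.1 hj
      have hk' := Finset.mem_range.1 hk
      intro x hx1 hx2
      rcases (hmem j hj' x).1 hx1 with e1 | e1
      · rcases (hmem k hk' x).1 hx2 with e2 | e2
        · exact hjk (hulinj j hj' k hk' (e1.symm.trans e2))
        · exact hulI j hj' k hk' (e1 ▸ e2)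
      · rcases (hmem k hk' x).1 hx2 with e2 | e2
        · exact hulI k hk' j hj' (e2 ▸ e1)
        · exact (Finset.disjoint_left.1 (hS.dis j hj' k hk' hjk)) e1 e2
    · intro x
      rw [Finset.mem_insert, Finset.mem_union, Finset.mem_biUnion]
      constructor
      · rintro (h3 | h3 | ⟨j, hj, h3⟩)
        · refine ⟨i0, Finset.mem_range.2 hi0, (hmem i0 hi0 x).2 (Or.inl ?_)⟩
          rw [h3, hul2]
        · obtain ⟨k, hk, rfl⟩ := Finset.mem_image.1 h3
          have hk' := Finset.mem_range.1 hk
          by_cases e : k < i0
          · exact ⟨k, Finset.mem_range.2 (by omega), (hmem k (by omega) _).2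
              (Or.inl (hul1 k e).symm)⟩
          · refine ⟨k + 1, Finset.mem_range.2 (by omega), (hmem (k + 1) (by omega) _).2
              (Or.inl ?_)⟩
            rw [hul3 (k + 1) (by omega)]
            rfl
        · exact ⟨j, hj, (hmem j (Finset.mem_range.1 hj) x).2 (Or.inr h3)⟩
      · rintro ⟨j, hj, h3⟩
        have hj' := Finset.mem_range.1 hj
        rcases (hmem j hj' x).1 h3 with e | e
        · by_cases e1 : j = i0
          · left
            rw [e, e1, hul2]
          · right
            left
            rw [e]
            exact hulB j hj' e1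
        · right
          right
          exact ⟨j, hj, e⟩
  · intro i hi
    exact ⟨hS.oav i hi, hS.oy i hi, hS.oy' i hi⟩
  · intro v hv1 hv2
    refine hS.unc v (fun h3 => hv1 (Finset.mem_union_left _ h3)) ?_ (fun j hj => hv2 j hj)
    intro j hj h3
    exact hv1 (Finset.mem_union_right _ (Finset.mem_biUnion.2 ⟨j, Finset.mem_range.2 hj, h3⟩))

end Pool.Agent.RST
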