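import Pool.Agent.RST.Targets

set_option autoImplicit false

open Finset

namespace Pool.Agent.RST

namespace FIN_

private lemma bij {V ι : Type} {I : Finset ι} {R : Finset V} (hIR : I.card = R.card)
    (y : ι → V) : ∃ r : ι → V, (∀ i ∈ I, r i ∈ R) ∧
      (∀ i ∈ I, ∀ j ∈ I, r i = r j → i = j) ∧ ∀ x ∈ R, ∃ i ∈ I, r i = x := by
  classical
  have e := Finset.equivOfCardEq hIR
  refine ⟨fun i => if hi : i ∈ I then (e ⟨i, hi⟩ : V) else y i, ?_, ?_, ?_⟩
  · intro i hi
    show (if hi : i ∈ I then (e ⟨i, hi⟩ : V) else y i) ∈ R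
    rw [dif_pos hi]
    exact (e ⟨i, hi⟩).2
  · intro i hi j hj hij
    have hij' : (if hi : i ∈ I then (e ⟨i, hi⟩ : V) else y i)
      = if hj : j ∈ I then (e ⟨j, hj⟩ : V) else y j := hij
    rw [dif_pos hi, dif_pos hj] at hij'
    have := e.injective (Subtype.ext hij')
    exact congrArg Subtype.val this
  · intro x hx
    refine ⟨(e.symm ⟨x, hx⟩ : ι), (e.symm ⟨x, hx⟩).2, ?_⟩
    show (if hi : (e.symm ⟨x, hx⟩ : ι) ∈ I then (e ⟨(e.symm ⟨x, hx⟩ : ι), hi⟩ : V)
      else y (e.symm ⟨x, hx⟩ : ι)) = x
    rw [dif_pos (e.symm ⟨x, hx⟩).2]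
    simp

private lemma chain {V : Type} (rel : V → V → Prop) {x r z : V} {l₁ l₂ : List V}
    (h₁ : (x :: (l₁ ++ [r])).IsChain rel) (h₂ : (r :: (l₂ ++ [z])).IsChain rel) :
    (x :: ((l₁ ++ r :: l₂) ++ [z])).IsChain rel := by
  have e : x :: ((l₁ ++ r :: l₂) ++ [z]) = (x :: l₁) ++ r :: (l₂ ++ [z]) := by simp
  rw [e, List.isChain_split]
  refine ⟨?_, h₂⟩
  simpa using h₁

end FIN_

open FIN_ in
theorem pFIN (h : T_MULTI) : T_FIN := by
  classical
  intro V _ _ H Z g d m b a ℓ hW hOK hℓ R hRZ hcard ι _ I y y' hIR hy hy' hyy hout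
  obtain ⟨r, hrR, hrinj, hrsur⟩ := bij hIR y
  have hrZ : ∀ i ∈ I, r i ∉ Z := fun i hi => Finset.disjoint_left.1 hRZ (hrR i hi)
  have hyR : ∀ i ∈ I, y i ∉ R := fun i hi hR => (hout i hi).1 (mem_union_left _ hR)
  have hyZ : ∀ i ∈ I, y i ∉ Z := fun i hi hR => (hout i hi).1 (mem_union_right _ hR)
  have hyR' : ∀ i ∈ I, y' i ∉ R := fun i hi hR => (hout i hi).2 (mem_union_left _ hR)
  have hyZ' : ∀ i ∈ I, y' i ∉ Z := fun i hi hR => (hout i hi).2 (mem_union_right _ hR)
  have hbd := hW.bd
  obtain ⟨l, hl1, hl2, hl3⟩ := h V H Z g d m b a ℓ hW hOK (ι × Bool) (I ×ˢ univ)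
    (fun k => if k.2 then r k.1 else y k.1) (fun k => if k.2 then y' k.1 else r k.1)
    (fun k => if k.2 then ℓ - (2 * a + 2) else 2 * a + 2) 2 (by omega)
    (by
      rintro ⟨i, β⟩ hk
      have hi : i ∈ I := (mem_product.1 hk).1
      cases β with
      | true =>
        simp only [if_true]
        refine ⟨?_, hrZ i hi, hyZ' i hi, by omega, by omega⟩
        intro he
        exact hyR' i hi (he ▸ hrR i hi)
      | false =>
        simp only [Bool.false_eq_true, if_false]
        refine ⟨?_, hyZ i hi, hrZ i hi, by omega, by omega⟩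
        intro he
        exact hyR i hi (he ▸ hrR i hi))
    (by
      intro v
      by_cases hv : v ∈ R
      · obtain ⟨i0, hi0, rfl⟩ := hrsur v hv
        refine (card_le_card (t := {(i0, false), (i0, true)}) ?_).trans (card_le_two)
        rintro ⟨i, β⟩ hk
        rw [mem_filter, mem_product] at hk
        obtain ⟨⟨hi, _⟩, hk⟩ := hk
        have hi' : i ∈ I := hi
        have hii : i = i0 := by
          cases β with
          | true =>
            simp only [if_true] at hk
            rcases hk with hk | hk
            · exact hrinj i hi' i0 hi0 hk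
            · exact absurd (hk ▸ hrR i0 hi0) (hyR' i hi')
          | false =>
            simp only [Bool.false_eq_true, if_false] at hk
            rcases hk with hk | hk
            · exact absurd (hk ▸ hrR i0 hi0) (hyR i hi')
            · exact hrinj i hi' i0 hi0 hk
        subst hii
        cases β <;> simp
      · have hsub : (I ×ˢ (univ : Finset Bool)).filter (fun k : ι × Bool =>
            (if k.2 then r k.1 else y k.1) = v ∨ (if k.2 then y' k.1 else r k.1) = v)
            ⊆ (I.filter (fun i => y i = v)).image (fun i => (i, false))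
              ∪ (I.filter (fun i => y' i = v)).image (fun i => (i, true)) := by
          rintro ⟨i, β⟩ hk
          rw [mem_filter, mem_product] at hk
          obtain ⟨⟨hi, _⟩, hk⟩ := hk
          have hi' : i ∈ I := hi
          rw [mem_union, mem_image, mem_image]
          cases β with
          | true =>
            simp only [if_true] at hk
            rcases hk with hk | hk
            · exact absurd (hk ▸ hrR i hi') hv
            · exact Or.inr ⟨i, mem_filter.2 ⟨hi', hk⟩, rfl⟩
          | false =>
            simp only [Bool.false_eq_true, if_false] at hk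
            rcases hk with hk | hk
            · exact Or.inl ⟨i, mem_filter.2 ⟨hi', hk⟩, rfl⟩
            · exact absurd (hk ▸ hrR i hi') hv
        refine (card_le_card hsub).trans ((card_union_le _ _).trans ?_)
        have c1 : ((I.filter (fun i => y i = v)).image (fun i => (i, false))).card ≤ 1 := by
          refine card_image_le.trans (card_le_one.2 ?_)
          intro i hi j hj
          rw [mem_filter] at hi hj
          exact hy hi.1 hj.1 (hi.2.trans hj.2.symm)
        have c2 : ((I.filter (fun i => y' i = v)).image (fun i => (i, true))).card ≤ 1 := by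
          refine card_image_le.trans (card_le_one.2 ?_)
          intro i hi j hj
          rw [mem_filter] at hi hj
          exact hy' hi.1 hj.1 (hi.2.trans hj.2.symm)
        omega)
    (by
      have e : ∑ k ∈ I ×ˢ (univ : Finset Bool),
          (((if k.2 then ℓ - (2 * a + 2) else 2 * a + 2 : ℕ)) : ℝ) = (ℓ : ℝ) * R.card := by
        rw [sum_product]
        have e1 : ∀ i ∈ I, ∑ β : Bool, (((if β then ℓ - (2 * a + 2) else 2 * a + 2 : ℕ)) : ℝ)
            = (ℓ : ℝ) := by
          intro i _
          rw [Fintype.sum_bool]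
          simp only [if_true, Bool.false_eq_true, if_false]
          rw [← Nat.cast_add]
          congr 1
          omega
        rw [sum_congr rfl e1, sum_const, nsmul_eq_mul, hIR]
        ring
      rw [e]
      exact hcard)
  -- the combined lists
  have hp0 : ∀ i ∈ I, Pth H (2 * a + 2) (y i) (r i) (l (i, false)) := by
    intro i hi
    have := hl1 (i, false) (mem_product.2 ⟨hi, mem_univ _⟩)
    simpa using this
  have hp1 : ∀ i ∈ I, Pth H (ℓ - (2 * a + 2)) (r i) (y' i) (l (i, true)) := by
    intro i hi
    have := hl1 (i, true) (mem_product.2 ⟨hi, mem_univ _⟩)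
    simpa using this
  have hmem : ∀ i ∈ I, ∀ β : Bool, (i, β) ∈ I ×ˢ (univ : Finset Bool) := fun i hi β =>
    mem_product.2 ⟨hi, mem_univ _⟩
  refine ⟨(I ×ˢ (univ : Finset Bool)).biUnion (fun k => (l k).toFinset), ?_, ?_,
    fun i => l (i, false) ++ r i :: l (i, true), ?_, ?_, ?_⟩
  · intro v hv
    rw [mem_biUnion] at hv
    obtain ⟨k, hk, hv⟩ := hv
    exact hl2 k hk v (List.mem_toFinset.1 hv)
  · rw [card_biUnion]
    · rw [sum_product]
      have e1 : ∀ i ∈ I, ∑ β : Bool, (l (i, β)).toFinset.card = ℓ - 2 := by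
        intro i hi
        rw [Fintype.sum_bool, List.toFinset_card_of_nodup (hp0 i hi).2.1,
          List.toFinset_card_of_nodup (hp1 i hi).2.1]
        have h1 := (hp0 i hi).1
        have h2 := (hp1 i hi).1
        omega
      rw [sum_congr rfl e1, sum_const, smul_eq_mul, hIR, mul_comm]
    · intro k hk k' hk' hkk
      show Disjoint (l k).toFinset (l k').toFinset
      rw [Finset.disjoint_left]
      intro v hv hv'
      exact hl3 k hk k' hk' hkk (List.mem_toFinset.1 hv) (List.mem_toFinset.1 hv')
  · intro i hi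
    refine ⟨?_, ?_, ?_⟩
    · have h1 := (hp0 i hi).1
      have h2 := (hp1 i hi).1
      rw [List.length_append, List.length_cons]
      omega
    · rw [List.nodup_append]
      refine ⟨(hp0 i hi).2.1, ?_, ?_⟩
      · rw [List.nodup_cons]
        exact ⟨fun hm => hrZ i hi (hl2 _ (hmem i hi true) _ hm), (hp1 i hi).2.1⟩
      · intro v hv w hw hvw
        subst hvw
        rcases List.mem_cons.1 hw with hw | hw
        · exact hrZ i hi (hw ▸ hl2 _ (hmem i hi false) _ hv)
        · exact hl3 (i, false) (hmem i hi false) (i, true) (hmem i hi true) (by simp) hv hw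
    · exact chain _ (hp0 i hi).2.2 (hp1 i hi).2.2
  · intro i hi j hj hij
    intro v hv hw
    have hv' : v ∈ l (i, false) ++ r i :: l (i, true) := hv
    have hw' : v ∈ l (j, false) ++ r j :: l (j, true) := hw
    rw [List.mem_append, List.mem_cons] at hv' hw'
    have hZ : ∀ i ∈ I, (v ∈ l (i, false) ∨ v ∈ l (i, true)) → v ∈ Z := by
      intro i hi hh
      rcases hh with hh | hh
      · exact hl2 _ (hmem i hi false) _ hh
      · exact hl2 _ (hmem i hi true) _ hh
    have key : ∀ β β' : Bool, v ∈ l (i, β) → v ∈ l (j, β') → False := by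
      intro β β' h1 h2
      exact hl3 (i, β) (hmem i hi β) (j, β') (hmem j hj β') (by
        intro he
        exact hij (congrArg Prod.fst he)) h1 h2
    rcases hv' with h1 | h1 | h1
    · rcases hw' with h2 | h2 | h2
      · exact key _ _ h1 h2
      · exact hrZ j hj (h2 ▸ hZ i hi (Or.inl h1))
      · exact key _ _ h1 h2
    · rcases hw' with h2 | h2 | h2
      · exact hrZ i hi (h1 ▸ hZ j hj (Or.inl h2))
      · exact hij (hrinj i hi j hj (h1.symm.trans h2))
      · exact hrZ i hi (h1 ▸ hZ j hj (Or.inr h2))
    · rcases hw' with h2 | h2 | h2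
      · exact key _ _ h1 h2
      · exact hrZ j hj (h2 ▸ hZ i hi (Or.inr h1))
      · exact key _ _ h1 h2
  · intro v
    rw [mem_union, mem_biUnion]
    constructor
    · rintro (hv | ⟨⟨i, β⟩, hk, hv⟩)
      · obtain ⟨i, hi, rfl⟩ := hrsur v hv
        exact ⟨i, hi, List.mem_append.2 (Or.inr (List.mem_cons_self ..))⟩
      · have hi : i ∈ I := (mem_product.1 hk).1
        refine ⟨i, hi, ?_⟩
        rw [List.mem_toFinset] at hv
        rw [List.mem_append, List.mem_cons]
        cases β with
        | true => exact Or.inr (Or.inr hv)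
        | false => exact Or.inl hv
    · rintro ⟨i, hi, hv⟩
      rw [List.mem_append, List.mem_cons] at hv
      rcases hv with hv | hv | hv
      · exact Or.inr ⟨(i, false), hmem i hi false, List.mem_toFinset.2 hv⟩
      · exact Or.inl (hv ▸ hrR i hi)
      · exact Or.inr ⟨(i, true), hmem i hi true, List.mem_toFinset.2 hv⟩

end Pool.Agent.RST
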