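import Pool.Agent.RST.Defs

/-!
# The targets of the RST jobs (proofs: Blueprint.lean.txt)
-/

set_option autoImplicit false

open Finset Filter Topology

namespace Pool.Agent.RST

/-! ## Matchings and large sets -/

/-- PM: perfect matchings -/
def T_PM : Prop := ∀ (V : Type) [Fintype V] [DecidableEq V] (H : SimpleGraph V) (η p K g : ℝ)
  (P L : Finset V), 0 < p → 0 < g → 0 ≤ η → η ≤ g / 2 → 0 ≤ K → UU H η p K →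
  P.card = L.card → 8 * K ≤ g * p * P.card →
  (∀ x ∈ P, (1 / 2 + g) * p * P.card ≤ dg H x L) →
  (∀ y ∈ L, (1 / 2 + g) * p * P.card ≤ dg H y P) →
  ∃ M : V → V, Set.BijOn M P L ∧ ∀ x ∈ P, H.Adj x (M x)

/-- LG: large sets have large neighbourhoods -/
def T_LG : Prop := ∀ (V : Type) [Fintype V] [DecidableEq V] (H : SimpleGraph V) (η p K g : ℝ)
  (W : Finset V) (m : ℕ), 0 < p → 0 < g → g ≤ 1 / 2 → 0 ≤ η → η ≤ g / 4 → 0 ≤ K → 1 ≤ m →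
  UU H η p K → 8 * K ≤ g * p * m → 8 * K ≤ g * p * W.card → DG H g p W →
  ∀ X : Finset V, m ≤ X.card → (1 / 2 + g / 4) * (W.card : ℝ) ≤ ((nb H X W).card : ℝ)

/-! ## Waste mode -/

/-- INIT: the empty state is extendable -/
def T_INIT : Prop := ∀ (V : Type) [Fintype V] [DecidableEq V] (H : SimpleGraph V) (η p K : ℝ)
  (W : Finset V) (d m : ℕ), 0 < p → 0 ≤ η → η ≤ 1 → 0 ≤ K → UU H η p K →
  (∀ v, 1 / 2 * p * W.card ≤ dg H v W) → 16 * (m : ℝ) * d ≤ W.card →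
  4 * K * (1 + d) < p * W.card → OK H W d m ∅ ∅

/-- STEP: extension by one edge -/
def T_STEP : Prop := ∀ (V : Type) [Fintype V] [DecidableEq V] (H : SimpleGraph V)
  (W : Finset V) (d m : ℕ) (J : Finset (V × V)) (F : Finset V), OK H W d m J F → 1 ≤ m →
  (∀ X : Finset V, m ≤ X.card → W.card ≤ 2 * (nb H X W).card) →
  2 * ((used J F).card + 2 * m * d) < W.card →
  ∀ u : V, od J u < d → (u ∈ W → u ∈ used J F) →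
  ∃ w ∈ W, w ∉ used J F ∧ H.Adj u w ∧ (u, w) ∉ J ∧ OK H W d m (insert (u, w) J) F

/-- FREE: a free vertex from a large set -/
def T_FREE : Prop := ∀ (V : Type) [Fintype V] [DecidableEq V] (H : SimpleGraph V)
  (W : Finset V) (d m : ℕ) (J : Finset (V × V)) (F : Finset V), OK H W d m J F → 1 ≤ m →
  (∀ X : Finset V, m ≤ X.card → W.card ≤ 2 * (nb H X W).card) →
  2 * ((used J F).card + 2 * m * d) < W.card →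
  ∀ C : Finset V, C ⊆ W \ used J F → m * d < C.card →
  ∃ w ∈ C, OK H W d m J (insert w F)

/-- SHR: roll back -/
def T_SHR : Prop := ∀ (V : Type) [Fintype V] [DecidableEq V] (H : SimpleGraph V)
  (W : Finset V) (d m : ℕ) (J J' : Finset (V × V)) (F F' : Finset V), OK H W d m J F →
  J' ⊆ J → F' ⊆ F → (∀ e ∈ J', e.1 ∈ W → e.1 ∈ used J' F') → OK H W d m J' F'

/-- GROW: growing a tree with `m` vertices at depth `a` -/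
def T_GROW : Prop := ∀ (V : Type) [Fintype V] [DecidableEq V] (H : SimpleGraph V)
  (W : Finset V) (d m b a : ℕ) (J : Finset (V × V)) (F : Finset V), OK H W d m J F →
  1 ≤ m → 1 ≤ b → b ≤ d → m ≤ b ^ a →
  (∀ X : Finset V, m ≤ X.card → W.card ≤ 2 * (nb H X W).card) →
  2 * ((used J F).card + a * (m + b) + 2 * m * d) < W.card →
  ∀ y : V, od J y + b ≤ d → (y ∈ W → y ∈ used J F) →
  ∃ E : Finset (V × V), Disjoint J E ∧ OK H W d m (J ∪ E) F ∧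
    (used (J ∪ E) F).card ≤ (used J F).card + a * (m + b) ∧
    ∃ L : Finset V, m ≤ L.card ∧ ∀ x ∈ L, ∃ l : List V, l.length = a ∧
      (y :: l).IsChain (fun u v => (u, v) ∈ E) ∧ (y :: l).getLast? = some x ∧ (y :: l).Nodup

/-- CONN: connecting two vertices by a path of prescribed length through `W` -/
def T_CONN : Prop := ∀ (V : Type) [Fintype V] [DecidableEq V] (H : SimpleGraph V)
  (W : Finset V) (g : ℝ) (d m b a ℓ : ℕ) (J : Finset (V × V)) (F : Finset V),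
  WPar H W g d m b a ℓ → OK H W d m J F → 4 * ((used J F).card : ℝ) ≤ g * W.card →
  ∀ y q : V, y ≠ q → (y ∈ W → y ∈ used J F) → (q ∈ W → q ∈ used J F) →
  od J y + b ≤ d → od J q + b ≤ d → ∀ L : ℕ, 2 * a + 2 ≤ L → L ≤ ℓ →
  ∃ (l : List V) (J' : Finset (V × V)) (F' : Finset V), OK H W d m J' F' ∧ Pth H L y q l ∧
    (∀ x ∈ l, x ∈ W ∧ x ∉ used J F) ∧ used J' F' = used J F ∪ l.toFinset ∧
    (∀ v, od J' v ≤ od J v + 1) ∧ (∀ v, v ≠ y → v ≠ q → v ∉ l → od J' v = od J v)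

/-- the standard choice of the parameters -/
noncomputable def bb (κ : ℝ) (n : ℕ) : ℕ := ⌈(n : ℝ) ^ κ⌉₊
/-- depth -/
noncomputable def aa (κ : ℝ) : ℕ := ⌈1 / κ⌉₊
/-- size of large sets -/
noncomputable def mm (κ : ℝ) (n : ℕ) (p : ℝ) : ℕ := ⌈(n : ℝ) ^ κ / p⌉₊
/-- demand -/
noncomputable def dd (κ : ℝ) (n Δ : ℕ) : ℕ := 4 * bb κ n + Δ + 20

/-- WP: every set `W` of large relative degree is a good waste set -/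
def T_WP : Prop := ∀ (δ g C : ℝ) (Δ ℓ : ℕ), 0 < δ → δ < 1 → 0 < g → g ≤ 1 / 2 →
  2 * aa (δ / 20) + 2 ≤ ℓ → 0 ≤ C →
  ∃ n₀ : ℕ, ∀ n ≥ n₀, ∀ (p η : ℝ), (n : ℝ) ^ (-1 + δ) ≤ p → p ≤ 1 → 0 ≤ η → η ≤ g / 4 →
  ∀ H : SimpleGraph (Fin n), UU H η p (C * Real.log n) →
  ∀ W : Finset (Fin n), (n : ℝ) ^ (4 * (δ / 20)) ≤ p * W.card → DG H g p W →
  WPar H W (g / 4) (dd (δ / 20) n Δ) (mm (δ / 20) n p) (bb (δ / 20) n) (aa (δ / 20)) ℓ ∧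
  OK H W (dd (δ / 20) n Δ) (mm (δ / 20) n p) ∅ ∅

/-- MULTI: connecting many pairs by paths of prescribed lengths -/
def T_MULTI : Prop := ∀ (V : Type) [Fintype V] [DecidableEq V] (H : SimpleGraph V)
  (W : Finset V) (g : ℝ) (d m b a ℓ : ℕ), WPar H W g d m b a ℓ → OK H W d m ∅ ∅ →
  ∀ (ι : Type) [DecidableEq ι] (A : Finset ι) (x y : ι → V) (L : ι → ℕ) (r : ℕ), b + r ≤ d →
  (∀ i ∈ A, x i ≠ y i ∧ x i ∉ W ∧ y i ∉ W ∧ 2 * a + 2 ≤ L i ∧ L i ≤ ℓ) →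
  (∀ v, (A.filter (fun i => x i = v ∨ y i = v)).card ≤ r) →
  4 * (∑ i ∈ A, (L i : ℝ)) ≤ g * W.card →
  ∃ l : ι → List V, (∀ i ∈ A, Pth H (L i) (x i) (y i) (l i)) ∧ (∀ i ∈ A, ∀ v ∈ l i, v ∈ W) ∧
    (∀ i ∈ A, ∀ j ∈ A, i ≠ j → List.Disjoint (l i) (l j))

/-! ## Phase 1: embedding a tree, given the exact pieces -/

/-- P1: embedding the waste vertices in `W`, given the embedding of the exact pieces -/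
def T_P1 : Prop := ∀ (V : Type) [Fintype V] [DecidableEq V] (H : SimpleGraph V)
  (W : Finset V) (g : ℝ) (d m b a ℓ : ℕ), WPar H W g d m b a ℓ → OK H W d m ∅ ∅ →
  ∀ (N : ℕ) (par : ℕ → ℕ) (Δ : ℕ) (E Ws Q : Finset ℕ) (f₀ : ℕ → V), VT N par → BD N par Δ →
  b + Δ + 2 ≤ d → E ⊆ range N → Ws ⊆ range N → Disjoint E Ws → Q ⊆ E →
  (∀ x ∈ Ws, x ≠ 0 → par x ∈ E ∪ Ws) → (0 < N → 0 ∈ Ws) →
  (∀ q ∈ Q, ∀ j < 2 * a + 2, 0 < par^[j] q) →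
  (∀ q ∈ Q, ∀ j, 1 ≤ j → j ≤ 2 * a + 2 → par^[j] q ∈ Ws) →
  (∀ q ∈ Q, ∀ q' ∈ Q, ∀ j j', 1 ≤ j → j ≤ 2 * a + 1 → 1 ≤ j' → j' ≤ 2 * a + 1 →
    par^[j] q = par^[j'] q' → q = q') →
  Set.InjOn f₀ E → (∀ x ∈ E, f₀ x ∉ W) → 4 * (Ws.card : ℝ) ≤ g * W.card →
  ∃ f : ℕ → V, Set.InjOn f (E ∪ Ws : Finset ℕ) ∧ (∀ x ∈ E, f x = f₀ x) ∧ (∀ x ∈ Ws, f x ∈ W) ∧
    (∀ x ∈ Ws, x ≠ 0 → H.Adj (f x) (f (par x))) ∧ (∀ q ∈ Q, H.Adj (f q) (f (par q)))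

/-- BULK: embedding all exact pieces at once -/
def T_BULK : Prop := ∀ (V : Type) [Fintype V] [DecidableEq V] [Nonempty V] (H : SimpleGraph V)
  (par : ℕ → ℕ) (E Q : Finset ℕ) (κ : ℕ → ℕ) (Vc : ℕ → Finset V) (M : ℕ → V → V),
  (∀ x ∈ E, x ∉ Q → par x < x ∧ par x ∈ E) → Col par E Q κ →
  (∀ x ∈ E, ∀ y ∈ E, κ x ≠ κ y → Disjoint (Vc (κ x)) (Vc (κ y))) →
  (∀ x ∈ E, (Vc (κ x)).card = (E.filter (fun y => κ y = κ x)).card) →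
  (∀ x ∈ E, x ∉ Q → Set.BijOn (M (κ x)) (Vc (κ (par x))) (Vc (κ x)) ∧
    ∀ v ∈ Vc (κ (par x)), H.Adj v (M (κ x) v)) →
  ∃ f : ℕ → V, Set.InjOn f E ∧ (∀ x ∈ E, f x ∈ Vc (κ x)) ∧
    ∀ x ∈ E, x ∉ Q → H.Adj (f x) (f (par x))

/-- PH1: phase 1 -/
def T_PH1 : Prop := ∀ (V : Type) [Fintype V] [DecidableEq V] (H : SimpleGraph V)
  (W : Finset V) (g gw η p Ku : ℝ) (d m b a ℓ : ℕ),
  0 < p → 0 < g → g ≤ 1 / 2 → 0 ≤ η → η ≤ g / 2 → 0 ≤ Ku → UU H η p Ku →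
  WPar H W gw d m b a ℓ → OK H W d m ∅ ∅ →
  ∀ (N : ℕ) (par : ℕ → ℕ) (Δ : ℕ) (E Ws Q : Finset ℕ) (κ : ℕ → ℕ) (Vc : ℕ → Finset V),
  VT N par → BD N par Δ → b + Δ + 2 ≤ d → E ⊆ range N → Ws ⊆ range N → Disjoint E Ws → Q ⊆ E →
  (∀ x ∈ E, x ∉ Q → par x < x ∧ par x ∈ E) →
  (∀ x ∈ Ws, x ≠ 0 → par x ∈ E ∪ Ws) → (0 < N → 0 ∈ Ws) →
  (∀ q ∈ Q, ∀ j < 2 * a + 2, 0 < par^[j] q) →
  (∀ q ∈ Q, ∀ j, 1 ≤ j → j ≤ 2 * a + 2 → par^[j] q ∈ Ws) →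
  (∀ q ∈ Q, ∀ q' ∈ Q, ∀ j j', 1 ≤ j → j ≤ 2 * a + 1 → 1 ≤ j' → j' ≤ 2 * a + 1 →
    par^[j] q = par^[j'] q' → q = q') →
  Col par E Q κ →
  (∀ x ∈ E, ∀ y ∈ E, κ x ≠ κ y → Disjoint (Vc (κ x)) (Vc (κ y))) →
  (∀ x ∈ E, (Vc (κ x)).card = (E.filter (fun y => κ y = κ x)).card ∧ DG H g p (Vc (κ x)) ∧
    8 * Ku ≤ g * p * (Vc (κ x)).card ∧ Disjoint (Vc (κ x)) W) →
  4 * (Ws.card : ℝ) ≤ gw * W.card →
  ∃ f : ℕ → V, Set.InjOn f (E ∪ Ws : Finset ℕ) ∧ (∀ x ∈ E, f x ∈ Vc (κ x)) ∧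
    (∀ x ∈ Ws, f x ∈ W) ∧ (∀ x ∈ E ∪ Ws, x ≠ 0 → H.Adj (f x) (f (par x)))

/-! ## Decomposition of trees -/

/-- REG: decomposition of one region -/
def T_REG : Prop := ∀ (Δ D : ℕ), 1 ≤ Δ → 1 ≤ D → ∀ k : ℕ, ∃ A : ℕ, ∀ (par : ℕ → ℕ)
  (C : Finset ℕ) (c : ℕ), Reg par C c →
  (∀ v, (C.filter (fun x => x ≠ c ∧ par x = v)).card ≤ Δ) →
  ∃ E Q : Finset ℕ, Dcp D par C E Q ∧ c ∉ E ∧
    ((C \ E).card : ℝ) ≤ (1 - 1 / (2 * (Δ : ℝ)) ^ D) ^ k * C.card + A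

/-- CUT: decomposition of a tree with pieces of bounded size -/
def T_CUT : Prop := ∀ (Δ D : ℕ), 1 ≤ Δ → 1 ≤ D → ∀ ε : ℝ, 0 < ε → ∃ S : ℕ, ∀ (N : ℕ)
  (par : ℕ → ℕ), VT N par → BD N par Δ →
  ∃ E Q : Finset ℕ, Dcp D par (range N) E Q ∧ PS par E Q S ∧
    ((range N \ E).card : ℝ) ≤ ε * N + S

/-- DEC: decomposition of a tree with few abundant types of pieces -/
def T_DEC : Prop := ∀ (Δ D : ℕ), 1 ≤ Δ → 1 ≤ D → ∀ ε : ℝ, 0 < ε → ∃ (k₀ : ℕ) (ξ : ℝ) (N₀ : ℕ),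
  0 < ξ ∧ ∀ (N : ℕ) (par : ℕ → ℕ) (mark : ℕ → Bool), N₀ ≤ N → VT N par → BD N par Δ →
  ∃ (E Q : Finset ℕ) (κ : ℕ → ℕ), Dcp D par (range N) E Q ∧
    ((range N \ E).card : ℝ) ≤ ε * N ∧ Col par E Q κ ∧
    (∀ x ∈ E, κ x < k₀ ∧ ξ * N ≤ ((E.filter (fun y => κ y = κ x)).card : ℝ)) ∧
    (∀ x ∈ E, ∀ y ∈ E, κ x = κ y → mark x = mark y)

/-- BARE: a tree with few leaves has many disjoint bare paths -/
def T_BARE : Prop := ∀ (N : ℕ) (par : ℕ → ℕ) (ℓ : ℕ), 1 ≤ ℓ → VT N par →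
  ∃ X : Finset ℕ, Bare N par ℓ X ∧ N ≤ (ℓ + 1) * (X.card + 2 * (lv N par).card)

/-- CTR: contraction of bare paths -/
def T_CTR : Prop := ∀ (N : ℕ) (par : ℕ → ℕ) (Δ ℓ : ℕ) (X : Finset ℕ), 2 ≤ ℓ → VT N par →
  BD N par Δ → Bare N par ℓ X →
  ∃ (N₁ : ℕ) (par₁ : ℕ → ℕ), N₁ + (ℓ - 1) * X.card = N ∧ VT N₁ par₁ ∧ BD N₁ par₁ Δ ∧
  ∀ (V : Type) [DecidableEq V] (H : SimpleGraph V) (f₁ : ℕ → V), Emb H N₁ par₁ f₁ →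
  ∃ a b : ℕ → V, (∀ x ∈ X, ∃ i < N₁, a x = f₁ i) ∧ (∀ x ∈ X, ∃ i < N₁, b x = f₁ i) ∧
    Set.InjOn a X ∧ Set.InjOn b X ∧ (∀ x ∈ X, ∀ y ∈ X, a x ≠ b y) ∧
    ∀ S : Finset V, (∀ i < N₁, f₁ i ∉ S) → Lk H ℓ X a b S → ∃ f : ℕ → V, Emb H N par f

/-- REL: a tree as a parent function -/
def T_REL : Prop := ∀ (n : ℕ) (T : SimpleGraph (Fin n)), T.IsTree →
  ∃ (par : ℕ → ℕ) (σ : ℕ → Fin n), VT n par ∧ Set.BijOn σ (range n : Set ℕ) Set.univ ∧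
    (∀ u v, T.Adj u v → ∃ i, 0 < i ∧ i < n ∧
      ((σ i = u ∧ σ (par i) = v) ∨ (σ i = v ∧ σ (par i) = u))) ∧
    (∀ i < n, (chd n par i).card ≤ (T.neighborSet (σ i)).ncard)

/-! ## Random partitions and random graphs -/

/-- RPART: random partition with prescribed sizes -/
def T_RPART : Prop := ∀ (n : ℕ) (H : SimpleGraph (Fin n)) (ι : Type) [Fintype ι] [DecidableEq ι]
  (s : ι → ℕ) (D₀ η smin : ℝ), 0 < n → ∑ i, s i = n → 0 < η → η < 1 → 0 ≤ D₀ →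
  (∀ v, D₀ ≤ dg H v univ) →
  (n : ℝ) * (Fintype.card ι) * ((n : ℝ) + 1) ^ (Fintype.card ι) *
    Real.exp (-(η ^ 2 * smin * D₀ / (2 * n))) < 1 →
  ∃ P : ι → Finset (Fin n), (∀ i, (P i).card = s i) ∧ (∀ i j, i ≠ j → Disjoint (P i) (P j)) ∧
    (∀ v, ∃ i, v ∈ P i) ∧
    ∀ i, smin ≤ s i → ∀ v, (1 - η) * (s i / n) * dg H v univ ≤ dg H v (P i)

/-- the weight of `G` in `G(n,p)` -/
noncomputable def wG {n : ℕ} (p : ℝ) (G : SimpleGraph (Fin n)) : ℝ :=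
  p ^ (G.edgeSet.ncard) * (1 - p) ^ (n.choose 2 - G.edgeSet.ncard)

/-- GSUM: generating functions of `G(n,p)`; `c` is a weight on the pairs -/
def T_GSUM : Prop := ∀ (n : ℕ) (p : ℝ) (c : Sym2 (Fin n) → ℝ), 0 ≤ p → p ≤ 1 →
  ∑ᶠ G : SimpleGraph (Fin n), wG p G * Real.exp (∑ᶠ e ∈ G.edgeSet, c e) =
    ∏ᶠ e ∈ (⊤ : SimpleGraph (Fin n)).edgeSet, (1 - p + p * Real.exp (c e))

/-- the good graphs -/
def Good {n : ℕ} (G : SimpleGraph (Fin n)) (η p : ℝ) : Prop :=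
  UU G η p (12 / η * Real.log n) ∧
    ∀ v, (1 - η) * p * n ≤ dg G v univ ∧ (dg G v univ : ℝ) ≤ (1 + η) * p * n

open Classical in
/-- GNP: `G(n,p)` is good with high probability -/
def T_GNP : Prop := ∀ (δ η : ℝ) (p : ℕ → ℝ), 0 < δ → 0 < η → η ≤ 1 →
  (∀ n : ℕ, 0 ≤ p n ∧ p n ≤ 1) → (∀ᶠ n : ℕ in atTop, (n : ℝ) ^ (-1 + δ) ≤ p n) →
  Tendsto (fun n : ℕ => ∑ᶠ G : SimpleGraph (Fin n), if Good G η (p n) then wG (p n) G else 0)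
    atTop (𝓝 1)

/-- TPL: robustly matchable bipartite templates of small degree. The index set is
`{0, ..., 10 z' - 1}`, the set `Y` is `{0, ..., 9 z' - 1}`, the set `Z` is
`{9 z', ..., 9 z' + z - 1}`. -/
def T_TPL : Prop := ∀ κ : ℝ, 0 < κ → ∃ z₀ : ℕ, ∀ z' z : ℕ, z₀ ≤ z' → z' ≤ z → z ≤ 2 * z' →
  ∃ Γ : ℕ → Finset ℕ, (∀ x < 10 * z', Γ x ⊆ range (9 * z' + z) ∧ (Γ x).Nonempty ∧
      ((Γ x).card : ℝ) ≤ (z : ℝ) ^ κ) ∧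
    (∀ y, (((range (10 * z')).filter (fun x => y ∈ Γ x)).card : ℝ) ≤ (z : ℝ) ^ κ) ∧
    ∀ Z' : Finset ℕ, Z' ⊆ Ico (9 * z') (9 * z' + z) → Z'.card = z' →
      ∃ μ : ℕ → ℕ, Set.BijOn μ (range (10 * z') : Set ℕ) (range (9 * z') ∪ Z' : Finset ℕ) ∧
        ∀ x < 10 * z', μ x ∈ Γ x

/-! ## Absorbers -/

/-- half the length of the absorbing cycles -/
def kk (a : ℕ) : ℕ := 2 * (a / 2) + 3
/-- the size of a single absorber -/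
def sz (a : ℕ) : ℕ := 2 * kk a + (kk a - 1) * (2 * a + 1)
/-- the minimal length of a gadget path -/
def gl (a : ℕ) : ℕ := 3 * (sz a + 2 * a + 2) + 2 * a + 10

/-- ALT: the two alternating traversals of a sequence of directed paths -/
def T_ALT : Prop := ∀ (V : Type) [DecidableEq V] (H : SimpleGraph V) (r : ℕ) (O : ℕ → List V)
  (fs ls : ℕ → V) (s t u : V), 1 ≤ r →
  (∀ i < r, (O i).IsChain H.Adj ∧ (O i).head? = some (fs i) ∧ (O i).getLast? = some (ls i)) →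
  (∀ i, i + 1 < r → H.Adj (ls i) (fs (i + 1)) ∧ H.Adj (ls (i + 1)) (fs i)) →
  H.Adj s (fs 0) → H.Adj (ls (r - 1)) t → H.Adj s u → H.Adj u (fs (r - 1)) → H.Adj (ls 0) t →
  (s :: (((List.range r).flatMap O) ++ [t])).IsChain H.Adj ∧
  (s :: u :: (((List.range r).reverse.flatMap O) ++ [t])).IsChain H.Adj

/-- SABS: a single absorber for the vertex `u` -/
def T_SABS : Prop := ∀ (V : Type) [Fintype V] [DecidableEq V] (H : SimpleGraph V)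
  (W : Finset V) (g : ℝ) (d m b a ℓ : ℕ) (J : Finset (V × V)) (F : Finset V),
  WPar H W g d m b a ℓ → OK H W d m J F → 4 * (((used J F).card : ℝ) + sz a) ≤ g * W.card →
  2 * kk a ≤ ℓ →
  ∀ u : V, (u ∈ W → u ∈ used J F) → od J u + 2 + b ≤ d →
  ∃ (I : Finset V) (s t : V) (l₀ l₁ : List V) (J' : Finset (V × V)) (F' : Finset V),
    OK H W d m J' F' ∧ I ⊆ W \ used J F ∧ used J' F' = used J F ∪ I ∧ I.card = sz a ∧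
    s ∈ I ∧ t ∈ I ∧ s ≠ t ∧ l₀.Nodup ∧ l₁.Nodup ∧ l₀.toFinset = I ∧ l₁.toFinset = insert u I ∧
    l₀.IsChain H.Adj ∧ l₁.IsChain H.Adj ∧
    l₀.head? = some s ∧ l₀.getLast? = some t ∧ l₁.head? = some s ∧ l₁.getLast? = some t ∧
    od J' s ≤ 4 ∧ od J' t ≤ 4 ∧ od J' u ≤ od J u + 2 ∧
    (∀ v, v ∉ I → v ≠ u → od J' v = od J v)

/-- GAD: a path gadget that covers exactly one of at most three vertices -/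
def T_GAD : Prop := ∀ (V : Type) [Fintype V] [DecidableEq V] (H : SimpleGraph V)
  (W : Finset V) (g : ℝ) (d m b a ℓ : ℕ) (J : Finset (V × V)) (F : Finset V),
  WPar H W g d m b a ℓ → OK H W d m J F → 4 * (((used J F).card : ℝ) + ℓ) ≤ g * W.card →
  gl a ≤ ℓ →
  ∀ (U : Finset V) (y y' : V), 1 ≤ U.card → U.card ≤ 3 → y ≠ y' → y ∉ U → y' ∉ U →
  (∀ v, (v ∈ U ∨ v = y ∨ v = y') → (v ∈ W → v ∈ used J F)) →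
  (∀ u ∈ U, od J u + 2 + b ≤ d) → od J y + 1 + b ≤ d → od J y' + 1 + b ≤ d →
  ∃ (I : Finset V) (J' : Finset (V × V)) (F' : Finset V),
    OK H W d m J' F' ∧ I ⊆ W \ used J F ∧ used J' F' = used J F ∪ I ∧ I.card + 2 = ℓ ∧
    (∀ u ∈ U, ∃ l : List V, Pth H ℓ y y' l ∧ l.toFinset = insert u I) ∧
    (∀ u ∈ U, od J' u ≤ od J u + 2) ∧ od J' y ≤ od J y + 1 ∧ od J' y' ≤ od J y' + 1 ∧
    (∀ v, v ∉ I → v ∉ U → v ≠ y → v ≠ y' → od J' v = od J v)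

/-- CHG: a chain of gadgets, covers exactly one of `h` vertices -/
def T_CHG : Prop := ∀ (V : Type) [Fintype V] [DecidableEq V] (H : SimpleGraph V)
  (W : Finset V) (g : ℝ) (d m b a ℓ : ℕ) (J : Finset (V × V)) (F : Finset V) (h : ℕ),
  WPar H W g d m b a ℓ → OK H W d m J F → 1 ≤ h →
  4 * (((used J F).card : ℝ) + (h + 1) * ℓ) ≤ g * W.card → gl a ≤ ℓ →
  ∀ (av y y' : ℕ → V), Set.InjOn av (range h : Set ℕ) → Set.InjOn y (range h : Set ℕ) →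
  Set.InjOn y' (range h : Set ℕ) →
  (∀ i < h, ∀ j < h, y i ≠ y' j ∧ y i ≠ av j ∧ y' i ≠ av j) →
  (∀ i < h, av i ∉ W ∧ y i ∉ W ∧ y' i ∉ W) →
  (∀ i < h, od J (av i) + 2 + b ≤ d ∧ od J (y i) + 1 + b ≤ d ∧ od J (y' i) + 1 + b ≤ d) →
  ∃ (I : Finset V) (J' : Finset (V × V)) (F' : Finset V),
    OK H W d m J' F' ∧ I ⊆ W \ used J F ∧ used J' F' = used J F ∪ I ∧
    I.card + 1 = h * (ℓ - 1) ∧
    (∀ i < h, Lk H ℓ (range h) y y' (insert (av i) I)) ∧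
    (∀ i < h, od J' (av i) ≤ od J (av i) + 2 ∧ od J' (y i) ≤ od J (y i) + 1 ∧
      od J' (y' i) ≤ od J (y' i) + 1) ∧
    (∀ v, v ∉ I → (∀ i < h, v ≠ av i ∧ v ≠ y i ∧ v ≠ y' i) → od J' v = od J v)

/-- ABS: the absorber -/
def T_ABS : Prop := ∀ (V : Type) [Fintype V] [DecidableEq V] (H : SimpleGraph V)
  (W : Finset V) (g : ℝ) (d m b a ℓ : ℕ), WPar H W g d m b a ℓ → OK H W d m ∅ ∅ → gl a ≤ ℓ →
  ∀ (M hm : ℕ) (Γ : ℕ → Finset V) (YZ : Finset V), (∀ x < M, Γ x ⊆ YZ ∧ (Γ x).Nonempty) →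
  (∀ v, ((range M).filter (fun x => v ∈ Γ x)).card ≤ hm) → b + 2 * hm + 6 ≤ d →
  Disjoint YZ W →
  ∀ (ι : Type) [DecidableEq ι] (A : Finset ι) (y y' : ι → V),
  A.card = ∑ x ∈ range M, (Γ x).card → Set.InjOn y A → Set.InjOn y' A →
  (∀ i ∈ A, ∀ j ∈ A, y i ≠ y' j) → (∀ i ∈ A, y i ∉ W ∪ YZ ∧ y' i ∉ W ∪ YZ) →
  8 * ((A.card : ℝ) * ℓ) ≤ g * W.card →
  ∃ F : Finset V, F ⊆ W ∧ F.card + M = (ℓ - 1) * A.card ∧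
    ∀ (S : Finset V) (μ : ℕ → V), Set.BijOn μ (range M : Set ℕ) S → (∀ x < M, μ x ∈ Γ x) →
      Lk H ℓ A y y' (F ∪ S)

/-! ## Phases of the linking -/

/-- PHA: one phase -/
def T_PHA : Prop := ∀ (V : Type) [Fintype V] [DecidableEq V] (H : SimpleGraph V)
  (W : Finset V) (g gw η p Ku : ℝ) (d m b a ℓ K N : ℕ),
  0 < p → 0 < g → g ≤ 1 / 2 → 0 ≤ η → η ≤ g / 2 → 0 ≤ Ku → UU H η p Ku →
  WPar H W gw d m b a ℓ → OK H W d m ∅ ∅ → 2 ≤ K → ℓ = K + 4 * a + 3 →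
  ∀ (A : ℕ → Finset V), (∀ i < K, (A i).card = N ∧ (∀ v, (1 / 2 + g) * p * N ≤ dg H v (A i)) ∧
    Disjoint (A i) W) → (∀ i < K, ∀ j < K, i ≠ j → Disjoint (A i) (A j)) →
  8 * Ku ≤ g * p * N → 4 * ((4 * (a : ℝ) + 4) * N) ≤ gw * W.card →
  ∀ (ι : Type) [DecidableEq ι] (I : Finset ι) (y y' : ι → V), I.card = N →
  Set.InjOn y I → Set.InjOn y' I → (∀ i ∈ I, ∀ j ∈ I, y i ≠ y' j) →
  (∀ i ∈ I, y i ∉ W ∧ y' i ∉ W ∧ ∀ j < K, y i ∉ A j ∧ y' i ∉ A j) →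
  ∃ F : Finset V, F ⊆ W ∧ F.card = (4 * a + 2) * N ∧
    Lk H ℓ I y y' ((range K).biUnion A ∪ F)

/-- PHJ: many phases -/
def T_PHJ : Prop := ∀ (V : Type) [Fintype V] [DecidableEq V] (H : SimpleGraph V)
  (g gw η p Ku : ℝ) (d m b a ℓ K J : ℕ) (E : ℕ → ℕ → Finset V) (Wf : ℕ → Finset V)
  (N ρ : ℕ → ℕ) (R₀ : Finset V),
  0 < p → 0 < g → g ≤ 1 / 2 → 0 ≤ η → η ≤ g / 4 → 0 ≤ Ku → UU H η p Ku →
  2 ≤ K → ℓ = K + 4 * a + 3 →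
  (∀ j < J, ∀ i < K, (E j i).card + ρ j = N j ∧ DG H g p (E j i)) →
  (∀ j < J, WPar H (Wf j) gw d m b a ℓ ∧ OK H (Wf j) d m ∅ ∅ ∧
    (Wf j).card = (4 * a + 2) * N j + K * ρ (j + 1) ∧
    4 * ((4 * (a : ℝ) + 4) * N j) ≤ gw * (Wf j).card ∧ 16 * Ku ≤ g * p * N j ∧
    2 * (ρ j : ℝ) ≤ g * N j) →
  R₀.card = K * ρ 0 →
  (∀ j < J, ∀ i < K, ∀ j' < J, ∀ i' < K, (j, i) ≠ (j', i') → Disjoint (E j i) (E j' i')) →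
  (∀ j < J, ∀ j' < J, j ≠ j' → Disjoint (Wf j) (Wf j')) →
  (∀ j < J, ∀ i < K, ∀ j' < J, Disjoint (E j i) (Wf j')) →
  (∀ j < J, Disjoint (Wf j) R₀ ∧ ∀ i < K, Disjoint (E j i) R₀) →
  ∀ (ι : Type) [DecidableEq ι] (I : Finset ι) (y y' : ι → V), I.card = ∑ j ∈ range J, N j →
  Set.InjOn y I → Set.InjOn y' I → (∀ i ∈ I, ∀ j ∈ I, y i ≠ y' j) →
  (∀ i ∈ I, y i ∉ R₀ ∧ y' i ∉ R₀ ∧ ∀ j < J, y i ∉ Wf j ∧ y' i ∉ Wf j ∧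
    ∀ k < K, y i ∉ E j k ∧ y' i ∉ E j k) →
  ∃ R : Finset V, R ⊆ R₀ ∪ (range J).biUnion (fun j => Wf j ∪ (range K).biUnion (E j)) ∧
    R.card = K * ρ J ∧
    Lk H ℓ I y y' ((R₀ ∪ (range J).biUnion (fun j => Wf j ∪ (range K).biUnion (E j))) \ R)

/-- FIN: covering a small set `R` through `Z` -/
def T_FIN : Prop := ∀ (V : Type) [Fintype V] [DecidableEq V] (H : SimpleGraph V)
  (Z : Finset V) (g : ℝ) (d m b a ℓ : ℕ), WPar H Z g d m b a ℓ → OK H Z d m ∅ ∅ →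
  4 * a + 4 ≤ ℓ →
  ∀ (R : Finset V), Disjoint R Z → 4 * ((ℓ : ℝ) * R.card) ≤ g * Z.card →
  ∀ (ι : Type) [DecidableEq ι] (I : Finset ι) (y y' : ι → V), I.card = R.card →
  Set.InjOn y I → Set.InjOn y' I → (∀ i ∈ I, ∀ j ∈ I, y i ≠ y' j) →
  (∀ i ∈ I, y i ∉ R ∪ Z ∧ y' i ∉ R ∪ Z) →
  ∃ F : Finset V, F ⊆ Z ∧ F.card = (ℓ - 2) * R.card ∧ Lk H ℓ I y y' (R ∪ F)

/-- LINK: the complete linking theorem -/
def T_LINK : Prop := ∀ (V : Type) [Fintype V] [DecidableEq V] (H : SimpleGraph V)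
  (g gw η p Ku : ℝ) (d m b a ℓ K J : ℕ) (E : ℕ → ℕ → Finset V) (Wf : ℕ → Finset V)
  (N ρ : ℕ → ℕ) (R₁ WA Y Z : Finset V) (M hm z' : ℕ) (Γ : ℕ → Finset V),
  0 < p → 0 < g → g ≤ 1 / 2 → 0 ≤ η → η ≤ g / 4 → 0 ≤ Ku → UU H η p Ku →
  2 ≤ K → ℓ = K + 4 * a + 3 → gl a ≤ ℓ →
  (∀ j < J, ∀ i < K, (E j i).card + ρ j = N j ∧ DG H g p (E j i)) →
  (∀ j < J, WPar H (Wf j) gw d m b a ℓ ∧ OK H (Wf j) d m ∅ ∅ ∧
    (Wf j).card = (4 * a + 2) * N j + K * ρ (j + 1) ∧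
    4 * ((4 * (a : ℝ) + 4) * N j) ≤ gw * (Wf j).card ∧ 16 * Ku ≤ g * p * N j ∧
    2 * (ρ j : ℝ) ≤ g * N j) →
  (∀ j < J, ∀ i < K, ∀ j' < J, ∀ i' < K, (j, i) ≠ (j', i') → Disjoint (E j i) (E j' i')) →
  (∀ j < J, ∀ j' < J, j ≠ j' → Disjoint (Wf j) (Wf j')) →
  (∀ j < J, ∀ i < K, ∀ j' < J, Disjoint (E j i) (Wf j')) →
  (∀ j < J, Disjoint (Wf j) (R₁ ∪ WA ∪ Y ∪ Z) ∧ ∀ i < K, Disjoint (E j i) (R₁ ∪ WA ∪ Y ∪ Z)) →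
  Disjoint R₁ WA → Disjoint (R₁ ∪ WA) Y → Disjoint (R₁ ∪ WA ∪ Y) Z →
  WPar H WA gw d m b a ℓ → OK H WA d m ∅ ∅ → WPar H Z gw d m b a ℓ → OK H Z d m ∅ ∅ →
  (∀ x < M, Γ x ⊆ Y ∪ Z ∧ (Γ x).Nonempty) →
  (∀ v, ((range M).filter (fun x => v ∈ Γ x)).card ≤ hm) → b + 2 * hm + 6 ≤ d →
  (∀ Z' : Finset V, Z' ⊆ Z → Z'.card = z' →
    ∃ μ : ℕ → V, Set.BijOn μ (range M : Set ℕ) (Y ∪ Z' : Finset V) ∧ ∀ x < M, μ x ∈ Γ x) →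
  8 * ((∑ x ∈ range M, ((Γ x).card : ℝ)) * ℓ) ≤ gw * WA.card →
  Z.card = z' + (ℓ - 2) * (K * ρ J) → 4 * ((ℓ : ℝ) * (K * ρ J)) ≤ gw * Z.card →
  R₁.card + WA.card + M = (ℓ - 1) * (∑ x ∈ range M, (Γ x).card) + K * ρ 0 →
  ∀ (ι : Type) [DecidableEq ι] (I : Finset ι) (y y' : ι → V),
  I.card = (∑ x ∈ range M, (Γ x).card) + (∑ j ∈ range J, N j) + K * ρ J →
  Set.InjOn y I → Set.InjOn y' I → (∀ i ∈ I, ∀ j ∈ I, y i ≠ y' j) →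
  (∀ i ∈ I, y i ∉ R₁ ∪ WA ∪ Y ∪ Z ∧ y' i ∉ R₁ ∪ WA ∪ Y ∪ Z ∧ ∀ j < J, y i ∉ Wf j ∧ y' i ∉ Wf j ∧
    ∀ k < K, y i ∉ E j k ∧ y' i ∉ E j k) →
  Lk H ℓ I y y'
    (R₁ ∪ WA ∪ Y ∪ Z ∪ (range J).biUnion (fun j => Wf j ∪ (range K).biUnion (E j)))

/-! ## Numbers -/

/-- NUMA: the numerical conditions in the case of many leaves -/
def T_NUMA : Prop := ∀ (δ g C ξ η : ℝ) (k : ℕ), 0 < δ → δ < 1 → 0 < g → 0 ≤ C → 0 < ξ → 0 < η →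
  ∃ n₀ : ℕ, ∀ n ≥ n₀, ∀ p : ℝ, (n : ℝ) ^ (-1 + δ) ≤ p → p ≤ 1 →
  1 ≤ n ∧ 0 < p ∧ (n : ℝ) ^ (4 * (δ / 20)) ≤ p * (ξ * n) ∧
  16 * (C * Real.log n) ≤ g * p * (ξ * n) ∧
  (n : ℝ) * k * ((n : ℝ) + 1) ^ k * Real.exp (-(η ^ 2 * (ξ * n) * (1 / 2 * p * n) / (2 * n))) < 1

/-- the base scale in the case of few leaves -/
noncomputable def hh (κ : ℝ) (n : ℕ) (p : ℝ) : ℕ := ⌈(n : ℝ) ^ (5 * κ) / p⌉₊

/-- NUMB: the numerical conditions in the case of few leaves -/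
def T_NUMB : Prop := ∀ (δ g C ξ η c₁ c₂ : ℝ) (K ℓ C₃ C₄ k₀ z₀ N₀ : ℕ), 0 < δ → δ < 1 → 0 < g →
  0 ≤ C → 0 < ξ → 0 < η → 0 < c₁ → 0 < c₂ → 1 ≤ K →
  ∃ n₀ : ℕ, ∀ n ≥ n₀, ∀ p : ℝ, (n : ℝ) ^ (-1 + δ) ≤ p → p ≤ 1 →
  1 ≤ n ∧ 0 < p ∧ 2 * N₀ ≤ n ∧ 1 ≤ hh (δ / 20) n p ∧ z₀ ≤ hh (δ / 20) n p ∧
  (n : ℝ) ^ (4 * (δ / 20)) ≤ p * hh (δ / 20) n p ∧
  16 * (C * Real.log n) ≤ g * p * hh (δ / 20) n p ∧
  (hh (δ / 20) n p : ℝ) ≤ ξ * (n / 2) ∧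
  80 * (ℓ : ℝ) * (C₄ * hh (δ / 20) n p) * bb (δ / 20) n ≤ g * (c₂ * n) ∧
  10 * ((C₄ : ℝ) * hh (δ / 20) n p) + K + 3 ≤ c₂ * n ∧
  10 * ((C₄ : ℝ) * hh (δ / 20) n p) * bb (δ / 20) n + C₃ * hh (δ / 20) n p ≤ c₁ * n ∧
  ∃ J : ℕ, 1 ≤ J ∧ (K : ℝ) * 2 ^ (J - 1) * hh (δ / 20) n p ≤ c₁ * n ∧
    c₁ * n / 2 ≤ (K : ℝ) * 2 ^ (J - 1) * hh (δ / 20) n p ∧
    (n : ℝ) * ((k₀ + 4 + J * K + J : ℕ) : ℝ) * ((n : ℝ) + 1) ^ (k₀ + 4 + J * K + J) *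
      Real.exp (-(η ^ 2 * (hh (δ / 20) n p) * (1 / 2 * p * n) / (2 * n))) < 1

/-! ## The two cases and the main theorem -/

/-- CASEA: trees with linearly many leaves -/
def T_CASEA : Prop := ∀ (Δ : ℕ) (γ δ α C : ℝ), 1 ≤ Δ → 0 < γ → γ ≤ 1 / 2 → 0 < δ → δ < 1 →
  0 < α → 0 ≤ C → ∃ n₀ : ℕ, ∀ n ≥ n₀, ∀ p : ℝ, (n : ℝ) ^ (-1 + δ) ≤ p → p ≤ 1 →
  ∀ H : SimpleGraph (Fin n), UU H (γ / 100) p (C * Real.log n) →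
  (∀ v, (1 / 2 + γ) * p * n ≤ dg H v univ) →
  ∀ par : ℕ → ℕ, VT n par → BD n par Δ → α * n ≤ (lv n par).card →
  ∃ f : ℕ → Fin n, Emb H n par f

/-- CASEB: trees with few leaves -/
def T_CASEB : Prop := ∀ (Δ : ℕ) (γ δ C : ℝ), 1 ≤ Δ → 0 < γ → γ ≤ 1 / 2 → 0 < δ → δ < 1 →
  0 ≤ C → ∃ α : ℝ, 0 < α ∧ ∃ n₀ : ℕ, ∀ n ≥ n₀, ∀ p : ℝ, (n : ℝ) ^ (-1 + δ) ≤ p → p ≤ 1 →
  ∀ H : SimpleGraph (Fin n), UU H (γ / 100) p (C * Real.log n) →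
  (∀ v, (1 / 2 + γ) * p * n ≤ dg H v univ) →
  ∀ par : ℕ → ℕ, VT n par → BD n par Δ → ((lv n par).card : ℝ) ≤ α * n →
  ∃ f : ℕ → Fin n, Emb H n par f

open Classical in
/-- MAIN: the main theorem -/
def T_MAIN : Prop := ∀ Δ : ℕ, 2 ≤ Δ → ∀ γ : ℝ, 0 < γ → ∀ δ : ℝ, 0 < δ →
  ∀ p : ℕ → ℝ, (∀ n : ℕ, 0 ≤ p n ∧ p n ≤ 1) →
  (∀ᶠ n : ℕ in atTop, (n : ℝ) ^ (-1 + δ) ≤ p n) →
  Tendsto (fun n : ℕ =>
    ∑ᶠ G : SimpleGraph (Fin n),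
      (if (∀ H : SimpleGraph (Fin n), H ≤ G →
            (∀ v : Fin n, (1 / 2 + γ) * (((G.neighborSet v).ncard : ℕ) : ℝ)
                ≤ (((H.neighborSet v).ncard : ℕ) : ℝ)) →
            ∀ T : SimpleGraph (Fin n), T.IsTree →
              (∀ v : Fin n, (T.neighborSet v).ncard ≤ Δ) →
              ∃ f : Fin n → Fin n, Function.Injective f ∧
                ∀ u v : Fin n, T.Adj u v → H.Adj (f u) (f v))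
       then (p n) ^ (G.edgeSet.ncard) *
              (1 - p n) ^ (n.choose 2 - G.edgeSet.ncard)
       else (0 : ℝ)))
    atTop (𝓝 (1 : ℝ))

end Pool.Agent.RST
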