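import Mathlib
import Pool.Agent.RST.Targets

set_option autoImplicit false

open Finset

namespace Pool.Agent.RST

namespace GAD_

lemma glue {V : Type} {R : V → V → Prop} {A q M : List V} {t s : V} (hA : A.IsChain R)
    (hAt : A.getLast? = some t) (hq : (t :: (q ++ [s])).IsChain R) (hM : M.IsChain R)
    (hMs : M.head? = some s) : (A ++ (q ++ M)).IsChain R := by
  obtain ⟨A', rfl⟩ : ∃ A', A = A' ++ [t] := by
    rw [List.getLast?_eq_some_iff] at hAt
    exact hAt
  obtain ⟨M', rfl⟩ : ∃ M', M = s :: M' := by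
    cases M with
    | nil => simp at hMs
    | cons x M' =>
      simp at hMs
      exact ⟨M', by rw [hMs]⟩
  have h1 : (A' ++ [t] ++ (q ++ [s])).IsChain R :=
    List.IsChain.append_overlap hA (by simpa using hq) (by simp)
  have h2 : ((A' ++ [t] ++ q) ++ [s] ++ M').IsChain R :=
    List.IsChain.append_overlap (by simpa using h1) (by simpa using hM) (by simp)
  simpa using h2

lemma last {V : Type} {A q M : List V} {t : V} (hM : M.getLast? = some t) :
    (A ++ (q ++ M)).getLast? = some t := by
  rw [List.getLast?_append, List.getLast?_append, hM]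
  simp

lemma nd {V : Type} {A q M : List V} (hA : A.Nodup) (hq : q.Nodup) (hM : M.Nodup)
    (h1 : ∀ x ∈ A, x ∉ q) (h2 : ∀ x ∈ A, x ∉ M) (h3 : ∀ x ∈ q, x ∉ M) :
    (A ++ (q ++ M)).Nodup := by
  rw [List.nodup_append', List.nodup_append']
  refine ⟨hA, ⟨hq, hM, fun x hx hx' => h3 x hx hx'⟩, ?_⟩
  intro x hx hx'
  rcases List.mem_append.mp hx' with h | h
  · exact h1 x hx h
  · exact h2 x hx h

structure St {V : Type} [DecidableEq V] (H : SimpleGraph V) (W : Finset V)
    (d m a : ℕ) (J : Finset (V × V)) (F : Finset V) (y : V) (us : List V)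
    (I : Finset V) (t : V) (J' : Finset (V × V)) (F' : Finset V) (l0 : List V)
    (lu : V → List V) : Prop where
  ok : OK H W d m J' F'
  sub : I ⊆ W \ used J F
  us' : used J' F' = used J F ∪ I
  card : I.card = us.length * (sz a + 2 * a + 1)
  tt : (t = y ∧ od J' y = od J y) ∨ (t ∈ I ∧ od J' y ≤ od J y + 1 ∧ od J' t ≤ 4)
  c0 : (y :: l0).IsChain H.Adj
  n0 : l0.Nodup
  f0 : l0.toFinset = I
  e0 : (y :: l0).getLast? = some t
  c1 : ∀ u ∈ us, (y :: lu u).IsChain H.Adj
  n1 : ∀ u ∈ us, (lu u).Nodup
  f1 : ∀ u ∈ us, (lu u).toFinset = insert u I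
  e1 : ∀ u ∈ us, (y :: lu u).getLast? = some t
  o1 : ∀ u ∈ us, od J' u ≤ od J u + 2
  o2 : ∀ v, v ∉ I → v ∉ us → v ≠ y → od J' v = od J v

lemma sz_kk (a : ℕ) : 2 * kk a ≤ sz a := by unfold sz; omega

lemma sz_gl (a : ℕ) : 3 * (sz a + 2 * a + 1) + 2 * a + 13 = gl a := by unfold gl; omega

lemma ind (h1 : T_SABS) (h2 : T_CONN) {V : Type} [Fintype V] [DecidableEq V]
    {H : SimpleGraph V} {W : Finset V} {g : ℝ} {d m b a ℓ : ℕ} {J : Finset (V × V)}
    {F : Finset V} (hW : WPar H W g d m b a ℓ) (hOK : OK H W d m J F)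
    (hbud : 4 * (((used J F).card : ℝ) + ℓ) ≤ g * W.card) (hgl : gl a ≤ ℓ) (y : V)
    (hy : y ∈ W → y ∈ used J F) (hyod : od J y + 1 + b ≤ d) :
    ∀ us : List V, us.Nodup → us.length ≤ 3 → y ∉ us →
      (∀ u ∈ us, (u ∈ W → u ∈ used J F) ∧ od J u + 2 + b ≤ d) →
      ∃ (I : Finset V) (t : V) (J' : Finset (V × V)) (F' : Finset V) (l0 : List V)
        (lu : V → List V), St H W d m a J F y us I t J' F' l0 lu := by
  have hszkk := sz_kk a
  have hszgl := sz_gl a
  have hbd := hW.bd
  have hlen := hW.len
  intro us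
  induction us with
  | nil =>
    intro _ _ _ _
    refine ⟨∅, y, J, F, [], fun _ => [], ?_⟩
    exact
      { ok := hOK
        sub := empty_subset _
        us' := by simp
        card := by simp
        tt := Or.inl ⟨rfl, rfl⟩
        c0 := by simp
        n0 := by simp
        f0 := by simp
        e0 := by simp
        c1 := by simp
        n1 := by simp
        f1 := by simp
        e1 := by simp
        o1 := by simp
        o2 := fun _ _ _ _ => rfl }
  | cons u us ih =>
    intro hnd hlen3 hyus hus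
    rw [List.nodup_cons] at hnd
    rw [List.length_cons] at hlen3
    rw [List.mem_cons, not_or] at hyus
    obtain ⟨I, t, J1, F1, l0, lu, hS⟩ := ih hnd.2 (by omega) hyus.2
      (fun v hv => hus v (List.mem_cons_of_mem _ hv))
    obtain ⟨huW, huod⟩ := hus u List.mem_cons_self
    -- facts on the new vertices
    have hInot : ∀ v, (v ∈ W → v ∈ used J F) → v ∉ I := by
      intro v hv hvI
      have h3 := mem_sdiff.mp (hS.sub hvI)
      exact h3.2 (hv h3.1)
    have huI : u ∉ I := hInot u huW
    have hyI : y ∉ I := hInot y hy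
    have huy : u ≠ y := fun h => hyus.1 h.symm
    have hodu : od J1 u = od J u := hS.o2 u huI hnd.1 huy
    have hused1 : ((used J1 F1).card : ℝ) ≤ (used J F).card
        + (us.length * (sz a + 2 * a + 1) : ℕ) := by
      rw [hS.us', ← hS.card]
      exact_mod_cast card_union_le _ _
    have hnum1 : (us.length + 1) * (sz a + 2 * a + 1) ≤ ℓ := by
      have h3 : (us.length + 1) * (sz a + 2 * a + 1) ≤ 3 * (sz a + 2 * a + 1) :=
        Nat.mul_le_mul_right _ hlen3
      omega
    have hnum2 : us.length * (sz a + 2 * a + 1) + sz a + (2 * a + 1) ≤ ℓ := by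
      have h3 : (us.length + 1) * (sz a + 2 * a + 1)
          = us.length * (sz a + 2 * a + 1) + sz a + (2 * a + 1) := by ring
      omega
    have hb1 : 4 * (((used J1 F1).card : ℝ) + sz a) ≤ g * W.card := by
      have h3 : ((us.length * (sz a + 2 * a + 1) : ℕ) : ℝ) + (sz a : ℝ) ≤ ℓ := by
        have : us.length * (sz a + 2 * a + 1) + sz a ≤ ℓ := by omega
        exact_mod_cast this
      linarith
    obtain ⟨I2, s, t2, m0, m1, J2, F2, hok2, hsub2, hus2, hcard2, hs2, ht2, hst, hn0, hn1,
      hf0, hf1, hc0, hc1, hh0, he0, hh1, he1, hods, hodt, hodu2, hod2⟩ :=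
      h1 V H W g d m b a ℓ J1 F1 hW hS.ok hb1 (by omega) u
        (fun hu => by rw [hS.us']; exact mem_union_left _ (huW hu)) (by rw [hodu]; exact huod)
    have hused1' : used J F ⊆ used J1 F1 := by rw [hS.us']; exact subset_union_left
    have hI2not : ∀ v, (v ∈ W → v ∈ used J1 F1) → v ∉ I2 := by
      intro v hv hvI
      have h3 := mem_sdiff.mp (hsub2 hvI)
      exact h3.2 (hv h3.1)
    have huI2 : u ∉ I2 := hI2not u (fun h => hused1' (huW h))
    have hyI2 : y ∉ I2 := hI2not y (fun h => hused1' (hy h))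
    have htW : t ∈ W → t ∈ used J1 F1 := by
      intro h
      rcases hS.tt with ⟨h3, -⟩ | ⟨h3, -, -⟩
      · rw [h3] at h ⊢
        exact hused1' (hy h)
      · rw [hS.us']; exact mem_union_right _ h3
    have htI2 : t ∉ I2 := hI2not t htW
    have hts : t ≠ s := fun h => htI2 (h ▸ hs2)
    have htu : t ≠ u := by
      rcases hS.tt with ⟨h3, -⟩ | ⟨h3, -, -⟩
      · rw [h3]; exact huy.symm
      · intro h; rw [h] at h3; exact huI h3
    have hodt2 : od J2 t = od J1 t := hod2 t htI2 htu
    have hodt1 : od J1 t + b ≤ d := by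
      rcases hS.tt with ⟨h3, h4⟩ | ⟨h3, -, h5⟩
      · rw [h3, h4]; omega
      · omega
    have hused2 : used J1 F1 ⊆ used J2 F2 := by rw [hus2]; exact subset_union_left
    have hcardu2 : ((used J2 F2).card : ℝ) ≤ (used J1 F1).card + sz a := by
      rw [hus2, ← hcard2]
      exact_mod_cast card_union_le _ _
    obtain ⟨q, J3, F3, hok3, ⟨hqlen, hqnd, hqch⟩, hqW, hus3, hod3, hod3'⟩ :=
      h2 V H W g d m b a ℓ J2 F2 hW hok2 (by linarith) t s hts
        (fun h => hused2 (htW h)) (fun _ => by rw [hus2]; exact mem_union_right _ hs2)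
        (by rw [hodt2]; exact hodt1) (by omega) (2 * a + 2) le_rfl (by omega)
    have hqnot : ∀ v, (v ∈ W → v ∈ used J2 F2) → v ∉ q := by
      intro v hv hvq
      exact (hqW v hvq).2 (hv (hqW v hvq).1)
    have huq : u ∉ q := hqnot u (fun h => hused2 (hused1' (huW h)))
    have hyq : y ∉ q := hqnot y (fun h => hused2 (hused1' (hy h)))
    have hI2used : I2 ⊆ used J2 F2 := by rw [hus2]; exact subset_union_right
    have hIused : I ⊆ used J1 F1 := by rw [hS.us']; exact subset_union_right
    have hI2q : ∀ v ∈ I2, v ∉ q := fun v hv => hqnot v (fun _ => hI2used hv)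
    have hIq : ∀ v ∈ I, v ∉ q := fun v hv => hqnot v (fun _ => hused2 (hIused hv))
    have hII2 : ∀ v ∈ I, v ∉ I2 := fun v hv => hI2not v (fun _ => hIused hv)
    have hus' : ∀ v ∈ us, v ∉ I ∧ v ∉ I2 ∧ v ∉ q ∧ v ≠ u ∧ v ≠ t ∧ v ≠ s ∧ v ≠ y := by
      intro v hv
      have hvW := (hus v (List.mem_cons_of_mem _ hv)).1
      have hvI := hInot v hvW
      have hvI2 := hI2not v (fun h => hused1' (hvW h))
      have hvy : v ≠ y := fun h => hyus.2 (h ▸ hv)
      refine ⟨hvI, hvI2, hqnot v (fun h => hused2 (hused1' (hvW h))),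
        fun h => hnd.1 (h ▸ hv), ?_, fun h => hvI2 (h ▸ hs2), hvy⟩
      rcases hS.tt with ⟨h3, -⟩ | ⟨h3, -, -⟩
      · rw [h3]; exact hvy
      · intro h; rw [← h] at h3; exact hvI h3
    have hm0 : ∀ x, x ∈ m0 ↔ x ∈ I2 := fun x => by rw [← hf0, List.mem_toFinset]
    have hm1 : ∀ x, x ∈ m1 ↔ x = u ∨ x ∈ I2 := fun x => by
      rw [← List.mem_toFinset, hf1, mem_insert]
    have hl0 : ∀ x, x ∈ l0 ↔ x ∈ I := fun x => by rw [← hS.f0, List.mem_toFinset]
    have hlu : ∀ v ∈ us, ∀ x, x ∈ lu v ↔ x = v ∨ x ∈ I := fun v hv x => by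
      rw [← List.mem_toFinset, hS.f1 v hv, mem_insert]
    refine ⟨I ∪ (q.toFinset ∪ I2), t2, J3, F3, l0 ++ (q ++ m0),
      fun v => if v = u then l0 ++ (q ++ m1) else lu v ++ (q ++ m0), ?_⟩
    have hqcard : q.toFinset.card = 2 * a + 1 := by
      rw [List.toFinset_card_of_nodup hqnd]; omega
    have ht2I : t2 ∉ I := fun h => hII2 t2 h ht2
    have ht2t : t2 ≠ t := fun h => htI2 (h ▸ ht2)
    have ht2q : t2 ∉ q := hI2q t2 ht2
    exact
      { ok := hok3
        sub := by
          intro x hx
          rcases mem_union.mp hx with h | h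
          · exact hS.sub h
          · rcases mem_union.mp h with h | h
            · have h3 := hqW x (List.mem_toFinset.mp h)
              exact mem_sdiff.mpr ⟨h3.1, fun h4 => h3.2 (hused2 (hused1' h4))⟩
            · have h3 := mem_sdiff.mp (hsub2 h)
              exact mem_sdiff.mpr ⟨h3.1, fun h4 => h3.2 (hused1' h4)⟩
        us' := by
          rw [hus3, hus2, hS.us', union_comm q.toFinset I2]
          simp only [union_assoc]
        card := by
          rw [card_union_of_disjoint, card_union_of_disjoint, hS.card, hqcard, hcard2,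
            List.length_cons]
          · ring
          · rw [disjoint_left]
            intro x hx hx'
            exact hI2q x hx' (List.mem_toFinset.mp hx)
          · rw [disjoint_left]
            intro x hx hx'
            rcases mem_union.mp hx' with h | h
            · exact hIq x hx (List.mem_toFinset.mp h)
            · exact hII2 x hx h
        tt := by
          right
          refine ⟨mem_union_right _ (mem_union_right _ ht2), ?_, ?_⟩
          · rcases hS.tt with ⟨h3, h4⟩ | ⟨h3, h4, -⟩
            · have h5 := hod3 y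
              have h6 : od J2 y = od J1 y := hod2 y hyI2 huy.symm
              omega
            · have h5 : od J3 y = od J2 y :=
                hod3' y (fun h => hyI (h ▸ h3)) (fun h => hyI2 (h ▸ hs2)) hyq
              have h6 : od J2 y = od J1 y := hod2 y hyI2 huy.symm
              omega
          · rw [hod3' t2 ht2t hst.symm ht2q]
            exact hodt
        c0 := glue hS.c0 hS.e0 hqch hc0 hh0
        n0 := nd hS.n0 hqnd hn0 (fun x hx => hIq x ((hl0 x).mp hx))
          (fun x hx h => hII2 x ((hl0 x).mp hx) ((hm0 x).mp h))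
          (fun x hx h => hI2q x ((hm0 x).mp h) hx)
        f0 := by
          rw [List.toFinset_append, List.toFinset_append, hS.f0, hf0]
        e0 := last (A := y :: l0) he0
        c1 := by
          intro v hv
          by_cases hvu : v = u
          · rw [if_pos hvu]
            exact glue hS.c0 hS.e0 hqch hc1 hh1
          · rw [if_neg hvu]
            have hv' : v ∈ us := (List.mem_cons.mp hv).resolve_left hvu
            exact glue (hS.c1 v hv') (hS.e1 v hv') hqch hc0 hh0
        n1 := by
          intro v hv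
          by_cases hvu : v = u
          · rw [if_pos hvu]
            refine nd hS.n0 hqnd hn1 (fun x hx => hIq x ((hl0 x).mp hx)) ?_ ?_
            · intro x hx h
              rcases (hm1 x).mp h with h | h
              · exact huI (h ▸ (hl0 x).mp hx)
              · exact hII2 x ((hl0 x).mp hx) h
            · intro x hx h
              rcases (hm1 x).mp h with h | h
              · exact huq (h ▸ hx)
              · exact hI2q x h hx
          · rw [if_neg hvu]
            have hv' : v ∈ us := (List.mem_cons.mp hv).resolve_left hvu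
            obtain ⟨k1, k2, k3, -⟩ := hus' v hv'
            refine nd (hS.n1 v hv') hqnd hn0 ?_ ?_ ?_
            · intro x hx
              rcases (hlu v hv' x).mp hx with h | h
              · rw [h]; exact k3
              · exact hIq x h
            · intro x hx h4
              rcases (hlu v hv' x).mp hx with h | h
              · rw [h] at h4; exact k2 ((hm0 v).mp h4)
              · exact hII2 x h ((hm0 x).mp h4)
            · exact fun x hx h => hI2q x ((hm0 x).mp h) hx
        f1 := by
          intro v hv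
          by_cases hvu : v = u
          · rw [if_pos hvu, List.toFinset_append, List.toFinset_append, hS.f0, hf1, hvu,
              union_insert, union_insert]
          · rw [if_neg hvu]
            have hv' : v ∈ us := (List.mem_cons.mp hv).resolve_left hvu
            rw [List.toFinset_append, List.toFinset_append, hS.f1 v hv', hf0, insert_union]
        e1 := by
          intro v hv
          by_cases hvu : v = u
          · rw [if_pos hvu]
            exact last (A := y :: l0) he1
          · rw [if_neg hvu]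
            exact last (A := y :: lu v) he0
        o1 := by
          intro v hv
          by_cases hvu : v = u
          · rw [hvu]
            have h3 : od J3 u = od J2 u := hod3' u htu.symm (fun h => huI2 (h ▸ hs2)) huq
            omega
          · have hv' : v ∈ us := (List.mem_cons.mp hv).resolve_left hvu
            obtain ⟨k1, k2, k3, k4, k5, k6, k7⟩ := hus' v hv'
            have h3 : od J3 v = od J2 v := hod3' v k5 k6 k3
            have h4 : od J2 v = od J1 v := hod2 v k2 k4
            have h5 := hS.o1 v hv'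
            omega
        o2 := by
          intro v hv1 hv2 hv3
          rw [mem_union, mem_union, not_or, not_or, List.mem_toFinset] at hv1
          rw [List.mem_cons, not_or] at hv2
          have h3 : v ≠ t := by
            rcases hS.tt with ⟨h3, -⟩ | ⟨h3, -, -⟩
            · rw [h3]; exact hv3
            · intro h; rw [← h] at h3; exact hv1.1 h3
          rw [hod3' v h3 (fun h => hv1.2.2 (h ▸ hs2)) hv1.2.1, hod2 v hv1.2.2 hv2.1,
            hS.o2 v hv1.1 hv2.2 hv3] }

end GAD_

open GAD_

theorem pGAD (h1 : T_SABS) (h2 : T_CONN) : T_GAD := by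
  intro V _ _ H W g d m b a ℓ J F hW hOK hbud hgl U y y' hU1 hU3 hyy' hyU hy'U hin hodU hody
    hody'
  have hszkk := sz_kk a
  have hszgl := sz_gl a
  have hbd := hW.bd
  have hyW := hin y (Or.inr (Or.inl rfl))
  have hy'W := hin y' (Or.inr (Or.inr rfl))
  obtain ⟨I, t, J1, F1, l0, lu, hS⟩ := ind h1 h2 hW hOK hbud hgl y hyW hody U.toList
    (nodup_toList U) (by rw [length_toList]; exact hU3) (by rw [mem_toList]; exact hyU)
    (fun u hu => ⟨hin u (Or.inl (mem_toList.mp hu)), hodU u (mem_toList.mp hu)⟩)
  have hcard := hS.card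
  rw [length_toList] at hcard
  have hInot : ∀ v, (v ∈ W → v ∈ used J F) → v ∉ I := by
    intro v hv hvI
    have h3 := mem_sdiff.mp (hS.sub hvI)
    exact h3.2 (hv h3.1)
  have hyI := hInot y hyW
  have hy'I := hInot y' hy'W
  have hused1' : used J F ⊆ used J1 F1 := by rw [hS.us']; exact subset_union_left
  have htW : t ∈ W → t ∈ used J1 F1 := by
    intro h
    rcases hS.tt with ⟨h3, -⟩ | ⟨h3, -, -⟩
    · rw [h3] at h ⊢
      exact hused1' (hyW h)
    · rw [hS.us']; exact mem_union_right _ h3
  have hty' : t ≠ y' := by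
    rcases hS.tt with ⟨h3, -⟩ | ⟨h3, -, -⟩
    · rw [h3]; exact hyy'
    · intro h; rw [h] at h3; exact hy'I h3
  have hody1 : od J1 y' = od J y' :=
    hS.o2 y' hy'I (by rw [mem_toList]; exact hy'U) hyy'.symm
  have hodt1 : od J1 t + b ≤ d := by
    rcases hS.tt with ⟨h3, h4⟩ | ⟨h3, -, h5⟩
    · rw [h3, h4]; omega
    · omega
  have hnum : U.card * (sz a + 2 * a + 1) ≤ 3 * (sz a + 2 * a + 1) :=
    Nat.mul_le_mul_right _ hU3
  have hb1 : 4 * ((used J1 F1).card : ℝ) ≤ g * W.card := by
    have h3 : ((used J1 F1).card : ℝ) ≤ (used J F).card + (I.card : ℝ) := by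
      rw [hS.us']
      exact_mod_cast card_union_le _ _
    have h4 : (I.card : ℝ) ≤ ℓ := by
      have : I.card ≤ ℓ := by omega
      exact_mod_cast this
    linarith
  obtain ⟨q, J3, F3, hok3, ⟨hqlen, hqnd, hqch⟩, hqW, hus3, hod3, hod3'⟩ :=
    h2 V H W g d m b a ℓ J1 F1 hW hS.ok hb1 t y' hty' htW (fun h => hused1' (hy'W h)) hodt1
      (by omega) (ℓ - 1 - U.card * (sz a + 2 * a + 1)) (by omega) (by omega)
  have hqnot : ∀ v, (v ∈ W → v ∈ used J1 F1) → v ∉ q := by
    intro v hv hvq
    exact (hqW v hvq).2 (hv (hqW v hvq).1)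
  have hIused : I ⊆ used J1 F1 := by rw [hS.us']; exact subset_union_right
  have hIq : ∀ v ∈ I, v ∉ q := fun v hv => hqnot v (fun _ => hIused hv)
  have hyq : y ∉ q := hqnot y (fun h => hused1' (hyW h))
  have hUall : ∀ u ∈ U, u ∉ I ∧ u ∉ q ∧ u ≠ t ∧ u ≠ y' := by
    intro u hu
    have huW := hin u (Or.inl hu)
    have huI := hInot u huW
    refine ⟨huI, hqnot u (fun h => hused1' (huW h)), ?_, fun h => hy'U (h ▸ hu)⟩
    rcases hS.tt with ⟨h3, -⟩ | ⟨h3, -, -⟩
    · rw [h3]; exact fun h => hyU (h ▸ hu)
    · intro h; rw [← h] at h3; exact huI h3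
  have hcI : (I ∪ q.toFinset).card + 2 = ℓ := by
    rw [card_union_of_disjoint, List.toFinset_card_of_nodup hqnd]
    · omega
    · rw [disjoint_left]
      exact fun x hx hx' => hIq x hx (List.mem_toFinset.mp hx')
  refine ⟨I ∪ q.toFinset, J3, F3, hok3, ?_, ?_, hcI, ?_, ?_, ?_, ?_, ?_⟩
  · intro x hx
    rcases mem_union.mp hx with h | h
    · exact hS.sub h
    · have h3 := hqW x (List.mem_toFinset.mp h)
      exact mem_sdiff.mpr ⟨h3.1, fun h4 => h3.2 (hused1' h4)⟩
  · rw [hus3, hS.us', union_assoc]
  · intro u hu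
    have hu' : u ∈ U.toList := mem_toList.mpr hu
    obtain ⟨k1, k2, k3, k4⟩ := hUall u hu
    have hf := hS.f1 u hu'
    have hlu : ∀ x, x ∈ lu u ↔ x = u ∨ x ∈ I := fun x => by
      rw [← List.mem_toFinset, hf, mem_insert]
    have hndl : (lu u ++ q).Nodup := by
      rw [List.nodup_append']
      refine ⟨hS.n1 u hu', hqnd, ?_⟩
      intro x hx hx'
      rcases (hlu x).mp hx with h | h
      · exact k2 (h ▸ hx')
      · exact hIq x h hx'
    have htf : (lu u ++ q).toFinset = insert u (I ∪ q.toFinset) := by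
      rw [List.toFinset_append, hf, insert_union]
    refine ⟨lu u ++ q, ⟨?_, hndl, ?_⟩, htf⟩
    · have h3 := List.toFinset_card_of_nodup hndl
      rw [htf, card_insert_of_notMem] at h3
      · omega
      · rw [mem_union, not_or, List.mem_toFinset]
        exact ⟨k1, k2⟩
    · have h3 := glue (hS.c1 u hu') (hS.e1 u hu') hqch (List.isChain_singleton y') rfl
      simpa using h3
  · intro u hu
    obtain ⟨k1, k2, k3, k4⟩ := hUall u hu
    rw [hod3' u k3 k4 k2]
    exact hS.o1 u (mem_toList.mpr hu)
  · rcases hS.tt with ⟨h3, h4⟩ | ⟨h3, h4, -⟩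
    · have h5 := hod3 y
      omega
    · rw [hod3' y (fun h => hyI (h ▸ h3)) hyy' hyq]
      exact h4
  · have h5 := hod3 y'
    omega
  · intro v hv1 hv2 hv3 hv4
    rw [mem_union, not_or, List.mem_toFinset] at hv1
    have h3 : v ≠ t := by
      rcases hS.tt with ⟨h3, -⟩ | ⟨h3, -, -⟩
      · rw [h3]; exact hv3
      · intro h; rw [← h] at h3; exact hv1.1 h3
    rw [hod3' v h3 hv4 hv1.2, hS.o2 v hv1.1 (by rw [mem_toList]; exact hv2) hv3]

end Pool.Agent.RST
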