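import Pool.Agent.RST.Targets

/-!
# LINK: the complete linking theorem
-/

set_option autoImplicit false

open Finset Filter Topology

namespace Pool.Agent.RST

namespace LINK_

/-- union of two linkings -/
theorem union {V ι : Type} [DecidableEq V] [DecidableEq ι] (H : SimpleGraph V) (ℓ : ℕ)
    (A B : Finset ι) (a b : ι → V) (S T : Finset V) (hAB : Disjoint A B)
    (hST : ∀ v ∈ S, v ∉ T) (h1 : Lk H ℓ A a b S) (h2 : Lk H ℓ B a b T) :
    Lk H ℓ (A ∪ B) a b (S ∪ T) := by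
  obtain ⟨l1, p1, q1, r1⟩ := h1
  obtain ⟨l2, p2, q2, r2⟩ := h2
  have hB : ∀ i ∈ B, i ∉ A := fun i hi hA => (Finset.disjoint_left.1 hAB hA) hi
  refine ⟨fun i => if i ∈ A then l1 i else l2 i, ?_, ?_, ?_⟩
  · intro i hi
    by_cases hA : i ∈ A
    · simp only [hA, if_true]; exact p1 i hA
    · simp only [hA, if_false]
      rcases Finset.mem_union.1 hi with h | h
      · exact absurd h hA
      · exact p2 i h
  · intro i hi j hj hij
    by_cases hA : i ∈ A <;> by_cases hA' : j ∈ A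
    · simp only [hA, hA', if_true]; exact q1 i hA j hA' hij
    · have hj' : j ∈ B := by
        rcases Finset.mem_union.1 hj with h | h
        · exact absurd h hA'
        · exact h
      simp only [hA, hA', if_true, if_false]
      intro v hv hv'
      exact hST v ((r1 v).2 ⟨i, hA, hv⟩) ((r2 v).2 ⟨j, hj', hv'⟩)
    · have hi' : i ∈ B := by
        rcases Finset.mem_union.1 hi with h | h
        · exact absurd h hA
        · exact h
      simp only [hA, hA', if_true, if_false]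
      intro v hv hv'
      exact hST v ((r1 v).2 ⟨j, hA', hv'⟩) ((r2 v).2 ⟨i, hi', hv⟩)
    · have hi' : i ∈ B := by
        rcases Finset.mem_union.1 hi with h | h
        · exact absurd h hA
        · exact h
      have hj' : j ∈ B := by
        rcases Finset.mem_union.1 hj with h | h
        · exact absurd h hA'
        · exact h
      simp only [hA, hA', if_false]
      exact q2 i hi' j hj' hij
  · intro x
    rw [Finset.mem_union, r1, r2]
    constructor
    · rintro (⟨i, hi, hx⟩ | ⟨i, hi, hx⟩)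
      · exact ⟨i, Finset.mem_union_left _ hi, by simp only [hi, if_true]; exact hx⟩
      · exact ⟨i, Finset.mem_union_right _ hi, by simp only [hB i hi, if_false]; exact hx⟩
    · rintro ⟨i, hi, hx⟩
      by_cases hA : i ∈ A
      · simp only [hA, if_true] at hx
        exact Or.inl ⟨i, hA, hx⟩
      · simp only [hA, if_false] at hx
        rcases Finset.mem_union.1 hi with h | h
        · exact absurd h hA
        · exact Or.inr ⟨i, h, hx⟩

end LINK_

/-- the complete linking theorem -/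
theorem pLINK (hABS : T_ABS) (hPHJ : T_PHJ) (hFIN : T_FIN) : T_LINK := by
  intro V _ _ H g gw η p Ku d m b a ℓ K J E Wf N ρ R₁ WA Y Z M hm z' Γ
    hp hg hg2 hη hηg hKu hUU hK hℓ hgl hE hW dEE dWW dEW dPh d1 d2 d3 wWA oWA wZ oZ
    hΓ hhm hbd hμ hWAc hZc hZs hR1c ι _ I y y' hIc injy injy' hyy hout
  -- splitting of the index set
  obtain ⟨Ig, hIg, hIgc⟩ := Finset.exists_subset_card_eq
    (show (∑ x ∈ range M, (Γ x).card) ≤ I.card by omega)
  have hc1 : (I \ Ig).card = (∑ j ∈ range J, N j) + K * ρ J := by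
    rw [Finset.card_sdiff_of_subset hIg]; omega
  obtain ⟨Ip, hIp, hIpc⟩ := Finset.exists_subset_card_eq
    (show (∑ j ∈ range J, N j) ≤ (I \ Ig).card by omega)
  obtain ⟨If, hIf⟩ : ∃ If, If = (I \ Ig) \ Ip := ⟨_, rfl⟩
  have hIfc : If.card = K * ρ J := by
    rw [hIf, Finset.card_sdiff_of_subset hIp]; omega
  have hIpI : Ip ⊆ I := hIp.trans Finset.sdiff_subset
  have hIfI : If ⊆ I := by rw [hIf]; exact Finset.sdiff_subset.trans Finset.sdiff_subset
  have dgp : Disjoint Ig Ip := by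
    rw [Finset.disjoint_left]
    intro i hi hi'
    exact (Finset.mem_sdiff.1 (hIp hi')).2 hi
  have dgpf : Disjoint (Ig ∪ Ip) If := by
    rw [Finset.disjoint_left]
    intro i hi hi'
    rw [hIf, Finset.mem_sdiff, Finset.mem_sdiff] at hi'
    rcases Finset.mem_union.1 hi with h | h
    · exact hi'.1.2 h
    · exact hi'.2 h
  have hIU : Ig ∪ Ip ∪ If = I := by
    ext i
    simp only [Finset.mem_union, hIf, Finset.mem_sdiff]
    constructor
    · rintro ((h | h) | h)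
      · exact hIg h
      · exact hIpI h
      · exact h.1.1
    · intro h
      by_cases h1 : i ∈ Ig
      · exact Or.inl (Or.inl h1)
      · by_cases h2 : i ∈ Ip
        · exact Or.inl (Or.inr h2)
        · exact Or.inr ⟨⟨h, h1⟩, h2⟩
  -- the phases
  obtain ⟨P, hP⟩ : ∃ P, P = (range J).biUnion (fun j => Wf j ∪ (range K).biUnion (E j)) :=
    ⟨_, rfl⟩
  have hPm : ∀ v, v ∈ P ↔ ∃ j < J, v ∈ Wf j ∨ ∃ k < K, v ∈ E j k := by
    intro v
    rw [hP]
    simp only [Finset.mem_biUnion, Finset.mem_range, Finset.mem_union]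
  have hPd : ∀ v ∈ P, v ∉ R₁ ∧ v ∉ WA ∧ v ∉ Y ∧ v ∉ Z := by
    intro v hv
    obtain ⟨j, hj, h⟩ := (hPm v).1 hv
    have hall : v ∉ R₁ ∪ WA ∪ Y ∪ Z := by
      rcases h with h | ⟨k, hk, h⟩
      · exact Finset.disjoint_left.1 (dPh j hj).1 h
      · exact Finset.disjoint_left.1 ((dPh j hj).2 k hk) h
    simp only [Finset.mem_union, not_or] at hall
    exact ⟨hall.1.1.1, hall.1.1.2, hall.1.2, hall.2⟩
  have e1 : ∀ v ∈ R₁, v ∉ WA := fun v h => Finset.disjoint_left.1 d1 h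
  have e2 : ∀ v, v ∈ R₁ ∨ v ∈ WA → v ∉ Y := fun v h =>
    Finset.disjoint_left.1 d2 (Finset.mem_union.2 h)
  have e3 : ∀ v, v ∈ R₁ ∨ v ∈ WA ∨ v ∈ Y → v ∉ Z := fun v h =>
    Finset.disjoint_left.1 d3 (by simp only [Finset.mem_union]; tauto)
  have houtm : ∀ i ∈ I, (y i ∉ R₁ ∧ y i ∉ WA ∧ y i ∉ Y ∧ y i ∉ Z ∧ y i ∉ P) ∧
      (y' i ∉ R₁ ∧ y' i ∉ WA ∧ y' i ∉ Y ∧ y' i ∉ Z ∧ y' i ∉ P) := by
    intro i hi
    obtain ⟨h1, h2, h3⟩ := hout i hi
    simp only [Finset.mem_union, not_or] at h1 h2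
    refine ⟨⟨h1.1.1.1, h1.1.1.2, h1.1.2, h1.2, ?_⟩, ⟨h2.1.1.1, h2.1.1.2, h2.1.2, h2.2, ?_⟩⟩
    · intro hv
      obtain ⟨j, hj, h | ⟨k, hk, h⟩⟩ := (hPm _).1 hv
      · exact (h3 j hj).1 h
      · exact ((h3 j hj).2.2 k hk).1 h
    · intro hv
      obtain ⟨j, hj, h | ⟨k, hk, h⟩⟩ := (hPm _).1 hv
      · exact (h3 j hj).2.1 h
      · exact ((h3 j hj).2.2 k hk).2 h
  -- the absorber
  have hIgcR : (Ig.card : ℝ) = ∑ x ∈ range M, ((Γ x).card : ℝ) := by
    rw [hIgc]; push_cast; rfl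
  obtain ⟨FA, hFA, hFAc, hFAl⟩ := hABS V H WA gw d m b a ℓ wWA oWA hgl M hm Γ (Y ∪ Z) hΓ hhm hbd
    (by
      rw [Finset.disjoint_left]
      intro v hv hv'
      rcases Finset.mem_union.1 hv with h | h
      · exact e2 v (Or.inr hv') h
      · exact e3 v (Or.inr (Or.inl hv')) h)
    ι Ig y y' hIgc (injy.mono (by exact_mod_cast hIg)) (injy'.mono (by exact_mod_cast hIg))
    (fun i hi j hj => hyy i (hIg hi) j (hIg hj))
    (by
      intro i hi
      have h := houtm i (hIg hi)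
      simp only [Finset.mem_union, not_or]
      exact ⟨⟨h.1.2.1, h.1.2.2.1, h.1.2.2.2.1⟩, ⟨h.2.2.1, h.2.2.2.1, h.2.2.2.2.1⟩⟩)
    (by rw [hIgcR]; exact hWAc)
  rw [hIgc] at hFAc
  have hFAle : FA.card ≤ WA.card := Finset.card_le_card hFA
  -- the phases
  obtain ⟨R₀, hR₀⟩ : ∃ R₀, R₀ = R₁ ∪ (WA \ FA) := ⟨_, rfl⟩
  have hR₀m : ∀ v, v ∈ R₀ ↔ v ∈ R₁ ∨ (v ∈ WA ∧ v ∉ FA) := by
    intro v; rw [hR₀, Finset.mem_union, Finset.mem_sdiff]
  have hR₀c : R₀.card = K * ρ 0 := by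
    rw [hR₀, Finset.card_union_of_disjoint
      (Finset.disjoint_of_subset_right Finset.sdiff_subset d1),
      Finset.card_sdiff_of_subset hFA]
    omega
  have hR₀P : ∀ v ∈ R₀, v ∉ P := by
    intro v hv hvP
    have := hPd v hvP
    rcases (hR₀m v).1 hv with h | h
    · exact this.1 h
    · exact this.2.1 h.1
  obtain ⟨R, hR, hRc, hRl⟩ := hPHJ V H g gw η p Ku d m b a ℓ K J E Wf N ρ R₀ hp hg hg2 hη hηg
    hKu hUU hK hℓ hE hW hR₀c dEE dWW dEW
    (by
      intro j hj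
      refine ⟨?_, fun i hi => ?_⟩
      · rw [Finset.disjoint_left]
        intro v hv hv'
        exact hR₀P v hv' ((hPm v).2 ⟨j, hj, Or.inl hv⟩)
      · rw [Finset.disjoint_left]
        intro v hv hv'
        exact hR₀P v hv' ((hPm v).2 ⟨j, hj, Or.inr ⟨i, hi, hv⟩⟩))
    ι Ip y y' hIpc (injy.mono (by exact_mod_cast hIpI)) (injy'.mono (by exact_mod_cast hIpI))
    (fun i hi j hj => hyy i (hIpI hi) j (hIpI hj))
    (by
      intro i hi
      have h := houtm i (hIpI hi)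
      have h3 := (hout i (hIpI hi)).2.2
      refine ⟨?_, ?_, h3⟩
      · rw [hR₀m]; intro hc
        rcases hc with hc | hc
        · exact h.1.1 hc
        · exact h.1.2.1 hc.1
      · rw [hR₀m]; intro hc
        rcases hc with hc | hc
        · exact h.2.1 hc
        · exact h.2.2.1 hc.1)
  rw [← hP] at hR hRl
  have hRm : ∀ v ∈ R, v ∈ R₀ ∨ v ∈ P := fun v hv => Finset.mem_union.1 (hR hv)
  have hRZ : ∀ v ∈ R, v ∉ Z := by
    intro v hv hz
    rcases hRm v hv with h | h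
    · rcases (hR₀m v).1 h with h | h
      · exact e3 v (Or.inl h) hz
      · exact e3 v (Or.inr (Or.inl h.1)) hz
    · exact (hPd v h).2.2.2 hz
  -- the final set
  obtain ⟨FZ, hFZ, hFZc, hFZl⟩ := hFIN V H Z gw d m b a ℓ wZ oZ (by omega) R
    (Finset.disjoint_left.2 hRZ) (by rw [hRc]; push_cast; exact hZs) ι If y y'
    (by rw [hIfc, hRc]) (injy.mono (by exact_mod_cast hIfI))
    (injy'.mono (by exact_mod_cast hIfI)) (fun i hi j hj => hyy i (hIfI hi) j (hIfI hj))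
    (by
      intro i hi
      have h := houtm i (hIfI hi)
      simp only [Finset.mem_union, not_or]
      refine ⟨⟨?_, h.1.2.2.2.1⟩, ⟨?_, h.2.2.2.2.1⟩⟩
      · intro hc
        rcases hRm _ hc with h' | h'
        · rcases (hR₀m _).1 h' with h'' | h''
          · exact h.1.1 h''
          · exact h.1.2.1 h''.1
        · exact h.1.2.2.2.2 h'
      · intro hc
        rcases hRm _ hc with h' | h'
        · rcases (hR₀m _).1 h' with h'' | h''
          · exact h.2.1 h''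
          · exact h.2.2.1 h''.1
        · exact h.2.2.2.2.2 h')
  rw [hRc] at hFZc
  obtain ⟨μ, hμb, hμΓ⟩ := hμ (Z \ FZ) Finset.sdiff_subset (by
    rw [Finset.card_sdiff_of_subset hFZ]; omega)
  have hLg := hFAl (Y ∪ (Z \ FZ)) μ hμb hμΓ
  -- the union of the three linkings
  have m1 : ∀ v, v ∈ FA ∪ (Y ∪ Z \ FZ) ↔ v ∈ FA ∨ v ∈ Y ∨ (v ∈ Z ∧ v ∉ FZ) := by
    intro v; simp only [Finset.mem_union, Finset.mem_sdiff]
  have m2 : ∀ v, v ∈ (R₀ ∪ P) \ R ↔ (v ∈ R₀ ∨ v ∈ P) ∧ v ∉ R := by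
    intro v; simp only [Finset.mem_union, Finset.mem_sdiff]
  have hFZR : ∀ v ∈ FZ, v ∉ R₀ ∧ v ∉ P ∧ v ∉ FA ∧ v ∉ Y := by
    intro v hv
    have hz := hFZ hv
    refine ⟨fun h => ?_, fun h => (hPd v h).2.2.2 hz, fun h => e3 v (Or.inr (Or.inl (hFA h))) hz,
      fun h => e3 v (Or.inr (Or.inr h)) hz⟩
    rcases (hR₀m v).1 h with h | h
    · exact e3 v (Or.inl h) hz
    · exact e3 v (Or.inr (Or.inl h.1)) hz
  have n1 : ∀ v, v ∈ FA ∨ v ∈ Y ∨ (v ∈ Z ∧ v ∉ FZ) → ¬ (v ∈ R₀ ∨ v ∈ P) := by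
    rintro v (h | h | h) (h' | h')
    · rcases (hR₀m v).1 h' with h'' | h''
      · exact e1 v h'' (hFA h)
      · exact h''.2 h
    · exact (hPd v h').2.1 (hFA h)
    · rcases (hR₀m v).1 h' with h'' | h''
      · exact e2 v (Or.inl h'') h
      · exact e2 v (Or.inr h''.1) h
    · exact (hPd v h').2.2.1 h
    · rcases (hR₀m v).1 h' with h'' | h''
      · exact e3 v (Or.inl h'') h.1
      · exact e3 v (Or.inr (Or.inl h''.1)) h.1
    · exact (hPd v h').2.2.2 h.1
  have L1 := LINK_.union H ℓ Ig Ip y y' _ _ dgp (by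
    intro v hv hv'
    exact n1 v ((m1 v).1 hv) ((m2 v).1 hv').1) hLg hRl
  have L2 := LINK_.union H ℓ (Ig ∪ Ip) If y y' _ _ dgpf (by
    intro v hv hv'
    rcases Finset.mem_union.1 hv with h | h
    · rcases Finset.mem_union.1 hv' with h' | h'
      · exact n1 v ((m1 v).1 h) (hRm v h')
      · have hz := hFZR v h'
        rcases (m1 v).1 h with h | h | h
        · exact hz.2.2.1 h
        · exact hz.2.2.2 h
        · exact h.2 h'
    · rcases Finset.mem_union.1 hv' with h' | h'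
      · exact ((m2 v).1 h).2 h'
      · have hz := hFZR v h'
        rcases ((m2 v).1 h).1 with h | h
        · exact hz.1 h
        · exact hz.2.1 h) L1 hFZl
  rw [hIU] at L2
  rw [← hP]
  convert L2 using 1
  ext v
  have m3 : v ∈ FA ∪ (Y ∪ Z \ FZ) ∪ (R₀ ∪ P) \ R ∪ (R ∪ FZ) ↔
      ((v ∈ FA ∨ v ∈ Y ∨ (v ∈ Z ∧ v ∉ FZ)) ∨ ((v ∈ R₀ ∨ v ∈ P) ∧ v ∉ R)) ∨ (v ∈ R ∨ v ∈ FZ) := by
    simp only [Finset.mem_union, Finset.mem_sdiff]
  rw [m3]
  simp only [Finset.mem_union]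
  constructor
  · rintro ((((h | h) | h) | h) | h)
    · by_cases hr : v ∈ R
      · exact Or.inr (Or.inl hr)
      · exact Or.inl (Or.inr ⟨Or.inl ((hR₀m v).2 (Or.inl h)), hr⟩)
    · by_cases hf : v ∈ FA
      · exact Or.inl (Or.inl (Or.inl hf))
      · by_cases hr : v ∈ R
        · exact Or.inr (Or.inl hr)
        · exact Or.inl (Or.inr ⟨Or.inl ((hR₀m v).2 (Or.inr ⟨h, hf⟩)), hr⟩)
    · exact Or.inl (Or.inl (Or.inr (Or.inl h)))
    · by_cases hf : v ∈ FZ
      · exact Or.inr (Or.inr hf)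
      · exact Or.inl (Or.inl (Or.inr (Or.inr ⟨h, hf⟩)))
    · by_cases hr : v ∈ R
      · exact Or.inr (Or.inl hr)
      · exact Or.inl (Or.inr ⟨Or.inr h, hr⟩)
  · have hr0 : v ∈ R₀ → (((v ∈ R₁ ∨ v ∈ WA) ∨ v ∈ Y) ∨ v ∈ Z) ∨ v ∈ P := fun h => by
      rcases (hR₀m v).1 h with h | h
      · exact Or.inl (Or.inl (Or.inl (Or.inl h)))
      · exact Or.inl (Or.inl (Or.inl (Or.inr h.1)))
    rintro (((h | h | h) | h) | (h | h))
    · exact Or.inl (Or.inl (Or.inl (Or.inr (hFA h))))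
    · exact Or.inl (Or.inl (Or.inr h))
    · exact Or.inl (Or.inr h.1)
    · rcases h.1 with h | h
      · exact hr0 h
      · exact Or.inr h
    · rcases hRm v h with h | h
      · exact hr0 h
      · exact Or.inr h
    · exact Or.inl (Or.inr (hFZ h))

end Pool.Agent.RST
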