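import Pool.Agent.RST.Targets

/-!
# RST: MULTI, connecting many pairs by paths of prescribed lengths
-/

set_option autoImplicit false

open Finset

namespace Pool.Agent.RST

namespace MULTI_

private lemma key (h : T_CONN) (V : Type) [Fintype V] [DecidableEq V] (H : SimpleGraph V)
    (W : Finset V) (g : ℝ) (d m b a ℓ : ℕ) (hW : WPar H W g d m b a ℓ) (hOK : OK H W d m ∅ ∅)
    (ι : Type) [DecidableEq ι] (A : Finset ι) (x y : ι → V) (L : ι → ℕ) (r : ℕ)
    (hbr : b + r ≤ d)
    (hA : ∀ i ∈ A, x i ≠ y i ∧ x i ∉ W ∧ y i ∉ W ∧ 2 * a + 2 ≤ L i ∧ L i ≤ ℓ)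
    (hr : ∀ v, (A.filter (fun i => x i = v ∨ y i = v)).card ≤ r)
    (hL : 4 * (∑ i ∈ A, (L i : ℝ)) ≤ g * W.card) (B : Finset ι) :
    B ⊆ A → ∃ (l : ι → List V) (J : Finset (V × V)) (F : Finset V), OK H W d m J F ∧
      (∀ i ∈ B, Pth H (L i) (x i) (y i) (l i)) ∧ (∀ i ∈ B, ∀ v ∈ l i, v ∈ W) ∧
      (∀ i ∈ B, ∀ j ∈ B, i ≠ j → List.Disjoint (l i) (l j)) ∧
      used J F = B.biUnion (fun i => (l i).toFinset) ∧
      ∀ v, v ∉ W → od J v ≤ (B.filter (fun i => x i = v ∨ y i = v)).card := by
  induction B using Finset.induction_on with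
  | empty =>
    intro _
    refine ⟨fun _ => [], ∅, ∅, hOK, by simp, by simp, by simp, ?_, ?_⟩
    · simp [used]
    · intro v _
      simp [od]
  | insert i B hi ih =>
    intro hB
    have hiA : i ∈ A := hB (mem_insert_self _ _)
    have hBA : B ⊆ A := fun j hj => hB (mem_insert_of_mem hj)
    obtain ⟨l, J, F, h1, h2, h3, h4, h5, h6⟩ := ih hBA
    obtain ⟨hxy, hxW, hyW, hL1, hL2⟩ := hA i hiA
    have hcard : 4 * ((used J F).card : ℝ) ≤ g * W.card := by
      have e1 : (used J F).card ≤ ∑ j ∈ B, L j := by
        rw [h5]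
        refine card_biUnion_le.trans (sum_le_sum fun j hj => ?_)
        have e2 := (h2 j hj).1
        have e3 := (l j).toFinset_card_le
        omega
      have e2 : ∑ j ∈ B, L j ≤ ∑ j ∈ A, L j := sum_le_sum_of_subset hBA
      have e3 : ((used J F).card : ℝ) ≤ ∑ j ∈ A, (L j : ℝ) := by
        exact_mod_cast e1.trans e2
      linarith
    have hod : ∀ v, v ∉ W → od J v + b ≤ d := by
      intro v hv
      have e1 := h6 v hv
      have e2 := hr v
      have e3 : (B.filter (fun i => x i = v ∨ y i = v)).card ≤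
          (A.filter (fun i => x i = v ∨ y i = v)).card :=
        card_le_card (filter_subset_filter _ hBA)
      omega
    obtain ⟨li, J', F', k1, k2, k3, k4, k5, k6⟩ := h V H W g d m b a ℓ J F hW h1 hcard (x i) (y i)
      hxy (fun hx => absurd hx hxW) (fun hy => absurd hy hyW) (hod _ hxW) (hod _ hyW) (L i) hL1 hL2
    have hne : ∀ j ∈ B, j ≠ i := fun j hj hji => hi (hji ▸ hj)
    have hup : ∀ j ∈ B, Function.update l i li j = l j := fun j hj =>
      Function.update_of_ne (hne j hj) _ _
    have hupi : Function.update l i li i = li := Function.update_self _ _ _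
    have hdis : ∀ j ∈ B, List.Disjoint li (l j) := by
      intro j hj v hv hv'
      refine (k3 v hv).2 ?_
      rw [h5, mem_biUnion]
      exact ⟨j, hj, List.mem_toFinset.2 hv'⟩
    refine ⟨Function.update l i li, J', F', k1, ?_, ?_, ?_, ?_, ?_⟩
    · intro j hj
      rcases mem_insert.1 hj with rfl | hj
      · rw [hupi]; exact k2
      · rw [hup j hj]; exact h2 j hj
    · intro j hj v hv
      rcases mem_insert.1 hj with rfl | hj
      · rw [hupi] at hv; exact (k3 v hv).1
      · rw [hup j hj] at hv; exact h3 j hj v hv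
    · intro j hj j' hj' hjj
      rcases mem_insert.1 hj with hji | hjB
      · rcases mem_insert.1 hj' with hji' | hjB'
        · exact absurd (hji.trans hji'.symm) hjj
        · rw [hji, hupi, hup j' hjB']
          exact hdis j' hjB'
      · rcases mem_insert.1 hj' with hji' | hjB'
        · rw [hji', hupi, hup j hjB]
          exact (hdis j hjB).symm
        · rw [hup j hjB, hup j' hjB']
          exact h4 j hjB j' hjB' hjj
    · rw [k4, h5, biUnion_insert, hupi, union_comm]
      congr 1
      exact biUnion_congr rfl fun j hj => by rw [hup j hj]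
    · intro v hv
      have hvl : v ∉ li := fun hvl => hv (k3 v hvl).1
      by_cases hxv : x i = v ∨ y i = v
      · have e1 : ((insert i B).filter (fun i => x i = v ∨ y i = v)).card =
            (B.filter (fun i => x i = v ∨ y i = v)).card + 1 := by
          rw [filter_insert, if_pos hxv, card_insert_of_notMem]
          intro hmem
          exact hi (mem_filter.1 hmem).1
        rw [e1]
        have := k5 v
        have := h6 v hv
        omega
      · have e1 : ((insert i B).filter (fun i => x i = v ∨ y i = v)) =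
            (B.filter (fun i => x i = v ∨ y i = v)) := by
          rw [filter_insert, if_neg hxv]
        rw [e1]
        push Not at hxv
        rw [k6 v (Ne.symm hxv.1) (Ne.symm hxv.2) hvl]
        exact h6 v hv

end MULTI_

theorem pMULTI (h : T_CONN) : T_MULTI := by
  intro V _ _ H W g d m b a ℓ hW hOK ι _ A x y L r hbr hA hr hL
  obtain ⟨l, J, F, -, h2, h3, h4, -, -⟩ := MULTI_.key h V H W g d m b a ℓ hW hOK ι A x y L r hbr hA
    hr hL A (Subset.refl _)
  exact ⟨l, h2, h3, h4⟩

end Pool.Agent.RST
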