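import Pool.Agent.RST.Targets

/-!
# PHA: one phase
-/

set_option autoImplicit false

open Finset

namespace Pool.Agent.RST

namespace PHA_

lemma chain_range {V : Type} (R : V → V → Prop) (f : ℕ → V) :
    ∀ k : ℕ, (∀ j < k, R (f j) (f (j + 1))) → ((List.range (k + 1)).map f).IsChain R := by
  intro k
  induction k with
  | zero =>
    intro _
    simp
  | succ k ih =>
    intro h
    have h1 := ih (fun j hj => h j (by omega))
    rw [List.range_succ, List.map_append, List.isChain_append]
    refine ⟨h1, by simp, ?_⟩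
    intro x hx z hz
    rw [List.range_succ, List.map_append] at hx
    simp at hx hz
    rw [← hx, ← hz]
    exact h k (by omega)

lemma glue {V : Type} (R : V → V → Prop) (x z : V) (l₁ l₂ : List V) (f : ℕ → V) (k : ℕ)
    (h1 : (x :: (l₁ ++ [f 0])).IsChain R) (h2 : ((List.range (k + 1)).map f).IsChain R)
    (h3 : (f k :: (l₂ ++ [z])).IsChain R) :
    (x :: ((l₁ ++ ((List.range (k + 1)).map f ++ l₂)) ++ [z])).IsChain R := by
  have e1 : (List.range (k + 1)).map f = f 0 :: (List.range k).map (fun j => f (j + 1)) := by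
    rw [List.range_succ_eq_map, List.map_cons, List.map_map]
    rfl
  have e2 : (List.range (k + 1)).map f = (List.range k).map f ++ [f k] := by
    rw [List.range_succ, List.map_append]
    rfl
  have h4 : ((x :: l₁) ++ (List.range (k + 1)).map f).IsChain R := by
    rw [e1, List.isChain_split]
    rw [e1] at h2
    exact ⟨h1, h2⟩
  have h5 : (((x :: l₁) ++ (List.range k).map f) ++ f k :: (l₂ ++ [z])).IsChain R := by
    rw [List.isChain_split]
    refine ⟨?_, h3⟩
    rw [List.append_assoc, ← e2]
    exact h4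
  have e3 : x :: ((l₁ ++ ((List.range (k + 1)).map f ++ l₂)) ++ [z]) =
      ((x :: l₁) ++ (List.range k).map f) ++ f k :: (l₂ ++ [z]) := by
    rw [e2]
    simp [List.append_assoc]
  rw [e3]
  exact h5

end PHA_

open PHA_ in
/-- PHA: one phase -/
theorem pPHA (h1 : T_PM) (h2 : T_MULTI) : T_PHA := by
  intro V _ _ H W g gw η p Ku d m b a ℓ K N hp hg hg2 hη hη2 hKu hUU hWP hOK hK hℓ A hA hdis hKuN
    hNW ι _ I y y' hI hy hy' hyy' hout
  -- the matchings
  have hM : ∀ i : ℕ, ∃ M : V → V, i + 1 < K → Set.BijOn M (A i) (A (i + 1)) ∧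
      ∀ x ∈ A i, H.Adj x (M x) := by
    intro i
    by_cases hi : i + 1 < K
    · have e1 := hA i (by omega)
      have e2 := hA (i + 1) hi
      obtain ⟨M, hM⟩ := h1 V H η p Ku g (A i) (A (i + 1)) hp hg hη hη2 hKu hUU
        (by rw [e1.1, e2.1]) (by rw [e1.1]; exact hKuN)
        (fun x _ => by rw [e1.1]; exact e2.2.1 x) (fun x _ => by rw [e1.1]; exact e1.2.1 x)
      exact ⟨M, fun _ => hM⟩
    · exact ⟨fun x => x, fun h => absurd h hi⟩
  choose M hM using hM
  -- the paths
  obtain ⟨s, hs⟩ : ∃ s : ι → V, Set.BijOn s I (A 0) := by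
    have hcard : I.card = (A 0).card := by rw [hI, (hA 0 (by omega)).1]
    let e := Finset.equivOfCardEq hcard
    by_cases hIe : I.Nonempty
    · obtain ⟨i0, hi0⟩ := hIe
      refine ⟨fun i => if h : i ∈ I then (e ⟨i, h⟩ : V) else (e ⟨i0, hi0⟩ : V), ?_, ?_, ?_⟩
      · intro i hi
        have hi' : i ∈ I := hi
        simp only [hi', dif_pos]
        exact (e ⟨i, hi'⟩).2
      · intro i hi j hj hij
        have hi' : i ∈ I := hi
        have hj' : j ∈ I := hj
        simp only [hi', hj', dif_pos] at hij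
        have := e.injective (Subtype.ext hij)
        exact congrArg Subtype.val this
      · intro v hv
        have hv' : v ∈ A 0 := hv
        refine ⟨e.symm ⟨v, hv'⟩, (e.symm ⟨v, hv'⟩).2, ?_⟩
        simp
    · rw [Finset.not_nonempty_iff_eq_empty] at hIe
      have hA0 : A 0 = ∅ := by
        rw [← Finset.card_eq_zero, ← hcard, hIe, Finset.card_empty]
      by_cases hV : Nonempty V
      · obtain ⟨v0⟩ := hV
        refine ⟨fun _ => v0, ?_⟩
        rw [hIe, hA0]
        simp
      · refine ⟨fun i => y i, ?_⟩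
        rw [hIe, hA0]
        simp
  obtain ⟨c, hc0, hcs⟩ : ∃ c : ℕ → ι → V, c 0 = s ∧ ∀ j i, c (j + 1) i = M j (c j i) :=
    ⟨fun j i => Nat.rec (s i) (fun j v => M j v) j, rfl, fun _ _ => rfl⟩
  have hcb : ∀ j, j < K → Set.BijOn (c j) I (A j) := by
    intro j
    induction j with
    | zero =>
      intro _
      rw [hc0]
      exact hs
    | succ j ih =>
      intro hj
      have e1 := ih (by omega)
      have e2 := (hM j hj).1
      have e3 : c (j + 1) = M j ∘ c j := by
        funext i
        exact hcs j i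
      rw [e3]
      exact e2.comp e1
  have hcA : ∀ j < K, ∀ i ∈ I, c j i ∈ A j := fun j hj i hi => (hcb j hj).mapsTo hi
  have hcinj : ∀ j < K, ∀ j' < K, ∀ i ∈ I, ∀ i' ∈ I, c j i = c j' i' → j = j' ∧ i = i' := by
    intro j hj j' hj' i hi i' hi' he
    have ejj : j = j' := by
      by_contra hne
      have e1 := Finset.disjoint_left.1 (hdis j hj j' hj' hne) (hcA j hj i hi)
      rw [he] at e1
      exact e1 (hcA j' hj' i' hi')
    subst ejj
    exact ⟨rfl, (hcb j hj).injOn hi hi' he⟩
  have hcW : ∀ j < K, ∀ i ∈ I, c j i ∉ W := fun j hj i hi =>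
    Finset.disjoint_left.1 (hA j hj).2.2 (hcA j hj i hi)
  have hadj : ∀ j, j + 1 < K → ∀ i ∈ I, H.Adj (c j i) (c (j + 1) i) := by
    intro j hj i hi
    rw [hcs]
    exact (hM j hj).2 _ (hcA j (by omega) i hi)
  have hyc : ∀ j < K, ∀ i ∈ I, ∀ i' ∈ I, y i ≠ c j i' := by
    intro j hj i hi i' hi' he
    exact ((hout i hi).2.2 j hj).1 (by rw [he]; exact hcA j hj i' hi')
  have hyc' : ∀ j < K, ∀ i ∈ I, ∀ i' ∈ I, y' i ≠ c j i' := by
    intro j hj i hi i' hi' he
    exact ((hout i hi).2.2 j hj).2 (by rw [he]; exact hcA j hj i' hi')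
  obtain ⟨k, rfl⟩ : ∃ k, K = k + 1 := ⟨K - 1, by omega⟩
  -- the connections
  obtain ⟨l, hlP, hlW, hld⟩ := h2 V H W gw d m b a ℓ hWP hOK (ι × Bool) (I ×ˢ (univ : Finset Bool))
    (fun q => if q.2 then c k q.1 else y q.1) (fun q => if q.2 then y' q.1 else c 0 q.1)
    (fun _ => 2 * a + 2) 1 (by have := hWP.bd; omega)
    (by
      rintro ⟨i, β⟩ hi
      have hi' : i ∈ I := (Finset.mem_product.1 hi).1
      cases β
      · simp only [Bool.false_eq_true, if_false]
        exact ⟨hyc 0 (by omega) i hi' i hi', (hout i hi').1, hcW 0 (by omega) i hi', le_rfl,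
          by omega⟩
      · simp only [if_true]
        exact ⟨(hyc' k (by omega) i hi' i hi').symm, hcW k (by omega) i hi', (hout i hi').2.1,
          le_rfl, by omega⟩)
    (by
      intro v
      rw [Finset.card_le_one]
      rintro ⟨i, β⟩ hi ⟨j, γ⟩ hj
      rw [Finset.mem_filter, Finset.mem_product] at hi hj
      obtain ⟨⟨hi1, -⟩, hi2⟩ := hi
      obtain ⟨⟨hj1, -⟩, hj2⟩ := hj
      simp only at hi1 hj1
      cases β <;> cases γ <;> simp only [Bool.false_eq_true, if_false, if_true] at hi2 hj2
      · rcases hi2 with hi2 | hi2 <;> rcases hj2 with hj2 | hj2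
        · rw [hy hi1 hj1 (hi2.trans hj2.symm)]
        · exact absurd (hi2.trans hj2.symm) (hyc 0 (by omega) i hi1 j hj1)
        · exact absurd (hj2.trans hi2.symm) (hyc 0 (by omega) j hj1 i hi1)
        · rw [(hcinj 0 (by omega) 0 (by omega) i hi1 j hj1 (hi2.trans hj2.symm)).2]
      · rcases hi2 with hi2 | hi2 <;> rcases hj2 with hj2 | hj2
        · exact absurd (hi2.trans hj2.symm) (hyc k (by omega) i hi1 j hj1)
        · exact absurd (hi2.trans hj2.symm) (hyy' i hi1 j hj1)
        · have := (hcinj 0 (by omega) k (by omega) i hi1 j hj1 (hi2.trans hj2.symm)).1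
          omega
        · exact absurd (hj2.trans hi2.symm) (hyc' 0 (by omega) j hj1 i hi1)
      · rcases hi2 with hi2 | hi2 <;> rcases hj2 with hj2 | hj2
        · exact absurd (hj2.trans hi2.symm) (hyc k (by omega) j hj1 i hi1)
        · have := (hcinj 0 (by omega) k (by omega) j hj1 i hi1 (hj2.trans hi2.symm)).1
          omega
        · exact absurd (hj2.trans hi2.symm) (hyy' j hj1 i hi1)
        · exact absurd (hi2.trans hj2.symm) (hyc' 0 (by omega) i hi1 j hj1)
      · rcases hi2 with hi2 | hi2 <;> rcases hj2 with hj2 | hj2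
        · rw [(hcinj k (by omega) k (by omega) i hi1 j hj1 (hi2.trans hj2.symm)).2]
        · exact absurd (hj2.trans hi2.symm) (hyc' k (by omega) j hj1 i hi1)
        · exact absurd (hi2.trans hj2.symm) (hyc' k (by omega) i hi1 j hj1)
        · rw [hy' hi1 hj1 (hi2.trans hj2.symm)])
    (by
      rw [Finset.sum_const, Finset.card_product, hI, Finset.card_univ, Fintype.card_bool,
        nsmul_eq_mul]
      push_cast
      linarith)
  have hlen : ∀ i ∈ I, ∀ β : Bool, (l (i, β)).length = 2 * a + 1 := by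
    intro i hi β
    have := (hlP (i, β) (Finset.mem_product.2 ⟨hi, Finset.mem_univ _⟩)).1
    omega
  have hmem : ∀ i ∈ I, ∀ β : Bool, (i, β) ∈ I ×ˢ (univ : Finset Bool) := fun i hi β =>
    Finset.mem_product.2 ⟨hi, Finset.mem_univ _⟩
  have hmid : ∀ (i : ι) (x : V), x ∈ (List.range (k + 1)).map (fun j => c j i) ↔
      ∃ j < k + 1, c j i = x := by
    intro i x
    rw [List.mem_map]
    constructor
    · rintro ⟨j, hj, rfl⟩
      exact ⟨j, List.mem_range.1 hj, rfl⟩
    · rintro ⟨j, hj, rfl⟩
      exact ⟨j, List.mem_range.2 hj, rfl⟩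
  refine ⟨(I ×ˢ (univ : Finset Bool)).biUnion (fun q => (l q).toFinset), ?_, ?_,
    fun i => l (i, false) ++ ((List.range (k + 1)).map (fun j => c j i) ++ l (i, true)),
    ?_, ?_, ?_⟩
  · intro v hv
    rw [Finset.mem_biUnion] at hv
    obtain ⟨q, hq, hv⟩ := hv
    exact hlW q hq v (List.mem_toFinset.1 hv)
  · rw [Finset.card_biUnion]
    · have e1 : ∀ q ∈ I ×ˢ (univ : Finset Bool), (l q).toFinset.card = 2 * a + 1 := by
        rintro ⟨i, β⟩ hq
        rw [List.toFinset_card_of_nodup (hlP _ hq).2.1]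
        exact hlen i (Finset.mem_product.1 hq).1 β
      rw [Finset.sum_congr rfl e1, Finset.sum_const, Finset.card_product, hI, Finset.card_univ,
        Fintype.card_bool, smul_eq_mul]
      ring
    · intro q hq q' hq' hne
      change Disjoint (l q).toFinset (l q').toFinset
      rw [Finset.disjoint_left]
      intro v hv hv'
      exact hld q hq q' hq' hne (List.mem_toFinset.1 hv) (List.mem_toFinset.1 hv')
  · intro i hi
    have hF := hlP (i, false) (hmem i hi false)
    have hT := hlP (i, true) (hmem i hi true)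
    simp only [Bool.false_eq_true, if_false, if_true] at hF hT
    refine ⟨?_, ?_, ?_⟩
    · rw [List.length_append, List.length_append, List.length_map, List.length_range,
        hlen i hi false, hlen i hi true]
      omega
    · rw [List.nodup_append', List.nodup_append']
      refine ⟨hF.2.1, ⟨?_, hT.2.1, ?_⟩, ?_⟩
      · refine List.Nodup.map_on ?_ List.nodup_range
        intro j hj j' hj' he
        exact (hcinj j (List.mem_range.1 hj) j' (List.mem_range.1 hj') i hi i hi he).1
      · intro v hv hv'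
        obtain ⟨j, hj, rfl⟩ := (hmid i v).1 hv
        exact hcW j hj i hi (hlW _ (hmem i hi true) _ hv')
      · intro v hv hv'
        rw [List.mem_append] at hv'
        rcases hv' with hv' | hv'
        · obtain ⟨j, hj, rfl⟩ := (hmid i v).1 hv'
          exact hcW j hj i hi (hlW _ (hmem i hi false) _ hv)
        · exact hld _ (hmem i hi false) _ (hmem i hi true) (by simp) hv hv'
    · exact glue H.Adj (y i) (y' i) (l (i, false)) (l (i, true)) (fun j => c j i) k hF.2.2
        (chain_range H.Adj (fun j => c j i) k (fun j hj => hadj j (by omega) i hi)) hT.2.2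
  · intro i hi j hj hij v hv hv'
    rw [List.mem_append, List.mem_append] at hv hv'
    have hne : ∀ β γ : Bool, ((i, β) : ι × Bool) ≠ (j, γ) := by
      intro β γ h
      exact hij (Prod.mk.inj h).1
    rcases hv with hv | hv | hv <;> rcases hv' with hv' | hv' | hv'
    · exact hld _ (hmem i hi false) _ (hmem j hj false) (hne _ _) hv hv'
    · obtain ⟨t, ht, rfl⟩ := (hmid j v).1 hv'
      exact hcW t ht j hj (hlW _ (hmem i hi false) _ hv)
    · exact hld _ (hmem i hi false) _ (hmem j hj true) (hne _ _) hv hv'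
    · obtain ⟨t, ht, rfl⟩ := (hmid i v).1 hv
      exact hcW t ht i hi (hlW _ (hmem j hj false) _ hv')
    · obtain ⟨t, ht, rfl⟩ := (hmid i v).1 hv
      obtain ⟨t', ht', he⟩ := (hmid j _).1 hv'
      exact hij (hcinj t' ht' t ht j hj i hi he).2.symm
    · obtain ⟨t, ht, rfl⟩ := (hmid i v).1 hv
      exact hcW t ht i hi (hlW _ (hmem j hj true) _ hv')
    · exact hld _ (hmem i hi true) _ (hmem j hj false) (hne _ _) hv hv'
    · obtain ⟨t, ht, rfl⟩ := (hmid j v).1 hv'
      exact hcW t ht j hj (hlW _ (hmem i hi true) _ hv)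
    · exact hld _ (hmem i hi true) _ (hmem j hj true) (hne _ _) hv hv'
  · intro x
    rw [Finset.mem_union, Finset.mem_biUnion, Finset.mem_biUnion]
    constructor
    · rintro (⟨j, hj, hx⟩ | ⟨⟨i, β⟩, hq, hx⟩)
      · obtain ⟨i, hi, rfl⟩ := (hcb j (Finset.mem_range.1 hj)).surjOn hx
        refine ⟨i, hi, ?_⟩
        rw [List.mem_append, List.mem_append]
        exact Or.inr (Or.inl ((hmid i _).2 ⟨j, Finset.mem_range.1 hj, rfl⟩))
      · refine ⟨i, (Finset.mem_product.1 hq).1, ?_⟩
        rw [List.mem_append, List.mem_append]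
        cases β
        · exact Or.inl (List.mem_toFinset.1 hx)
        · exact Or.inr (Or.inr (List.mem_toFinset.1 hx))
    · rintro ⟨i, hi, hx⟩
      rw [List.mem_append, List.mem_append] at hx
      rcases hx with hx | hx | hx
      · exact Or.inr ⟨(i, false), hmem i hi false, List.mem_toFinset.2 hx⟩
      · obtain ⟨j, hj, rfl⟩ := (hmid i x).1 hx
        exact Or.inl ⟨j, Finset.mem_range.2 hj, hcA j hj i hi⟩
      · exact Or.inr ⟨(i, true), hmem i hi true, List.mem_toFinset.2 hx⟩

end Pool.Agent.RST
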