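import Pool.Agent.RST.Targets

/-!
# RST: PHJ, many phases
-/

set_option autoImplicit false

open Finset

namespace Pool.Agent.RST

namespace PHJ_

lemma Lk_union {V ι : Type} [DecidableEq V] [DecidableEq ι] {H : SimpleGraph V} {ℓ : ℕ}
    {A A' : Finset ι} {a b : ι → V} {S S' : Finset V} (h : Lk H ℓ A a b S)
    (h' : Lk H ℓ A' a b S') (hA : Disjoint A A') (hS : Disjoint S S') :
    Lk H ℓ (A ∪ A') a b (S ∪ S') := by
  obtain ⟨l, h1, h2, h3⟩ := h
  obtain ⟨l', h1', h2', h3'⟩ := h'
  have hA' : ∀ i ∈ A', i ∉ A := fun i hi hi' => (Finset.disjoint_left.1 hA hi') hi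
  have key : ∀ i ∈ A, ∀ j ∈ A', List.Disjoint (l i) (l' j) := by
    intro i hi j hj x hx hx'
    exact (Finset.disjoint_left.1 hS ((h3 x).2 ⟨i, hi, hx⟩)) ((h3' x).2 ⟨j, hj, hx'⟩)
  refine ⟨fun i => if i ∈ A then l i else l' i, ?_, ?_, ?_⟩
  · intro i hi
    rcases Finset.mem_union.1 hi with hi | hi
    · simp only [hi, if_true]; exact h1 i hi
    · simp only [hA' i hi, if_false]; exact h1' i hi
  · intro i hi j hj hij
    rcases Finset.mem_union.1 hi with hi | hi <;> rcases Finset.mem_union.1 hj with hj | hj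
    · simp only [hi, hj, if_true]; exact h2 i hi j hj hij
    · simp only [hi, hA' j hj, if_true, if_false]; exact key i hi j hj
    · simp only [hj, hA' i hi, if_true, if_false]; exact (key j hj i hi).symm
    · simp only [hA' i hi, hA' j hj, if_false]; exact h2' i hi j hj hij
  · intro x
    rw [Finset.mem_union, h3, h3']
    constructor
    · rintro (⟨i, hi, hx⟩ | ⟨i, hi, hx⟩)
      · exact ⟨i, Finset.mem_union_left _ hi, by simp only [hi, if_true]; exact hx⟩
      · exact ⟨i, Finset.mem_union_right _ hi, by simp only [hA' i hi, if_false]; exact hx⟩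
    · rintro ⟨i, hi, hx⟩
      rcases Finset.mem_union.1 hi with hi | hi
      · simp only [hi, if_true] at hx; exact Or.inl ⟨i, hi, hx⟩
      · simp only [hA' i hi, if_false] at hx; exact Or.inr ⟨i, hi, hx⟩

lemma split {V : Type} [DecidableEq V] (r : ℕ) : ∀ (K : ℕ) (R : Finset V), R.card = K * r →
    ∃ P : ℕ → Finset V, (∀ i < K, (P i).card = r) ∧
      (∀ i < K, ∀ j < K, i ≠ j → Disjoint (P i) (P j)) ∧ (range K).biUnion P = R := by
  intro K
  induction K with
  | zero =>
    intro R hR
    refine ⟨fun _ => ∅, by simp, by simp, ?_⟩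
    rw [zero_mul, Finset.card_eq_zero] at hR
    simp [hR]
  | succ K ih =>
    intro R hR
    obtain ⟨R', hR', hc⟩ := Finset.exists_subset_card_eq (s := R) (n := r)
      (by rw [hR]; nlinarith)
    obtain ⟨P, h1, h2, h3⟩ := ih (R \ R') (by
      rw [Finset.card_sdiff_of_subset hR', hR, hc]
      rw [Nat.succ_mul]; omega)
    have hsub : ∀ i < K, P i ⊆ R \ R' := by
      intro i hi
      rw [← h3]
      exact Finset.subset_biUnion_of_mem P (Finset.mem_range.2 hi)
    have hdis : ∀ i < K, Disjoint (P i) R' := by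
      intro i hi
      exact Finset.disjoint_of_subset_left (hsub i hi) Finset.sdiff_disjoint
    refine ⟨fun i => if i = K then R' else P i, ?_, ?_, ?_⟩
    · intro i hi
      by_cases h : i = K
      · simp only [h, if_true]; exact hc
      · simp only [h, if_false]; exact h1 i (by omega)
    · intro i hi j hj hij
      by_cases h : i = K
      · have h' : j ≠ K := fun h' => hij (h.trans h'.symm)
        simp only [h, if_true, h', if_false]
        exact (hdis j (by omega)).symm
      · by_cases h' : j = K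
        · simp only [h, h', if_true, if_false]
          exact hdis i (by omega)
        · simp only [h, h', if_false]
          exact h2 i (by omega) j (by omega) hij
    · ext x
      rw [Finset.mem_biUnion]
      constructor
      · rintro ⟨i, hi, hx⟩
        rw [Finset.mem_range] at hi
        by_cases h : i = K
        · simp only [h, if_true] at hx; exact hR' hx
        · simp only [h, if_false] at hx
          exact (Finset.mem_sdiff.1 (hsub i (by omega) hx)).1
      · intro hx
        by_cases h : x ∈ R'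
        · exact ⟨K, Finset.mem_range.2 (by omega), by simp only [if_true]; exact h⟩
        · have : x ∈ (range K).biUnion P := by rw [h3]; exact Finset.mem_sdiff.2 ⟨hx, h⟩
          obtain ⟨i, hi, hx'⟩ := Finset.mem_biUnion.1 this
          rw [Finset.mem_range] at hi
          refine ⟨i, Finset.mem_range.2 (by omega), ?_⟩
          have : i ≠ K := by omega
          simp only [this, if_false]; exact hx'

lemma dg_mono {V : Type} (H : SimpleGraph V) (v : V) {A B : Finset V} (h : A ⊆ B) :
    dg H v A ≤ dg H v B := by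
  classical
  unfold dg
  apply Finset.card_le_card
  intro x hx
  rw [Finset.mem_filter] at hx ⊢
  exact ⟨h hx.1, hx.2⟩

lemma aux (r0 uj r w ee f : Prop) (e1 : r → r0 ∨ uj) (e2 : w → ¬ (r0 ∨ uj)) (e3 : ee → ¬ w)
    (e4 : f → w) :
    ((r0 ∨ uj) ∧ ¬ r ∨ ((ee ∨ r) ∨ f)) ↔ ((r0 ∨ (uj ∨ (w ∨ ee))) ∧ ¬ (w ∧ ¬ f)) := by
  by_cases hw : w
  · have h1 := e2 hw
    have h2 : ¬ r := fun h => h1 (e1 h)
    have h3 : ¬ ee := fun h => e3 h hw
    tauto
  · have h1 : ¬ f := fun h => hw (e4 h)
    tauto

end PHJ_

open PHJ_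

theorem pPHJ (h : T_PHA) : T_PHJ := by
  intro V _ _ H g gw η p Ku d m b a ℓ K J
  induction J with
  | zero =>
    intro E Wf N ρ R₀ _ _ _ _ _ _ _ _ _ _ _ hR₀ _ _ _ _ ι _ I y y' hI _ _ _ _
    have hI0 : I = ∅ := by
      rw [Finset.range_zero, Finset.sum_empty, Finset.card_eq_zero] at hI; exact hI
    refine ⟨R₀, Finset.subset_union_left, hR₀, fun _ => [], ?_, ?_, ?_⟩
    · intro i hi; rw [hI0] at hi; simp at hi
    · intro i hi; rw [hI0] at hi; simp at hi
    · intro x
      rw [hI0]
      simp
  | succ J ih =>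
    intro E Wf N ρ R₀ hp hg hg1 hη hη1 hKu hUU hK hℓ hE hW hR₀ hEE hWW hEW hR0 ι _ I y y' hI
      hy hy' hyy' hout
    -- the first phases
    obtain ⟨I1, hI1, hI1c⟩ := Finset.exists_subset_card_eq (s := I)
      (n := ∑ j ∈ range J, N j) (by rw [hI, Finset.sum_range_succ]; omega)
    set I2 := I \ I1 with hI2
    have hI2s : I2 ⊆ I := Finset.sdiff_subset
    have hI2c : I2.card = N J := by
      rw [hI2, Finset.card_sdiff_of_subset hI1, hI, hI1c, Finset.sum_range_succ]; omega
    have hI12 : Disjoint I1 I2 := Finset.disjoint_sdiff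
    have hI12u : I1 ∪ I2 = I := Finset.union_sdiff_of_subset hI1
    obtain ⟨R, hRs, hRc, hRl⟩ := ih E Wf N ρ R₀ hp hg hg1 hη hη1 hKu hUU hK hℓ
      (fun j hj => hE j (by omega)) (fun j hj => hW j (by omega)) hR₀
      (fun j hj i hi j' hj' i' hi' => hEE j (by omega) i hi j' (by omega) i' hi')
      (fun j hj j' hj' => hWW j (by omega) j' (by omega))
      (fun j hj i hi j' hj' => hEW j (by omega) i hi j' (by omega))
      (fun j hj => hR0 j (by omega)) ι I1 y y' hI1c
      (fun i hi j hj => hy (hI1 hi) (hI1 hj)) (fun i hi j hj => hy' (hI1 hi) (hI1 hj))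
      (fun i hi j hj => hyy' i (hI1 hi) j (hI1 hj))
      (fun i hi => ⟨(hout i (hI1 hi)).1, (hout i (hI1 hi)).2.1,
        fun j hj => (hout i (hI1 hi)).2.2 j (by omega)⟩)
    set UJ := (range J).biUnion (fun j => Wf j ∪ (range K).biUnion (E j)) with hUJ
    have memUJ : ∀ x, x ∈ UJ ↔ ∃ j < J, x ∈ Wf j ∨ ∃ i < K, x ∈ E j i := by
      intro x
      simp only [hUJ, Finset.mem_biUnion, Finset.mem_range, Finset.mem_union]
    -- disjointness of the last phase from the rest
    have dE : ∀ i < K, Disjoint (E J i) (R₀ ∪ UJ) := by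
      intro i hi
      rw [Finset.disjoint_union_right]
      refine ⟨(hR0 J (by omega)).2 i hi, ?_⟩
      rw [Finset.disjoint_left]
      intro x hx hx'
      obtain ⟨j, hj, hx' | ⟨i', hi', hx'⟩⟩ := (memUJ x).1 hx'
      · exact Finset.disjoint_left.1 (hEW J (by omega) i hi j (by omega)) hx hx'
      · refine Finset.disjoint_left.1 (hEE J (by omega) i hi j (by omega) i' hi' ?_) hx hx'
        intro he
        have := congrArg Prod.fst he
        simp only at this
        omega
    have dW : Disjoint (Wf J) (R₀ ∪ UJ) := by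
      rw [Finset.disjoint_union_right]
      refine ⟨(hR0 J (by omega)).1, ?_⟩
      rw [Finset.disjoint_left]
      intro x hx hx'
      obtain ⟨j, hj, hx' | ⟨i', hi', hx'⟩⟩ := (memUJ x).1 hx'
      · exact Finset.disjoint_left.1 (hWW J (by omega) j (by omega) (by omega)) hx hx'
      · exact Finset.disjoint_left.1 (hEW j (by omega) i' hi' J (by omega)) hx' hx
    obtain ⟨P, hPc, hPd, hPu⟩ := split (ρ J) K R hRc
    have hPR : ∀ i < K, P i ⊆ R := by
      intro i hi
      rw [← hPu]
      exact Finset.subset_biUnion_of_mem P (Finset.mem_range.2 hi)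
    have hPRU : ∀ i < K, P i ⊆ R₀ ∪ UJ := fun i hi => (hPR i hi).trans hRs
    set A : ℕ → Finset V := fun i => E J i ∪ P i with hA
    have hWJ := hW J (by omega)
    have hAc : ∀ i < K, (A i).card = N J := by
      intro i hi
      have hd : Disjoint (E J i) (P i) := Finset.disjoint_of_subset_right (hPRU i hi) (dE i hi)
      show (E J i ∪ P i).card = N J
      rw [Finset.card_union_of_disjoint hd, hPc i hi]
      exact (hE J (by omega) i hi).1
    have hAdg : ∀ i < K, ∀ v, (1 / 2 + g / 2) * p * N J ≤ dg H v (A i) := by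
      intro i hi v
      have h1 := (hE J (by omega) i hi).2 v
      have h2 : (dg H v (E J i) : ℝ) ≤ dg H v (A i) := by
        exact_mod_cast dg_mono H v (Finset.subset_union_left : E J i ⊆ E J i ∪ P i)
      have h3 : ((E J i).card : ℝ) + ρ J = N J := by
        exact_mod_cast (hE J (by omega) i hi).1
      have h4 := hWJ.2.2.2.2.2
      have h5 : (1 / 2 + g / 2) * (N J : ℝ) ≤ (1 / 2 + g) * ((E J i).card : ℝ) := by
        have h6 : (0 : ℝ) ≤ ρ J := Nat.cast_nonneg _
        nlinarith
      calc (1 / 2 + g / 2) * p * N J = p * ((1 / 2 + g / 2) * N J) := by ring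
        _ ≤ p * ((1 / 2 + g) * ((E J i).card : ℝ)) := by gcongr
        _ = (1 / 2 + g) * p * (E J i).card := by ring
        _ ≤ _ := h1
        _ ≤ _ := h2
    have hAW : ∀ i < K, Disjoint (A i) (Wf J) := by
      intro i hi
      show Disjoint (E J i ∪ P i) (Wf J)
      rw [Finset.disjoint_union_left]
      exact ⟨hEW J (by omega) i hi J (by omega),
        (Finset.disjoint_of_subset_right (hPRU i hi) dW).symm⟩
    have hAA : ∀ i < K, ∀ j < K, i ≠ j → Disjoint (A i) (A j) := by
      intro i hi j hj hij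
      show Disjoint (E J i ∪ P i) (E J j ∪ P j)
      rw [Finset.disjoint_union_left, Finset.disjoint_union_right, Finset.disjoint_union_right]
      refine ⟨⟨hEE J (by omega) i hi J (by omega) j hj ?_,
        Finset.disjoint_of_subset_right (hPRU j hj) (dE i hi)⟩,
        (Finset.disjoint_of_subset_right (hPRU i hi) (dE j hj)).symm, hPd i hi j hj hij⟩
      intro he
      exact hij (congrArg Prod.snd he)
    have houtA : ∀ i ∈ I2, y i ∉ Wf J ∧ y' i ∉ Wf J ∧ ∀ j < K, y i ∉ A j ∧ y' i ∉ A j := by
      intro i hi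
      obtain ⟨o1, o2, o3⟩ := hout i (hI2s hi)
      obtain ⟨o4, o5, o6⟩ := o3 J (by omega)
      have hyU : y i ∉ R₀ ∪ UJ ∧ y' i ∉ R₀ ∪ UJ := by
        constructor
        · intro hx
          rcases Finset.mem_union.1 hx with hx | hx
          · exact o1 hx
          · obtain ⟨j, hj, hx' | ⟨i', hi', hx'⟩⟩ := (memUJ _).1 hx
            · exact (o3 j (by omega)).1 hx'
            · exact ((o3 j (by omega)).2.2 i' hi').1 hx'
        · intro hx
          rcases Finset.mem_union.1 hx with hx | hx
          · exact o2 hx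
          · obtain ⟨j, hj, hx' | ⟨i', hi', hx'⟩⟩ := (memUJ _).1 hx
            · exact (o3 j (by omega)).2.1 hx'
            · exact ((o3 j (by omega)).2.2 i' hi').2 hx'
      refine ⟨o4, o5, fun j hj => ⟨?_, ?_⟩⟩
      · intro hx
        rcases Finset.mem_union.1 hx with hx | hx
        · exact (o6 j hj).1 hx
        · exact hyU.1 (hPRU j hj hx)
      · intro hx
        rcases Finset.mem_union.1 hx with hx | hx
        · exact (o6 j hj).2 hx
        · exact hyU.2 (hPRU j hj hx)
    obtain ⟨F, hFs, hFc, hFl⟩ := h V H (Wf J) (g / 2) gw η p Ku d m b a ℓ K (N J) hp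
      (by linarith) (by linarith) hη (by linarith) hKu hUU hWJ.1 hWJ.2.1 hK hℓ A
      (fun i hi => ⟨hAc i hi, hAdg i hi, hAW i hi⟩) hAA (by linarith [hWJ.2.2.2.2.1])
      hWJ.2.2.2.1 ι I2 y y' hI2c (fun i hi j hj => hy (hI2s hi) (hI2s hj))
      (fun i hi j hj => hy' (hI2s hi) (hI2s hj))
      (fun i hi j hj => hyy' i (hI2s hi) j (hI2s hj)) houtA
    have hAu : (range K).biUnion A = (range K).biUnion (E J) ∪ R := by
      rw [← hPu]
      ext x
      simp only [hA, Finset.mem_biUnion, Finset.mem_union, Finset.mem_range]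
      constructor
      · rintro ⟨i, hi, hx | hx⟩
        · exact Or.inl ⟨i, hi, hx⟩
        · exact Or.inr ⟨i, hi, hx⟩
      · rintro (⟨i, hi, hx⟩ | ⟨i, hi, hx⟩)
        · exact ⟨i, hi, Or.inl hx⟩
        · exact ⟨i, hi, Or.inr hx⟩
    have hU' : (range (J + 1)).biUnion (fun j => Wf j ∪ (range K).biUnion (E j)) =
        UJ ∪ (Wf J ∪ (range K).biUnion (E J)) := by
      rw [Finset.range_add_one, Finset.biUnion_insert, hUJ, Finset.union_comm]
    have dEu : Disjoint ((range K).biUnion (E J)) (R₀ ∪ UJ) := by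
      rw [Finset.disjoint_biUnion_left]
      intro i hi
      exact dE i (Finset.mem_range.1 hi)
    have dEW : Disjoint ((range K).biUnion (E J)) (Wf J) := by
      rw [Finset.disjoint_biUnion_left]
      intro i hi
      exact hEW J (by omega) i (Finset.mem_range.1 hi) J (by omega)
    refine ⟨Wf J \ F, ?_, ?_, ?_⟩
    · rw [hU']
      intro x hx
      simp only [Finset.mem_union]
      exact Or.inr (Or.inr (Or.inl (Finset.mem_sdiff.1 hx).1))
    · rw [Finset.card_sdiff_of_subset hFs, hFc, hWJ.2.2.1]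
      omega
    · have hS : Disjoint ((R₀ ∪ UJ) \ R) ((range K).biUnion A ∪ F) := by
        rw [hAu, Finset.disjoint_union_right, Finset.disjoint_union_right]
        refine ⟨⟨?_, ?_⟩, ?_⟩
        · exact (Finset.disjoint_of_subset_right Finset.sdiff_subset dEu).symm
        · exact Finset.sdiff_disjoint
        · exact (Finset.disjoint_of_subset_right Finset.sdiff_subset
            (Finset.disjoint_of_subset_left hFs dW)).symm
      have hl := Lk_union hRl hFl hI12 hS
      rw [hI12u] at hl
      have heq : (R₀ ∪ UJ) \ R ∪ ((range K).biUnion A ∪ F) =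
          (R₀ ∪ (range (J + 1)).biUnion (fun j => Wf j ∪ (range K).biUnion (E j))) \
            (Wf J \ F) := by
        rw [hU', hAu]
        ext x
        have e1 : x ∈ R → x ∈ R₀ ∨ x ∈ UJ := fun hx => Finset.mem_union.1 (hRs hx)
        have e2 : x ∈ Wf J → ¬ (x ∈ R₀ ∨ x ∈ UJ) := fun hx hx' =>
          Finset.disjoint_left.1 dW hx (Finset.mem_union.2 hx')
        have e3 : x ∈ (range K).biUnion (E J) → x ∉ Wf J := fun hx =>
          Finset.disjoint_left.1 dEW hx
        have e4 : x ∈ F → x ∈ Wf J := fun hx => hFs hx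
        rw [Finset.mem_union, Finset.mem_sdiff, Finset.mem_union, Finset.mem_union,
          Finset.mem_union, Finset.mem_sdiff, Finset.mem_union, Finset.mem_union,
          Finset.mem_union, Finset.mem_sdiff]
        exact aux _ _ _ _ _ _ e1 e2 e3 e4
      rw [heq] at hl
      exact hl

end Pool.Agent.RST
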