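import Pool.Agent.RST.Targets

/-!
# SABS: a single absorber for one vertex
-/

set_option autoImplicit false

open Finset

namespace Pool.Agent.RST

namespace SABS_

lemma od_zero {V : Type} [DecidableEq V] {H : SimpleGraph V} {W : Finset V} {d m : ℕ}
    {J : Finset (V × V)} {F : Finset V} (h : OK H W d m J F) {v : V} (hv : v ∈ W)
    (hv' : v ∉ used J F) : od J v = 0 := by
  unfold od
  rw [Finset.card_eq_zero, Finset.filter_eq_empty_iff]
  intro e he hev
  exact hv' (hev ▸ h.tail e he (hev ▸ hv))

lemma od_insert {V : Type} [DecidableEq V] {J : Finset (V × V)} {u w : V} (h : (u, w) ∉ J)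
    (v : V) : od (insert (u, w) J) v = od J v + if u = v then 1 else 0 := by
  unfold od
  rw [Finset.filter_insert]
  split_ifs with h1
  · rw [Finset.card_insert_of_notMem]
    intro h2
    exact h (Finset.mem_filter.mp h2).1
  · rfl

lemma used_insert {V : Type} [DecidableEq V] {J : Finset (V × V)} {F : Finset V} {u w : V} :
    used (insert (u, w) J) F = insert w (used J F) := by
  unfold used
  rw [Finset.image_insert, Finset.insert_union]

lemma lgb {V : Type} {H : SimpleGraph V} {W : Finset V} {g : ℝ} {d m b a ℓ : ℕ}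
    (hW : WPar H W g d m b a ℓ) (X : Finset V) (hX : m ≤ X.card) :
    W.card ≤ 2 * (nb H X W).card := by
  have h1 := hW.lg X hX
  have h2 : (W.card : ℝ) ≤ 2 * ((nb H X W).card : ℝ) := by
    have h3 : 0 ≤ g * (W.card : ℝ) := mul_nonneg hW.g0.le (Nat.cast_nonneg _)
    linarith
  exact_mod_cast h2

lemma room {V : Type} {H : SimpleGraph V} {W : Finset V} {g : ℝ} {d m b a ℓ : ℕ}
    (hW : WPar H W g d m b a ℓ) (s : ℕ) (hs : 4 * (s : ℝ) ≤ g * W.card) :
    2 * (s + 2 * m * d) < W.card := by
  have h1 := hW.bud
  have h2 : (0 : ℝ) ≤ 2 * (a : ℝ) * ((m : ℝ) + b) := by positivity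
  have h3 : (1 : ℝ) ≤ ℓ := by
    have := hW.len
    have h4 : 1 ≤ ℓ := by omega
    exact_mod_cast h4
  have h5 : g * (W.card : ℝ) ≤ 1 / 2 * W.card :=
    mul_le_mul_of_nonneg_right hW.g1 (Nat.cast_nonneg _)
  have h6 : (2 * ((s : ℝ) + 2 * m * d)) < W.card := by
    have h7 : (0 : ℝ) ≤ (m : ℝ) * d := by positivity
    nlinarith
  exact_mod_cast h6

/-- the cycle through `u` -/
lemma cycle (h1 : T_STEP) (h2 : T_CONN) {V : Type} [Fintype V] [DecidableEq V]
    (H : SimpleGraph V) (W : Finset V) (g : ℝ) (d m b a ℓ : ℕ) (J : Finset (V × V))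
    (F : Finset V) (hW : WPar H W g d m b a ℓ) (hJ : OK H W d m J F) (k : ℕ) (hk : a + 2 ≤ k)
    (hkl : 2 * k ≤ ℓ) (hs : 4 * (((used J F).card : ℝ) + 2 * k) ≤ g * W.card)
    (u : V) (hu : u ∈ W → u ∈ used J F) (hod : od J u + 2 + b ≤ d) :
    ∃ (c : List V) (J' : Finset (V × V)) (F' : Finset V), OK H W d m J' F' ∧
      c.length = 2 * k ∧ c.Nodup ∧ c.IsChain H.Adj ∧
      (∀ x ∈ c.head?, H.Adj u x) ∧ (∀ x ∈ c.getLast?, H.Adj u x) ∧
      (∀ x ∈ c, x ∈ W ∧ x ∉ used J F) ∧ used J' F' = used J F ∪ c.toFinset ∧
      (∀ v, v ∉ c → v ≠ u → od J' v = od J v) ∧ od J' u = od J u + 2 ∧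
      ∀ v ∈ c, od J' v ≤ 1 := by
  have hk1 : (1 : ℝ) ≤ k := by
    have : 1 ≤ k := by omega
    exact_mod_cast this
  obtain ⟨x, hxW, hxu, hux, hnx, hJ1⟩ := h1 V H W d m J F hJ hW.m1 (lgb hW)
    (room hW _ (by linarith)) u (by omega) hu
  have hux' : u ≠ x := by
    rintro rfl
    exact hxu (hu hxW)
  have hu1 : (used (insert (u, x) J) F).card ≤ (used J F).card + 1 := by
    rw [used_insert]
    exact Finset.card_insert_le _ _
  have hu1' : ((used (insert (u, x) J) F).card : ℝ) ≤ (used J F).card + 1 := by
    exact_mod_cast hu1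
  obtain ⟨z, hzW, hzu, huz, hnz, hJ2⟩ := h1 V H W d m (insert (u, x) J) F hJ1 hW.m1 (lgb hW)
    (room hW _ (by linarith)) u (by rw [od_insert hnx, if_pos rfl]; omega)
    (fun h => by rw [used_insert]; exact Finset.mem_insert_of_mem (hu h))
  rw [used_insert, Finset.mem_insert, not_or] at hzu
  have huz' : u ≠ z := by
    rintro rfl
    exact hzu.2 (hu hzW)
  have hU2 : used (insert (u, z) (insert (u, x) J)) F = insert z (insert x (used J F)) := by
    rw [used_insert, used_insert]
  have hu2 : ((used (insert (u, z) (insert (u, x) J)) F).card : ℝ) ≤ (used J F).card + 2 := by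
    have h3 : (used (insert (u, z) (insert (u, x) J)) F).card ≤
        (used (insert (u, x) J) F).card + 1 := by
      rw [used_insert]
      exact Finset.card_insert_le _ _
    have h4 : (used (insert (u, z) (insert (u, x) J)) F).card ≤ (used J F).card + 2 := by omega
    exact_mod_cast h4
  have hodx : od (insert (u, z) (insert (u, x) J)) x = 0 := by
    rw [od_insert hnz, od_insert hnx, if_neg hux', od_zero hJ hxW hxu]
  have hodz : od (insert (u, z) (insert (u, x) J)) z = 0 := by
    rw [od_insert hnz, od_insert hnx, if_neg huz', od_zero hJ hzW hzu.2]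
  have hbd := hW.bd
  obtain ⟨l, J', F', hJ', hP, hl, hU, ho1, ho2⟩ := h2 V H W g d m b a ℓ _ F hW hJ2 (by linarith)
    x z (Ne.symm hzu.1) (fun _ => by rw [hU2]; simp) (fun _ => by rw [hU2]; simp)
    (by rw [hodx]; omega) (by rw [hodz]; omega) (2 * k - 1) (by omega) (by omega)
  obtain ⟨hP1, hP2, hP3⟩ := hP
  rw [hU2] at hU hl
  have hul : u ∉ l := by
    intro h
    have h3 := hl u h
    exact h3.2 (Finset.mem_insert_of_mem (Finset.mem_insert_of_mem (hu h3.1)))
  have hxl : x ∉ l := fun h => (hl x h).2 (by simp)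
  have hzl : z ∉ l := fun h => (hl z h).2 (by simp)
  refine ⟨x :: (l ++ [z]), J', F', hJ', ?_, ?_, hP3, ?_, ?_, ?_, ?_, ?_, ?_, ?_⟩
  · simp only [List.length_cons, List.length_append, List.length_nil]
    omega
  · rw [List.nodup_cons, List.nodup_append]
    refine ⟨?_, hP2, List.nodup_singleton _, ?_⟩
    · rw [List.mem_append, not_or]
      refine ⟨hxl, ?_⟩
      rw [List.mem_singleton]
      exact Ne.symm hzu.1
    · intro v hv w hw
      rw [List.mem_singleton] at hw
      rintro rfl
      exact hzl (hw ▸ hv)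
  · intro v hv
    simp only [List.head?_cons, Option.mem_def, Option.some.injEq] at hv
    rw [← hv]
    exact hux
  · intro v hv
    have h3 : (x :: (l ++ [z])).getLast? = some z := by
      rw [← List.cons_append, List.getLast?_append]
      simp
    rw [h3] at hv
    simp only [Option.mem_def, Option.some.injEq] at hv
    rw [← hv]
    exact huz
  · intro v hv
    rw [List.mem_cons, List.mem_append, List.mem_singleton] at hv
    rcases hv with rfl | hv | rfl
    · exact ⟨hxW, hxu⟩
    · refine ⟨(hl v hv).1, fun h => (hl v hv).2 ?_⟩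
      exact Finset.mem_insert_of_mem (Finset.mem_insert_of_mem h)
    · exact ⟨hzW, hzu.2⟩
  · rw [hU]
    ext v
    simp only [Finset.mem_union, Finset.mem_insert, List.mem_toFinset, List.mem_cons,
      List.mem_append, List.mem_nil_iff, or_false]
    tauto
  · intro v hv hvu
    rw [List.mem_cons, List.mem_append, List.mem_singleton, not_or, not_or] at hv
    rw [ho2 v hv.1 hv.2.2 hv.2.1, od_insert hnz, od_insert hnx, if_neg (Ne.symm hvu), Nat.add_zero]
  · rw [ho2 u hux' huz' hul, od_insert hnz, od_insert hnx, if_pos rfl]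
  · intro v hv
    rw [List.mem_cons, List.mem_append, List.mem_singleton] at hv
    have h3 := ho1 v
    have h4 : od (insert (u, z) (insert (u, x) J)) v = 0 := by
      rcases hv with rfl | hv | rfl
      · exact hodx
      · refine od_zero hJ2 (hl v hv).1 ?_
        rw [hU2]
        exact (hl v hv).2
      · exact hodz
    omega

/-- many connections with distinct end points, starting from an arbitrary state -/
lemma chords (h2 : T_CONN) {V : Type} [Fintype V] [DecidableEq V]
    (H : SimpleGraph V) (W : Finset V) (g : ℝ) (d m b a ℓ : ℕ) (hW : WPar H W g d m b a ℓ)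
    (y q : ℕ → V) (J : Finset (V × V)) (F : Finset V) (hJ : OK H W d m J F) (r : ℕ)
    (hs : 4 * (((used J F).card : ℝ) + r * (2 * a + 1)) ≤ g * W.card)
    (hyq : ∀ i < r, y i ≠ q i) (hy : ∀ i < r, y i ∈ used J F) (hq : ∀ i < r, q i ∈ used J F)
    (hoy : ∀ i < r, od J (y i) + b ≤ d) (hoq : ∀ i < r, od J (q i) + b ≤ d)
    (hd : ∀ i < r, ∀ j < i, y i ≠ y j ∧ y i ≠ q j ∧ q i ≠ y j ∧ q i ≠ q j) :
    ∃ (l : ℕ → List V) (J' : Finset (V × V)) (F' : Finset V), OK H W d m J' F' ∧
      (∀ i < r, Pth H (2 * a + 2) (y i) (q i) (l i)) ∧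
      (∀ i < r, ∀ x ∈ l i, x ∈ W ∧ x ∉ used J F) ∧
      (∀ i < r, ∀ j < i, ∀ x ∈ l i, x ∉ l j) ∧
      (∀ x, x ∈ used J' F' ↔ x ∈ used J F ∨ ∃ i < r, x ∈ l i) ∧
      (∀ v, (∀ i < r, v ≠ y i ∧ v ≠ q i ∧ v ∉ l i) → od J' v = od J v) := by
  induction r with
  | zero =>
    refine ⟨fun _ => [], J, F, hJ, ?_, ?_, ?_, ?_, ?_⟩
    · intro i hi
      omega
    · intro i hi
      omega
    · intro i hi
      omega
    · intro x
      constructor
      · intro h
        exact Or.inl h
      · rintro (h | ⟨i, hi, _⟩)
        · exact h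
        · omega
    · intro v _
      rfl
  | succ r ih =>
    have hs' : 4 * (((used J F).card : ℝ) + r * (2 * a + 1)) ≤ g * W.card := by
      push_cast at hs
      have : (0 : ℝ) ≤ a := Nat.cast_nonneg _
      nlinarith
    obtain ⟨l, J', F', hJ', hP, hl, hdis, hU, ho⟩ := ih hs'
      (fun i hi => hyq i (by omega)) (fun i hi => hy i (by omega)) (fun i hi => hq i (by omega))
      (fun i hi => hoy i (by omega)) (fun i hi => hoq i (by omega))
      (fun i hi => hd i (by omega))
    have hcard : (used J' F').card ≤ (used J F).card + r * (2 * a + 1) := by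
      have h3 : used J' F' ⊆ used J F ∪ (range r).biUnion (fun i => (l i).toFinset) := by
        intro x hx
        rw [hU] at hx
        rw [Finset.mem_union, Finset.mem_biUnion]
        rcases hx with h | ⟨i, hi, h⟩
        · exact Or.inl h
        · exact Or.inr ⟨i, Finset.mem_range.mpr hi, List.mem_toFinset.mpr h⟩
      refine (Finset.card_le_card h3).trans ((Finset.card_union_le _ _).trans ?_)
      have h4 : ((range r).biUnion (fun i => (l i).toFinset)).card ≤
          ∑ i ∈ range r, (l i).toFinset.card := Finset.card_biUnion_le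
      have h5 : ∑ i ∈ range r, (l i).toFinset.card ≤ ∑ _i ∈ range r, (2 * a + 1) := by
        refine Finset.sum_le_sum (fun i hi => ?_)
        have h6 := (hP i (Finset.mem_range.mp hi)).1
        have h7 := List.toFinset_card_le (l i)
        omega
      rw [Finset.sum_const, Finset.card_range, smul_eq_mul] at h5
      omega
    have hcard' : ((used J' F').card : ℝ) ≤ (used J F).card + r * (2 * a + 1) := by
      exact_mod_cast hcard
    have hyl : ∀ i < r, y r ∉ l i := fun i hi h => (hl i hi _ h).2 (hy r (by omega))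
    have hql : ∀ i < r, q r ∉ l i := fun i hi h => (hl i hi _ h).2 (hq r (by omega))
    have hoy' : od J' (y r) = od J (y r) := ho _ (fun i hi =>
      ⟨(hd r (by omega) i hi).1, (hd r (by omega) i hi).2.1, hyl i hi⟩)
    have hoq' : od J' (q r) = od J (q r) := ho _ (fun i hi =>
      ⟨(hd r (by omega) i hi).2.2.1, (hd r (by omega) i hi).2.2.2, hql i hi⟩)
    obtain ⟨l', J'', F'', hJ'', hP', hl', hU', _, ho'⟩ := h2 V H W g d m b a ℓ J' F' hW hJ'
      (by linarith) (y r) (q r) (hyq r (by omega))
      (fun _ => (hU _).mpr (Or.inl (hy r (by omega))))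
      (fun _ => (hU _).mpr (Or.inl (hq r (by omega))))
      (by rw [hoy']; exact hoy r (by omega)) (by rw [hoq']; exact hoq r (by omega))
      (2 * a + 2) le_rfl hW.len
    refine ⟨fun i => if i = r then l' else l i, J'', F'', hJ'', ?_, ?_, ?_, ?_, ?_⟩
    · intro i hi
      by_cases h3 : i = r
      · subst h3
        simp only [if_true]
        exact hP'
      · simp only [if_neg h3]
        exact hP i (by omega)
    · intro i hi x hx
      by_cases h3 : i = r
      · simp only [if_pos h3] at hx
        exact ⟨(hl' x hx).1, fun h => (hl' x hx).2 ((hU x).mpr (Or.inl h))⟩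
      · simp only [if_neg h3] at hx
        exact hl i (by omega) x hx
    · intro i hi j hj x hx
      have h4 : j ≠ r := by omega
      simp only [if_neg h4]
      by_cases h3 : i = r
      · simp only [if_pos h3] at hx
        intro h5
        exact (hl' x hx).2 ((hU x).mpr (Or.inr ⟨j, by omega, h5⟩))
      · simp only [if_neg h3] at hx
        exact hdis i (by omega) j hj x hx
    · intro x
      rw [hU', Finset.mem_union, hU, List.mem_toFinset]
      constructor
      · rintro ((h | ⟨i, hi, h⟩) | h)
        · exact Or.inl h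
        · refine Or.inr ⟨i, by omega, ?_⟩
          have : i ≠ r := by omega
          simp only [if_neg this]
          exact h
        · refine Or.inr ⟨r, by omega, ?_⟩
          simp only [if_true]
          exact h
      · rintro (h | ⟨i, hi, h⟩)
        · exact Or.inl (Or.inl h)
        · by_cases h3 : i = r
          · simp only [if_pos h3] at h
            exact Or.inr h
          · simp only [if_neg h3] at h
            exact Or.inl (Or.inr ⟨i, by omega, h⟩)
    · intro v hv
      have h3 := hv r (by omega)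
      simp only [if_true] at h3
      rw [ho' v h3.1 h3.2.1 h3.2.2]
      refine ho v (fun i hi => ?_)
      have h4 := hv i (by omega)
      have h5 : i ≠ r := by omega
      simp only [if_neg h5] at h4
      exact h4

end SABS_

open SABS_ in
/-- SABS -/
theorem pSABS (h1 : T_STEP) (h2 : T_CONN) (h3 : T_ALT) : T_SABS := by
  intro V _ _ H W g d m b a ℓ J F hW hJ hs hkl u hu hod
  have ha := hW.a1
  have hbd := hW.bd
  obtain ⟨k, hkdef⟩ : ∃ k, k = kk a := ⟨_, rfl⟩
  obtain ⟨r, hr⟩ : ∃ r, r + 1 = k := ⟨k - 1, by unfold kk at hkdef; omega⟩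
  have hka : a + 2 ≤ k := by unfold kk at hkdef; omega
  have hreven : r % 2 = 0 := by unfold kk at hkdef; omega
  have hr2 : 2 ≤ r := by unfold kk at hkdef; omega
  have hsz : sz a = 2 * k + r * (2 * a + 1) := by
    unfold sz
    rw [← hkdef, ← hr, Nat.add_sub_cancel]
  have hszr : (sz a : ℝ) = 2 * k + r * (2 * a + 1) := by
    rw [hsz]
    push_cast
    ring
  rw [hszr] at hs
  have hr0 : (0 : ℝ) ≤ (r : ℝ) * (2 * a + 1) := by positivity
  rw [← hkdef] at hkl
  obtain ⟨cy, J1, F1, hJ1, hlen, hnd, hch, hhead, hlast, hc, hU1, ho1, hou1, hoc1⟩ :=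
    cycle h1 h2 H W g d m b a ℓ J F hW hJ k hka hkl (by linarith) u hu hod
  -- the vertices of the cycle
  obtain ⟨x, hx⟩ : ∃ x : ℕ → V, ∀ i (hi : i < cy.length), x i = cy[i] :=
    ⟨fun i => cy.getD i u, fun i hi => List.getD_eq_getElem cy u hi⟩
  have hxc : ∀ i < 2 * k, x i ∈ cy := by
    intro i hi
    rw [hx i (by omega)]
    exact List.getElem_mem _
  have hxinj : ∀ i < 2 * k, ∀ j < 2 * k, x i = x j → i = j := by
    intro i hi j hj h
    rw [hx i (by omega), hx j (by omega)] at h
    exact (hnd.getElem_inj_iff).mp h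
  have hxadj : ∀ i, i + 1 < 2 * k → H.Adj (x i) (x (i + 1)) := by
    intro i hi
    rw [hx i (by omega), hx (i + 1) (by omega)]
    exact List.isChain_iff_getElem.mp hch i (by omega)
  have hxmem : ∀ v, v ∈ cy ↔ ∃ i < 2 * k, v = x i := by
    intro v
    constructor
    · intro h
      obtain ⟨i, hi, h4⟩ := List.getElem_of_mem h
      exact ⟨i, by omega, by rw [hx i hi, h4]⟩
    · rintro ⟨i, hi, rfl⟩
      exact hxc i hi
  have hux0 : H.Adj u (x 0) := by
    apply hhead
    rw [hx 0 (by omega), Option.mem_def, List.head?_eq_getElem?, List.getElem?_eq_getElem]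
  have huxl : H.Adj u (x (2 * k - 1)) := by
    apply hlast
    have h4 : cy.length - 1 = 2 * k - 1 := by omega
    rw [hx (2 * k - 1) (by omega), Option.mem_def, List.getLast?_eq_getElem?, h4,
      List.getElem?_eq_getElem]
  have hcU1 : ∀ v ∈ cy, v ∈ used J1 F1 := by
    intro v hv
    rw [hU1, Finset.mem_union, List.mem_toFinset]
    exact Or.inr hv
  have hcard1 : ((used J1 F1).card : ℝ) ≤ (used J F).card + 2 * k := by
    have h4 : (used J1 F1).card ≤ (used J F).card + 2 * k := by
      rw [hU1]
      refine (Finset.card_union_le _ _).trans ?_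
      have := List.toFinset_card_le cy
      omega
    exact_mod_cast h4
  -- the chords
  obtain ⟨l, J2, F2, hJ2, hP, hl, hdis, hU2, ho2⟩ := chords h2 H W g d m b a ℓ hW
    (fun i => x (i + 1)) (fun i => x (i + 1 + k)) J1 F1 hJ1 r (by linarith)
    (fun i hi h => by
      have := hxinj _ (by omega) _ (by omega) h
      omega)
    (fun i hi => hcU1 _ (hxc _ (by omega))) (fun i hi => hcU1 _ (hxc _ (by omega)))
    (fun i hi => by
      have := hoc1 _ (hxc (i + 1) (by omega))
      omega)
    (fun i hi => by
      have := hoc1 _ (hxc (i + 1 + k) (by omega))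
      omega)
    (fun i hi j hj => by
      refine ⟨fun h => ?_, fun h => ?_, fun h => ?_, fun h => ?_⟩ <;>
      · have := hxinj _ (by omega) _ (by omega) h
        omega)
  have hcl : ∀ v ∈ cy, ∀ i < r, v ∉ l i := fun v hv i hi h => (hl i hi v h).2 (hcU1 v hv)
  have hul : ∀ i < r, u ∉ l i := by
    intro i hi h
    have h4 := hl i hi u h
    apply h4.2
    rw [hU1, Finset.mem_union]
    exact Or.inl (hu h4.1)
  have huc : u ∉ cy := fun h => (hc u h).2 (hu (hc u h).1)
  have hlu : ∀ i < r, ∀ v ∈ l i, v ∉ used J F := by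
    intro i hi v hv h
    apply (hl i hi v hv).2
    rw [hU1, Finset.mem_union]
    exact Or.inl h
  -- directed paths
  obtain ⟨P, hPdef⟩ : ∃ P : ℕ → List V, ∀ i, P i = x (i + 1) :: (l i ++ [x (i + 1 + k)]) :=
    ⟨_, fun _ => rfl⟩
  obtain ⟨O, hO⟩ : ∃ O : ℕ → List V, ∀ i, O i = if i % 2 = 0 then P i else (P i).reverse :=
    ⟨_, fun _ => rfl⟩
  have hOmem : ∀ i v, v ∈ O i ↔ v = x (i + 1) ∨ v = x (i + 1 + k) ∨ v ∈ l i := by
    intro i v
    have h4 : v ∈ O i ↔ v ∈ P i := by
      rw [hO]
      split_ifs
      · rfl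
      · rw [List.mem_reverse]
    rw [h4, hPdef, List.mem_cons, List.mem_append, List.mem_singleton]
    tauto
  have hPnd : ∀ i < r, (P i).Nodup := by
    intro i hi
    rw [hPdef, List.nodup_cons, List.nodup_append]
    refine ⟨?_, (hP i hi).2.1, List.nodup_singleton _, ?_⟩
    · rw [List.mem_append, not_or, List.mem_singleton]
      refine ⟨hcl _ (hxc _ (by omega)) i hi, fun h => ?_⟩
      have := hxinj _ (by omega) _ (by omega) h
      omega
    · intro v hv w hw
      rw [List.mem_singleton] at hw
      rintro rfl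
      rw [hw] at hv
      exact hcl _ (hxc _ (by omega)) i hi hv
  have hOnd : ∀ i < r, (O i).Nodup := by
    intro i hi
    rw [hO]
    split_ifs
    · exact hPnd i hi
    · exact List.nodup_reverse.mpr (hPnd i hi)
  have hPlen : ∀ i < r, (P i).length = 2 * a + 3 := by
    intro i hi
    rw [hPdef]
    have := (hP i hi).1
    simp only [List.length_cons, List.length_append, List.length_nil]
    omega
  have hOlen : ∀ i < r, (O i).length = 2 * a + 3 := by
    intro i hi
    rw [hO]
    split_ifs
    · exact hPlen i hi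
    · rw [List.length_reverse]
      exact hPlen i hi
  have hPl : ∀ i, (P i).getLast? = some (x (i + 1 + k)) := by
    intro i
    rw [hPdef, ← List.cons_append, List.getLast?_append]
    simp
  have hPh : ∀ i, (P i).head? = some (x (i + 1)) := by
    intro i
    rw [hPdef]
    rfl
  obtain ⟨h4, h5⟩ := h3 V H r O (fun i => if i % 2 = 0 then x (i + 1) else x (i + 1 + k))
    (fun i => if i % 2 = 0 then x (i + 1 + k) else x (i + 1)) (x 0) (x k) u (by omega)
    (by
      intro i hi
      rw [hO]
      have h6 := (hP i hi).2.2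
      split_ifs with h7
      · refine ⟨?_, hPh i, hPl i⟩
        rw [hPdef]
        exact h6
      · refine ⟨?_, ?_, ?_⟩
        · rw [List.isChain_reverse, hPdef]
          exact h6.imp (fun _ _ h => h.symm)
        · rw [List.head?_reverse]
          exact hPl i
        · rw [List.getLast?_reverse]
          exact hPh i)
    (by
      intro i hi
      have h8 := hxadj (i + 1) (by omega)
      have h9 := hxadj (i + 1 + k) (by omega)
      have h10 : i + 1 + 1 + k = i + 1 + k + 1 := by omega
      by_cases h7 : i % 2 = 0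
      · have h7' : ¬ (i + 1) % 2 = 0 := by omega
        simp only [if_pos h7, if_neg h7', h10]
        exact ⟨h9, h8.symm⟩
      · have h7' : (i + 1) % 2 = 0 := by omega
        simp only [if_neg h7, if_pos h7', h10]
        exact ⟨h8, h9.symm⟩)
    (by
      simp only [Nat.zero_mod, if_true]
      exact hxadj 0 (by omega))
    (by
      have h7 : ¬ (r - 1) % 2 = 0 := by omega
      have h8 : r - 1 + 1 = r := by omega
      simp only [if_neg h7, h8]
      have := hxadj r (by omega)
      rw [hr] at this
      exact this)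
    hux0.symm
    (by
      have h7 : ¬ (r - 1) % 2 = 0 := by omega
      have h8 : r - 1 + 1 + k = 2 * k - 1 := by omega
      simp only [if_neg h7, h8]
      exact huxl)
    (by
      simp only [Nat.zero_mod, if_true]
      have := hxadj k (by omega)
      rw [Nat.add_comm 0 1, Nat.add_zero, Nat.add_comm 1 k]
      exact this.symm)
  -- the lists
  obtain ⟨l₀, hl₀⟩ : ∃ l₀, l₀ = x 0 :: ((List.range r).flatMap O ++ [x k]) := ⟨_, rfl⟩
  obtain ⟨l₁, hl₁⟩ : ∃ l₁, l₁ = x 0 :: u :: ((List.range r).reverse.flatMap O ++ [x k]) :=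
    ⟨_, rfl⟩
  rw [← hl₀] at h4
  rw [← hl₁] at h5
  have hl₀mem : ∀ v, v ∈ l₀ ↔ v ∈ cy ∨ ∃ i < r, v ∈ l i := by
    intro v
    rw [hl₀, List.mem_cons, List.mem_append, List.mem_flatMap, List.mem_singleton, hxmem]
    constructor
    · rintro (h | ⟨i, hi, h⟩ | h)
      · exact Or.inl ⟨0, by omega, h⟩
      · rw [List.mem_range] at hi
        rw [hOmem] at h
        rcases h with h | h | h
        · exact Or.inl ⟨i + 1, by omega, h⟩
        · exact Or.inl ⟨i + 1 + k, by omega, h⟩
        · exact Or.inr ⟨i, hi, h⟩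
      · exact Or.inl ⟨k, by omega, h⟩
    · rintro (⟨i, hi, h⟩ | ⟨i, hi, h⟩)
      · rcases Nat.eq_zero_or_pos i with h6 | h6
        · subst h6
          exact Or.inl h
        · rcases lt_trichotomy i k with h7 | h7 | h7
          · refine Or.inr (Or.inl ⟨i - 1, List.mem_range.mpr (by omega), ?_⟩)
            rw [hOmem]
            refine Or.inl ?_
            rw [h]
            congr 1
            omega
          · subst h7
            exact Or.inr (Or.inr h)
          · refine Or.inr (Or.inl ⟨i - k - 1, List.mem_range.mpr (by omega), ?_⟩)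
            rw [hOmem]
            refine Or.inr (Or.inl ?_)
            rw [h]
            congr 1
            omega
      · refine Or.inr (Or.inl ⟨i, List.mem_range.mpr hi, ?_⟩)
        rw [hOmem]
        exact Or.inr (Or.inr h)
  have hl₀nd : l₀.Nodup := by
    rw [hl₀, List.nodup_cons, List.nodup_append]
    refine ⟨?_, ?_, List.nodup_singleton _, ?_⟩
    · rw [List.mem_append, List.mem_singleton, List.mem_flatMap, not_or]
      refine ⟨?_, ?_⟩
      · rintro ⟨i, hi, h⟩
        rw [List.mem_range] at hi
        rw [hOmem] at h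
        rcases h with h | h | h
        · have := hxinj _ (by omega) _ (by omega) h
          omega
        · have := hxinj _ (by omega) _ (by omega) h
          omega
        · exact hcl _ (hxc 0 (by omega)) i hi h
      · intro h
        have := hxinj _ (by omega) _ (by omega) h
        omega
    · rw [List.nodup_flatMap]
      refine ⟨fun i hi => hOnd i (List.mem_range.mp hi), ?_⟩
      rw [List.pairwise_iff_getElem]
      intro i j hi hj hij
      rw [List.length_range] at hi hj
      simp only [Function.onFun, List.getElem_range]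
      intro v hv hv'
      rw [hOmem] at hv hv'
      rcases hv with hv | hv | hv
      · rcases hv' with hv' | hv' | hv'
        · have := hxinj _ (by omega) _ (by omega) (hv.symm.trans hv')
          omega
        · have := hxinj _ (by omega) _ (by omega) (hv.symm.trans hv')
          omega
        · rw [hv] at hv'
          exact hcl _ (hxc _ (by omega)) j hj hv'
      · rcases hv' with hv' | hv' | hv'
        · have := hxinj _ (by omega) _ (by omega) (hv.symm.trans hv')
          omega
        · have := hxinj _ (by omega) _ (by omega) (hv.symm.trans hv')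
          omega
        · rw [hv] at hv'
          exact hcl _ (hxc _ (by omega)) j hj hv'
      · rcases hv' with hv' | hv' | hv'
        · rw [hv'] at hv
          exact hcl _ (hxc _ (by omega)) i hi hv
        · rw [hv'] at hv
          exact hcl _ (hxc _ (by omega)) i hi hv
        · exact hdis j hj i hij v hv' hv
    · intro v hv w hw
      rw [List.mem_singleton] at hw
      rintro rfl
      rw [hw, List.mem_flatMap] at hv
      obtain ⟨i, hi, h⟩ := hv
      rw [List.mem_range] at hi
      rw [hOmem] at h
      rcases h with h | h | h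
      · have := hxinj _ (by omega) _ (by omega) h
        omega
      · have := hxinj _ (by omega) _ (by omega) h
        omega
      · exact hcl _ (hxc k (by omega)) i hi h
  have hul₀ : u ∉ l₀ := by
    rw [hl₀mem, not_or]
    refine ⟨huc, ?_⟩
    rintro ⟨i, hi, h⟩
    exact hul i hi h
  have hperm : l₁.Perm (u :: l₀) := by
    rw [hl₀, hl₁]
    refine (List.Perm.swap _ _ _).trans ?_
    refine List.Perm.cons _ (List.Perm.cons _ ?_)
    exact List.Perm.append_right _ (List.Perm.flatMap_right _ (List.reverse_perm _))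
  have hl₀len : l₀.length = sz a := by
    rw [hl₀, List.length_cons, List.length_append, List.length_flatMap, hsz]
    have h6 : (List.map (fun i => (O i).length) (List.range r)) =
        List.map (fun _ => 2 * a + 3) (List.range r) := by
      apply List.map_congr_left
      intro i hi
      exact hOlen i (List.mem_range.mp hi)
    rw [h6, List.map_const', List.sum_replicate, List.length_range, smul_eq_mul, ← hr]
    simp only [List.length_cons, List.length_nil]
    ring
  have hsub : l₀.toFinset ⊆ W \ used J F := by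
    intro v hv
    rw [List.mem_toFinset, hl₀mem] at hv
    rw [Finset.mem_sdiff]
    rcases hv with h | ⟨i, hi, h⟩
    · exact hc v h
    · exact ⟨(hl i hi v h).1, hlu i hi v h⟩
  have hst : x 0 ≠ x k := by
    intro h
    have := hxinj _ (by omega) _ (by omega) h
    omega
  refine ⟨l₀.toFinset, x 0, x k, l₀, l₁, J2, F2, hJ2, hsub, ?_, ?_, ?_, ?_, hst, hl₀nd, ?_, rfl,
    ?_, h4, h5, ?_, ?_, ?_, ?_, ?_, ?_, ?_, ?_⟩
  · ext v
    rw [hU2, hU1, Finset.mem_union, Finset.mem_union, List.mem_toFinset, List.mem_toFinset,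
      hl₀mem]
    tauto
  · rw [List.toFinset_card_of_nodup hl₀nd, hl₀len]
  · rw [List.mem_toFinset, hl₀mem]
    exact Or.inl (hxc 0 (by omega))
  · rw [List.mem_toFinset, hl₀mem]
    exact Or.inl (hxc k (by omega))
  · rw [hperm.nodup_iff, List.nodup_cons]
    exact ⟨hul₀, hl₀nd⟩
  · rw [List.toFinset_eq_of_perm _ _ hperm, List.toFinset_cons]
  · rw [hl₀]
    rfl
  · rw [hl₀, ← List.cons_append, List.getLast?_append]
    simp
  · rw [hl₁]
    rfl
  · rw [hl₁, ← List.cons_append, ← List.cons_append, List.getLast?_append]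
    simp
  · rw [ho2 (x 0) (fun i hi => ⟨fun h => ?_, fun h => ?_, hcl _ (hxc 0 (by omega)) i hi⟩)]
    · have := hoc1 _ (hxc 0 (by omega))
      omega
    · have := hxinj _ (by omega) _ (by omega) h
      omega
    · have := hxinj _ (by omega) _ (by omega) h
      omega
  · rw [ho2 (x k) (fun i hi => ⟨fun h => ?_, fun h => ?_, hcl _ (hxc k (by omega)) i hi⟩)]
    · have := hoc1 _ (hxc k (by omega))
      omega
    · have := hxinj _ (by omega) _ (by omega) h
      omega
    · have := hxinj _ (by omega) _ (by omega) h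
      omega
  · rw [ho2 u (fun i hi => ⟨fun h => ?_, fun h => ?_, hul i hi⟩), hou1]
    · exact huc (h ▸ hxc _ (by omega))
    · exact huc (h ▸ hxc _ (by omega))
  · intro v hv hvu
    rw [List.mem_toFinset, hl₀mem, not_or] at hv
    rw [ho2 v (fun i hi => ⟨fun h => ?_, fun h => ?_, fun h => ?_⟩), ho1 v hv.1 hvu]
    · exact hv.1 (h ▸ hxc _ (by omega))
    · exact hv.1 (h ▸ hxc _ (by omega))
    · exact hv.2 ⟨i, hi, h⟩

end Pool.Agent.RST
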