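import Pool.Agent.RST.Targets

/-!
# Job BULK of the project RST: embedding all exact pieces at once
-/

set_option autoImplicit false

open Finset

namespace Pool.Agent.RST

namespace BULK_

/-- the embedding -/
noncomputable def F {V : Type} (par : ℕ → ℕ) (Q : Finset ℕ) (κ : ℕ → ℕ) (β : ℕ → V)
    (M : ℕ → V → V) : ℕ → V :=
  WellFounded.fix (r := fun a b : ℕ => a < b) Nat.lt_wfRel.wf
    (fun x f => if x ∈ Q then β x else if h : par x < x then M (κ x) (f (par x) h) else β x)

theorem F_root {V : Type} (par : ℕ → ℕ) (Q : Finset ℕ) (κ : ℕ → ℕ) (β : ℕ → V)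
    (M : ℕ → V → V) (x : ℕ) (hx : x ∈ Q) : F par Q κ β M x = β x := by
  unfold F
  rw [WellFounded.fix_eq]
  rw [if_pos hx]

theorem F_step {V : Type} (par : ℕ → ℕ) (Q : Finset ℕ) (κ : ℕ → ℕ) (β : ℕ → V)
    (M : ℕ → V → V) (x : ℕ) (hx : x ∉ Q) (hp : par x < x) :
    F par Q κ β M x = M (κ x) (F par Q κ β M (par x)) := by
  unfold F
  rw [WellFounded.fix_eq]
  rw [if_neg hx, dif_pos hp]

end BULK_

open BULK_ in
/-- BULK for a nonempty vertex type -/
theorem bulk_of_nonempty (V : Type) [Fintype V] [DecidableEq V] [Nonempty V] (H : SimpleGraph V)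
    (par : ℕ → ℕ) (E Q : Finset ℕ) (κ : ℕ → ℕ) (Vc : ℕ → Finset V) (M : ℕ → V → V)
    (hup : ∀ x ∈ E, x ∉ Q → par x < x ∧ par x ∈ E) (hc : Col par E Q κ)
    (hd : ∀ x ∈ E, ∀ y ∈ E, κ x ≠ κ y → Disjoint (Vc (κ x)) (Vc (κ y)))
    (hcard : ∀ x ∈ E, (Vc (κ x)).card = (E.filter (fun y => κ y = κ x)).card)
    (hM : ∀ x ∈ E, x ∉ Q → Set.BijOn (M (κ x)) (Vc (κ (par x))) (Vc (κ x)) ∧
      ∀ v ∈ Vc (κ (par x)), H.Adj v (M (κ x) v)) :
    ∃ f : ℕ → V, Set.InjOn f E ∧ (∀ x ∈ E, f x ∈ Vc (κ x)) ∧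
      ∀ x ∈ E, x ∉ Q → H.Adj (f x) (f (par x)) := by
  classical
  -- injections of the colour classes
  have hβ : ∀ c : ℕ, ∃ b : ℕ → V, (∀ x ∈ E, κ x = c → b x ∈ Vc c) ∧
      ∀ x ∈ E, ∀ y ∈ E, κ x = c → κ y = c → b x = b y → x = y := by
    intro c
    by_cases hE : ∃ x ∈ E, κ x = c
    · obtain ⟨x₀, hx₀, hx₀c⟩ := hE
      have h1 : (E.filter (fun y => κ y = c)).card ≤ (Vc c).card := by
        have := hcard x₀ hx₀
        rw [hx₀c] at this
        exact this.ge
      have h2 : ((E.filter (fun y => κ y = c) : Finset ℕ) : Set ℕ).encard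
          ≤ ((Vc c : Finset V) : Set V).encard := by
        rw [Set.encard_coe_eq_coe_finsetCard, Set.encard_coe_eq_coe_finsetCard]
        exact_mod_cast h1
      obtain ⟨b, hb1, hb2⟩ := Set.Finite.exists_injOn_of_encard_le
        (Finset.finite_toSet (E.filter (fun y => κ y = c))) h2
      refine ⟨b, ?_, ?_⟩
      · intro x hx hxc
        have : x ∈ ((E.filter (fun y => κ y = c) : Finset ℕ) : Set ℕ) := by
          simp [hx, hxc]
        exact hb1 this
      · intro x hx y hy hxc hyc hxy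
        exact hb2 (by simp [hx, hxc]) (by simp [hy, hyc]) hxy
    · push Not at hE
      exact ⟨fun _ => Classical.arbitrary V, fun x hx h => absurd h (hE x hx),
        fun x hx y _ h => absurd h (hE x hx)⟩
  choose b hb1 hb2 using hβ
  set β : ℕ → V := fun x => b (κ x) x with hβdef
  have hmem : ∀ x, x ∈ E → F par Q κ β M x ∈ Vc (κ x) := by
    intro x
    induction x using Nat.strong_induction_on with
    | _ x ih =>
      intro hx
      by_cases hq : x ∈ Q
      · rw [F_root par Q κ β M x hq]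
        exact hb1 (κ x) x hx rfl
      · obtain ⟨hp1, hp2⟩ := hup x hx hq
        rw [F_step par Q κ β M x hq hp1]
        exact (hM x hx hq).1.mapsTo (ih (par x) hp1 hp2)
  have hinj : ∀ x, x ∈ E → ∀ y ∈ E, F par Q κ β M x = F par Q κ β M y → x = y := by
    intro x
    induction x using Nat.strong_induction_on with
    | _ x ih =>
      intro hx y hy hxy
      have hk : κ x = κ y := by
        by_contra hne
        have := hd x hx y hy hne
        rw [Finset.disjoint_left] at this
        refine this (hmem x hx) ?_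
        rw [hxy]
        exact hmem y hy
      by_cases hq : x ∈ Q
      · have hq' : y ∈ Q := (hc.root x hx y hy hk).1 hq
        rw [F_root par Q κ β M x hq, F_root par Q κ β M y hq'] at hxy
        refine hb2 (κ x) x hx y hy rfl hk.symm ?_
        simpa [hβdef, hk] using hxy
      · have hq' : y ∉ Q := fun h => hq ((hc.root x hx y hy hk).2 h)
        obtain ⟨hp1, hp2⟩ := hup x hx hq
        obtain ⟨hp1', hp2'⟩ := hup y hy hq'
        rw [F_step par Q κ β M x hq hp1, F_step par Q κ β M y hq' hp1', ← hk] at hxy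
        have hpc : κ (par x) = κ (par y) := hc.pcol x hx y hy hq hk
        have h1 : F par Q κ β M (par x) = F par Q κ β M (par y) := by
          refine (hM x hx hq).1.injOn (hmem (par x) hp2) ?_ hxy
          rw [hpc]
          exact hmem (par y) hp2'
        exact hc.pinj x hx y hy hq hk (ih (par x) hp1 hp2 (par y) hp2' h1)
  refine ⟨F par Q κ β M, ?_, hmem, ?_⟩
  · intro x hx y hy hxy
    exact hinj x hx y hy hxy
  · intro x hx hq
    obtain ⟨hp1, hp2⟩ := hup x hx hq
    rw [F_step par Q κ β M x hq hp1]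
    exact ((hM x hx hq).2 _ (hmem (par x) hp2)).symm

/-- BULK -/
theorem pBULK : T_BULK := by
  intro V _ _ _ H par E Q κ Vc M hup hc hd hcard hM
  exact bulk_of_nonempty V H par E Q κ Vc M hup hc hd hcard hM

end Pool.Agent.RST
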