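import Pool.Agent.RST.Targets

/-!
# CASEA: trees with linearly many leaves
-/

set_option autoImplicit false

open Finset Filter Topology

namespace Pool.Agent.RST

namespace CASEA_

/-! ### degrees -/

theorem dg_mono {V : Type} (H : SimpleGraph V) (v : V) {A B : Finset V} (h : A ⊆ B) :
    dg H v A ≤ dg H v B := by
  classical
  unfold dg
  exact card_le_card (filter_subset_filter _ h)

theorem dg_biUnion {V : Type} [DecidableEq V] (H : SimpleGraph V) (v : V) {ι : Type}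
    [DecidableEq ι] (s : Finset ι) (A : ι → Finset V)
    (hd : ∀ i ∈ s, ∀ j ∈ s, i ≠ j → Disjoint (A i) (A j)) :
    dg H v (s.biUnion A) = ∑ i ∈ s, dg H v (A i) := by
  classical
  unfold dg
  rw [filter_biUnion, card_biUnion]
  intro i hi j hj hij
  exact disjoint_filter_filter (hd i hi j hj hij)

/-! ### the tree part -/

section tree

variable {n D Δ : ℕ} {par : ℕ → ℕ} {E Q : Finset ℕ} {κ : ℕ → ℕ}

/-- active colours -/
def act (n : ℕ) (par : ℕ → ℕ) (E Q : Finset ℕ) (κ : ℕ → ℕ) (c : ℕ) : Prop :=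
  ∃ x ∈ E, x ∉ Q ∧ x ∈ lv n par ∧ κ (par x) = c

open Classical in
/-- the chosen child colour -/
noncomputable def sc (n : ℕ) (par : ℕ → ℕ) (E Q : Finset ℕ) (κ : ℕ → ℕ) (c : ℕ) : ℕ :=
  if h : act n par E Q κ c then κ h.choose else 0

theorem sc_spec {c : ℕ} (h : act n par E Q κ c) :
    ∃ x ∈ E, x ∉ Q ∧ x ∈ lv n par ∧ κ (par x) = c ∧ κ x = sc n par E Q κ c := by
  have hs := h.choose_spec
  refine ⟨h.choose, hs.1, hs.2.1, hs.2.2.1, hs.2.2.2, ?_⟩
  unfold sc
  rw [dif_pos h]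

open Classical in
/-- the removed leaves -/
noncomputable def MM (n : ℕ) (par : ℕ → ℕ) (E Q : Finset ℕ) (κ : ℕ → ℕ) : Finset ℕ :=
  E.filter (fun x => x ∉ Q ∧ act n par E Q κ (κ (par x)) ∧ κ x = sc n par E Q κ (κ (par x)))

open Classical in
/-- their parents -/
noncomputable def AP (n : ℕ) (par : ℕ → ℕ) (E Q : Finset ℕ) (κ : ℕ → ℕ) : Finset ℕ :=
  E.filter (fun y => act n par E Q κ (κ y))

theorem mem_MM {x : ℕ} : x ∈ MM n par E Q κ ↔ x ∈ E ∧ x ∉ Q ∧ act n par E Q κ (κ (par x)) ∧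
    κ x = sc n par E Q κ (κ (par x)) := by
  classical
  unfold MM
  simp only [Finset.mem_filter]

theorem mem_AP {x : ℕ} : x ∈ AP n par E Q κ ↔ x ∈ E ∧ act n par E Q κ (κ x) := by
  classical
  unfold AP
  simp only [Finset.mem_filter]

theorem MM_leaf (hmark : ∀ x ∈ E, ∀ y ∈ E, κ x = κ y → (x ∈ lv n par ↔ y ∈ lv n par))
    {x : ℕ} (hx : x ∈ MM n par E Q κ) : x ∈ lv n par := by
  rw [mem_MM] at hx
  obtain ⟨hE, _, ha, hc⟩ := hx
  obtain ⟨y, hy, _, hyl, _, hyc⟩ := sc_spec ha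
  exact (hmark x hE y hy (by rw [hc, hyc])).2 hyl

theorem MM_class (hcol : Col par E Q κ) {x y : ℕ} (hx : x ∈ E) (hy : y ∈ MM n par E Q κ)
    (h : κ x = κ y) : x ∈ MM n par E Q κ := by
  rw [mem_MM] at hy ⊢
  obtain ⟨hyE, hyQ, ha, hc⟩ := hy
  have hp : κ (par y) = κ (par x) := hcol.pcol y hyE x hx hyQ h.symm
  refine ⟨hx, fun hq => hyQ ((hcol.root x hx y hyE h).1 hq), ?_, ?_⟩
  · rw [← hp]; exact ha
  · rw [← hp, h]; exact hc

theorem par_mapsTo (hd : Dcp D par (range n) E Q) :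
    ∀ x ∈ MM n par E Q κ, par x ∈ AP n par E Q κ := by
  intro x hx
  rw [mem_MM] at hx
  rw [mem_AP]
  exact ⟨(hd.up x hx.1 hx.2.1).2, hx.2.2.1⟩

theorem par_injOn (hcol : Col par E Q κ) : Set.InjOn par (MM n par E Q κ : Set ℕ) := by
  intro x hx y hy hxy
  rw [mem_coe, mem_MM] at hx hy
  exact hcol.pinj x hx.1 y hy.1 hx.2.1 (by rw [hx.2.2.2, hy.2.2.2, hxy]) hxy

theorem par_surj (hd : Dcp D par (range n) E Q) (hcol : Col par E Q κ) :
    ∀ y ∈ AP n par E Q κ, ∃ x ∈ MM n par E Q κ, par x = y := by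
  classical
  intro y hy
  rw [mem_AP] at hy
  obtain ⟨hyE, ha⟩ := hy
  obtain ⟨x, hx, hxQ, hxl, hxp, hxc⟩ := sc_spec ha
  have hcard := hcol.pcard x hx hxQ
  have himg : (E.filter (fun z => κ z = κ x)).image par = E.filter (fun z => κ z = κ (par x)) := by
    apply eq_of_subset_of_card_le
    · intro z hz
      rw [mem_image] at hz
      obtain ⟨t, ht, rfl⟩ := hz
      rw [mem_filter] at ht
      have htQ : t ∉ Q := fun hq => hxQ ((hcol.root t ht.1 x hx ht.2).1 hq)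
      rw [mem_filter]
      exact ⟨(hd.up t ht.1 htQ).2, hcol.pcol t ht.1 x hx htQ ht.2⟩
    · rw [card_image_of_injOn, hcard]
      intro s hs t ht hst
      rw [mem_coe, mem_filter] at hs ht
      have hsQ : s ∉ Q := fun hq => hxQ ((hcol.root s hs.1 x hx hs.2).1 hq)
      exact hcol.pinj s hs.1 t ht.1 hsQ (by rw [hs.2, ht.2]) hst
  have hy' : y ∈ E.filter (fun z => κ z = κ (par x)) := by
    rw [mem_filter]; exact ⟨hyE, hxp.symm⟩
  rw [← himg, mem_image] at hy'
  obtain ⟨t, ht, hty⟩ := hy'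
  rw [mem_filter] at ht
  refine ⟨t, ?_, hty⟩
  rw [mem_MM]
  refine ⟨ht.1, fun hq => hxQ ((hcol.root t ht.1 x hx ht.2).1 hq), ?_, ?_⟩
  · rw [hty]; exact ha
  · rw [hty, ht.2, hxc]

theorem card_MM (hd : Dcp D par (range n) E Q) (hcol : Col par E Q κ) :
    (MM n par E Q κ).card = (AP n par E Q κ).card := by
  classical
  rw [← card_image_of_injOn (par_injOn (n := n) hcol)]
  congr 1
  ext y
  rw [mem_image]
  constructor
  · rintro ⟨x, hx, rfl⟩
    exact par_mapsTo hd x hx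
  · intro hy
    obtain ⟨x, hx, h⟩ := par_surj hd hcol y hy
    exact ⟨x, hx, h⟩

theorem card_Q (hD : 1 ≤ D) (hd : Dcp D par (range n) E Q) : Q.card ≤ (range n \ E).card := by
  classical
  apply card_le_card_of_injOn par
  · intro q hq
    exact hd.chain q hq 1 le_rfl hD
  · intro q hq q' hq' h
    exact hd.excl q hq q' hq' 1 1 le_rfl hD le_rfl hD (by simpa using h)

theorem card_leaves (hD : 1 ≤ D) (hd : Dcp D par (range n) E Q) (hbd : BD n par Δ) :
    (lv n par).card ≤ 2 * (range n \ E).card + Δ * (AP n par E Q κ).card := by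
  classical
  have h1 : lv n par ⊆ (range n \ E) ∪ Q ∪ E.filter (fun x => x ∉ Q ∧ x ∈ lv n par) := by
    intro x hx
    have hxr : x ∈ range n := by
      unfold lv at hx; exact (mem_filter.1 hx).1
    simp only [Finset.mem_union, Finset.mem_sdiff, Finset.mem_filter]
    by_cases hE : x ∈ E
    · by_cases hQ : x ∈ Q
      · exact Or.inl (Or.inr hQ)
      · exact Or.inr ⟨hE, hQ, hx⟩
    · exact Or.inl (Or.inl ⟨hxr, hE⟩)
  have h2 := card_le_card h1
  have h3 := card_union_le ((range n \ E) ∪ Q) (E.filter (fun x => x ∉ Q ∧ x ∈ lv n par))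
  have h4 := card_union_le (range n \ E) Q
  have h5 := card_Q hD hd
  have h6 : (E.filter (fun x => x ∉ Q ∧ x ∈ lv n par)).card ≤ Δ * (AP n par E Q κ).card := by
    apply card_le_mul_card_image_of_maps_to (f := par)
    · intro x hx
      rw [mem_filter] at hx
      rw [mem_AP]
      exact ⟨(hd.up x hx.1 hx.2.1).2, x, hx.1, hx.2.1, hx.2.2, rfl⟩
    · intro y hy
      refine le_trans (card_le_card ?_) (hbd y)
      intro x hx
      rw [mem_filter, mem_filter] at hx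
      unfold chd
      rw [mem_filter]
      have hup := hd.up x hx.1.1 hx.1.2.1
      exact ⟨hd.EC hx.1.1, by omega, hx.2⟩
  omega

theorem zero_notMem (hd : Dcp D par (range n) E Q) (hD : 1 ≤ D) : 0 ∉ E := by
  intro h
  by_cases hQ : 0 ∈ Q
  · have := hd.pos 0 hQ 0 (by omega)
    simp at this
  · have := (hd.up 0 h hQ).1
    omega

theorem par_notMem_MM (hmark : ∀ x ∈ E, ∀ y ∈ E, κ x = κ y → (x ∈ lv n par ↔ y ∈ lv n par))
    {x : ℕ} (hx0 : x ≠ 0) (hxn : x < n) : par x ∉ MM n par E Q κ := by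
  intro h
  have hl := MM_leaf hmark h
  unfold lv at hl
  rw [mem_filter] at hl
  have : x ∈ chd n par (par x) := by
    unfold chd
    rw [mem_filter, mem_range]
    exact ⟨hxn, Nat.pos_of_ne_zero hx0, rfl⟩
  rw [hl.2] at this
  simp at this

theorem finish {V : Type} [DecidableEq V] (hd : Dcp D par (range n) E Q) (hD : 1 ≤ D)
    (hcol : Col par E Q κ)
    (hmark : ∀ x ∈ E, ∀ y ∈ E, κ x = κ y → (x ∈ lv n par ↔ y ∈ lv n par))
    (H : SimpleGraph V) (f : ℕ → V)
    (hinj : Set.InjOn f ((E \ MM n par E Q κ) ∪ (range n \ E) : Finset ℕ))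
    (hadj : ∀ x ∈ (E \ MM n par E Q κ) ∪ (range n \ E), x ≠ 0 → H.Adj (f x) (f (par x)))
    (PA L : Finset V) (hPA : ∀ y ∈ AP n par E Q κ, f y ∈ PA)
    (hL : ∀ x ∈ (E \ MM n par E Q κ) ∪ (range n \ E), f x ∉ L)
    (Mt : V → V) (hMt : Set.BijOn Mt PA L) (hMa : ∀ x ∈ PA, H.Adj x (Mt x)) :
    ∃ f' : ℕ → V, Emb H n par f' := by
  classical
  refine ⟨fun x => if x ∈ MM n par E Q κ then Mt (f (par x)) else f x, ?_, ?_⟩
  · have hmem : ∀ x, x < n → x ∉ MM n par E Q κ →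
        x ∈ (E \ MM n par E Q κ) ∪ (range n \ E) := by
      intro x hx hxM
      simp only [Finset.mem_union, Finset.mem_sdiff, Finset.mem_range]
      by_cases hE : x ∈ E
      · exact Or.inl ⟨hE, hxM⟩
      · exact Or.inr ⟨hx, hE⟩
    have hAPmem : ∀ y ∈ AP n par E Q κ, y ∈ (E \ MM n par E Q κ) ∪ (range n \ E) := by
      intro y hy
      obtain ⟨x, hx, rfl⟩ := par_surj hd hcol y hy
      have hxE := (mem_MM.1 hx).1
      have hx0 : x ≠ 0 := fun h => zero_notMem hd hD (h ▸ hxE)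
      have hxn : x < n := by simpa using hd.EC hxE
      have h1 := par_notMem_MM (Q := Q) hmark hx0 hxn
      have h2 := (mem_AP.1 (par_mapsTo hd x hx)).1
      simp only [Finset.mem_union, Finset.mem_sdiff]
      exact Or.inl ⟨h2, h1⟩
    intro x hx y hy hxy
    rw [coe_range, Set.mem_Iio] at hx hy
    by_cases h1 : x ∈ MM n par E Q κ <;> by_cases h2 : y ∈ MM n par E Q κ
    · simp only [if_pos h1, if_pos h2] at hxy
      have e1 := hMt.injOn (hPA _ (par_mapsTo hd x h1)) (hPA _ (par_mapsTo hd y h2)) hxy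
      have e2 := hinj (mem_coe.2 (hAPmem _ (par_mapsTo hd x h1)))
        (mem_coe.2 (hAPmem _ (par_mapsTo hd y h2))) e1
      exact par_injOn hcol h1 h2 e2
    · simp only [if_pos h1, if_neg h2] at hxy
      exact absurd (by rw [← hxy]; exact hMt.mapsTo (hPA _ (par_mapsTo hd x h1)))
        (hL y (hmem y hy h2))
    · simp only [if_neg h1, if_pos h2] at hxy
      exact absurd (by rw [hxy]; exact hMt.mapsTo (hPA _ (par_mapsTo hd y h2)))
        (hL x (hmem x hx h1))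
    · simp only [if_neg h1, if_neg h2] at hxy
      exact hinj (mem_coe.2 (hmem x hx h1)) (mem_coe.2 (hmem y hy h2)) hxy
  · intro i hi hin
    have hp := par_notMem_MM (Q := Q) hmark (by omega : i ≠ 0) hin
    by_cases h1 : i ∈ MM n par E Q κ
    · simp only [if_pos h1, if_neg hp]
      exact (hMa _ (hPA _ (par_mapsTo hd i h1))).symm
    · simp only [if_neg h1, if_neg hp]
      apply hadj i _ (by omega)
      simp only [Finset.mem_union, Finset.mem_sdiff, Finset.mem_range]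
      by_cases hE : i ∈ E
      · exact Or.inl ⟨hE, h1⟩
      · exact Or.inr ⟨hin, hE⟩

theorem col' (hd : Dcp D par (range n) E Q) (hcol : Col par E Q κ)
    (hmark : ∀ x ∈ E, ∀ y ∈ E, κ x = κ y → (x ∈ lv n par ↔ y ∈ lv n par)) :
    Col par (E \ MM n par E Q κ) Q κ := by
  classical
  have hsub : ∀ x ∈ E \ MM n par E Q κ, x ∈ E := fun x hx => (Finset.mem_sdiff.1 hx).1
  have hfil : ∀ x ∈ E, x ∉ MM n par E Q κ →
      (E \ MM n par E Q κ).filter (fun y => κ y = κ x) = E.filter (fun y => κ y = κ x) := by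
    intro x hx hxM
    ext y
    simp only [Finset.mem_filter, Finset.mem_sdiff]
    constructor
    · rintro ⟨⟨h1, _⟩, h2⟩; exact ⟨h1, h2⟩
    · rintro ⟨h1, h2⟩
      exact ⟨⟨h1, fun h3 => hxM (MM_class hcol hx h3 h2.symm)⟩, h2⟩
  refine ⟨fun x hx y hy h => hcol.root x (hsub x hx) y (hsub y hy) h,
    fun x hx y hy hq h => hcol.pcol x (hsub x hx) y (hsub y hy) hq h,
    fun x hx y hy hq h h' => hcol.pinj x (hsub x hx) y (hsub y hy) hq h h', ?_⟩
  intro x hx hxQ
  have hxE := hsub x hx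
  have hup := hd.up x hxE hxQ
  have hxn : x < n := by simpa using hd.EC hxE
  rw [hfil x hxE (Finset.mem_sdiff.1 hx).2,
    hfil (par x) hup.2 (par_notMem_MM (Q := Q) hmark (by omega) hxn)]
  exact hcol.pcard x hxE hxQ

end tree

theorem numW {Δ n : ℕ} {α g gw ε : ℝ} (hΔ : 1 ≤ Δ) (hα : 0 < α) (hg : 0 < g) (hg1 : g ≤ 1 / 4)
    (hgw : gw = g / 4) (hε : ε = α * g * gw / (64 * Δ)) (hn : 16 * (Δ : ℝ) / (α * g) ≤ n)
    (hn1 : 1 ≤ n) (Wc LV M : ℕ) (hW : (Wc : ℝ) ≤ ε * n) (hLV : α * n ≤ LV)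
    (hLM : LV ≤ 2 * Wc + Δ * M) :
    ∃ w : ℕ, 4 * (ε * n) ≤ gw * w ∧ (4 * ε / gw) * n ≤ w ∧ (w : ℝ) ≤ g / 2 * M ∧
      α / (8 * Δ) * n ≤ (1 - g / 2) * M ∧ α / (8 * Δ) * n ≤ M := by
  have hΔ' : (1 : ℝ) ≤ Δ := by exact_mod_cast hΔ
  have hgw0 : 0 < gw := by rw [hgw]; positivity
  have hε0 : 0 < ε := by rw [hε]; positivity
  have hn' : (1 : ℝ) ≤ n := by exact_mod_cast hn1
  refine ⟨⌈4 * ε / gw * n⌉₊, ?_, Nat.le_ceil _, ?_, ?_⟩
  · have := Nat.le_ceil (4 * ε / gw * (n : ℝ))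
    calc 4 * (ε * n) = gw * (4 * ε / gw * n) := by field_simp
      _ ≤ gw * ⌈4 * ε / gw * (n : ℝ)⌉₊ := by gcongr
  all_goals
    have hLM' : (LV : ℝ) ≤ 2 * Wc + Δ * M := by exact_mod_cast hLM
    have hε1 : ε ≤ α / 1024 := by
      rw [hε, hgw]
      rw [div_le_div_iff₀ (by positivity) (by norm_num)]
      have : g * (g / 4) ≤ 1 / 64 := by nlinarith
      nlinarith [mul_pos hα hg, mul_le_mul_of_nonneg_left this hα.le]
    have hM : α / 2 * n ≤ Δ * M := by
      nlinarith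
    have hM2 : α / (2 * Δ) * n ≤ M := by
      rw [div_mul_eq_mul_div, div_le_iff₀ (by positivity)]
      nlinarith
  · have h1 := Nat.ceil_lt_add_one (a := 4 * ε / gw * (n : ℝ)) (by positivity)
    have h2 : 4 * ε / gw * (n : ℝ) = α * g / (16 * Δ) * n := by
      rw [hε]; field_simp; ring
    have h3 : 1 ≤ α * g / (16 * Δ) * n := by
      rw [div_le_iff₀ (by positivity)] at hn
      rw [div_mul_eq_mul_div, le_div_iff₀ (by positivity)]
      linarith
    have h4 : g / 2 * (α / (2 * Δ) * n) ≤ g / 2 * M := by gcongr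
    have h5 : g / 2 * (α / (2 * Δ) * n) = 4 * (α * g / (16 * Δ) * n) := by
      field_simp; ring
    linarith
  · have h6 : α / (8 * Δ) * n = (1 / 4) * (α / (2 * Δ) * n) := by field_simp; ring
    have hM0 : (0 : ℝ) ≤ M := Nat.cast_nonneg _
    have h7 : 0 ≤ α / (2 * Δ) * n := by positivity
    constructor
    · rw [h6]; nlinarith
    · rw [h6]; linarith

end CASEA_

open CASEA_ in
theorem pCASEA (h1 : T_RPART) (h2 : T_WP) (h3 : T_PH1) (h4 : T_PM) (h5 : T_DEC) (h6 : T_NUMA) :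
    T_CASEA := by
  classical
  intro Δ γ δ α C hΔ hγ hγ2 hδ hδ1 hα hC
  obtain ⟨g, hg⟩ : ∃ g, g = γ / 2 := ⟨_, rfl⟩
  obtain ⟨gw, hgw⟩ : ∃ gw, gw = g / 4 := ⟨_, rfl⟩
  obtain ⟨η, hη⟩ : ∃ η, η = γ / 100 := ⟨_, rfl⟩
  have hΔ' : (1 : ℝ) ≤ Δ := by exact_mod_cast hΔ
  have hg0 : 0 < g := by rw [hg]; positivity
  have hg1 : g ≤ 1 / 4 := by rw [hg]; linarith
  have hgw0 : 0 < gw := by rw [hgw]; positivity
  obtain ⟨ε, hε⟩ : ∃ ε, ε = α * g * gw / (64 * Δ) := ⟨_, rfl⟩
  have hε0 : 0 < ε := by rw [hε]; positivity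
  obtain ⟨a, ha⟩ : ∃ a, a = aa (δ / 20) := ⟨_, rfl⟩
  obtain ⟨k₀, ξ, N₀, hξ, hDEC⟩ := h5 Δ (2 * a + 2) hΔ (by omega) ε hε0
  obtain ⟨ξ', hξ'⟩ : ∃ ξ', ξ' = min ξ (min (4 * ε / gw) (α / (8 * Δ))) := ⟨_, rfl⟩
  have hξ'0 : 0 < ξ' := by
    rw [hξ']; refine lt_min hξ (lt_min ?_ ?_) <;> positivity
  obtain ⟨n₁, hWP⟩ := h2 δ g C Δ (2 * a + 2) hδ hδ1 hg0 (by linarith) (by rw [ha]) hC
  obtain ⟨n₂, hNUM⟩ := h6 δ g C ξ' η (k₀ + 2) hδ hδ1 hg0 hC hξ'0 (by rw [hη]; positivity)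
  refine ⟨max (max n₁ n₂) (max N₀ ⌈16 * (Δ : ℝ) / (α * g)⌉₊), ?_⟩
  intro n hn p hp hp1 H hUU hdeg par hVT hBD hlv
  have hn1 : n₁ ≤ n := le_trans (le_trans (le_max_left _ _) (le_max_left _ _)) hn
  have hn2 : n₂ ≤ n := le_trans (le_trans (le_max_right _ _) (le_max_left _ _)) hn
  have hn3 : N₀ ≤ n := le_trans (le_trans (le_max_left _ _) (le_max_right _ _)) hn
  have hn4 : 16 * (Δ : ℝ) / (α * g) ≤ n :=
    Nat.ceil_le.1 (le_trans (le_trans (le_max_right _ _) (le_max_right _ _)) hn)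
  obtain ⟨hn5, hp0, hpn, hlog, hexp⟩ := hNUM n hn2 p hp hp1
  have hnR : (0 : ℝ) < n := by exact_mod_cast hn5
  have hKu : 0 ≤ C * Real.log n := mul_nonneg hC (Real.log_natCast_nonneg n)
  -- the decomposition
  obtain ⟨E, Q, κ, hd, hWs, hcol, hk, hmark0⟩ :=
    hDEC n par (fun x => decide (x ∈ lv n par)) hn3 hVT hBD
  have hmark : ∀ x ∈ E, ∀ y ∈ E, κ x = κ y → (x ∈ lv n par ↔ y ∈ lv n par) := by
    intro x hx y hy h
    have := hmark0 x hx y hy h
    simpa using this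
  have hD : 1 ≤ 2 * a + 2 := by omega
  have hcl := card_leaves (κ := κ) hD hd hBD
  have hcM := card_MM (κ := κ) hd hcol
  obtain ⟨w, hw1, hw2, hw3, hw4, hw5⟩ := numW hΔ hα hg0 hg1 hgw hε hn4 hn5
    (range n \ E).card (lv n par).card (AP n par E Q κ).card hWs hlv hcl
  have hwM : w ≤ (AP n par E Q κ).card := by
    have h0 : (0 : ℝ) ≤ ((AP n par E Q κ).card : ℝ) := Nat.cast_nonneg _
    have : (w : ℝ) ≤ ((AP n par E Q κ).card : ℝ) := by nlinarith
    exact_mod_cast this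
  -- names
  obtain ⟨M, hM⟩ : ∃ M, M = MM n par E Q κ := ⟨_, rfl⟩
  obtain ⟨Ws, hWsd⟩ : ∃ Ws, Ws = range n \ E := ⟨_, rfl⟩
  have hME : M ⊆ E := by
    intro x hx; rw [hM, mem_MM] at hx; exact hx.1
  have hMQ : ∀ x ∈ Q, x ∉ M := by
    intro x hx hxM; rw [hM, mem_MM] at hxM; exact hxM.2.1 hx
  have hE0 : 0 ∉ E := zero_notMem hd hD
  have hcardE : (E \ M).card + M.card = E.card := card_sdiff_add_card_eq_card hME
  have hcardW : Ws.card + E.card = n := by
    rw [hWsd, card_sdiff_add_card_eq_card hd.EC, card_range]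
  have hcMM : M.card = (AP n par E Q κ).card := by rw [hM]; exact hcM
  -- random partition
  let s : Fin k₀ ⊕ Fin 2 → ℕ := Sum.elim
    (fun c => ((E \ M).filter (fun x => κ x = c)).card)
    (fun j => if j = 0 then w else M.card + Ws.card - w)
  have hsum : ∑ i, s i = n := by
    rw [Fintype.sum_sum_type]
    have e1 : ∑ c : Fin k₀, s (Sum.inl c) = (E \ M).card := by
      have : (E \ M).card = ∑ c ∈ range k₀, ((E \ M).filter (fun x => κ x = c)).card := by
        apply card_eq_sum_card_fiberwise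
        intro x hx
        rw [mem_coe, mem_range]
        exact (hk x (Finset.mem_sdiff.1 hx).1).1
      rw [this, Finset.sum_range]
      simp only [s, Sum.elim_inl]
    rw [e1, Fin.sum_univ_two]
    simp only [s, Sum.elim_inr, if_true]
    rw [if_neg (by decide)]
    omega
  have hcard : Fintype.card (Fin k₀ ⊕ Fin 2) = k₀ + 2 := by simp
  obtain ⟨P, hPc, hPd, hPu, hPdeg⟩ := h1 n H (Fin k₀ ⊕ Fin 2) s (1 / 2 * p * n) η (ξ' * n)
    hn5 hsum (by rw [hη]; positivity) (by rw [hη]; linarith) (by positivity)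
    (fun v => le_trans (by nlinarith [mul_pos hγ (mul_pos hp0 hnR)]) (hdeg v))
    (by rw [hcard]; exact hexp)
  have hDG : ∀ i, ξ' * n ≤ s i → DG H g p (P i) := by
    intro i hi v
    have h7 := hPdeg i hi v
    rw [hPc i]
    refine le_trans ?_ h7
    have h8 : (1 / 2 + γ) * p * n ≤ dg H v univ := hdeg v
    have h9 : (0 : ℝ) ≤ s i := Nat.cast_nonneg _
    have h10 : (0 : ℝ) ≤ (1 - η) * (s i / n) := by
      have : 0 ≤ 1 - η := by rw [hη]; linarith
      positivity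
    calc (1 / 2 + g) * p * (s i : ℝ)
        ≤ ((1 - η) * (1 / 2 + γ)) * p * (s i : ℝ) := by
          gcongr
          rw [hg, hη]; nlinarith
      _ = (1 - η) * (s i / n) * ((1 / 2 + γ) * p * n) := by field_simp
      _ ≤ _ := by gcongr
  have hsW : s (Sum.inr 0) = w := by simp [s]
  have hsL : s (Sum.inr 1) = M.card + Ws.card - w := by simp [s]
  have hξw : ξ' * n ≤ s (Sum.inr 0) := by
    rw [hsW]
    refine le_trans ?_ hw2
    gcongr
    rw [hξ']; exact le_trans (min_le_right _ _) (min_le_left _ _)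
  have hL0 : (1 - g / 2) * (M.card : ℝ) ≤ ((M.card + Ws.card - w : ℕ) : ℝ) := by
    have h7 : w ≤ M.card + Ws.card := by omega
    rw [Nat.cast_sub h7]
    push_cast
    rw [← hcMM] at hw3
    have : (0 : ℝ) ≤ (Ws.card : ℝ) := Nat.cast_nonneg _
    linarith
  have hξL : ξ' * n ≤ s (Sum.inr 1) := by
    rw [hsL]
    refine le_trans ?_ hL0
    rw [hcMM]
    refine le_trans ?_ hw4
    gcongr
    rw [hξ']; exact le_trans (min_le_right _ _) (min_le_right _ _)
  obtain ⟨hWpar, hOK⟩ := hWP n hn1 p (γ / 100) hp hp1 (by positivity) (by rw [hg]; linarith) H hUU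
    (P (Sum.inr 0)) (by
      rw [hPc, ]
      exact le_trans hpn (by gcongr)) (hDG _ hξw)
  rw [← ha, ← hgw] at hWpar
  rw [show (dd (δ / 20) n Δ) = dd (δ / 20) n Δ from rfl] at hOK
  -- phase 1
  let Vc : ℕ → Finset (Fin n) := fun c => if h : c < k₀ then P (Sum.inl ⟨c, h⟩) else ∅
  have hVc : ∀ x ∈ E, ∃ c : Fin k₀, (c : ℕ) = κ x ∧ Vc (κ x) = P (Sum.inl c) := by
    intro x hx
    refine ⟨⟨κ x, (hk x hx).1⟩, rfl, ?_⟩
    simp only [Vc]
    rw [dif_pos (hk x hx).1]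
  have hclass : ∀ x ∈ E \ M, (((E \ M).filter (fun y => κ y = κ x)).card : ℝ) =
      ((E.filter (fun y => κ y = κ x)).card : ℝ) := by
    intro x hx
    congr 2
    ext y
    simp only [Finset.mem_filter, Finset.mem_sdiff]
    constructor
    · rintro ⟨⟨h7, _⟩, h8⟩; exact ⟨h7, h8⟩
    · rintro ⟨h7, h8⟩
      refine ⟨⟨h7, fun h9 => (Finset.mem_sdiff.1 hx).2 ?_⟩, h8⟩
      rw [hM] at h9 ⊢
      exact MM_class hcol (Finset.mem_sdiff.1 hx).1 h9 h8.symm
  have hsc : ∀ x ∈ E \ M, ∀ c : Fin k₀, (c : ℕ) = κ x → ξ' * n ≤ s (Sum.inl c) := by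
    intro x hx c hc
    have h7 : s (Sum.inl c) = ((E \ M).filter (fun y => κ y = κ x)).card := by
      simp only [s, Sum.elim_inl, hc]
    rw [h7, hclass x hx]
    refine le_trans ?_ (hk x (Finset.mem_sdiff.1 hx).1).2
    gcongr
    rw [hξ']; exact min_le_left _ _
  have hparmem : ∀ x, x ≠ 0 → x < n → par x < n ∧ par x ∉ M := by
    intro x hx0 hxn
    refine ⟨lt_trans (hVT x (by omega) hxn) hxn, ?_⟩
    rw [hM]; exact par_notMem_MM (Q := Q) hmark hx0 hxn
  obtain ⟨f, hfinj, hfE, hfW, hfadj⟩ := h3 (Fin n) H (P (Sum.inr 0)) g gw (γ / 100) p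
    (C * Real.log n) (dd (δ / 20) n Δ) (mm (δ / 20) n p) (bb (δ / 20) n) a (2 * a + 2) hp0 hg0
    (by linarith) (by positivity) (by rw [hg]; linarith) hKu hUU hWpar hOK n par Δ (E \ M) Ws Q κ Vc
    hVT hBD (by unfold dd; omega) (sdiff_subset.trans hd.EC) (by rw [hWsd]; exact sdiff_subset)
    (by
      rw [hWsd, Finset.disjoint_left]
      intro x hx hx'
      exact (Finset.mem_sdiff.1 hx').2 (Finset.mem_sdiff.1 hx).1)
    (fun x hx => Finset.mem_sdiff.2 ⟨hd.QE hx, hMQ x hx⟩)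
    (by
      intro x hx hxQ
      have hxE := (Finset.mem_sdiff.1 hx).1
      have hup := hd.up x hxE hxQ
      have hxn : x < n := by simpa using hd.EC hxE
      exact ⟨hup.1, Finset.mem_sdiff.2 ⟨hup.2, (hparmem x (by omega) hxn).2⟩⟩)
    (by
      intro x hx hx0
      have hxn : x < n := by
        rw [hWsd] at hx; simpa using (Finset.mem_sdiff.1 hx).1
      obtain ⟨h7, h8⟩ := hparmem x hx0 hxn
      rw [hWsd]
      simp only [Finset.mem_union, Finset.mem_sdiff, Finset.mem_range]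
      by_cases h9 : par x ∈ E
      · exact Or.inl ⟨h9, h8⟩
      · exact Or.inr ⟨h7, h9⟩)
    (by
      intro _
      rw [hWsd]
      simp only [Finset.mem_sdiff, Finset.mem_range]
      exact ⟨by omega, hE0⟩)
    (fun q hq j hj => lt_of_le_of_lt (Nat.zero_le _) (hd.pos q hq j hj))
    (fun q hq j hj hj' => by rw [hWsd]; exact hd.chain q hq j hj hj')
    (fun q hq q' hq' j j' h7 h8 h9 h10 h11 =>
      hd.excl q hq q' hq' j j' h7 (by omega) h9 (by omega) h11)
    (by rw [hM]; exact col' hd hcol hmark)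
    (by
      intro x hx y hy hxy
      obtain ⟨c, hc, hVx⟩ := hVc x (Finset.mem_sdiff.1 hx).1
      obtain ⟨c', hc', hVy⟩ := hVc y (Finset.mem_sdiff.1 hy).1
      rw [hVx, hVy]
      apply hPd
      intro h7
      rw [Sum.inl.injEq] at h7
      apply hxy
      rw [← hc, ← hc', h7])
    (by
      intro x hx
      obtain ⟨c, hc, hVx⟩ := hVc x (Finset.mem_sdiff.1 hx).1
      rw [hVx]
      refine ⟨?_, hDG _ (hsc x hx c hc), ?_, ?_⟩
      · rw [hPc]; simp only [s, Sum.elim_inl, hc]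
      · rw [hPc]
        have h7 : g * p * (ξ' * n) ≤ g * p * (s (Sum.inl c)) := by
          have := hsc x hx c hc
          gcongr
        linarith
      · apply hPd; simp)
    (by
      rw [hPc, hsW, hWsd]
      have : (4 : ℝ) * ((range n \ E).card : ℝ) ≤ 4 * (ε * n) := by gcongr
      linarith)
  -- the remaining set
  obtain ⟨L, hL⟩ : ∃ L, L = (univ : Finset (Fin n)) \ ((E \ M ∪ Ws).image f) := ⟨_, rfl⟩
  have hEW : Disjoint (E \ M) Ws := by
    rw [hWsd, Finset.disjoint_left]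
    intro x hx hx'
    exact (Finset.mem_sdiff.1 hx').2 (Finset.mem_sdiff.1 hx).1
  have hcardI : ((E \ M ∪ Ws).image f).card + M.card = n := by
    rw [card_image_of_injOn hfinj, card_union_of_disjoint hEW]
    omega
  have hcardL : L.card = M.card := by
    rw [hL, card_sdiff_of_subset (subset_univ _), card_univ, Fintype.card_fin]
    omega
  have hL0L : P (Sum.inr 1) ⊆ L := by
    intro v hv
    rw [hL]
    simp only [Finset.mem_sdiff, Finset.mem_univ, true_and, Finset.mem_image, not_exists, not_and]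
    intro x hx hxv
    rw [Finset.mem_union] at hx
    rcases hx with hx | hx
    · obtain ⟨c, hc, hVx⟩ := hVc x (Finset.mem_sdiff.1 hx).1
      have h7 := hfE x hx
      rw [hVx, hxv] at h7
      exact Finset.disjoint_left.1 (hPd (Sum.inl c) (Sum.inr 1) (by simp)) h7 hv
    · have h7 := hfW x hx
      rw [hxv] at h7
      exact Finset.disjoint_left.1 (hPd (Sum.inr 0) (Sum.inr 1) (by simp)) h7 hv
  -- active classes
  have hAPE : ∀ y ∈ AP n par E Q κ, y ∈ E \ M := by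
    intro y hy
    obtain ⟨x, hx, rfl⟩ := par_surj hd hcol y hy
    have hxE := (mem_MM.1 hx).1
    have hx0 : x ≠ 0 := fun h => hE0 (h ▸ hxE)
    have hxn : x < n := by simpa using hd.EC hxE
    exact Finset.mem_sdiff.2 ⟨(mem_AP.1 (par_mapsTo hd x hx)).1, (hparmem x hx0 hxn).2⟩
  obtain ⟨cs, hcs⟩ : ∃ cs : Finset (Fin k₀), cs = univ.filter
    (fun c : Fin k₀ => act n par E Q κ (c : ℕ)) := ⟨_, rfl⟩
  obtain ⟨PA, hPA⟩ : ∃ PA, PA = cs.biUnion (fun c => P (Sum.inl c)) := ⟨_, rfl⟩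
  have hPAd : ∀ c ∈ cs, ∀ c' ∈ cs, c ≠ c' → Disjoint (P (Sum.inl c)) (P (Sum.inl c')) := by
    intro c _ c' _ h7
    apply hPd
    intro h8
    rw [Sum.inl.injEq] at h8
    exact h7 h8
  have hPAmem : ∀ y ∈ AP n par E Q κ, f y ∈ PA := by
    intro y hy
    have hyE := hAPE y hy
    obtain ⟨c, hc, hVx⟩ := hVc y (Finset.mem_sdiff.1 hyE).1
    rw [hPA, mem_biUnion]
    refine ⟨c, ?_, ?_⟩
    · rw [hcs, mem_filter]
      exact ⟨mem_univ _, by rw [hc]; exact (mem_AP.1 hy).2⟩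
    · rw [← hVx]; exact hfE y hyE
  have hPAcard0 : PA.card = ∑ c ∈ cs, s (Sum.inl c) := by
    rw [hPA, card_biUnion (by intro x hx y hy h7; exact hPAd x hx y hy h7)]
    exact sum_congr rfl (fun c _ => hPc _)
  have hPAcard : PA.card = M.card := by
    rw [hPAcard0, hcMM]
    have h7 : (AP n par E Q κ).card = ∑ c ∈ cs.image (fun c : Fin k₀ => (c : ℕ)),
        ((AP n par E Q κ).filter (fun y => κ y = c)).card := by
      apply card_eq_sum_card_fiberwise
      intro y hy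
      rw [mem_coe] at hy ⊢
      have hyE := (mem_AP.1 hy).1
      rw [mem_image]
      refine ⟨⟨κ y, (hk y hyE).1⟩, ?_, rfl⟩
      rw [hcs, mem_filter]
      exact ⟨mem_univ _, (mem_AP.1 hy).2⟩
    rw [h7, sum_image (by intro x _ y _ h8; exact Fin.ext h8)]
    apply sum_congr rfl
    intro c hc
    simp only [s, Sum.elim_inl]
    congr 1
    ext y
    rw [mem_filter, mem_filter]
    constructor
    · rintro ⟨h8, h9⟩
      refine ⟨?_, h9⟩
      rw [mem_AP]
      refine ⟨(Finset.mem_sdiff.1 h8).1, ?_⟩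
      rw [hcs, mem_filter] at hc
      rw [h9]; exact hc.2
    · rintro ⟨h8, h9⟩
      exact ⟨hAPE y h8, h9⟩
  have hMbig : ξ' * n ≤ (M.card : ℝ) := by
    rw [hcMM]
    refine le_trans ?_ hw5
    gcongr
    rw [hξ']; exact le_trans (min_le_right _ _) (min_le_right _ _)
  have hM0 : (0 : ℝ) ≤ (M.card : ℝ) := Nat.cast_nonneg _
  have hactsize : ∀ c ∈ cs, ξ' * n ≤ s (Sum.inl c) := by
    intro c hc
    rw [hcs, mem_filter] at hc
    obtain ⟨x, hx, hxQ, hxl, hxc⟩ := hc.2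
    have h7 : par x ∈ AP n par E Q κ := by
      rw [mem_AP]
      exact ⟨(hd.up x hx hxQ).2, x, hx, hxQ, hxl, rfl⟩
    exact hsc (par x) (hAPE _ h7) c hxc.symm
  obtain ⟨Mt, hMt, hMa⟩ := h4 (Fin n) H (γ / 100) p (C * Real.log n) (g / 2) PA L hp0
    (by positivity) (by positivity) (by rw [hg]; linarith) hKu hUU (by rw [hPAcard, hcardL])
    (by
      rw [hPAcard]
      have : g * p * (ξ' * n) ≤ g * p * M.card := by gcongr
      linarith)
    (by
      intro x _
      rw [hPAcard]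
      have h7 : (dg H x (P (Sum.inr 1)) : ℝ) ≤ dg H x L := by exact_mod_cast dg_mono H x hL0L
      have h8 := hDG _ hξL x
      rw [hPc, hsL] at h8
      refine le_trans ?_ (le_trans h8 h7)
      have h9 : (1 / 2 + g) * p * ((1 - g / 2) * (M.card : ℝ)) ≤
          (1 / 2 + g) * p * ((M.card + Ws.card - w : ℕ) : ℝ) := by gcongr
      refine le_trans ?_ h9
      have h10 : (1 / 2 + g / 2) ≤ (1 / 2 + g) * (1 - g / 2) := by nlinarith
      calc (1 / 2 + g / 2) * p * (M.card : ℝ) ≤ ((1 / 2 + g) * (1 - g / 2)) * p * M.card := by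
            gcongr
        _ = _ := by ring)
    (by
      intro y _
      have h7 : (dg H y PA : ℝ) = ∑ c ∈ cs, (dg H y (P (Sum.inl c)) : ℝ) := by
        rw [hPA, dg_biUnion H y cs _ hPAd]; push_cast; rfl
      rw [h7, hPAcard0]
      push_cast
      rw [mul_sum]
      apply sum_le_sum
      intro c hc
      have h8 := hDG _ (hactsize c hc) y
      rw [hPc] at h8
      refine le_trans ?_ h8
      gcongr
      linarith)
  refine finish hd hD hcol hmark H f ?_ ?_ PA L hPAmem ?_ Mt hMt hMa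
  · rw [← hM, ← hWsd]; exact hfinj
  · rw [← hM, ← hWsd]; exact hfadj
  · rw [← hM, ← hWsd]
    intro x hx
    rw [hL]
    simp only [Finset.mem_sdiff, Finset.mem_univ, true_and, not_not]
    exact mem_image_of_mem f hx

end Pool.Agent.RST
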