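import Mathlib

/-!
# Definitions for the project RST (MP_052821_co)

Resilience of all bounded degree spanning trees in `G(n,p)`, `p ≥ n^(-1+δ)`.
-/

set_option autoImplicit false

open Finset

namespace Pool.Agent.RST

/-! ## Graphs -/

open Classical in
/-- the number of `H`-neighbours of `v` in `A` -/
noncomputable def dg {V : Type} (H : SimpleGraph V) (v : V) (A : Finset V) : ℕ :=
  (A.filter (fun w => H.Adj v w)).card

open Classical in
/-- the vertices of `W` with an `H`-neighbour in `U` -/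
noncomputable def nb {V : Type} (H : SimpleGraph V) (U W : Finset V) : Finset V :=
  W.filter (fun w => ∃ u ∈ U, H.Adj u w)

/-- upper uniformity: few edges between any two sets -/
def UU {V : Type} (H : SimpleGraph V) (η p K : ℝ) : Prop :=
  ∀ X Y : Finset V, (∑ x ∈ X, (dg H x Y : ℝ)) ≤
    (1 + η) * p * X.card * Y.card + K * (X.card + Y.card)

/-- every vertex has relative degree at least `1/2 + g` into `S` -/
def DG {V : Type} (H : SimpleGraph V) (g p : ℝ) (S : Finset V) : Prop :=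
  ∀ v : V, (1 / 2 + g) * p * S.card ≤ dg H v S

/-- `l` is the list of the interior vertices of an `H`-path (walk) of length `L` from `y` to `q` -/
def Pth {V : Type} (H : SimpleGraph V) (L : ℕ) (y q : V) (l : List V) : Prop :=
  l.length + 1 = L ∧ l.Nodup ∧ (y :: (l ++ [q])).IsChain H.Adj

/-- the pairs `(a i, b i)`, `i ∈ A`, are linked by disjoint paths of length `ℓ` with interiors
covering exactly the set `S` -/
def Lk {V ι : Type} (H : SimpleGraph V) (ℓ : ℕ) (A : Finset ι) (a b : ι → V) (S : Finset V) :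
    Prop :=
  ∃ l : ι → List V, (∀ i ∈ A, Pth H ℓ (a i) (b i) (l i)) ∧
    (∀ i ∈ A, ∀ j ∈ A, i ≠ j → List.Disjoint (l i) (l j)) ∧
    (∀ x, x ∈ S ↔ ∃ i ∈ A, x ∈ l i)

/-! ## Waste mode -/

/-- the vertices used so far: heads of the oriented edges of `J` and the free vertices `F` -/
def used {V : Type} [DecidableEq V] (J : Finset (V × V)) (F : Finset V) : Finset V :=
  J.image Prod.snd ∪ F

/-- the outdegree of `u` in `J` -/
def od {V : Type} [DecidableEq V] (J : Finset (V × V)) (u : V) : ℕ :=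
  (J.filter (fun e => e.1 = u)).card

/-- the state `(J, F)` of the embedding in the set `W` is extendable -/
structure OK {V : Type} [DecidableEq V] (H : SimpleGraph V) (W : Finset V) (d m : ℕ)
    (J : Finset (V × V)) (F : Finset V) : Prop where
  inj : Set.InjOn Prod.snd (J : Set (V × V))
  disj : Disjoint (J.image Prod.snd) F
  sub : used J F ⊆ W
  adj : ∀ e ∈ J, H.Adj e.1 e.2
  tail : ∀ e ∈ J, e.1 ∈ W → e.1 ∈ used J F
  ext : ∀ U : Finset V, U.card ≤ 2 * m →
    d * U.card ≤ (nb H U W \ used J F).card + (J.filter (fun e => e.1 ∈ U)).card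

/-- the parameters of a waste set `W` -/
structure WPar {V : Type} (H : SimpleGraph V) (W : Finset V) (g : ℝ) (d m b a ℓ : ℕ) :
    Prop where
  g0 : 0 < g
  g1 : g ≤ 1 / 2
  lg : ∀ X : Finset V, m ≤ X.card → (1 / 2 + g) * (W.card : ℝ) ≤ ((nb H X W).card : ℝ)
  m1 : 1 ≤ m
  b1 : 1 ≤ b
  a1 : 1 ≤ a
  bd : b + 6 ≤ d
  mb : m ≤ b ^ a
  len : 2 * a + 2 ≤ ℓ
  bud : 8 * (2 * (a : ℝ) * ((m : ℝ) + b) + 3 * (m : ℝ) * d + ℓ) ≤ g * (W.card : ℝ)

/-! ## Rooted trees -/

/-- `par` is the parent function of a rooted tree on `{0, ..., N-1}` with root `0` -/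
def VT (N : ℕ) (par : ℕ → ℕ) : Prop := ∀ i, 0 < i → i < N → par i < i

/-- the children of `v` -/
def chd (N : ℕ) (par : ℕ → ℕ) (v : ℕ) : Finset ℕ :=
  (range N).filter (fun j => 0 < j ∧ par j = v)

/-- at most `Δ` children -/
def BD (N : ℕ) (par : ℕ → ℕ) (Δ : ℕ) : Prop := ∀ v, (chd N par v).card ≤ Δ

/-- the vertices without children -/
def lv (N : ℕ) (par : ℕ → ℕ) : Finset ℕ := (range N).filter (fun x => chd N par x = ∅)

/-- `f` embeds the tree `(N, par)` in `H` -/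
def Emb {V : Type} (H : SimpleGraph V) (N : ℕ) (par : ℕ → ℕ) (f : ℕ → V) : Prop :=
  Set.InjOn f (range N : Set ℕ) ∧ ∀ i, 0 < i → i < N → H.Adj (f i) (f (par i))

/-- a decomposition of the set `C` of vertices: `E` is the union of the exact pieces, `Q` the set
of the roots of the pieces; the `D` ancestors of a piece root are waste, and are exclusive for
this piece root -/
structure Dcp (D : ℕ) (par : ℕ → ℕ) (C E Q : Finset ℕ) : Prop where
  EC : E ⊆ C
  QE : Q ⊆ E
  up : ∀ x ∈ E, x ∉ Q → par x < x ∧ par x ∈ E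
  pos : ∀ q ∈ Q, ∀ j < D, par (par^[j] q) < par^[j] q
  chain : ∀ q ∈ Q, ∀ j, 1 ≤ j → j ≤ D → par^[j] q ∈ C \ E
  excl : ∀ q ∈ Q, ∀ q' ∈ Q, ∀ j j', 1 ≤ j → j ≤ D → 1 ≤ j' → j' ≤ D →
    par^[j] q = par^[j'] q' → q = q'

/-- all pieces have at most `S` vertices -/
def PS (par : ℕ → ℕ) (E Q : Finset ℕ) (S : ℕ) : Prop :=
  ∀ q ∈ Q, ∀ P : Finset ℕ, (∀ x ∈ P, ∃ j, par^[j] x = q ∧ ∀ i < j, par^[i] x ∈ E ∧ par^[i] x ∉ Q) →
    P.card ≤ S

/-- a rooted connected set of vertices -/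
def Reg (par : ℕ → ℕ) (C : Finset ℕ) (c : ℕ) : Prop :=
  c ∈ C ∧ ∀ x ∈ C, x ≠ c → par x < x ∧ par x ∈ C

/-- `κ` colours `E` such that inside each piece colours determine the colour of the parent and the
parent map is a bijection between the colour classes -/
structure Col (par : ℕ → ℕ) (E Q : Finset ℕ) (κ : ℕ → ℕ) : Prop where
  root : ∀ x ∈ E, ∀ y ∈ E, κ x = κ y → (x ∈ Q ↔ y ∈ Q)
  pcol : ∀ x ∈ E, ∀ y ∈ E, x ∉ Q → κ x = κ y → κ (par x) = κ (par y)
  pinj : ∀ x ∈ E, ∀ y ∈ E, x ∉ Q → κ x = κ y → par x = par y → x = y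
  pcard : ∀ x ∈ E, x ∉ Q →
    (E.filter (fun y => κ y = κ x)).card = (E.filter (fun y => κ y = κ (par x))).card

/-- `X` is the set of the lower ends of a family of disjoint bare paths with `ℓ` edges -/
structure Bare (N : ℕ) (par : ℕ → ℕ) (ℓ : ℕ) (X : Finset ℕ) : Prop where
  sub : X ⊆ range N
  pos : ∀ x ∈ X, ∀ j < ℓ, 0 < par^[j] x
  one : ∀ x ∈ X, ∀ j, 1 ≤ j → j ≤ ℓ → chd N par (par^[j] x) = {par^[j-1] x}
  disj : ∀ x ∈ X, ∀ y ∈ X, ∀ i ≤ ℓ, ∀ j ≤ ℓ, par^[i] x = par^[j] y → x = y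

end Pool.Agent.RST
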