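import Pool.Agent.RST.Targets

set_option autoImplicit false

open Finset Filter Topology

namespace Pool.Agent.RST

namespace NUMA_

theorem rp_tendsto (δ : ℝ) (hδ : 0 < δ) : Tendsto (fun n : ℕ => (n : ℝ) ^ δ) atTop atTop :=
  (tendsto_rpow_atTop hδ).comp tendsto_natCast_atTop_atTop

/-- `n^a ≤ c n^b` eventually, if `a < b` -/
theorem ev_rpow (a b c : ℝ) (hab : a < b) (hc : 0 < c) :
    ∀ᶠ n : ℕ in atTop, (n : ℝ) ^ a ≤ c * (n : ℝ) ^ b := by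
  have h1 := (rp_tendsto (b - a) (by linarith)).eventually_ge_atTop (1 / c)
  filter_upwards [h1, eventually_ge_atTop 1] with n hn hn1
  have hn0 : (0 : ℝ) < n := by exact_mod_cast hn1
  have h2 : (n : ℝ) ^ b = (n : ℝ) ^ (b - a) * (n : ℝ) ^ a := by
    rw [← Real.rpow_add hn0]; congr 1; ring
  rw [h2, ← mul_assoc]
  have h3 : 1 ≤ c * (n : ℝ) ^ (b - a) := by
    rw [div_le_iff₀ hc] at hn
    linarith
  have h4 : 0 ≤ (n : ℝ) ^ a := Real.rpow_nonneg hn0.le _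
  nlinarith

/-- `M log n ≤ c n^b` eventually -/
theorem ev_log (b M c : ℝ) (hb : 0 < b) (hc : 0 < c) :
    ∀ᶠ n : ℕ in atTop, M * Real.log n ≤ c * (n : ℝ) ^ b := by
  have h1 : Tendsto (fun n : ℕ => Real.log (n : ℝ) / (n : ℝ) ^ b) atTop (𝓝 0) := by
    have := (isLittleO_log_rpow_atTop hb).tendsto_div_nhds_zero
    exact this.comp tendsto_natCast_atTop_atTop
  have h2 : Tendsto (fun n : ℕ => M * (Real.log (n : ℝ) / (n : ℝ) ^ b)) atTop (𝓝 (M * 0)) :=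
    h1.const_mul M
  rw [mul_zero] at h2
  have h3 := h2.eventually_lt_const hc
  filter_upwards [h3, eventually_ge_atTop 1] with n hn hn1
  have hn0 : (0 : ℝ) < n := by exact_mod_cast hn1
  have h4 : 0 < (n : ℝ) ^ b := Real.rpow_pos_of_pos hn0 _
  rw [← mul_div_assoc, div_lt_iff₀ h4] at hn
  exact hn.le

/-- exponential decay -/
theorem ev_exp (δ c M : ℝ) (hδ : 0 < δ) (hc : 0 < c) (k : ℕ) :
    ∀ᶠ n : ℕ in atTop, M * ((n : ℝ) ^ (k + 1) * Real.exp (-(c * (n : ℝ) ^ δ))) < 1 := by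
  have h1 := (tendsto_rpow_mul_exp_neg_mul_atTop_nhds_zero (((k : ℝ) + 1) / δ) c hc).comp
    (rp_tendsto δ hδ)
  have h2 := h1.const_mul M
  rw [mul_zero] at h2
  have h3 := h2.eventually_lt_const (show (0 : ℝ) < 1 by norm_num)
  filter_upwards [h3, eventually_ge_atTop 1] with n hn hn1
  have hn0 : (0 : ℝ) < n := by exact_mod_cast hn1
  simp only [Function.comp] at hn
  rw [← Real.rpow_mul hn0.le, mul_div_cancel₀ _ hδ.ne'] at hn
  have h4 : (n : ℝ) ^ ((k : ℝ) + 1) = (n : ℝ) ^ (k + 1) := by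
    rw [← Real.rpow_natCast]
    push_cast
    rfl
  rw [h4, neg_mul] at hn
  exact hn

end NUMA_

open NUMA_

theorem pNUMA : T_NUMA := by
  intro δ g C ξ η k hδ hδ1 hg hC hξ hη
  have e1 := ev_rpow (4 * (δ / 20)) δ ξ (by linarith) hξ
  have e2 := ev_log δ (16 * C) (g * ξ) hδ (by positivity)
  have e3 := ev_exp δ (η ^ 2 * ξ / 4) ((k : ℝ) * 2 ^ k) hδ (by positivity) k
  obtain ⟨n₀, hn₀⟩ := eventually_atTop.1 (((e1.and e2).and e3).and (eventually_ge_atTop 1))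
  refine ⟨n₀, fun n hn p hp hp1 => ?_⟩
  obtain ⟨⟨⟨h1, h2⟩, h3⟩, hn1⟩ := hn₀ n hn
  have hn0 : (0 : ℝ) < n := by exact_mod_cast hn1
  have hn1' : (1 : ℝ) ≤ n := by exact_mod_cast hn1
  have hp0 : 0 < p := lt_of_lt_of_le (Real.rpow_pos_of_pos hn0 _) hp
  have hpn : (n : ℝ) ^ δ ≤ p * n := by
    have h4 : (n : ℝ) ^ δ = (n : ℝ) ^ (-1 + δ) * n := by
      rw [Real.rpow_add hn0, Real.rpow_neg_one]
      field_simp
    rw [h4]
    exact mul_le_mul_of_nonneg_right hp hn0.le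
  refine ⟨hn1, hp0, ?_, ?_, ?_⟩
  · calc (n : ℝ) ^ (4 * (δ / 20)) ≤ ξ * (n : ℝ) ^ δ := h1
      _ ≤ ξ * (p * n) := mul_le_mul_of_nonneg_left hpn hξ.le
      _ = p * (ξ * n) := by ring
  · calc 16 * (C * Real.log n) = 16 * C * Real.log n := by ring
      _ ≤ g * ξ * (n : ℝ) ^ δ := h2
      _ ≤ g * ξ * (p * n) := mul_le_mul_of_nonneg_left hpn (by positivity)
      _ = g * p * (ξ * n) := by ring
  · have h5 : -(η ^ 2 * (ξ * n) * (1 / 2 * p * n) / (2 * n)) ≤ -(η ^ 2 * ξ / 4 * (n : ℝ) ^ δ) := by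
      have h6 : η ^ 2 * (ξ * n) * (1 / 2 * p * n) / (2 * n) = η ^ 2 * ξ / 4 * (p * n) := by
        field_simp
        ring
      rw [h6, neg_le_neg_iff]
      exact mul_le_mul_of_nonneg_left hpn (by positivity)
    have h7 : (n : ℝ) * k * ((n : ℝ) + 1) ^ k ≤ (k : ℝ) * 2 ^ k * (n : ℝ) ^ (k + 1) := by
      have h8 : ((n : ℝ) + 1) ^ k ≤ (2 * n) ^ k := pow_le_pow_left₀ (by linarith) (by linarith) k
      calc (n : ℝ) * k * ((n : ℝ) + 1) ^ k ≤ (n : ℝ) * k * (2 * n) ^ k :=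
            mul_le_mul_of_nonneg_left h8 (by positivity)
        _ = (k : ℝ) * 2 ^ k * (n : ℝ) ^ (k + 1) := by
            rw [mul_pow, pow_succ]; ring
    calc (n : ℝ) * k * ((n : ℝ) + 1) ^ k *
          Real.exp (-(η ^ 2 * (ξ * n) * (1 / 2 * p * n) / (2 * n)))
        ≤ (k : ℝ) * 2 ^ k * (n : ℝ) ^ (k + 1) * Real.exp (-(η ^ 2 * ξ / 4 * (n : ℝ) ^ δ)) :=
          mul_le_mul h7 (Real.exp_le_exp.2 h5) (Real.exp_pos _).le (by positivity)
      _ = (k : ℝ) * 2 ^ k * ((n : ℝ) ^ (k + 1) * Real.exp (-(η ^ 2 * ξ / 4 * (n : ℝ) ^ δ))) := by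
          ring
      _ < 1 := h3

end Pool.Agent.RST
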