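import Pool.Agent.RST.Targets

/-! # PH1: phase 1 -/

set_option autoImplicit false

open Finset

namespace Pool.Agent.RST

theorem pPH1 (h1 : T_PM) (h2 : T_P1) (h3 : T_BULK) : T_PH1 := by
  intro V _ _ H W g gw η p Ku d m b a ℓ hp hg _ hη hη2 hKu hUU hW hOK N par Δ E Ws Q κ Vc hVT hBD
    hbd hE hWs hEW hQE hEpar hWspar h0 hQpos hQchain hQexcl hCol hdisj hsize hbud
  -- the perfect matchings
  have hM : ∀ c : ℕ, ∃ μ : V → V, ∀ x ∈ E, x ∉ Q → κ x = c →
      Set.BijOn μ (Vc (κ (par x))) (Vc c) ∧ ∀ v ∈ Vc (κ (par x)), H.Adj v (μ v) := by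
    intro c
    by_cases hex : ∃ x ∈ E, x ∉ Q ∧ κ x = c
    · obtain ⟨x, hx, hxQ, hxc⟩ := hex
      have hpx := (hEpar x hx hxQ).2
      obtain ⟨s1, d1, k1, -⟩ := hsize x hx
      obtain ⟨s2, d2, k2, -⟩ := hsize (par x) hpx
      have hcard : (Vc (κ (par x))).card = (Vc (κ x)).card := by
        rw [s1, s2]
        exact (hCol.pcard x hx hxQ).symm
      obtain ⟨μ, hμ1, hμ2⟩ := h1 V H η p Ku g (Vc (κ (par x))) (Vc (κ x)) hp hg hη hη2 hKu hUU
        hcard k2 (fun v _ => by rw [hcard]; exact d1 v) (fun v _ => d2 v)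
      refine ⟨μ, fun y hy hyQ hyc => ?_⟩
      have hyx : κ y = κ x := by rw [hyc, hxc]
      have hpar : κ (par y) = κ (par x) := hCol.pcol y hy x hx hyQ hyx
      rw [hpar, ← hxc]
      exact ⟨hμ1, hμ2⟩
    · refine ⟨id, fun x hx hxQ hxc => absurd ⟨x, hx, hxQ, hxc⟩ hex⟩
  choose M hM using hM
  -- the exact pieces
  have hVne : Nonempty V := by
    by_contra hne
    rw [not_nonempty_iff] at hne
    have hW0 : W.card = 0 := by
      rw [Finset.card_eq_zero]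
      exact Finset.eq_empty_of_isEmpty W
    have h5 := hW.bud
    rw [hW0] at h5
    have h6 : (1 : ℝ) ≤ m := by exact_mod_cast hW.m1
    have h7 : (1 : ℝ) ≤ a := by exact_mod_cast hW.a1
    have h8 : (0 : ℝ) ≤ b := Nat.cast_nonneg b
    have h9 : (0 : ℝ) ≤ d := Nat.cast_nonneg d
    have h10 : (0 : ℝ) ≤ ℓ := Nat.cast_nonneg ℓ
    have h11 : 0 < 2 * (a : ℝ) * ((m : ℝ) + b) := by positivity
    have h12 : 0 ≤ 3 * (m : ℝ) * d := by positivity
    simp only [Nat.cast_zero, mul_zero] at h5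
    linarith
  obtain ⟨f₀, hf1, hf2, hf3⟩ := h3 V H par E Q κ Vc M hEpar hCol hdisj (fun x hx => (hsize x hx).1)
    (fun x hx hxQ => hM (κ x) x hx hxQ rfl)
  -- the waste vertices
  obtain ⟨f, hg1, hg2, hg3, hg4, hg5⟩ := h2 V H W gw d m b a ℓ hW hOK N par Δ E Ws Q f₀ hVT hBD hbd
    hE hWs hEW hQE hWspar h0 hQpos hQchain hQexcl hf1
    (fun x hx hxW => (Finset.disjoint_left.1 (hsize x hx).2.2.2) (hf2 x hx) hxW) hbud
  refine ⟨f, hg1, fun x hx => ?_, hg3, fun x hx hx0 => ?_⟩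
  · rw [hg2 x hx]
    exact hf2 x hx
  · rcases Finset.mem_union.1 hx with hxE | hxW
    · by_cases hxQ : x ∈ Q
      · exact hg5 x hxQ
      · rw [hg2 x hxE, hg2 (par x) (hEpar x hxE hxQ).2]
        exact hf3 x hxE hxQ
    · exact hg4 x hxW hx0

end Pool.Agent.RST
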