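import Pool.Agent.RST.Targets

/-!
# RST: WP, every set of large relative degree is a good waste set
-/

set_option autoImplicit false

open Finset

namespace Pool.Agent.RST

namespace WP_

private lemma exists_n0 (κ M : ℝ) (hκ : 0 < κ) :
    ∃ n₀ : ℕ, 1 ≤ n₀ ∧ ∀ n : ℕ, n₀ ≤ n → M ≤ (n : ℝ) ^ (κ / 2) := by
  have h1 : Filter.Tendsto (fun n : ℕ => (n : ℝ) ^ (κ / 2)) Filter.atTop Filter.atTop :=
    (tendsto_rpow_atTop (by positivity)).comp tendsto_natCast_atTop_atTop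
  obtain ⟨n₀, hn₀⟩ := Filter.eventually_atTop.1 (h1.eventually_ge_atTop M)
  exact ⟨max n₀ 1, le_max_right _ _, fun n hn => hn₀ n (le_trans (le_max_left _ _) hn)⟩

private lemma aux1 {N c b Δ : ℝ} (hN : 1 ≤ N) (hb : b ≤ 2 * N) (hΔ : 0 ≤ Δ) (hc : c = Δ + 28) :
    4 * b + Δ + 20 ≤ c * N := by
  rw [hc]
  have h1 : Δ ≤ Δ * N := le_mul_of_one_le_right hΔ hN
  have h2 : (Δ + 28) * N = Δ * N + 28 * N := by ring
  rw [h2]
  linarith

private lemma aux2 {T a m b : ℝ} (ha : 0 ≤ a) (h : m + b ≤ 4 * T) :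
    2 * a * (m + b) ≤ 8 * a * T := by
  have := mul_le_mul_of_nonneg_left h (by linarith : (0 : ℝ) ≤ 2 * a)
  calc 2 * a * (m + b) ≤ 2 * a * (4 * T) := this
    _ = 8 * a * T := by ring

private lemma aux3 {T m d c : ℝ} (h : m * d ≤ 2 * c * T) : 3 * m * d ≤ 6 * c * T := by
  calc 3 * m * d = 3 * (m * d) := by ring
    _ ≤ 3 * (2 * c * T) := by linarith
    _ = 6 * c * T := by ring

private lemma aux4 {T l : ℝ} (hl : 0 ≤ l) (h : 1 ≤ T) : l ≤ l * T := le_mul_of_one_le_right hl h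

private lemma aux5 {g p w D : ℝ} (hg : 0 ≤ g) (hp : 0 ≤ p) (hw : 0 ≤ w)
    (h : (1 / 2 + g) * p * w ≤ D) : 1 / 2 * p * w ≤ D := by
  have : (1 / 2 + g) * p * w = 1 / 2 * p * w + g * (p * w) := by ring
  have h2 : 0 ≤ g * (p * w) := by positivity
  linarith

private lemma aux6 {m d c T M w : ℝ} (h : m * d ≤ 2 * c * T) (hT : 0 < T) (hc : 32 * c + 1 ≤ M)
    (hw : M * T ≤ w) : 16 * m * d ≤ w := by
  have h1 : 16 * m * d = 16 * (m * d) := by ring
  have h2 : (32 * c) * T ≤ M * T := mul_le_mul_of_nonneg_right (by linarith) hT.le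
  rw [h1]
  linarith

private lemma aux7 {K g N : ℝ} (h : 8 * K ≤ g * N) (hg : g ≤ 1 / 2) (hN : 0 ≤ N) :
    4 * K ≤ N / 4 := by
  have := mul_le_mul_of_nonneg_right hg hN
  linarith

private lemma aux8 {d c N : ℝ} (hd : d ≤ c * N) (hc : 28 ≤ c) (hN : 1 ≤ N) :
    1 + d ≤ 2 * c * N := by
  have h1 : c ≤ c * N := le_mul_of_one_le_right (by linarith) hN
  have h2 : 2 * c * N = c * N + c * N := by ring
  rw [h2]
  linarith

private lemma aux9 {g A c M : ℝ} (hg : 0 < g) (hc : 0 ≤ c) (hM : M = 32 * A / g + 32 * c + 1) :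
    32 * A ≤ g * M := by
  have e1 : g * M = 32 * A + g * (32 * c + 1) := by
    rw [hM]
    field_simp
    ring
  rw [e1]
  have : 0 ≤ g * (32 * c + 1) := by positivity
  linarith

end WP_

set_option maxHeartbeats 4000000 in
theorem pWP (h1 : T_LG) (h2 : T_INIT) : T_WP := by
  intro δ g C Δ ℓ hδ hδ1 hg hg1 hℓ hC
  set κ : ℝ := δ / 20 with hκdef
  have hκ : 0 < κ := by positivity
  set a : ℕ := aa κ with hadef
  set c₁ : ℝ := (Δ : ℝ) + 28 with hc₁
  have hc₁28 : (28 : ℝ) ≤ c₁ := by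
    have : (0 : ℝ) ≤ Δ := Nat.cast_nonneg _
    linarith
  set M₀ : ℝ := 32 * (8 * (a : ℝ) + 6 * c₁ + ℓ) / g + 32 * c₁ + 1 with hM₀
  have ha0 : (0 : ℝ) ≤ a := Nat.cast_nonneg _
  have hℓ0 : (0 : ℝ) ≤ ℓ := Nat.cast_nonneg _
  have hM₀1 : 1 ≤ M₀ := by
    have : 0 ≤ 32 * (8 * (a : ℝ) + 6 * c₁ + ℓ) / g := by positivity
    linarith
  obtain ⟨n₀, hn₀1, hn₀⟩ := WP_.exists_n0 κ (M₀ + 16 * C / (κ * g)) hκ
  refine ⟨n₀, ?_⟩
  intro n hn p η hp hp1 hη hη2 H hUU W hW hDG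
  have hn1 : 1 ≤ n := le_trans hn₀1 hn
  have hnR : (1 : ℝ) ≤ n := by exact_mod_cast hn1
  have hn0 : (0 : ℝ) < n := by linarith
  set x : ℝ := (n : ℝ) ^ (κ / 2) with hx
  have hxM := hn₀ n hn
  have hCg : 0 ≤ 16 * C / (κ * g) := by positivity
  have hxM0 : M₀ ≤ x := by linarith
  have hx1 : 1 ≤ x := le_trans hM₀1 hxM0
  set N : ℝ := (n : ℝ) ^ κ with hN
  have hNx : N = x ^ 2 := by
    rw [hN, hx, ← Real.rpow_natCast, ← Real.rpow_mul hn0.le]
    congr 1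
    push_cast
    ring
  have hN1 : 1 ≤ N := by
    rw [hNx]
    exact one_le_pow₀ hx1
  have hN0 : 0 < N := by linarith
  have hxN : x ≤ N := by
    rw [hNx]
    exact le_self_pow₀ hx1 (by norm_num)
  have hN2 : N ≤ N ^ 2 := le_self_pow₀ hN1 (by norm_num)
  have hMN2 : M₀ ≤ N ^ 2 := by linarith
  have hp0 : 0 < p := lt_of_lt_of_le (Real.rpow_pos_of_pos hn0 _) hp
  set K : ℝ := C * Real.log n with hK
  have hlog0 : 0 ≤ Real.log n := Real.log_nonneg hnR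
  have hK0 : 0 ≤ K := mul_nonneg hC hlog0
  have hlog : Real.log n ≤ x / (κ / 2) := Real.log_le_rpow_div hn0.le (by positivity)
  have h8K : 8 * K ≤ g * N := by
    have e1 : 8 * K ≤ 16 * C / κ * x := by
      calc 8 * K = 8 * C * Real.log n := by rw [hK]; ring
        _ ≤ 8 * C * (x / (κ / 2)) := mul_le_mul_of_nonneg_left hlog (by positivity)
        _ = 16 * C / κ * x := by field_simp; ring
    have e2 : 16 * C / κ ≤ g * x := by
      have : 16 * C / (κ * g) ≤ x := by linarith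
      rw [div_le_iff₀ (by positivity)] at this
      rw [div_le_iff₀ hκ]
      linarith
    calc 8 * K ≤ 16 * C / κ * x := e1
      _ ≤ g * x * x := mul_le_mul_of_nonneg_right e2 (by linarith)
      _ = g * N := by rw [hNx]; ring
  set w : ℝ := (W.card : ℝ) with hw
  have hpw : N ^ 4 ≤ p * w := by
    have : (n : ℝ) ^ (4 * κ) = N ^ 4 := by
      rw [hN, ← Real.rpow_natCast, ← Real.rpow_mul hn0.le]
      congr 1
      push_cast
      ring
    rw [← this]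
    exact hW
  have hN4 : N ^ 2 ≤ N ^ 4 := pow_le_pow_right₀ hN1 (by norm_num)
  have hN4' : N ≤ N ^ 4 := by linarith
  -- m
  set m : ℕ := mm κ n p with hm
  have hNp : 1 ≤ N / p := by
    rw [le_div_iff₀ hp0]
    linarith
  have hm_lo : N / p ≤ m := Nat.le_ceil _
  have hm_hi : (m : ℝ) ≤ 2 * (N / p) := by
    have : (m : ℝ) < N / p + 1 := Nat.ceil_lt_add_one (by positivity)
    linarith
  have hpm : N ≤ p * m := by
    rw [div_le_iff₀ hp0] at hm_lo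
    linarith
  have hm1 : 1 ≤ m := by
    have : (1 : ℝ) ≤ m := le_trans hNp hm_lo
    exact_mod_cast this
  -- b
  set b : ℕ := bb κ n with hb
  have hb_lo : N ≤ b := Nat.le_ceil _
  have hb_hi : (b : ℝ) ≤ 2 * N := by
    have : (b : ℝ) < N + 1 := Nat.ceil_lt_add_one (by positivity)
    linarith
  have hb1 : 1 ≤ b := by
    have : (1 : ℝ) ≤ b := le_trans hN1 hb_lo
    exact_mod_cast this
  -- d
  set d : ℕ := dd κ n Δ with hd
  have hd_eq : (d : ℝ) = 4 * b + Δ + 20 := by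
    rw [hd]
    unfold dd
    push_cast
    ring
  have hd_hi : (d : ℝ) ≤ c₁ * N := by
    rw [hd_eq]
    exact WP_.aux1 hN1 hb_hi (Nat.cast_nonneg _) hc₁
  have hd0 : (0 : ℝ) ≤ d := Nat.cast_nonneg _
  -- a
  have ha_lo : 1 / κ ≤ a := Nat.le_ceil _
  have ha1 : 1 ≤ a := by
    have : (0 : ℝ) < a := lt_of_lt_of_le (by positivity) ha_lo
    exact_mod_cast this
  -- m ≤ b ^ a
  have hmn : m ≤ n := by
    refine Nat.ceil_le.2 ?_
    rw [div_le_iff₀ hp0]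
    have e1 : (n : ℝ) * (n : ℝ) ^ (-1 + δ) = (n : ℝ) ^ δ := by
      nth_rewrite 1 [← Real.rpow_one (n : ℝ)]
      rw [← Real.rpow_add hn0]
      congr 1
      ring
    have e2 : (n : ℝ) ^ κ ≤ (n : ℝ) ^ δ := Real.rpow_le_rpow_of_exponent_le hnR (by
      rw [hκdef]
      linarith)
    calc (n : ℝ) ^ κ ≤ (n : ℝ) ^ δ := e2
      _ = n * (n : ℝ) ^ (-1 + δ) := e1.symm
      _ ≤ n * p := mul_le_mul_of_nonneg_left hp hn0.le
  have hnb : n ≤ b ^ a := by
    have e1 : (n : ℝ) ≤ (b : ℝ) ^ a := by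
      calc (n : ℝ) = (n : ℝ) ^ (1 : ℝ) := (Real.rpow_one _).symm
        _ ≤ (n : ℝ) ^ (κ * a) := Real.rpow_le_rpow_of_exponent_le hnR (by
            rw [div_le_iff₀ hκ] at ha_lo
            linarith)
        _ = N ^ a := by rw [hN, Real.rpow_mul hn0.le, Real.rpow_natCast]
        _ ≤ (b : ℝ) ^ a := pow_le_pow_left₀ hN0.le hb_lo a
    rw [← Nat.cast_pow] at e1
    exact Nat.cast_le.1 e1
  have hNp' : N ≤ N / p := by
    rw [le_div_iff₀ hp0]
    exact mul_le_of_le_one_right hN0.le hp1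
  have hw4 : N ^ 4 / p ≤ w := by
    rw [div_le_iff₀ hp0]
    linarith
  have hmd : (m : ℝ) * d ≤ 2 * c₁ * (N ^ 2 / p) := by
    calc (m : ℝ) * d ≤ 2 * (N / p) * (c₁ * N) :=
          mul_le_mul hm_hi hd_hi hd0 (by positivity)
      _ = 2 * c₁ * (N ^ 2 / p) := by ring
  have hT1 : N / p ≤ N ^ 2 / p := div_le_div_of_nonneg_right hN2 hp0.le
  have hM₀N : M₀ * (N ^ 2 / p) ≤ w := by
    calc M₀ * (N ^ 2 / p) ≤ N ^ 2 * (N ^ 2 / p) :=
          mul_le_mul_of_nonneg_right hMN2 (by positivity)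
      _ = N ^ 4 / p := by ring
      _ ≤ w := hw4
  have hT0 : 0 < N ^ 2 / p := by positivity
  have hM₀g : 32 * (8 * (a : ℝ) + 6 * c₁ + ℓ) ≤ g * M₀ :=
    WP_.aux9 hg (by linarith) hM₀
  refine ⟨?_, ?_⟩
  · refine ⟨by positivity, by linarith, ?_, hm1, hb1, ha1, ?_, le_trans hmn hnb, hℓ, ?_⟩
    · exact h1 (Fin n) H η p K g W m hp0 hg hg1 hη hη2 hK0 hm1 hUU
        (h8K.trans (by rw [mul_assoc]; exact mul_le_mul_of_nonneg_left hpm hg.le))
        (h8K.trans (by rw [mul_assoc]; exact mul_le_mul_of_nonneg_left (by linarith) hg.le)) hDG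
    · rw [hd]
      unfold dd
      omega
    · have e1 : 2 * (a : ℝ) * ((m : ℝ) + b) ≤ 8 * a * (N ^ 2 / p) :=
        WP_.aux2 ha0 (by linarith)
      have e2 : 3 * (m : ℝ) * d ≤ 6 * c₁ * (N ^ 2 / p) := WP_.aux3 hmd
      have e3 : (ℓ : ℝ) ≤ ℓ * (N ^ 2 / p) := WP_.aux4 hℓ0 (by linarith)
      calc 8 * (2 * (a : ℝ) * ((m : ℝ) + b) + 3 * (m : ℝ) * d + ℓ)
          ≤ 8 * (8 * a * (N ^ 2 / p) + 6 * c₁ * (N ^ 2 / p) + ℓ * (N ^ 2 / p)) := by linarith
        _ = (32 * (8 * (a : ℝ) + 6 * c₁ + ℓ)) * (N ^ 2 / p) / 4 := by ring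
        _ ≤ (g * M₀) * (N ^ 2 / p) / 4 := by
            have := mul_le_mul_of_nonneg_right hM₀g hT0.le
            linarith
        _ = g / 4 * (M₀ * (N ^ 2 / p)) := by ring
        _ ≤ g / 4 * w := mul_le_mul_of_nonneg_left hM₀N (by positivity)
  · have h32 : 32 * c₁ + 1 ≤ M₀ := by
      have : 0 ≤ 32 * (8 * (a : ℝ) + 6 * c₁ + ℓ) / g := by positivity
      linarith
    refine h2 (Fin n) H η p K W d m hp0 hη (by linarith) hK0 hUU ?_ ?_ ?_
    · intro v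
      exact WP_.aux5 hg.le hp0.le (Nat.cast_nonneg _) (hDG v)
    · exact WP_.aux6 hmd hT0 h32 hM₀N
    · have e1 : 4 * K ≤ N / 4 := WP_.aux7 h8K hg1 hN0.le
      have e2 : 1 + (d : ℝ) ≤ 2 * c₁ * N := WP_.aux8 hd_hi hc₁28 hN1
      have e3 : 4 * K * (1 + d) ≤ N / 4 * (2 * c₁ * N) :=
        mul_le_mul e1 e2 (by positivity) (by positivity)
      have e4 : c₁ < N ^ 2 := by linarith
      have e5 : N / 4 * (2 * c₁ * N) < N ^ 4 := by
        have : N / 4 * (2 * c₁ * N) = N ^ 2 * (c₁ / 2) := by ring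
        rw [this]
        have : N ^ 4 = N ^ 2 * N ^ 2 := by ring
        rw [this]
        exact mul_lt_mul_of_pos_left (by linarith) (by positivity)
      linarith

end Pool.Agent.RST
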