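import Pool.Agent.RST.MAIN
import Pool.Agent.RST.CASEA
import Pool.Agent.RST.CASEB
import Pool.Agent.RST.CONN
import Pool.Agent.RST.GNP
import Pool.Agent.RST.GSUM
import Pool.Agent.RST.TPL
import Pool.Agent.RST.ABS
import Pool.Agent.RST.ALT
import Pool.Agent.RST.SABS
import Pool.Agent.RST.GAD
import Pool.Agent.RST.CHG
import Pool.Agent.RST.PHA
import Pool.Agent.RST.PHJ
import Pool.Agent.RST.FIN
import Pool.Agent.RST.LINK
import Pool.Agent.RST.DEC
import Pool.Agent.RST.CUT
import Pool.Agent.RST.REG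
import Pool.Agent.RST.PH1
import Pool.Agent.RST.P1
import Pool.Agent.RST.BULK
import Pool.Agent.RST.PM
import Pool.Agent.RST.WP
import Pool.Agent.RST.LG
import Pool.Agent.RST.INIT
import Pool.Agent.RST.MULTI
import Pool.Agent.RST.GROW
import Pool.Agent.RST.STEP
import Pool.Agent.RST.FREE
import Pool.Agent.RST.SHR
import Pool.Agent.RST.NUMA
import Pool.Agent.RST.NUMB
import Pool.Agent.RST.CTR
import Pool.Agent.RST.BARE
import Pool.Agent.RST.REL
import Pool.Agent.RST.RPART

/-!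
# RST: the main theorem
-/

set_option autoImplicit false

namespace Pool.Agent.RST

theorem aCONN : T_CONN := pCONN pSTEP pFREE pSHR (pGROW pSTEP)
theorem aMULTI : T_MULTI := pMULTI aCONN
theorem aWP : T_WP := pWP pLG pINIT
theorem aPH1 : T_PH1 := pPH1 pPM (pP1 aCONN pSTEP pFREE) pBULK
theorem aDEC : T_DEC := pDEC (pCUT pREG)
theorem aGNP : T_GNP := pGNP pGSUM
theorem aTPL : T_TPL := pTPL aGNP pRPART pPM
theorem aABS : T_ABS := pABS (pCHG pFREE (pGAD (pSABS pSTEP aCONN pALT) aCONN))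
theorem aLINK : T_LINK := pLINK aABS (pPHJ (pPHA pPM aMULTI)) (pFIN aMULTI)
theorem aCASEA : T_CASEA := pCASEA pRPART aWP aPH1 pPM aDEC pNUMA
theorem aCASEB : T_CASEB := pCASEB pRPART aWP aPH1 aDEC pBARE pCTR aTPL aLINK pNUMB
theorem main_theorem : T_MAIN := pMAIN aGNP pREL aCASEA aCASEB

end Pool.Agent.RST
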